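import Pool.Agent.Helper41.DragonDefs

set_option autoImplicit false
open Filter Topology

namespace Pool.Agent.Helper41.Dragon

/-! ### Golden ratio -/

/-- The golden ratio. -/
noncomputable def ph : ℝ := Real.goldenRatio

/-- Its conjugate. -/
noncomputable def ph' : ℝ := Real.goldenConj

lemma ph_sq : ph * ph = ph + 1 := by
  have := Real.goldenRatio_sq
  unfold ph
  nlinarith

lemma ph'_eq : ph' = 1 - ph := by
  unfold ph ph'
  linarith [Real.goldenRatio_add_goldenConj]

lemma ph_lb : 1.618 < ph := by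
  have h := ph_sq
  have h1 : 1 < ph := Real.one_lt_goldenRatio
  by_contra hc
  push Not at hc
  nlinarith

lemma ph_ub : ph < 1.6181 := by
  have h := ph_sq
  have h1 : 1 < ph := Real.one_lt_goldenRatio
  by_contra hc
  push Not at hc
  nlinarith

lemma ph_pos : 0 < ph := by linarith [ph_lb]

lemma ph'_abs : |ph'| ≤ 0.6181 := by
  rw [ph'_eq, abs_le]
  constructor <;> linarith [ph_lb, ph_ub]

/-- The angle `π / 5`. -/
noncomputable def al : ℝ := Real.pi / 5

lemma two_cos_al : 2 * Real.cos al = ph := by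
  unfold al ph
  rw [Real.cos_pi_div_five, Real.goldenRatio]
  ring

/-! ### Integer angles -/

/-- The integer multiples: `ang al k n = al * angZ k n`. -/
def angZ : ℕ → ℕ → ℤ
  | 0, _ => 0
  | k + 1, n =>
    if n / 2 % 2 = 0 then (if n % 2 = 0 then angZ k (n / 2) + 1 else angZ k (n / 2) - 1)
    else (if n % 2 = 0 then angZ k (n / 2) - 1 else angZ k (n / 2) + 1)

lemma ang_eq (k n : ℕ) : ang al k n = al * angZ k n := by
  induction k generalizing n with
  | zero => simp [ang, angZ]
  | succ k ih =>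
    have h : ang al (k + 1) n = psi al (ang al k) n := by
      unfold ang
      rw [Function.iterate_succ_apply']
    rw [h]
    simp only [psi, angZ, ih]
    split_ifs <;> push_cast <;> ring

/-! ### The lattice `ℤ[φ]` -/

/-- Multiplication by the golden ratio. -/
def M (u : ℤ × ℤ) : ℤ × ℤ := (u.2, u.1 + u.2)

/-- The real value. -/
noncomputable def val (u : ℤ × ℤ) : ℝ := u.1 + u.2 * ph

/-- The conjugate value. -/
noncomputable def val' (u : ℤ × ℤ) : ℝ := u.1 + u.2 * ph'

lemma val_M (u : ℤ × ℤ) : val (M u) = ph * val u := by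
  simp only [val, M]
  push_cast
  linear_combination (-(u.2 : ℝ)) * ph_sq

lemma val'_M (u : ℤ × ℤ) : val' (M u) = ph' * val' u := by
  simp only [val', M]
  push_cast
  have h : ph' * ph' = ph' + 1 := by
    rw [ph'_eq]
    linear_combination ph_sq
  linear_combination (-(u.2 : ℝ)) * h

lemma val_add (u v : ℤ × ℤ) : val (u + v) = val u + val v := by
  simp only [val, Prod.fst_add, Prod.snd_add]
  push_cast
  ring

lemma val'_add (u v : ℤ × ℤ) : val' (u + v) = val' u + val' v := by
  simp only [val', Prod.fst_add, Prod.snd_add]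
  push_cast
  ring

lemma val_neg (u : ℤ × ℤ) : val (-u) = - val u := by
  simp only [val, Prod.fst_neg, Prod.snd_neg]
  push_cast
  ring

/-! ### The data of a coordinate projection -/

/-- `g` is `cos` or `sin`, `C` the table of values of `g` at multiples of `π / 5`, `κ` a scale. -/
structure Coord where
  g : ℝ → ℝ
  κ : ℝ
  C : ZMod 10 → ℤ × ℤ
  hκ : 1 / 2 ≤ κ
  hg1 : ∀ a, |g a| ≤ 1
  hgm : Measurable g
  hsum : ∀ a, g (a + al) + g (a - al) = ph * g a
  hval : ∀ B : ℤ, g (al * B) = κ * val (C (B : ZMod 10))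
  hC' : ∀ j, |val' (C j)| ≤ 2
  hC5 : ∀ j, C (j + 5) = - C j

variable (c : Coord)

/-- Partial sums. -/
noncomputable def Sm (k i : ℕ) : ℝ := ∑ j ∈ Finset.range i, incr c.g al k j

lemma incr_eq (k i : ℕ) : incr c.g al k i = c.g (ang al k i) / ph ^ k := by
  unfold incr
  rw [two_cos_al]

lemma Sm_succ (k i : ℕ) : Sm c k (i + 1) = Sm c k i + incr c.g al k i := by
  unfold Sm
  rw [Finset.sum_range_succ]

lemma ang_succ (k n : ℕ) : ang al (k + 1) n = psi al (ang al k) n := by
  unfold ang
  rw [Function.iterate_succ_apply']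

lemma pair_sum (k i : ℕ) :
    incr c.g al (k + 1) (2 * i) + incr c.g al (k + 1) (2 * i + 1) = incr c.g al k i := by
  have hp : ph ≠ 0 := ph_pos.ne'
  rw [incr_eq, incr_eq, incr_eq, ang_succ, ang_succ]
  have h1 : 2 * i / 2 = i := by omega
  have h2 : (2 * i + 1) / 2 = i := by omega
  have h3 : 2 * i % 2 = 0 := by omega
  have h4 : ¬ ((2 * i + 1) % 2 = 0) := by omega
  have key : c.g (psi al (ang al k) (2 * i)) + c.g (psi al (ang al k) (2 * i + 1))
      = ph * c.g (ang al k i) := by
    simp only [psi, h1, h2, h3, h4, if_true, if_false]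
    split_ifs
    · exact c.hsum _
    · rw [add_comm]; exact c.hsum _
  rw [← add_div, key, pow_succ]
  field_simp

lemma Sm_double (k i : ℕ) : Sm c (k + 1) (2 * i) = Sm c k i := by
  induction i with
  | zero => simp [Sm]
  | succ i ih =>
    have : 2 * (i + 1) = (2 * i + 1) + 1 := by ring
    rw [this, Sm_succ, Sm_succ, Sm_succ, ih, add_assoc, pair_sum]

/-! ### Classes of dyadic intervals -/

/-- One refinement step. -/
def stp (C : ZMod 10 → ℤ × ℤ) (s : (ℤ × ℤ) × ZMod 10) (d : Bool) : (ℤ × ℤ) × ZMod 10 :=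
  if d then (M (s.1 + C s.2), s.2 + 4) else (M s.1, s.2 + 1)

/-- The class of the `n`-th dyadic interval of level `k`. -/
def cls (C : ZMod 10 → ℤ × ℤ) : ℕ → ℕ → (ℤ × ℤ) × ZMod 10
  | 0, _ => ((0, 0), 0)
  | k + 1, n => stp C (cls C k (n / 2)) (decide ((n / 2 + n) % 2 = 1))

/-- The position of the anchor end point. -/
lemma anchor (k : ℕ) : ∀ i : ℕ, i < 2 ^ k →
    (i % 2 = 0 → Sm c k i = c.κ * val (cls c.C k i).1 / ph ^ k ∧
      ((angZ k i : ℤ) : ZMod 10) = (cls c.C k i).2) ∧
    (i % 2 = 1 → Sm c k (i + 1) = c.κ * val (cls c.C k i).1 / ph ^ k ∧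
      ((angZ k i : ℤ) : ZMod 10) = (cls c.C k i).2 + 5) := by
  have hp : ph ≠ 0 := ph_pos.ne'
  induction k with
  | zero =>
    intro i hi
    have hi0 : i = 0 := by simpa using hi
    subst hi0
    refine ⟨fun _ => ⟨?_, ?_⟩, fun h => by omega⟩
    · simp [Sm, cls, val]
    · simp [angZ, cls]
  | succ k ih =>
    intro n hn
    set i := n / 2 with hi
    have hik : i < 2 ^ k := by
      rw [pow_succ] at hn
      omega
    obtain ⟨ihe, iho⟩ := ih i hik
    have hincr : incr c.g al k i = c.κ * val (c.C ((angZ k i : ℤ) : ZMod 10)) / ph ^ k := by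
      rw [incr_eq, ang_eq, c.hval]
    have hcls : cls c.C (k + 1) n = stp c.C (cls c.C k i) (decide ((i + n) % 2 = 1)) := rfl
    rcases Nat.mod_two_eq_zero_or_one i with h0 | h0
    · obtain ⟨hS, hA⟩ := ihe h0
      rcases Nat.mod_two_eq_zero_or_one n with h1 | h1
      · have hd : decide ((i + n) % 2 = 1) = false := by
          rw [decide_eq_false_iff_not]; omega
        refine ⟨fun _ => ⟨?_, ?_⟩, fun h => by omega⟩
        · have hn2 : n = 2 * i := by omega
          rw [hcls, hd]
          simp only [stp, Bool.false_eq_true, if_false]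
          rw [hn2, Sm_double, hS, val_M, pow_succ]
          field_simp
        · rw [hcls, hd]
          simp only [stp, Bool.false_eq_true, if_false, angZ, ← hi, h0, h1, if_true]
          push_cast
          rw [hA]
      · have hd : decide ((i + n) % 2 = 1) = true := by
          rw [decide_eq_true_iff]; omega
        refine ⟨fun h => by omega, fun _ => ⟨?_, ?_⟩⟩
        · have hn2 : n + 1 = 2 * (i + 1) := by omega
          rw [hcls, hd]
          simp only [stp, if_true]
          rw [hn2, Sm_double, Sm_succ, hincr, hS, hA, val_M, val_add, pow_succ]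
          field_simp
        · rw [hcls, hd]
          have h1' : ¬ (n % 2 = 0) := by omega
          simp only [stp, angZ, ← hi, h0, h1', if_true, if_false]
          push_cast
          rw [hA]
          have : (10 : ZMod 10) = 0 := by decide
          linear_combination -this
    · obtain ⟨hS, hA⟩ := iho h0
      have h0' : ¬ (i % 2 = 0) := by omega
      have hSi : Sm c k i = c.κ * (val (cls c.C k i).1 + val (c.C (cls c.C k i).2)) / ph ^ k := by
        have := Sm_succ c k i
        rw [hincr, hA, c.hC5, val_neg, hS] at this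
        have h2 : Sm c k i = c.κ * val (cls c.C k i).1 / ph ^ k
            - c.κ * -val (c.C (cls c.C k i).2) / ph ^ k := by linarith
        rw [h2]
        ring
      rcases Nat.mod_two_eq_zero_or_one n with h1 | h1
      · have hd : decide ((i + n) % 2 = 1) = true := by
          rw [decide_eq_true_iff]; omega
        refine ⟨fun _ => ⟨?_, ?_⟩, fun h => by omega⟩
        · have hn2 : n = 2 * i := by omega
          rw [hcls, hd]
          simp only [stp, if_true]
          rw [hn2, Sm_double, hSi, val_M, val_add, pow_succ]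
          field_simp
        · rw [hcls, hd]
          simp only [stp, angZ, ← hi, h0', h1, if_true, if_false]
          push_cast
          rw [hA]
          ring
      · have hd : decide ((i + n) % 2 = 1) = false := by
          rw [decide_eq_false_iff_not]; omega
        refine ⟨fun h => by omega, fun _ => ⟨?_, ?_⟩⟩
        · have hn2 : n + 1 = 2 * (i + 1) := by omega
          rw [hcls, hd]
          simp only [stp, Bool.false_eq_true, if_false]
          rw [hn2, Sm_double, hS, val_M, pow_succ]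
          field_simp
        · rw [hcls, hd]
          have h1' : ¬ (n % 2 = 0) := by omega
          simp only [stp, Bool.false_eq_true, angZ, ← hi, h0', h1', if_false]
          push_cast
          rw [hA]
          ring

/-! ### The limit function -/

lemma incr_abs (k i : ℕ) : |incr c.g al k i| ≤ 1 / ph ^ k := by
  have hp : 0 < ph ^ k := pow_pos ph_pos k
  rw [incr_eq, abs_div, abs_of_pos hp]
  exact div_le_div_of_nonneg_right (c.hg1 _) hp.le

lemma stage_near (k : ℕ) {t : ℝ} (ht : 0 ≤ t) :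
    |stage c.g al k t - Sm c k ⌊2 ^ k * t⌋₊| ≤ 1 / ph ^ k := by
  have h0 : (0:ℝ) ≤ 2 ^ k * t := by positivity
  have h1 := Nat.floor_le h0
  have h2 := Nat.lt_floor_add_one (2 ^ k * t)
  have e : stage c.g al k t - Sm c k ⌊2 ^ k * t⌋₊
      = (2 ^ k * t - ⌊2 ^ k * t⌋₊) * incr c.g al k ⌊2 ^ k * t⌋₊ := by
    unfold stage Sm
    ring
  rw [e, abs_mul]
  have h3 : |2 ^ k * t - ⌊2 ^ k * t⌋₊| ≤ 1 := by
    rw [abs_le]
    constructor <;> linarith
  calc |2 ^ k * t - ⌊2 ^ k * t⌋₊| * |incr c.g al k ⌊2 ^ k * t⌋₊|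
      ≤ 1 * (1 / ph ^ k) := by
        apply mul_le_mul h3 (incr_abs c k _) (abs_nonneg _) zero_le_one
    _ = 1 / ph ^ k := one_mul _

lemma floor_half (k : ℕ) (t : ℝ) : ⌊2 ^ (k + 1) * t⌋₊ / 2 = ⌊2 ^ k * t⌋₊ := by
  have h : (2:ℝ) ^ k * t = (2 ^ (k + 1) * t) / (2 : ℕ) := by
    rw [pow_succ]; push_cast; ring
  rw [h, Nat.floor_div_natCast]

lemma stage_succ_near (k : ℕ) {t : ℝ} (ht : 0 ≤ t) :
    |stage c.g al (k + 1) t - Sm c k ⌊2 ^ k * t⌋₊| ≤ 2 / ph ^ k := by
  have hp : 0 < ph ^ k := pow_pos ph_pos k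
  have hle : 1 / ph ^ (k + 1) ≤ 1 / ph ^ k := by
    apply one_div_le_one_div_of_le hp
    rw [pow_succ]
    nlinarith [ph_lb]
  have h1 := stage_near c (k + 1) ht
  have h2 : |Sm c (k + 1) ⌊2 ^ (k + 1) * t⌋₊ - Sm c k ⌊2 ^ k * t⌋₊| ≤ 1 / ph ^ (k + 1) := by
    rw [← floor_half k t]
    set n := ⌊2 ^ (k + 1) * t⌋₊ with hn
    rcases Nat.mod_two_eq_zero_or_one n with h | h
    · have : n = 2 * (n / 2) := by omega
      conv_lhs => rw [this]
      rw [Sm_double]
      have e : 2 * (n / 2) / 2 = n / 2 := by omega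
      rw [e, sub_self, abs_zero]
      exact (one_div_pos.mpr (pow_pos ph_pos _)).le
    · have : n = 2 * (n / 2) + 1 := by omega
      have h3 : Sm c (k + 1) n = Sm c k (n / 2) + incr c.g al (k + 1) (2 * (n / 2)) := by
        conv_lhs => rw [this]
        rw [Sm_succ, Sm_double]
      rw [h3, add_sub_cancel_left]
      exact incr_abs c _ _
  calc |stage c.g al (k + 1) t - Sm c k ⌊2 ^ k * t⌋₊|
      ≤ |stage c.g al (k + 1) t - Sm c (k + 1) ⌊2 ^ (k + 1) * t⌋₊|
        + |Sm c (k + 1) ⌊2 ^ (k + 1) * t⌋₊ - Sm c k ⌊2 ^ k * t⌋₊| := abs_sub_le _ _ _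
    _ ≤ 1 / ph ^ (k + 1) + 1 / ph ^ (k + 1) := add_le_add h1 h2
    _ ≤ 1 / ph ^ k + 1 / ph ^ k := add_le_add hle hle
    _ = 2 / ph ^ k := by ring

lemma stage_dist (k : ℕ) {t : ℝ} (ht : 0 ≤ t) :
    dist (stage c.g al k t) (stage c.g al (k + 1) t) ≤ 3 * (1 / ph) ^ k := by
  rw [Real.dist_eq]
  have h1 := stage_near c k ht
  have h2 := stage_succ_near c k ht
  have h3 : (1 / ph) ^ k = 1 / ph ^ k := by rw [div_pow, one_pow]
  rw [h3]
  calc |stage c.g al k t - stage c.g al (k + 1) t|
      ≤ |stage c.g al k t - Sm c k ⌊2 ^ k * t⌋₊|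
        + |Sm c k ⌊2 ^ k * t⌋₊ - stage c.g al (k + 1) t| := abs_sub_le _ _ _
    _ ≤ 1 / ph ^ k + 2 / ph ^ k := by
        rw [abs_sub_comm (Sm c k _)]
        exact add_le_add h1 h2
    _ = 3 * (1 / ph ^ k) := by ring

lemma inv_ph_lt : 1 / ph < 1 := by
  rw [div_lt_one ph_pos]
  linarith [ph_lb]

/-- The limit coordinate function. -/
noncomputable def lim (t : ℝ) : ℝ := limUnder atTop (fun k => stage c.g al k |t|)

lemma tendsto_lim (t : ℝ) : Tendsto (fun k => stage c.g al k |t|) atTop (𝓝 (lim c t)) := by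
  have h : CauchySeq (fun k => stage c.g al k |t|) :=
    cauchySeq_of_le_geometric (1 / ph) 3 inv_ph_lt (fun k => stage_dist c k (abs_nonneg t))
  exact h.tendsto_limUnder

lemma dist_lim (k : ℕ) {t : ℝ} (ht : 0 ≤ t) :
    dist (stage c.g al k t) (lim c t) ≤ 8 / ph ^ k := by
  have h := dist_le_of_le_geometric_of_tendsto (1 / ph) 3 inv_ph_lt
    (fun k => stage_dist c k (abs_nonneg t)) (tendsto_lim c t) k
  rw [abs_of_nonneg ht] at h
  refine h.trans ?_
  have hp : 0 < ph ^ k := pow_pos ph_pos k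
  have h3 : (1 / ph) ^ k = 1 / ph ^ k := by rw [div_pow, one_pow]
  rw [h3]
  have h4 : 0 < 1 - 1 / ph := by linarith [inv_ph_lt]
  rw [div_le_div_iff₀ h4 hp]
  have h5 : 3 * (1 / ph ^ k) * ph ^ k = 3 := by field_simp
  rw [h5]
  have h6 : 1 / ph ≤ 0.6181 := by
    rw [div_le_iff₀ ph_pos]
    nlinarith [ph_lb]
  linarith

lemma tendstoUniformly_lim :
    TendstoUniformlyOn (fun k => stage c.g al k) (lim c) atTop (Set.Icc 0 1) := by
  rw [Metric.tendstoUniformlyOn_iff]
  intro ε hε
  have h : Tendsto (fun k : ℕ => 8 * (1 / ph) ^ k) atTop (𝓝 (8 * 0)) :=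
    (tendsto_pow_atTop_nhds_zero_of_lt_one (by have := ph_pos; positivity) inv_ph_lt).const_mul 8
  rw [mul_zero] at h
  filter_upwards [h.eventually (gt_mem_nhds hε)] with k hk t ht
  rw [dist_comm]
  refine lt_of_le_of_lt (dist_lim c k ht.1) ?_
  have h3 : (1 / ph) ^ k = 1 / ph ^ k := by rw [div_pow, one_pow]
  rw [h3] at hk
  calc 8 / ph ^ k = 8 * (1 / ph ^ k) := by ring
    _ < ε := hk

lemma measurable_stage (k : ℕ) : Measurable (stage c.g al k) := by
  unfold stage
  have h1 : Measurable (fun t : ℝ => ⌊2 ^ k * t⌋₊) :=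
    Nat.measurable_floor.comp (measurable_const.mul measurable_id)
  have h2 : Measurable (fun t : ℝ => ∑ i ∈ Finset.range ⌊2 ^ k * t⌋₊, incr c.g al k i) :=
    (measurable_from_nat (f := fun n => ∑ i ∈ Finset.range n, incr c.g al k i)).comp h1
  have h3 : Measurable (fun t : ℝ => incr c.g al k ⌊2 ^ k * t⌋₊) :=
    (measurable_from_nat (f := fun n => incr c.g al k n)).comp h1
  have h4 : Measurable (fun t : ℝ => (⌊2 ^ k * t⌋₊ : ℝ)) :=
    (measurable_from_nat (f := fun n : ℕ => (n : ℝ))).comp h1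
  exact h2.add (((measurable_const.mul measurable_id).sub h4).mul h3)

lemma measurable_lim : Measurable (lim c) :=
  measurable_of_tendsto_metrizable (f := fun k t => stage c.g al k |t|)
    (fun k => (measurable_stage c k).comp measurable_norm)
    (tendsto_pi_nhds.mpr (fun t => tendsto_lim c t))

/-- The location of the values of the limit on a dyadic interval. -/
lemma loc (k : ℕ) {t : ℝ} (ht : 0 ≤ t) (ht1 : t < 1) :
    |lim c t - c.κ * val (cls c.C k ⌊2 ^ k * t⌋₊).1 / ph ^ k| ≤ 10 / ph ^ k := by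
  set i := ⌊2 ^ k * t⌋₊ with hi
  have hik : i < 2 ^ k := by
    have h0 : (0:ℝ) ≤ 2 ^ k * t := by positivity
    have h1 := Nat.floor_le h0
    have h2 : (i : ℝ) < 2 ^ k := by
      refine lt_of_le_of_lt h1 ?_
      have : (0:ℝ) < 2 ^ k := by positivity
      nlinarith
    exact_mod_cast h2
  have h1 := dist_lim c k ht
  have h2 := stage_near c k ht
  rw [← hi] at h2
  rw [Real.dist_eq] at h1
  have h3 : |Sm c k i - c.κ * val (cls c.C k i).1 / ph ^ k| ≤ 1 / ph ^ k := by
    obtain ⟨he, ho⟩ := anchor c k i hik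
    rcases Nat.mod_two_eq_zero_or_one i with h | h
    · rw [(he h).1, sub_self, abs_zero]
      have := pow_pos ph_pos k
      positivity
    · rw [← (ho h).1, Sm_succ, sub_add_cancel_left, abs_neg]
      exact incr_abs c k i
  have h4 : lim c t - c.κ * val (cls c.C k i).1 / ph ^ k
      = -(stage c.g al k t - lim c t) + (stage c.g al k t - Sm c k i)
        + (Sm c k i - c.κ * val (cls c.C k i).1 / ph ^ k) := by ring
  rw [h4]
  calc |-(stage c.g al k t - lim c t) + (stage c.g al k t - Sm c k i)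
        + (Sm c k i - c.κ * val (cls c.C k i).1 / ph ^ k)|
      ≤ |-(stage c.g al k t - lim c t)| + |stage c.g al k t - Sm c k i|
        + |Sm c k i - c.κ * val (cls c.C k i).1 / ph ^ k| := abs_add_three _ _ _
    _ ≤ 8 / ph ^ k + 1 / ph ^ k + 1 / ph ^ k := by
        rw [abs_neg]
        exact add_le_add (add_le_add h1 h2) h3
    _ = 10 / ph ^ k := by ring

/-! ### The two coordinates -/

lemma val_sub (u v : ℤ × ℤ) : val (u - v) = val u - val v := by
  simp only [val, Prod.fst_sub, Prod.snd_sub]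
  push_cast
  ring

lemma table (g : ℝ → ℝ) (κ : ℝ) (C : ZMod 10 → ℤ × ℤ)
    (hper : ∀ a (n : ℤ), g (a + n * (2 * Real.pi)) = g a)
    (hsum : ∀ a, g (a + al) + g (a - al) = ph * g a)
    (h0 : g 0 = κ * val (C 0)) (h1 : g al = κ * val (C 1))
    (hrec : ∀ j : ZMod 10, C (j + 2) = M (C (j + 1)) - C j) (B : ℤ) :
    g (al * B) = κ * val (C (B : ZMod 10)) := by
  have hn : ∀ n : ℕ, g (al * n) = κ * val (C (n : ZMod 10)) ∧
      g (al * (n + 1)) = κ * val (C ((n : ZMod 10) + 1)) := by
    intro n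
    induction n with
    | zero =>
      refine ⟨?_, ?_⟩
      · simpa using h0
      · simpa using h1
    | succ n ih =>
      obtain ⟨ih0, ih1⟩ := ih
      refine ⟨by push_cast; exact ih1, ?_⟩
      have h := hsum (al * (n + 1))
      have e1 : al * ((n:ℝ) + 1) + al = al * (((n + 1 : ℕ) : ℝ) + 1) := by push_cast; ring
      have e2 : al * ((n:ℝ) + 1) - al = al * n := by ring
      rw [e1, e2, ih0, ih1] at h
      have e3 : (((n + 1 : ℕ) : ZMod 10) + 1) = (n : ZMod 10) + 2 := by push_cast; ring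
      rw [e3, hrec, val_sub, val_M]
      linarith
  have hB : B = (B % 10) + 10 * (B / 10) := (Int.emod_add_mul_ediv B 10).symm
  obtain ⟨n, hn'⟩ : ∃ n : ℕ, B % 10 = n := ⟨(B % 10).toNat, by omega⟩
  have e1 : al * (B : ℝ) = al * n + ((B / 10 : ℤ) : ℝ) * (2 * Real.pi) := by
    have : (B : ℝ) = n + 10 * ((B / 10 : ℤ) : ℝ) := by
      have h2 : B = (n : ℤ) + 10 * (B / 10) := by omega
      exact_mod_cast congrArg (Int.cast : ℤ → ℝ) h2
    rw [this]
    unfold al
    ring
  have e2 : (B : ZMod 10) = (n : ZMod 10) := by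
    have h2 : B = (n : ℤ) + 10 * (B / 10) := by omega
    rw [h2]
    push_cast
    have : (10 : ZMod 10) = 0 := by decide
    rw [this]
    ring
  rw [e1, hper, e2]
  exact (hn n).1

/-- Twice the cosines of the multiples of `π / 5`. -/
def Ccos : ZMod 10 → ℤ × ℤ :=
  ![(2, 0), (0, 1), (-1, 1), (1, -1), (0, -1), (-2, 0), (0, -1), (1, -1), (-1, 1), (0, 1)]

/-- The sines of the multiples of `π / 5`, divided by `sin (π / 5)`. -/
def Csin : ZMod 10 → ℤ × ℤ :=
  ![(0, 0), (1, 0), (0, 1), (0, 1), (1, 0), (0, 0), (-1, 0), (0, -1), (0, -1), (-1, 0)]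

lemma ph'_bounds : -0.6181 ≤ ph' ∧ ph' ≤ -0.618 := by
  rw [ph'_eq]
  constructor <;> linarith [ph_lb, ph_ub]

/-- The horizontal coordinate. -/
noncomputable def cosCoord : Coord where
  g := Real.cos
  κ := 1 / 2
  C := Ccos
  hκ := le_rfl
  hg1 := Real.abs_cos_le_one
  hgm := Real.measurable_cos
  hsum := fun a => by
    rw [Real.cos_add, Real.cos_sub, ← two_cos_al]
    ring
  hval := table Real.cos (1 / 2) Ccos (fun a n => Real.cos_add_int_mul_two_pi a n)
    (fun a => by
      rw [Real.cos_add, Real.cos_sub, ← two_cos_al]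
      ring)
    (by
      have : Ccos 0 = (2, 0) := by decide
      rw [this, Real.cos_zero]
      simp [val])
    (by
      have : Ccos 1 = (0, 1) := by decide
      rw [this]
      simp only [val]
      push_cast
      linarith [two_cos_al])
    (by decide)
  hC' := by
    intro j
    obtain ⟨h1, h2⟩ := ph'_bounds
    fin_cases j <;> simp only [Ccos, val'] <;> rw [abs_le] <;> constructor <;>
      simp <;> linarith
  hC5 := by decide

/-- The vertical coordinate. -/
noncomputable def sinCoord : Coord where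
  g := Real.sin
  κ := Real.sin al
  C := Csin
  hκ := by
    have h1 : Real.sin (Real.pi / 6) ≤ Real.sin (Real.pi / 5) := by
      apply Real.sin_le_sin_of_le_of_le_pi_div_two <;> linarith [Real.pi_pos]
    rw [Real.sin_pi_div_six] at h1
    exact h1
  hg1 := Real.abs_sin_le_one
  hgm := Real.measurable_sin
  hsum := fun a => by
    rw [Real.sin_add, Real.sin_sub, ← two_cos_al]
    ring
  hval := table Real.sin (Real.sin al) Csin (fun a n => Real.sin_add_int_mul_two_pi a n)
    (fun a => by
      rw [Real.sin_add, Real.sin_sub, ← two_cos_al]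
      ring)
    (by
      have : Csin 0 = (0, 0) := by decide
      rw [this, Real.sin_zero]
      simp [val])
    (by
      have : Csin 1 = (1, 0) := by decide
      rw [this]
      simp [val])
    (by decide)
  hC' := by
    intro j
    obtain ⟨h1, h2⟩ := ph'_bounds
    fin_cases j <;> simp only [Csin, val'] <;> rw [abs_le] <;> constructor <;>
      simp <;> linarith
  hC5 := by decide

end Pool.Agent.Helper41.Dragon
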