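import Pool.Agent.Helper41.DragonA

set_option autoImplicit false
open Filter Topology

namespace Pool.Agent.Helper41.Dragon

/-! ### Conjugate bound and lattice count -/

lemma val'_cls (c : Coord) (k n : ℕ) : |val' (cls c.C k n).1| ≤ 4 := by
  induction k generalizing n with
  | zero => simp [cls, val']
  | succ k ih =>
    have h1 := ih (n / 2)
    have h2 := c.hC' (cls c.C k (n / 2)).2
    have h3 := ph'_abs
    have hcls : cls c.C (k + 1) n
        = stp c.C (cls c.C k (n / 2)) (decide ((n / 2 + n) % 2 = 1)) := rfl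
    rw [hcls]
    unfold stp
    split_ifs
    · simp only [val'_M, val'_add]
      rw [abs_mul]
      have h4 : |val' (cls c.C k (n / 2)).1 + val' (c.C (cls c.C k (n / 2)).2)| ≤ 6 :=
        (abs_add_le _ _).trans (by linarith)
      have h5 := abs_nonneg (val' (cls c.C k (n / 2)).1 + val' (c.C (cls c.C k (n / 2)).2))
      nlinarith [abs_nonneg ph']
    · simp only [val'_M]
      rw [abs_mul]
      nlinarith [abs_nonneg ph', abs_nonneg (val' (cls c.C k (n / 2)).1)]

lemma lattice_close {u v : ℤ × ℤ} (h : |val u - val v| ≤ 170) (hu : |val' u| ≤ 4)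
    (hv : |val' v| ≤ 4) : |u.1 - v.1| ≤ 300 ∧ |u.2 - v.2| ≤ 300 := by
  have h1 := abs_le.mp h
  have h2 := abs_le.mp hu
  have h3 := abs_le.mp hv
  simp only [val, val', ph'_eq] at h1 h2 h3
  have hl := ph_lb
  have hub := ph_ub
  set x : ℝ := (u.1 : ℝ) - v.1 with hx
  set y : ℝ := (u.2 : ℝ) - v.2 with hy
  have e1 : -170 ≤ x + y * ph ∧ x + y * ph ≤ 170 := by
    constructor <;> nlinarith [h1.1, h1.2]
  have e2 : -8 ≤ x + y * (1 - ph) ∧ x + y * (1 - ph) ≤ 8 := by
    constructor <;> nlinarith [h2.1, h2.2, h3.1, h3.2]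
  have e3 : -178 ≤ y * (2 * ph - 1) ∧ y * (2 * ph - 1) ≤ 178 := by
    constructor <;> nlinarith [e1.1, e1.2, e2.1, e2.2]
  have hy1 : -80 ≤ y := by
    by_contra hc
    push Not at hc
    nlinarith [e3.1]
  have hy2 : y ≤ 80 := by
    by_contra hc
    push Not at hc
    nlinarith [e3.2]
  have hx1 : -300 ≤ x := by nlinarith [e1.1]
  have hx2 : x ≤ 300 := by nlinarith [e1.2]
  constructor
  · have : |((u.1 - v.1 : ℤ) : ℝ)| ≤ 300 := by
      push_cast
      exact abs_le.mpr ⟨hx1, hx2⟩
    exact_mod_cast this
  · have : |((u.2 - v.2 : ℤ) : ℝ)| ≤ 300 := by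
      push_cast
      exact abs_le.mpr ⟨by linarith, by linarith⟩
    exact_mod_cast this

/-- The bound for the number of classes. -/
def KK : ℕ := 601 * 601 * 10

lemma card_classes (c : Coord) (l : ℕ) (W : Finset ℕ)
    (h : ∀ i ∈ W, ∀ j ∈ W, |val (cls c.C l i).1 - val (cls c.C l j).1| ≤ 170) :
    (W.image (cls c.C l)).card ≤ KK := by
  classical
  rcases W.eq_empty_or_nonempty with hW | ⟨j, hj⟩
  · simp [hW]
  set a := (cls c.C l j).1.1 with ha
  set b := (cls c.C l j).1.2 with hb
  have hsub : W.image (cls c.C l) ⊆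
      (Finset.Icc (a - 300) (a + 300) ×ˢ Finset.Icc (b - 300) (b + 300)) ×ˢ
        (Finset.univ : Finset (ZMod 10)) := by
    intro x hx
    obtain ⟨i, hi, rfl⟩ := Finset.mem_image.mp hx
    obtain ⟨h1, h2⟩ := lattice_close (h i hi j hj) (val'_cls c l i) (val'_cls c l j)
    have h1' := abs_le.mp h1
    have h2' := abs_le.mp h2
    simp only [Finset.mem_product, Finset.mem_Icc, Finset.mem_univ, and_true]
    refine ⟨⟨?_, ?_⟩, ⟨?_, ?_⟩⟩ <;> omega
  refine (Finset.card_le_card hsub).trans ?_
  rw [Finset.card_product, Finset.card_product, Int.card_Icc, Int.card_Icc, Finset.card_univ,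
    ZMod.card]
  have e1 : (a + 300 + 1 - (a - 300)).toNat = 601 := by
    have : a + 300 + 1 - (a - 300) = 601 := by ring
    rw [this]; rfl
  have e2 : (b + 300 + 1 - (b - 300)).toNat = 601 := by
    have : b + 300 + 1 - (b - 300) = 601 := by ring
    rw [this]; rfl
  rw [e1, e2]
  exact le_rfl

/-! ### Descending by words -/

/-- The child of the interval `i` with relative digit `d`. -/
def child (i : ℕ) (d : Bool) : ℕ := 2 * i + (i + d.toNat) % 2

lemma child_div (i : ℕ) (d : Bool) : child i d / 2 = i := by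
  unfold child
  omega

lemma child_inj {i j : ℕ} {d e : Bool} (h : child i d = child j e) : i = j ∧ d = e := by
  have hij : i = j := by rw [← child_div i d, h, child_div]
  refine ⟨hij, ?_⟩
  subst hij
  unfold child at h
  cases d <;> cases e <;> simp only [Bool.toNat_true, Bool.toNat_false] at h <;>
    first | rfl | omega

lemma cls_child (C : ZMod 10 → ℤ × ℤ) (k i : ℕ) (d : Bool) :
    cls C (k + 1) (child i d) = stp C (cls C k i) d := by
  have h1 : cls C (k + 1) (child i d)
      = stp C (cls C k (child i d / 2)) (decide ((child i d / 2 + child i d) % 2 = 1)) := rfl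
  rw [h1, child_div]
  congr 1
  unfold child
  cases d
  · simp only [Bool.toNat_false, decide_eq_false_iff_not]; omega
  · simp only [Bool.toNat_true, decide_eq_true_eq]; omega

/-- Descend along a word. -/
def desc (i : ℕ) (w : List Bool) : ℕ := w.foldl child i

lemma desc_div (w : List Bool) : ∀ i, desc i w / 2 ^ w.length = i := by
  induction w using List.reverseRecOn with
  | nil => intro i; simp [desc]
  | append_singleton w d ih =>
    intro i
    have h1 : desc i (w ++ [d]) = child (desc i w) d := by simp [desc]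
    rw [h1, List.length_append, List.length_singleton, pow_succ, Nat.mul_comm,
      ← Nat.div_div_eq_div_mul, child_div, ih]

lemma desc_inj {i j : ℕ} {w v : List Bool} (hlen : w.length = v.length)
    (h : desc i w = desc j v) : i = j ∧ w = v := by
  induction w using List.reverseRecOn generalizing v with
  | nil =>
    have : v = [] := List.length_eq_zero_iff.mp hlen.symm
    subst this
    exact ⟨h, rfl⟩
  | append_singleton w d ih =>
    rcases List.eq_nil_or_concat v with hv | ⟨v', e, hv⟩
    · subst hv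
      simp at hlen
    · subst hv
      have h1 : desc i (w ++ [d]) = child (desc i w) d := by simp [desc]
      have h2 : desc j (v'.concat e) = child (desc j v') e := by simp [desc]
      rw [h1, h2] at h
      obtain ⟨h3, h4⟩ := child_inj h
      have hl : w.length = v'.length := by simpa using hlen
      obtain ⟨h5, h6⟩ := ih hl h3
      refine ⟨h5, ?_⟩
      rw [h6, h4, List.concat_eq_append]

lemma cls_desc (C : ZMod 10 → ℤ × ℤ) (w : List Bool) : ∀ k i,
    cls C (k + w.length) (desc i w) = w.foldl (stp C) (cls C k i) := by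
  induction w using List.reverseRecOn with
  | nil => intro k i; simp [desc]
  | append_singleton w d ih =>
    intro k i
    have h1 : desc i (w ++ [d]) = child (desc i w) d := by simp [desc]
    rw [h1, List.length_append, List.length_singleton, ← add_assoc, cls_child, ih,
      List.foldl_append]
    rfl

/-- A heavy loop: `words.card = m` words of length `p` from state `J0` to itself with the same
displacement, with `m φ ^ p > 2 ^ p`. -/
structure Heavy (c : Coord) where
  p : ℕ
  words : Finset (List Bool)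
  J0 : ZMod 10
  next : ℤ × ℤ → ℤ × ℤ
  hp : 0 < p
  hlen : ∀ w ∈ words, w.length = p
  hloop : ∀ w ∈ words, ∀ u, w.foldl (stp c.C) (u, J0) = (next u, J0)
  hheavy : (2:ℝ) ^ p < words.card * ph ^ p

/-- Images of sets of intervals under descending by a family of words. -/
lemma desc_family (c : Coord) (h : Heavy c) (l : ℕ) (u : ℤ × ℤ) (W : Finset ℕ)
    (hW : ∀ i ∈ W, cls c.C l i = (u, h.J0)) (N : ℕ) :
    ∃ (u' : ℤ × ℤ) (W' : Finset ℕ), W'.card = W.card * h.words.card ^ N ∧
      (∀ i ∈ W', cls c.C (l + h.p * N) i = (u', h.J0)) ∧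
      (∀ i ∈ W', i / 2 ^ (h.p * N) ∈ W) := by
  classical
  induction N with
  | zero =>
    refine ⟨u, W, by simp, by simpa using hW, by simp⟩
  | succ N ih =>
    obtain ⟨u', W', hcard, hcls, hdiv⟩ := ih
    refine ⟨h.next u', (W' ×ˢ h.words).image (fun q => desc q.1 q.2), ?_, ?_, ?_⟩
    · rw [Finset.card_image_of_injOn, Finset.card_product, hcard]
      · ring
      · rintro ⟨i, w⟩ hi ⟨j, v⟩ hj hij
        simp only [Finset.coe_product, Set.mem_prod, Finset.mem_coe] at hi hj
        obtain ⟨h1, h2⟩ := desc_inj (by rw [h.hlen w hi.2, h.hlen v hj.2]) hij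
        exact Prod.ext h1 h2
    · intro i hi
      obtain ⟨⟨j, w⟩, hjw, rfl⟩ := Finset.mem_image.mp hi
      obtain ⟨hj, hw⟩ := Finset.mem_product.mp hjw
      have h1 := cls_desc c.C w (l + h.p * N) j
      rw [h.hlen w hw, hcls j hj, h.hloop w hw] at h1
      have e : l + h.p * (N + 1) = l + h.p * N + h.p := by ring
      rw [e]
      exact h1
    · intro i hi
      obtain ⟨⟨j, w⟩, hjw, rfl⟩ := Finset.mem_image.mp hi
      obtain ⟨hj, hw⟩ := Finset.mem_product.mp hjw
      have h1 := desc_div w j
      rw [h.hlen w hw] at h1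
      have e : h.p * (N + 1) = h.p + h.p * N := by ring
      rw [e, pow_add, ← Nat.div_div_eq_div_mul, h1]
      exact hdiv j hj

/-- A word of length nine leading from `J` to `J0`. -/
lemma exists_word (J J0 : ZMod 10) : ∃ w : List Bool, w.length = 9 ∧
    ∀ (C : ZMod 10 → ℤ × ℤ) (u : ℤ × ℤ), (w.foldl (stp C) (u, J)).2 = J0 := by
  have hstp : ∀ (C : ZMod 10 → ℤ × ℤ) (w : List Bool) (s : (ℤ × ℤ) × ZMod 10),
      (w.foldl (stp C) s).2 = w.foldl (fun j d => if d then j + 4 else j + 1) s.2 := by
    intro C w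
    induction w with
    | nil => intro s; rfl
    | cons d w ih =>
      intro s
      rw [List.foldl_cons, List.foldl_cons, ih]
      congr 1
      unfold stp
      split_ifs <;> rfl
  have key : ∀ J J0 : ZMod 10, ∃ s : Fin 10,
      (List.replicate s.val true ++ List.replicate (9 - s.val) false).foldl
        (fun (j : ZMod 10) d => if d then j + 4 else j + 1) J = J0 := by decide
  obtain ⟨s, hs⟩ := key J J0
  refine ⟨List.replicate s.val true ++ List.replicate (9 - s.val) false, ?_, fun C u => ?_⟩
  · rw [List.length_append, List.length_replicate, List.length_replicate]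
    have := s.isLt
    omega
  · rw [hstp]
    exact hs

/-- From a set of intervals with one class, many intervals of one class far below. -/
lemma desc_many (c : Coord) (h : Heavy c) (l : ℕ) (s : (ℤ × ℤ) × ZMod 10) (W : Finset ℕ)
    (hW : ∀ i ∈ W, cls c.C l i = s) (N : ℕ) :
    ∃ (s' : (ℤ × ℤ) × ZMod 10) (W' : Finset ℕ), W'.card = W.card * h.words.card ^ N ∧
      (∀ i ∈ W', cls c.C (l + 9 + h.p * N) i = s') ∧
      (∀ i ∈ W', i / 2 ^ (9 + h.p * N) ∈ W) := by
  classical
  obtain ⟨w, hw, hwJ⟩ := exists_word s.2 h.J0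
  set W1 := W.image (fun i => desc i w) with hW1
  have hcard1 : W1.card = W.card := by
    rw [hW1, Finset.card_image_of_injOn]
    intro i _ j _ hij
    exact (desc_inj rfl hij).1
  set u1 := (w.foldl (stp c.C) s).1 with hu1
  have hcls1 : ∀ i ∈ W1, cls c.C (l + 9) i = (u1, h.J0) := by
    intro i hi
    obtain ⟨j, hj, rfl⟩ := Finset.mem_image.mp hi
    have h1 := cls_desc c.C w l j
    rw [hw, hW j hj] at h1
    rw [h1]
    exact Prod.ext rfl (hwJ c.C s.1)
  obtain ⟨u', W', hcard, hcls, hdiv⟩ := desc_family c h (l + 9) u1 W1 hcls1 N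
  refine ⟨(u', h.J0), W', by rw [hcard, hcard1], hcls, fun i hi => ?_⟩
  obtain ⟨j, hj, hji⟩ := Finset.mem_image.mp (hdiv i hi)
  have h1 := desc_div w j
  rw [hw] at h1
  rw [add_comm 9, pow_add, ← Nat.div_div_eq_div_mul, ← hji, h1]
  exact hj

end Pool.Agent.Helper41.Dragon
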