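import Pool.Agent.Helper41.DragonB

set_option autoImplicit false
open Filter Topology MeasureTheory

namespace Pool.Agent.Helper41.Dragon

variable (c : Coord)

/-- The image of Lebesgue measure. -/
noncomputable def mu : Measure ℝ := (volume.restrict (Set.Ico (0:ℝ) 1)).map (lim c)

instance : IsFiniteMeasure (mu c) := by
  unfold mu
  infer_instance

lemma mu_real {A : Set ℝ} (hA : MeasurableSet A) :
    (mu c).real A = volume.real (lim c ⁻¹' A ∩ Set.Ico (0:ℝ) 1) := by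
  unfold mu
  rw [map_measureReal_apply (measurable_lim c) hA,
    measureReal_restrict_apply ((measurable_lim c) hA)]

/-- Dyadic intervals of the parameter axis. -/
def Dy (l i : ℕ) : Set ℝ := Set.Ico ((i:ℝ) / 2 ^ l) (((i:ℝ) + 1) / 2 ^ l)

lemma mem_Dy {l i : ℕ} {t : ℝ} : t ∈ Dy l i ↔ 0 ≤ t ∧ ⌊2 ^ l * t⌋₊ = i := by
  have h2 : (0:ℝ) < 2 ^ l := by positivity
  unfold Dy
  rw [Set.mem_Ico, div_le_iff₀ h2, lt_div_iff₀ h2]
  constructor
  · rintro ⟨h3, h4⟩
    have h0 : 0 ≤ t := by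
      by_contra hc
      push Not at hc
      have : (0:ℝ) ≤ i := Nat.cast_nonneg i
      nlinarith
    refine ⟨h0, ?_⟩
    rw [Nat.floor_eq_iff (by positivity)]
    constructor <;> linarith
  · rintro ⟨h0, h3⟩
    rw [Nat.floor_eq_iff (by positivity)] at h3
    constructor <;> linarith [h3.1, h3.2]

lemma Dy_lt_one {l i : ℕ} (hi : i < 2 ^ l) {t : ℝ} (ht : t ∈ Dy l i) : t < 1 := by
  have h2 : (0:ℝ) < 2 ^ l := by positivity
  have h3 : ((i:ℝ) + 1) / 2 ^ l ≤ 1 := by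
    rw [div_le_one h2]
    exact_mod_cast hi
  exact lt_of_lt_of_le ht.2 h3

lemma vol_Dy (l i : ℕ) : volume.real (Dy l i) = 1 / 2 ^ l := by
  unfold Dy
  have h2 : (0:ℝ) < 2 ^ l := by positivity
  rw [Real.volume_real_Ico_of_le (by gcongr; linarith)]
  ring

lemma Dy_disjoint {l i j : ℕ} (h : i ≠ j) : Disjoint (Dy l i) (Dy l j) := by
  rw [Set.disjoint_left]
  intro t hi hj
  exact h ((mem_Dy.mp hi).2.symm.trans (mem_Dy.mp hj).2)

lemma measurable_Dy (l i : ℕ) : MeasurableSet (Dy l i) := measurableSet_Ico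

/-- Lower bound for masses. -/
lemma mass_ge (l : ℕ) (W : Finset ℕ) (hW : ∀ i ∈ W, i < 2 ^ l) {A : Set ℝ}
    (hA : MeasurableSet A) (h : ∀ i ∈ W, ∀ t ∈ Dy l i, lim c t ∈ A) :
    (W.card : ℝ) / 2 ^ l ≤ (mu c).real A := by
  rw [mu_real c hA]
  have h1 : volume.real (⋃ i ∈ W, Dy l i) = (W.card : ℝ) / 2 ^ l := by
    have hfin : ∀ i ∈ W, volume (Dy l i) ≠ ⊤ := fun i _ => by
      unfold Dy
      exact measure_Ico_lt_top.ne
    rw [measureReal_biUnion_finset (h := hfin)]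
    · rw [Finset.sum_congr rfl (fun i _ => vol_Dy l i), Finset.sum_const, nsmul_eq_mul]
      ring
    · intro i _ j _ hij
      exact Dy_disjoint hij
    · intro i _
      exact measurable_Dy l i
  rw [← h1]
  refine measureReal_mono ?_ ?_
  · intro t ht
    simp only [Set.mem_iUnion, exists_prop] at ht
    obtain ⟨i, hi, hti⟩ := ht
    exact ⟨h i hi t hti, (mem_Dy.mp hti).1, Dy_lt_one (hW i hi) hti⟩
  · exact ne_top_of_le_ne_top (measure_Ico_lt_top (μ := volume) (a := (0:ℝ)) (b := 1)).ne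
      (measure_mono Set.inter_subset_right)

open Classical in
/-- Upper bound for masses. -/
lemma mass_le (l : ℕ) {A : Set ℝ} (hA : MeasurableSet A) :
    (mu c).real A ≤
      (((Finset.range (2 ^ l)).filter (fun i => ∃ t ∈ Dy l i, lim c t ∈ A)).card : ℝ) / 2 ^ l := by
  rw [mu_real c hA]
  set W := (Finset.range (2 ^ l)).filter (fun i => ∃ t ∈ Dy l i, lim c t ∈ A) with hW
  have hsub : lim c ⁻¹' A ∩ Set.Ico (0:ℝ) 1 ⊆ ⋃ i ∈ W, Dy l i := by
    rintro t ⟨htA, ht0, ht1⟩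
    simp only [Set.mem_iUnion, exists_prop]
    refine ⟨⌊2 ^ l * t⌋₊, ?_, mem_Dy.mpr ⟨ht0, rfl⟩⟩
    rw [hW, Finset.mem_filter, Finset.mem_range]
    refine ⟨?_, t, mem_Dy.mpr ⟨ht0, rfl⟩, htA⟩
    have h0 : (0:ℝ) ≤ 2 ^ l * t := by positivity
    rw [Nat.floor_lt h0]
    push_cast
    have : (0:ℝ) < 2 ^ l := by positivity
    nlinarith
  calc volume.real (lim c ⁻¹' A ∩ Set.Ico (0:ℝ) 1)
      ≤ volume.real (⋃ i ∈ W, Dy l i) := by
        refine measureReal_mono hsub ?_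
        refine (lt_of_le_of_lt (measure_biUnion_finset_le W _) ?_).ne
        refine ENNReal.sum_lt_top.mpr (fun i _ => ?_)
        unfold Dy
        exact measure_Ico_lt_top
    _ ≤ ∑ i ∈ W, volume.real (Dy l i) := measureReal_biUnion_finset_le W _
    _ = (W.card : ℝ) / 2 ^ l := by
        rw [Finset.sum_congr rfl (fun i _ => vol_Dy l i), Finset.sum_const, nsmul_eq_mul]
        ring

/-- Location on a dyadic interval. -/
lemma loc' {l i : ℕ} (hi : i < 2 ^ l) {t : ℝ} (ht : t ∈ Dy l i) :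
    |lim c t - c.κ * val (cls c.C l i).1 / ph ^ l| ≤ 10 / ph ^ l := by
  have h := loc c l (mem_Dy.mp ht).1 (Dy_lt_one hi ht)
  rwa [(mem_Dy.mp ht).2] at h

lemma osc {l i : ℕ} (hi : i < 2 ^ l) {t s : ℝ} (ht : t ∈ Dy l i) (hs : s ∈ Dy l i) :
    |lim c t - lim c s| ≤ 20 / ph ^ l := by
  have h1 := loc' c hi ht
  have h2 := loc' c hi hs
  calc |lim c t - lim c s|
      ≤ |lim c t - c.κ * val (cls c.C l i).1 / ph ^ l|
        + |c.κ * val (cls c.C l i).1 / ph ^ l - lim c s| := abs_sub_le _ _ _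
    _ ≤ 10 / ph ^ l + 10 / ph ^ l := by
        rw [abs_sub_comm (c.κ * val (cls c.C l i).1 / ph ^ l)]
        exact add_le_add h1 h2
    _ = 20 / ph ^ l := by ring

/-- The `b`-adic intervals of the value axis. -/
def JI (b n : ℕ) (m : ℤ) : Set ℝ := {x | ⌊(b:ℝ) ^ n * x⌋ = m}

lemma measurable_JI (b n : ℕ) (m : ℤ) : MeasurableSet (JI b n m) := by
  have h : Measurable (fun x : ℝ => ⌊(b:ℝ) ^ n * x⌋) :=
    Int.measurable_floor.comp (measurable_const.mul measurable_id)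
  exact h (measurableSet_singleton m)

lemma JI_disjoint {b n : ℕ} {m m' : ℤ} (h : m ≠ m') : Disjoint (JI b n m) (JI b n m') := by
  rw [Set.disjoint_left]
  intro x hx hx'
  exact h (hx.symm.trans hx')

lemma floor_succ {b : ℕ} (hb : b ≠ 0) (n : ℕ) (x : ℝ) :
    ⌊(b:ℝ) ^ (n + 1) * x⌋ / (b : ℤ) = ⌊(b:ℝ) ^ n * x⌋ := by
  have h : (b:ℝ) ^ (n + 1) * x = (b:ℝ) * ((b:ℝ) ^ n * x) := by rw [pow_succ]; ring
  rw [h, Int.natCast_mul_floor_div_cancel hb]

/-- The masses of the `b`-adic intervals. -/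
noncomputable def am (b n : ℕ) (m : ℤ) : ℝ := (mu c).real (JI b n m)

lemma am_nonneg (b n : ℕ) (m : ℤ) : 0 ≤ am c b n m := measureReal_nonneg

/-- Masses of unions of sub-intervals. -/
lemma am_union (b n : ℕ) (T : Finset ℕ) (m : ℤ) :
    (mu c).real (⋃ j ∈ T, JI b n (m + j)) = ∑ j ∈ T, am c b n (m + j) := by
  rw [measureReal_biUnion_finset]
  · rfl
  · intro i _ j _ hij
    apply JI_disjoint
    intro h
    apply hij
    have : (i : ℤ) = j := by linarith
    exact_mod_cast this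
  · intro i _
    exact measurable_JI _ _ _

lemma JI_children {b : ℕ} (hb : b ≠ 0) (n : ℕ) (m : ℤ) :
    JI b n m = ⋃ j ∈ Finset.range b, JI b (n + 1) (b * m + (j : ℕ)) := by
  have hb' : (0:ℤ) < b := by exact_mod_cast Nat.pos_of_ne_zero hb
  ext x
  simp only [Set.mem_iUnion, Finset.mem_range, exists_prop]
  have h := floor_succ hb n x
  constructor
  · intro hx
    have hx' : ⌊(b:ℝ) ^ n * x⌋ = m := hx
    rw [hx'] at h
    set y := ⌊(b:ℝ) ^ (n + 1) * x⌋ with hy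
    have h1 := Int.emod_add_mul_ediv y b
    have h2 := Int.emod_nonneg y hb'.ne'
    have h3 := Int.emod_lt_of_pos y hb'
    refine ⟨(y % b).toNat, by omega, ?_⟩
    have h4 : (((y % b).toNat : ℕ) : ℤ) = y % b := Int.toNat_of_nonneg h2
    show y = b * m + ((y % b).toNat : ℕ)
    rw [h4, ← h]
    linarith
  · rintro ⟨j, hj, hx⟩
    have hx' : ⌊(b:ℝ) ^ (n + 1) * x⌋ = b * m + (j : ℕ) := hx
    rw [hx'] at h
    show ⌊(b:ℝ) ^ n * x⌋ = m
    rw [← h]
    rw [Int.mul_add_ediv_left _ _ hb'.ne']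
    have : (j:ℤ) / b = 0 := Int.ediv_eq_zero_of_lt (by positivity) (by exact_mod_cast hj)
    rw [this, add_zero]

lemma am_children {b : ℕ} (hb : b ≠ 0) (n : ℕ) (m : ℤ) :
    ∑ j ∈ Finset.range b, am c b (n + 1) (b * m + (j : ℕ)) = am c b n m := by
  rw [← am_union, ← JI_children hb]
  rfl

end Pool.Agent.Helper41.Dragon
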