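import Pool.Agent.Helper41.DragonC

set_option autoImplicit false
open Filter Topology MeasureTheory

namespace Pool.Agent.Helper41.Dragon

variable (c : Coord)

lemma exists_params (h : Heavy c) : ∃ N q : ℕ, 5 ≤ q ∧ (2:ℝ) ^ q ≤ ph ^ (h.p * N) ∧
    ph ^ (h.p * N) < 2 * 2 ^ q ∧
    (2:ℝ) ^ 14 * KK * 2 ^ (h.p * N) < (h.words.card : ℝ) ^ N * ph ^ (h.p * N) := by
  have h2 : (0:ℝ) < 2 ^ h.p := by positivity
  have h1 : 1 < (h.words.card : ℝ) * ph ^ h.p / 2 ^ h.p := by
    rw [lt_div_iff₀ h2, one_mul]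
    exact h.hheavy
  have h3 : 1 < ph ^ h.p := one_lt_pow₀ (by linarith [ph_lb]) h.hp.ne'
  have t1 := (tendsto_pow_atTop_atTop_of_one_lt h1).eventually_gt_atTop ((2:ℝ) ^ 14 * KK)
  have t2 := (tendsto_pow_atTop_atTop_of_one_lt h3).eventually_ge_atTop (64:ℝ)
  obtain ⟨N, hN1, hN2⟩ := (t1.and t2).exists
  rw [← pow_mul] at hN2
  obtain ⟨q, hq1, hq2⟩ := exists_nat_pow_near (x := ph ^ (h.p * N)) (y := 2) (by linarith)
    (by norm_num)
  refine ⟨N, q, ?_, hq1, ?_, ?_⟩
  · by_contra hc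
    push Not at hc
    have : (2:ℝ) ^ (q + 1) ≤ 2 ^ 5 := pow_le_pow_right₀ (by norm_num) (by omega)
    norm_num at this
    linarith
  · rw [pow_succ] at hq2
    linarith
  · rw [div_pow, mul_pow, ← pow_mul, ← pow_mul, lt_div_iff₀ (by positivity)] at hN1
    exact hN1

lemma floor_pow (l k : ℕ) (t : ℝ) : ⌊(2:ℝ) ^ (l + k) * t⌋₊ / 2 ^ k = ⌊(2:ℝ) ^ l * t⌋₊ := by
  have h : (2:ℝ) ^ l * t = (2 ^ (l + k) * t) / ((2 ^ k : ℕ) : ℝ) := by
    push_cast
    rw [pow_add]
    field_simp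
  rw [h, Nat.floor_div_natCast]

lemma Dy_desc {l k i : ℕ} {t : ℝ} (ht : t ∈ Dy (l + k) i) : t ∈ Dy l (i / 2 ^ k) := by
  obtain ⟨h0, h1⟩ := mem_Dy.mp ht
  refine mem_Dy.mpr ⟨h0, ?_⟩
  rw [← floor_pow l k t, h1]

/-- The local dichotomy: every interval has a sub-interval with a relatively small or a
relatively large mass. -/
lemma key (h : Heavy c) : ∃ q : ℕ, 5 ≤ q ∧ ∀ (n : ℕ) (m : ℤ), 0 < am c (2 ^ q) n m →
    ∃ j < 2 ^ q,
      am c (2 ^ q) (n + 1) (((2 ^ q : ℕ) : ℤ) * m + (j : ℕ)) ≤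
          am c (2 ^ q) n m / (2 * ((2 ^ q : ℕ) : ℝ)) ∨
      2 * am c (2 ^ q) n m / ((2 ^ q : ℕ) : ℝ) ≤
          am c (2 ^ q) (n + 1) (((2 ^ q : ℕ) : ℤ) * m + (j : ℕ)) := by
  classical
  obtain ⟨N, q, hq5, hBP, hPB, hbig⟩ := exists_params c h
  refine ⟨q, hq5, fun n m hA => ?_⟩
  by_contra hcon
  push Not at hcon
  set b : ℕ := 2 ^ q with hb
  have hb0 : b ≠ 0 := by positivity
  set B : ℝ := (b : ℝ) with hB
  have hBq : B = 2 ^ q := by rw [hB, hb]; push_cast; rfl
  have hBpos : 0 < B := by rw [hBq]; positivity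
  have hB1 : 1 ≤ B := by
    rw [hBq]; exact one_le_pow₀ (by norm_num)
  set A : ℝ := am c b n m with hAdef
  have hb4 : 4 * (b / 4) = b := by
    obtain ⟨q', rfl⟩ : ∃ q', q = q' + 2 := ⟨q - 2, by omega⟩
    rw [hb, pow_add]
    norm_num
    ring
  have hb4R : 4 * ((b / 4 : ℕ) : ℝ) = B := by
    rw [hB]; exact_mod_cast hb4
  have hBn : 0 < B ^ n := by positivity
  have hBn1 : 1 ≤ B ^ n := one_le_pow₀ hB1
  -- the central part
  set Tc : Finset ℕ := Finset.Ico (b / 4) (3 * (b / 4)) with hTc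
  set Jc : Set ℝ := ⋃ j ∈ Tc, JI b (n + 1) ((b : ℤ) * m + (j : ℕ)) with hJc
  have hJcmeas : MeasurableSet Jc :=
    Finset.measurableSet_biUnion _ (fun j _ => measurable_JI _ _ _)
  have hTclt : ∀ j ∈ Tc, j < b := by
    intro j hj
    rw [hTc, Finset.mem_Ico] at hj
    omega
  have hJcmass : A / 4 ≤ (mu c).real Jc := by
    rw [hJc, am_union]
    have hcard : Tc.card = 2 * (b / 4) := by
      rw [hTc, Nat.card_Ico]; omega
    calc A / 4 = Tc.card * (A / (2 * B)) := by
          rw [hcard]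
          push_cast
          have : (2:ℝ) * ((b / 4 : ℕ) : ℝ) = B / 2 := by linarith
          rw [this]
          field_simp
          norm_num
      _ = ∑ _j ∈ Tc, A / (2 * B) := by rw [Finset.sum_const, nsmul_eq_mul]
      _ ≤ ∑ j ∈ Tc, am c b (n + 1) ((b : ℤ) * m + (j : ℕ)) :=
          Finset.sum_le_sum (fun j hj => (hcon j (hTclt j hj)).1.le)
  have hJcloc : ∀ x ∈ Jc, (m : ℝ) + 1 / 4 ≤ B ^ n * x ∧ B ^ n * x < m + 3 / 4 := by
    intro x hx
    rw [hJc] at hx
    simp only [Set.mem_iUnion, exists_prop] at hx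
    obtain ⟨j, hj, hxj⟩ := hx
    have hfl : ⌊(b:ℝ) ^ (n + 1) * x⌋ = (b : ℤ) * m + (j : ℕ) := hxj
    rw [Int.floor_eq_iff] at hfl
    push_cast at hfl
    have e1 : (b:ℝ) ^ (n + 1) * x = B * (B ^ n * x) := by rw [← hB, pow_succ]; ring
    rw [e1, ← hB] at hfl
    rw [hTc, Finset.mem_Ico] at hj
    have hj1 : B / 4 ≤ j := by
      have : ((b / 4 : ℕ) : ℝ) ≤ j := by exact_mod_cast hj.1
      linarith
    have hj2 : (j : ℝ) + 1 ≤ 3 * (B / 4) := by
      have : (j : ℝ) + 1 ≤ ((3 * (b / 4) : ℕ) : ℝ) := by exact_mod_cast hj.2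
      push_cast at this
      linarith
    constructor
    · by_contra hc
      push Not at hc
      have : B * (B ^ n * x) < B * (m + 1 / 4) := mul_lt_mul_of_pos_left hc hBpos
      linarith [hfl.1]
    · by_contra hc
      push Not at hc
      have : B * (m + 3 / 4) ≤ B * (B ^ n * x) := mul_le_mul_of_nonneg_left hc hBpos.le
      linarith [hfl.2]
  -- the level
  obtain ⟨l', hl1, hl2⟩ := exists_nat_pow_near_of_lt_one (x := 1 / (80 * B ^ n)) (y := 1 / ph)
    (by positivity) (by rw [div_le_one (by positivity)]; linarith)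
    (one_div_pos.mpr ph_pos) inv_ph_lt
  set l : ℕ := l' + 1 with hl
  set R : ℝ := 1 / ph ^ l with hR
  have hRpos : 0 < R := one_div_pos.mpr (pow_pos ph_pos _)
  have hR1 : R * B ^ n < 1 / 80 := by
    have h1 : (1 / ph) ^ (l' + 1) = R := by rw [hR, div_pow, one_pow]
    rw [h1, lt_div_iff₀ (by positivity)] at hl1
    linarith
  have hR2 : 1 / B ^ n ≤ 130 * R := by
    have h1 : (1 / ph) ^ l' = ph * R := by
      rw [hR, hl, div_pow, one_pow, pow_succ]
      have := ph_pos.ne'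
      field_simp
    rw [h1] at hl2
    have h2 : 1 / B ^ n = 80 * (1 / (80 * B ^ n)) := by field_simp
    rw [h2]
    nlinarith [ph_ub]
  -- the intervals meeting the central part
  set W := (Finset.range (2 ^ l)).filter (fun i => ∃ t ∈ Dy l i, lim c t ∈ Jc) with hW
  have hWlt : ∀ i ∈ W, i < 2 ^ l := fun i hi => Finset.mem_range.mp (Finset.mem_filter.mp hi).1
  have hWex : ∀ i ∈ W, ∃ t ∈ Dy l i, lim c t ∈ Jc := fun i hi => (Finset.mem_filter.mp hi).2
  have hWmass : A / 4 ≤ (W.card : ℝ) / 2 ^ l := hJcmass.trans (mass_le c l hJcmeas)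
  have hWclose : ∀ i ∈ W, ∀ j ∈ W, |val (cls c.C l i).1 - val (cls c.C l j).1| ≤ 170 := by
    intro i hi j hj
    obtain ⟨t, ht, htJ⟩ := hWex i hi
    obtain ⟨s, hs, hsJ⟩ := hWex j hj
    have h1 := hJcloc _ htJ
    have h2 := hJcloc _ hsJ
    have h3 := loc' c (hWlt i hi) ht
    have h4 := loc' c (hWlt j hj) hs
    have e10 : 10 / ph ^ l = 10 * R := by rw [hR]; ring
    rw [e10] at h3 h4
    have h5 : |lim c t - lim c s| ≤ 65 * R := by
      have h6 : |B ^ n * (lim c t - lim c s)| ≤ 1 / 2 := by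
        rw [abs_le]
        constructor <;> nlinarith [h1.1, h1.2, h2.1, h2.2]
      rw [abs_mul, abs_of_pos hBn] at h6
      have h7 : |lim c t - lim c s| ≤ 1 / 2 * (1 / B ^ n) := by
        rw [mul_one_div, le_div_iff₀ hBn]
        linarith
      linarith
    set vi := val (cls c.C l i).1
    set vj := val (cls c.C l j).1
    have h8 : |c.κ * R * (vi - vj)| ≤ 85 * R := by
      have e : c.κ * R * (vi - vj) = -(lim c t - c.κ * vi / ph ^ l) + (lim c t - lim c s)
          + (lim c s - c.κ * vj / ph ^ l) := by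
        rw [hR]; ring
      rw [e]
      calc |-(lim c t - c.κ * vi / ph ^ l) + (lim c t - lim c s)
          + (lim c s - c.κ * vj / ph ^ l)|
          ≤ |-(lim c t - c.κ * vi / ph ^ l)| + |lim c t - lim c s|
            + |lim c s - c.κ * vj / ph ^ l| := abs_add_three _ _ _
        _ ≤ 10 * R + 65 * R + 10 * R := by
            rw [abs_neg]
            exact add_le_add (add_le_add h3 h5) h4
        _ = 85 * R := by ring
    rw [abs_mul, abs_mul, abs_of_pos hRpos, abs_of_pos (by linarith [c.hκ] : 0 < c.κ)] at h8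
    have h9 : c.κ * |vi - vj| ≤ 85 := by
      by_contra hc
      push Not at hc
      nlinarith
    nlinarith [c.hκ, abs_nonneg (vi - vj)]
  have hWimg := card_classes c l W hWclose
  have hWne : W.Nonempty := by
    by_contra hc
    rw [Finset.not_nonempty_iff_eq_empty] at hc
    rw [hc] at hWmass
    simp at hWmass
    linarith
  obtain ⟨s0, hs0, hs0max⟩ := Finset.exists_max_image (W.image (cls c.C l))
    (fun s => (W.filter (fun i => cls c.C l i = s)).card) (hWne.image _)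
  set Wc := W.filter (fun i => cls c.C l i = s0) with hWc
  have hWcard : W.card ≤ Wc.card * KK := by
    have := Finset.card_le_mul_card_image (f := cls c.C l) W Wc.card (fun a ha => hs0max a ha)
    exact this.trans (Nat.mul_le_mul_left _ hWimg)
  obtain ⟨s', W', hcard, hcls', hdiv⟩ := desc_many c h l s0 Wc
    (fun i hi => (Finset.mem_filter.mp hi).2) N
  set l2 : ℕ := l + 9 + h.p * N with hl2def
  have hl2' : l2 = l + (9 + h.p * N) := by rw [hl2def]; ring
  set v : ℝ := c.κ * val s'.1 / ph ^ l2 with hv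
  set z : ℝ := B ^ (n + 1) * (v - 10 / ph ^ l2) with hz
  set m' : ℤ := ⌊z⌋ with hm'
  set T' : Finset ℕ := (Finset.range b).filter
    (fun j => (b : ℤ) * m + (j : ℕ) = m' ∨ (b : ℤ) * m + (j : ℕ) = m' + 1) with hT'
  have hT'card : T'.card ≤ 2 := by
    have hsub : T' ⊆ {(m' - (b : ℤ) * m).toNat, (m' + 1 - (b : ℤ) * m).toNat} := by
      intro j hj
      rw [hT', Finset.mem_filter] at hj
      rw [Finset.mem_insert, Finset.mem_singleton]
      rcases hj.2 with h1 | h1
      · left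
        omega
      · right
        omega
    exact (Finset.card_le_card hsub).trans Finset.card_le_two
  have hR2' : 10 / ph ^ l2 * B ^ (n + 1) ≤ 1 / 8 := by
    have e1 : ph ^ l2 = ph ^ l * (ph ^ 9 * ph ^ (h.p * N)) := by
      rw [hl2', pow_add ph l, pow_add ph 9]
    have e2 : 10 / ph ^ l2 * B ^ (n + 1)
        = 10 * (R * B ^ n) * (B / ph ^ (h.p * N)) / ph ^ 9 := by
      rw [e1, hR, pow_succ B n]
      have h1 := (pow_pos ph_pos l).ne'
      have h2 := (pow_pos ph_pos 9).ne'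
      have h3 := (pow_pos ph_pos (h.p * N)).ne'
      generalize ph ^ l = x1 at *
      generalize ph ^ 9 = x2 at *
      generalize ph ^ (h.p * N) = x3 at *
      field_simp
    have h1 : B / ph ^ (h.p * N) ≤ 1 := by
      rw [div_le_one (pow_pos ph_pos _), hBq]
      exact hBP
    have h2 : 1 ≤ ph ^ 9 := one_le_pow₀ (by linarith [ph_lb])
    have h3 : 0 ≤ B / ph ^ (h.p * N) := div_nonneg hBpos.le (pow_pos ph_pos _).le
    rw [e2, div_le_iff₀ (pow_pos ph_pos 9)]
    have h4 : 10 * (R * B ^ n) * (B / ph ^ (h.p * N)) ≤ 10 * (R * B ^ n) * 1 :=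
      mul_le_mul_of_nonneg_left h1 (by positivity)
    linarith
  have hmass2 : (W'.card : ℝ) / 2 ^ l2 ≤
      (mu c).real (⋃ j ∈ T', JI b (n + 1) ((b : ℤ) * m + (j : ℕ))) := by
    have hdiv' : ∀ i ∈ W', i < 2 ^ l2 := by
      intro i hi
      have h1 := hWlt _ (Finset.mem_filter.mp (hdiv i hi)).1
      rw [Nat.div_lt_iff_lt_mul (by positivity), ← pow_add] at h1
      rw [hl2']
      exact h1
    refine mass_ge c l2 W' hdiv' (Finset.measurableSet_biUnion _ (fun j _ => measurable_JI _ _ _))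
      (fun i hi t ht => ?_)
    -- location
    have h1 := loc' c (hdiv' i hi) ht
    rw [hcls' i hi, ← hv] at h1
    have hiW := (Finset.mem_filter.mp (hdiv i hi)).1
    have ht2 : t ∈ Dy l (i / 2 ^ (9 + h.p * N)) := by
      apply Dy_desc
      rw [← hl2']
      exact ht
    obtain ⟨t0, ht0, ht0J⟩ := hWex _ hiW
    have h2 := osc c (hWlt _ hiW) ht2 ht0
    have e20 : 20 / ph ^ l = 20 * R := by rw [hR]; ring
    rw [e20] at h2
    have h3 := hJcloc _ ht0J
    have h4 : |B ^ n * (lim c t - lim c t0)| < 1 / 4 := by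
      rw [abs_mul, abs_of_pos hBn]
      nlinarith
    have h5 := abs_lt.mp h4
    have hfl : ⌊(b:ℝ) ^ n * lim c t⌋ = m := by
      rw [Int.floor_eq_iff, ← hB]
      constructor <;> nlinarith [h5.1, h5.2, h3.1, h3.2]
    have hfs := floor_succ hb0 n (lim c t)
    rw [hfl] at hfs
    set y : ℤ := ⌊(b:ℝ) ^ (n + 1) * lim c t⌋ with hy
    have hb' : (0:ℤ) < b := by exact_mod_cast Nat.pos_of_ne_zero hb0
    have hy1 := Int.emod_add_mul_ediv y b
    have hy2 := Int.emod_nonneg y hb'.ne'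
    have hy3 := Int.emod_lt_of_pos y hb'
    have h6 := abs_le.mp h1
    have hBn1pos : 0 < B ^ (n + 1) := by positivity
    have hyz1 : m' ≤ y := by
      rw [hm', hy, ← hB]
      apply Int.floor_le_floor
      rw [hz]
      exact mul_le_mul_of_nonneg_left (by linarith [h6.1]) hBn1pos.le
    have hyz2 : y ≤ m' + 1 := by
      have : B ^ (n + 1) * lim c t ≤ z + 1 := by
        have e : z + 1 = B ^ (n + 1) * (v + 10 / ph ^ l2)
            + (1 - 2 * (10 / ph ^ l2 * B ^ (n + 1))) := by rw [hz]; ring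
        rw [e]
        have : B ^ (n + 1) * lim c t ≤ B ^ (n + 1) * (v + 10 / ph ^ l2) :=
          mul_le_mul_of_nonneg_left (by linarith [h6.2]) hBn1pos.le
        linarith
      have h7 : y ≤ ⌊z + 1⌋ := by
        rw [hy, ← hB]
        exact Int.floor_le_floor this
      rw [Int.floor_add_one] at h7
      exact h7
    simp only [Set.mem_iUnion, exists_prop]
    refine ⟨(y % b).toNat, ?_, ?_⟩
    · rw [hT', Finset.mem_filter, Finset.mem_range]
      have e : (((y % b).toNat : ℕ) : ℤ) = y % b := Int.toNat_of_nonneg hy2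
      refine ⟨by omega, ?_⟩
      rw [e, ← hfs]
      have : (b : ℤ) * (y / b) + y % b = y := by linarith
      rw [this]
      omega
    · show y = (b : ℤ) * m + ((y % b).toNat : ℕ)
      have e : (((y % b).toNat : ℕ) : ℤ) = y % b := Int.toNat_of_nonneg hy2
      rw [e, ← hfs]
      linarith
  have hmass3 : (mu c).real (⋃ j ∈ T', JI b (n + 1) ((b : ℤ) * m + (j : ℕ))) ≤ 4 * A / B := by
    rw [am_union]
    calc ∑ j ∈ T', am c b (n + 1) ((b : ℤ) * m + (j : ℕ)) ≤ ∑ _j ∈ T', 2 * A / B :=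
          Finset.sum_le_sum (fun j hj =>
            (hcon j (Finset.mem_range.mp (Finset.mem_filter.mp hj).1)).2.le)
      _ = T'.card * (2 * A / B) := by rw [Finset.sum_const, nsmul_eq_mul]
      _ ≤ 2 * (2 * A / B) := by
          apply mul_le_mul_of_nonneg_right
          · exact_mod_cast hT'card
          · positivity
      _ = 4 * A / B := by ring
  -- final computation
  have hfin := hmass2.trans hmass3
  rw [hcard] at hfin
  push_cast at hfin
  set w : ℝ := (h.words.card : ℝ) with hw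
  set P : ℝ := ph ^ (h.p * N) with hP
  have hwc : (W.card : ℝ) ≤ Wc.card * KK := by exact_mod_cast hWcard
  have hKK : (0:ℝ) < KK := by
    have : (0:ℕ) < KK := by unfold KK; norm_num
    exact_mod_cast this
  have e2l : (2:ℝ) ^ l2 = 2 ^ l * (2 ^ 9 * 2 ^ (h.p * N)) := by
    rw [hl2', pow_add (2:ℝ) l, pow_add (2:ℝ) 9]
  rw [e2l, div_le_div_iff₀ (by positivity) hBpos] at hfin
  have h1 : A / 4 * 2 ^ l ≤ Wc.card * KK := by
    rw [le_div_iff₀ (by positivity)] at hWmass
    linarith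
  have hw0 : 0 ≤ w ^ N := by positivity
  have h2 : (A / 4 * 2 ^ l) * (w ^ N * B) ≤ KK * (4 * A * (2 ^ l * (2 ^ 9 * 2 ^ (h.p * N)))) := by
    calc (A / 4 * 2 ^ l) * (w ^ N * B) ≤ (Wc.card * KK) * (w ^ N * B) :=
          mul_le_mul_of_nonneg_right h1 (by positivity)
      _ = KK * ((Wc.card : ℝ) * w ^ N * B) := by ring
      _ ≤ KK * (4 * A * (2 ^ l * (2 ^ 9 * 2 ^ (h.p * N)))) :=
          mul_le_mul_of_nonneg_left hfin hKK.le
  have h3 : w ^ N * B ≤ 2 ^ 13 * KK * 2 ^ (h.p * N) := by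
    have h4 : 0 < A * 2 ^ l / 4 := by positivity
    have h5 : (A * 2 ^ l / 4) * (w ^ N * B) ≤ (A * 2 ^ l / 4) * (2 ^ 13 * KK * 2 ^ (h.p * N)) := by
      calc (A * 2 ^ l / 4) * (w ^ N * B) = (A / 4 * 2 ^ l) * (w ^ N * B) := by ring
        _ ≤ KK * (4 * A * (2 ^ l * (2 ^ 9 * 2 ^ (h.p * N)))) := h2
        _ = (A * 2 ^ l / 4) * (2 ^ 13 * KK * 2 ^ (h.p * N)) := by ring
    exact le_of_mul_le_mul_left h5 h4
  have h6 : w ^ N * P ≤ w ^ N * (2 * B) := by
    apply mul_le_mul_of_nonneg_left _ hw0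
    rw [hBq]
    exact hPB.le
  linarith

end Pool.Agent.Helper41.Dragon
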