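import Mathlib

set_option autoImplicit false

namespace Pool.Agent.Helper41.Dragon

/-- The substitution `ψ` of the problem, written for sequences indexed from `0`: the entry `a i`
is the term `a_{i+1}` of the problem. The pair of entries `2 i`, `2 i + 1` of `psi α a` is
`(a i + α, a i - α)` when `i` is even (the term number `i + 1` is odd) and
`(a i - α, a i + α)` when `i` is odd. -/
noncomputable def psi (α : ℝ) (a : ℕ → ℝ) : ℕ → ℝ := fun n =>
  if n / 2 % 2 = 0 then
    (if n % 2 = 0 then a (n / 2) + α else a (n / 2) - α)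
  else
    (if n % 2 = 0 then a (n / 2) - α else a (n / 2) + α)

/-- The sequence `b_k = ψ^k (0)`; its terms are the entries `0, …, 2 ^ k - 1`
(only these are used on the parameter interval `[0, 1]`). -/
noncomputable def ang (α : ℝ) (k : ℕ) : ℕ → ℝ := (psi α)^[k] (fun _ => 0)

/-- The increment `g (b_{k,i+1}) / (2 cos α) ^ k`; for `g = cos` this is `f_{k,i+1}` and for
`g = sin` it is `g_{k,i+1}` of the problem. -/
noncomputable def incr (g : ℝ → ℝ) (α : ℝ) (k i : ℕ) : ℝ :=
  g (ang α k i) / (2 * Real.cos α) ^ k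

/-- The coordinate function of the `k`-th polygonal stage: it takes the value
`∑ i < j, incr g α k i` at `j / 2 ^ k` and is affine in between. -/
noncomputable def stage (g : ℝ → ℝ) (α : ℝ) (k : ℕ) (t : ℝ) : ℝ :=
  (∑ i ∈ Finset.range ⌊2 ^ k * t⌋₊, incr g α k i)
    + (2 ^ k * t - ⌊2 ^ k * t⌋₊) * incr g α k ⌊2 ^ k * t⌋₊

/-- The graph over `[0, 1]` in the Euclidean plane. -/
def graphOn (x : ℝ → ℝ) : Set (EuclideanSpace ℝ (Fin 2)) :=
  {p | ∃ t ∈ Set.Icc (0 : ℝ) 1, p = !₂[t, x t]}

end Pool.Agent.Helper41.Dragon
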