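import Pool.Agent.Helper41.DragonD

set_option autoImplicit false
open Filter Topology MeasureTheory

namespace Pool.Agent.Helper41.Dragon

/-! ### The exponent -/

/-- The exponent `H = log φ / log 2`. -/
noncomputable def HH : ℝ := Real.log ph / Real.log 2

lemma log2_pos : 0 < Real.log 2 := Real.log_pos (by norm_num)

lemma HH_pos : 0 < HH := div_pos (Real.log_pos (by linarith [ph_lb])) log2_pos

lemma HH_lt_one : HH < 1 := by
  unfold HH
  rw [div_lt_one log2_pos]
  exact Real.log_lt_log ph_pos (by linarith [ph_ub])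

lemma two_rpow_HH : (2:ℝ) ^ HH = ph := by
  unfold HH
  rw [Real.rpow_def_of_pos (by norm_num), mul_div_cancel₀ _ log2_pos.ne', Real.exp_log ph_pos]

/-! ### The deficit lemma -/

/-- The deficit constant. -/
noncomputable def k0 : ℝ := min (1 + HH - 2 ^ HH) (1 - HH / 2 - (1 / 2) ^ HH)

lemma k0_pos : 0 < k0 := by
  unfold k0
  refine lt_min ?_ ?_
  · have h := rpow_one_add_lt_one_add_mul_self (s := 1) (by norm_num) one_ne_zero HH_pos
      HH_lt_one
    norm_num at h
    linarith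
  · have h := rpow_one_add_lt_one_add_mul_self (s := -1 / 2) (by norm_num) (by norm_num)
      HH_pos HH_lt_one
    norm_num at h
    norm_num
    linarith

lemma k0_lt_one : k0 < 1 := by
  unfold k0
  refine (min_le_right _ _).trans_lt ?_
  have h1 : (0:ℝ) < (1 / 2) ^ HH := by positivity
  linarith [HH_pos]

lemma bernoulli {x : ℝ} (hx : 0 ≤ x) : x ^ HH ≤ 1 + HH * (x - 1) := by
  have h := rpow_one_add_le_one_add_mul_self (s := x - 1) (by linarith) HH_pos.le
    HH_lt_one.le
  rwa [add_sub_cancel] at h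

lemma bernoulli_large {x : ℝ} (hx : 2 ≤ x) : x ^ HH ≤ 1 + HH * (x - 1) - k0 := by
  have h1 := bernoulli (x := x / 2) (by linarith)
  have h2 : x ^ HH = 2 ^ HH * (x / 2) ^ HH := by
    rw [← Real.mul_rpow (by norm_num) (by linarith)]
    congr 1
    ring
  rw [h2, two_rpow_HH]
  have h3 : k0 ≤ 1 + HH - ph := by
    have := min_le_left (1 + HH - 2 ^ HH) (1 - HH / 2 - (1 / 2) ^ HH)
    rw [two_rpow_HH] at this
    unfold k0
    rw [two_rpow_HH]
    exact this
  have h4 : ph * (x / 2) ^ HH ≤ ph * (1 + HH * (x / 2 - 1)) :=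
    mul_le_mul_of_nonneg_left h1 ph_pos.le
  have h5 : 0 ≤ HH * (x - 2) * (1 - ph / 2) := by
    apply mul_nonneg (mul_nonneg HH_pos.le (by linarith))
    linarith [ph_ub]
  nlinarith

lemma bernoulli_small {x : ℝ} (hx0 : 0 ≤ x) (hx : x ≤ 1 / 2) :
    x ^ HH ≤ 1 + HH * (x - 1) - k0 := by
  have h1 := bernoulli (x := 2 * x) (by linarith)
  set y : ℝ := (1 / 2) ^ HH with hy
  have hy0 : 0 < y := by positivity
  have hyph : y * ph = 1 := by
    rw [hy, ← two_rpow_HH, ← Real.mul_rpow (by norm_num) (by norm_num)]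
    norm_num
  have h2 : x ^ HH = y * (2 * x) ^ HH := by
    rw [hy, ← Real.mul_rpow (by norm_num) (by linarith)]
    congr 1
    ring
  have h3 : k0 ≤ 1 - HH / 2 - y := min_le_right _ _
  have h4 : y * (2 * x) ^ HH ≤ y * (1 + HH * (2 * x - 1)) :=
    mul_le_mul_of_nonneg_left h1 hy0.le
  have hy1 : 1 / 2 ≤ y := by
    by_contra hc
    push Not at hc
    nlinarith [ph_ub, ph_lb]
  have h5 : 0 ≤ HH * (1 / 2 - x) * (2 * y - 1) :=
    mul_nonneg (mul_nonneg HH_pos.le (by linarith)) (by linarith)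
  rw [h2]
  nlinarith

/-- The deficit lemma. -/
lemma deficit {b : ℕ} (hb : 0 < b) (p : ℕ → ℝ) (hp : ∀ j, 0 ≤ p j) {a : ℝ} (ha : 0 < a)
    (hsum : ∑ j ∈ Finset.range b, p j = a)
    (hex : ∃ j < b, p j ≤ a / (2 * (b:ℝ)) ∨ 2 * a / (b:ℝ) ≤ p j) :
    ∑ j ∈ Finset.range b, p j ^ HH ≤ (1 - k0 / b) * (b:ℝ) ^ (1 - HH) * a ^ HH := by
  have hbR : (0:ℝ) < b := by exact_mod_cast hb
  obtain ⟨j₀, hj₀, hj₀'⟩ := hex
  set x : ℕ → ℝ := fun j => b * p j / a with hx
  have hx0 : ∀ j, 0 ≤ x j := fun j => by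
    rw [hx]
    have := hp j
    positivity
  have hpx : ∀ j, p j ^ HH = (a / b) ^ HH * x j ^ HH := by
    intro j
    rw [← Real.mul_rpow (by positivity) (hx0 j)]
    congr 1
    rw [hx]
    field_simp
  have hxsum : ∑ j ∈ Finset.range b, x j = b := by
    rw [hx]
    simp only
    rw [← Finset.sum_div, ← Finset.mul_sum, hsum]
    field_simp
  have hpt : ∀ j ∈ Finset.range b, x j ^ HH ≤
      1 + HH * (x j - 1) - (if j = j₀ then k0 else 0) := by
    intro j _
    by_cases h : j = j₀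
    · rw [if_pos h, h]
      rcases hj₀' with h1 | h1
      · apply bernoulli_small (hx0 _)
        rw [hx]
        simp only
        rw [div_le_div_iff₀ ha (by norm_num)]
        rw [le_div_iff₀ (by positivity)] at h1
        linarith
      · apply bernoulli_large
        rw [hx]
        simp only
        rw [le_div_iff₀ ha]
        rw [div_le_iff₀ hbR] at h1
        linarith
    · rw [if_neg h, sub_zero]
      exact bernoulli (hx0 _)
  have hsumx : ∑ j ∈ Finset.range b, x j ^ HH ≤ b - k0 := by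
    calc ∑ j ∈ Finset.range b, x j ^ HH
        ≤ ∑ j ∈ Finset.range b, (1 + HH * (x j - 1) - (if j = j₀ then k0 else 0)) :=
          Finset.sum_le_sum hpt
      _ = b - k0 := by
          rw [Finset.sum_sub_distrib, Finset.sum_add_distrib, ← Finset.mul_sum,
            Finset.sum_sub_distrib, hxsum, Finset.sum_ite_eq' (Finset.range b) j₀,
            if_pos (Finset.mem_range.mpr hj₀)]
          simp
  have e1 : (1 - k0 / b) * (b:ℝ) ^ (1 - HH) * a ^ HH = (a / b) ^ HH * (b - k0) := by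
    rw [Real.div_rpow ha.le hbR.le, Real.rpow_sub hbR, Real.rpow_one]
    have : (b:ℝ) ^ HH ≠ 0 := (Real.rpow_pos_of_pos hbR _).ne'
    field_simp
  rw [e1, Finset.sum_congr rfl (fun j _ => hpx j), ← Finset.mul_sum]
  exact mul_le_mul_of_nonneg_left hsumx (by positivity)

/-! ### The limsup lemma -/

lemma limsup_lemma {H ε C1 : ℝ} (hH0 : 0 < H) (hH1 : H < 1) (hε : 0 < ε) (E : ℕ → ℝ)
    (hE0 : ∀ n, 0 ≤ E n) (hE1 : ∀ n : ℕ, 1 ≤ n → E n ≤ C1 * n) (L : ℕ) :
    ∃ n : ℕ, L ≤ n ∧ H * E n - ε * n ≤ E (⌊H * n⌋₊ - 1) := by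
  by_contra hcon
  push Not at hcon
  have hC1 : 0 ≤ C1 := by
    have := hE1 1 le_rfl
    have := hE0 1
    push_cast at *
    linarith
  obtain ⟨n0, hn0⟩ := exists_nat_gt (max (L:ℝ) (max 1 (4 * C1 / ε)))
  have h1 : (L:ℝ) < n0 := lt_of_le_of_lt (le_max_left _ _) hn0
  have h2 : (1:ℝ) < n0 := lt_of_le_of_lt ((le_max_left _ _).trans (le_max_right _ _)) hn0
  have h3 : 4 * C1 / ε < n0 := lt_of_le_of_lt ((le_max_right _ _).trans (le_max_right _ _)) hn0
  have step : ∀ j : ℕ, ∃ k : ℕ, n0 ≤ k ∧ (j:ℝ) * (ε / 2) ≤ E k / k := by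
    intro j
    induction j with
    | zero =>
      refine ⟨n0, le_rfl, ?_⟩
      have := hE0 n0
      simp only [Nat.cast_zero, zero_mul]
      positivity
    | succ j ih =>
      obtain ⟨k, hk, hkj⟩ := ih
      have hk0 : (n0:ℝ) ≤ k := by exact_mod_cast hk
      have hkpos : (0:ℝ) < k := by linarith
      set n : ℕ := ⌈((k:ℝ) + 1) / H⌉₊ with hn
      have hn1 : ((k:ℝ) + 1) / H ≤ n := Nat.le_ceil _
      have hn2 : (n:ℝ) < ((k:ℝ) + 1) / H + 1 := Nat.ceil_lt_add_one (by positivity)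
      rw [div_le_iff₀ hH0] at hn1
      have hn3 : H * n < k + 2 := by
        have h4 : H * n < H * (((k:ℝ) + 1) / H + 1) := mul_lt_mul_of_pos_left hn2 hH0
        have h5 : H * (((k:ℝ) + 1) / H + 1) = k + 1 + H := by field_simp
        linarith
      have hfl : ⌊H * (n:ℝ)⌋₊ = k + 1 := by
        rw [Nat.floor_eq_iff (by positivity)]
        push_cast
        constructor <;> linarith
      have hkn : (k:ℝ) ≤ n := by nlinarith
      have hkn' : k ≤ n := by exact_mod_cast hkn
      have hLn : L ≤ n := by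
        have : (L:ℝ) ≤ n := by linarith
        exact_mod_cast this
      have hc := hcon n hLn
      rw [hfl, Nat.add_sub_cancel] at hc
      refine ⟨n, hk.trans hkn', ?_⟩
      have hnpos : (0:ℝ) < n := by linarith
      have hEk : E k ≤ C1 * k := hE1 k (by
        have : (1:ℝ) ≤ k := by linarith
        exact_mod_cast this)
      -- E k < H E n... we have H * E n - ε n > E k
      rw [le_div_iff₀ hkpos] at hkj
      rw [le_div_iff₀ hnpos]
      push_cast
      -- goal: (j+1) ε/2 n ≤ E n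
      have h6 : E k + ε * n < H * E n := by linarith
      have h7 : (j:ℝ) * (ε / 2) * k + ε * n < H * E n := by linarith
      have h8 : (j:ℝ) * (ε / 2) ≤ C1 := by
        by_contra hcc
        push Not at hcc
        nlinarith
      have h9 : (j:ℝ) * (ε / 2) * (H * n) ≤ (j:ℝ) * (ε / 2) * (k + 2) := by
        apply mul_le_mul_of_nonneg_left hn3.le (by positivity)
      have h10 : 4 * C1 < ε * n := by
        rw [div_lt_iff₀ hε] at h3
        nlinarith
      have h11 : H * (((j:ℝ) + 1) * (ε / 2) * n) ≤ H * E n := by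
        have e1 : H * (((j:ℝ) + 1) * (ε / 2) * n)
            = (j:ℝ) * (ε / 2) * (H * n) + H * (ε / 2 * n) := by ring
        have h12 : H * (ε / 2 * n) ≤ ε / 2 * n := by
          have : 0 ≤ ε / 2 * n := by positivity
          nlinarith
        rw [e1]
        nlinarith
      exact le_of_mul_le_mul_left h11 hH0
  obtain ⟨j, hj⟩ := exists_nat_gt (C1 / (ε / 2))
  obtain ⟨k, hk, hkj⟩ := step j
  have hk0 : (n0:ℝ) ≤ k := by exact_mod_cast hk
  have hkpos : (0:ℝ) < k := by linarith
  have hEk : E k ≤ C1 * k := hE1 k (by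
    have : (1:ℝ) ≤ k := by linarith
    exact_mod_cast this)
  have h4 : E k / k ≤ C1 := by rwa [div_le_iff₀ hkpos]
  rw [div_lt_iff₀ (by positivity)] at hj
  linarith

end Pool.Agent.Helper41.Dragon
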