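import Pool.Agent.Helper41.DragonE

set_option autoImplicit false
open Filter Topology MeasureTheory
open scoped ENNReal

namespace Pool.Agent.Helper41.Dragon

variable (c : Coord)

/-! ### Decay of the moment sums -/

/-- The moment sums. -/
noncomputable def Phi (b n : ℕ) : ℝ≥0∞ := ∑' m : ℤ, ENNReal.ofReal (am c b n m ^ HH)

lemma lim_bound {t : ℝ} (h0 : 0 ≤ t) (h1 : t < 1) : |lim c t| ≤ 10 := by
  have h := loc c 0 h0 h1
  have e : (cls c.C 0 ⌊(2:ℝ) ^ 0 * t⌋₊).1 = (0, 0) := rfl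
  rw [e] at h
  simpa [val] using h

lemma mu_univ : (mu c).real Set.univ = 1 := by
  rw [mu_real c MeasurableSet.univ, Set.preimage_univ, Set.univ_inter]
  simp

lemma mu_le_one (A : Set ℝ) : (mu c).real A ≤ 1 := by
  rw [← mu_univ c]
  exact measureReal_mono (Set.subset_univ _)

lemma Phi_zero (b : ℕ) : Phi c b 0 ≠ ⊤ := by
  have hz : ∀ m : ℤ, m ∉ Finset.Icc (-11 : ℤ) 11 → ENNReal.ofReal (am c b 0 m ^ HH) = 0 := by
    intro m hm
    have h0 : am c b 0 m = 0 := by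
      unfold am
      rw [mu_real c (measurable_JI _ _ _)]
      have hempty : lim c ⁻¹' JI b 0 m ∩ Set.Ico (0:ℝ) 1 = ∅ := by
        rw [Set.eq_empty_iff_forall_notMem]
        rintro t ⟨ht, ht0, ht1⟩
        have h1 := abs_le.mp (lim_bound c ht0 ht1)
        have h2 : ⌊(b:ℝ) ^ 0 * lim c t⌋ = m := ht
        rw [pow_zero, one_mul] at h2
        apply hm
        rw [Finset.mem_Icc, ← h2]
        constructor
        · have : (-11:ℤ) ≤ ⌊lim c t⌋ := by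
            rw [Int.le_floor]; push_cast; linarith
          exact this
        · have : ⌊lim c t⌋ < 12 := by
            rw [Int.floor_lt]; push_cast; linarith
          omega
      rw [hempty]
      simp
    rw [h0, Real.zero_rpow HH_pos.ne', ENNReal.ofReal_zero]
  unfold Phi
  rw [tsum_eq_sum (s := Finset.Icc (-11 : ℤ) 11) (fun m hm => hz m hm)]
  exact (ENNReal.sum_lt_top.mpr (fun m _ => ENNReal.ofReal_lt_top)).ne

lemma tsum_children {b : ℕ} (hb : 0 < b) (f : ℤ → ℝ≥0∞) :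
    ∑' m : ℤ, f m = ∑' m : ℤ, ∑ j ∈ Finset.range b, f (b * m + (j : ℕ)) := by
  have : NeZero b := ⟨hb.ne'⟩
  rw [← (Int.divModEquiv b).symm.tsum_eq, ENNReal.tsum_prod']
  refine tsum_congr (fun m => ?_)
  rw [tsum_fintype, ← Fin.sum_univ_eq_sum_range (fun j => f (b * m + (j : ℕ)))]
  refine Finset.sum_congr rfl (fun j _ => ?_)
  congr 1
  simp only [Int.divModEquiv_symm_apply]
  ring

/-- The decay ratio. -/
noncomputable def rho (b : ℕ) : ℝ := (1 - k0 / b) * (b:ℝ) ^ (1 - HH)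

lemma rho_nonneg {b : ℕ} (hb : 0 < b) : 0 ≤ rho b := by
  have hbR : (1:ℝ) ≤ b := by exact_mod_cast hb
  unfold rho
  have h1 : 0 ≤ 1 - k0 / b := by
    have : k0 / b ≤ 1 := by
      rw [div_le_one (by linarith)]
      linarith [k0_lt_one]
    linarith
  positivity

lemma Phi_succ {q : ℕ} (hkey : ∀ (n : ℕ) (m : ℤ), 0 < am c (2 ^ q) n m →
    ∃ j < 2 ^ q,
      am c (2 ^ q) (n + 1) (((2 ^ q : ℕ) : ℤ) * m + (j : ℕ)) ≤
          am c (2 ^ q) n m / (2 * ((2 ^ q : ℕ) : ℝ)) ∨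
      2 * am c (2 ^ q) n m / ((2 ^ q : ℕ) : ℝ) ≤
          am c (2 ^ q) (n + 1) (((2 ^ q : ℕ) : ℤ) * m + (j : ℕ))) (n : ℕ) :
    Phi c (2 ^ q) (n + 1) ≤ ENNReal.ofReal (rho (2 ^ q)) * Phi c (2 ^ q) n := by
  have hb : 0 < 2 ^ q := by positivity
  unfold Phi
  rw [tsum_children hb, ← ENNReal.tsum_mul_left]
  refine ENNReal.tsum_le_tsum (fun m => ?_)
  rw [← ENNReal.ofReal_sum_of_nonneg (fun j _ => Real.rpow_nonneg (am_nonneg c _ _ _) _),
    ← ENNReal.ofReal_mul (rho_nonneg hb)]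
  apply ENNReal.ofReal_le_ofReal
  rcases (am_nonneg c (2 ^ q) n m).eq_or_lt with h0 | h0
  · -- all children vanish
    have hch := am_children c hb.ne' n m
    rw [← h0] at hch
    have hz : ∀ j ∈ Finset.range (2 ^ q),
        am c (2 ^ q) (n + 1) (((2 ^ q : ℕ) : ℤ) * m + (j : ℕ)) = 0 :=
      (Finset.sum_eq_zero_iff_of_nonneg (fun j _ => am_nonneg c _ _ _)).mp hch
    rw [← h0, Real.zero_rpow HH_pos.ne', mul_zero]
    refine (Finset.sum_eq_zero (fun j hj => ?_)).le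
    rw [hz j hj, Real.zero_rpow HH_pos.ne']
  · exact deficit hb (fun j => am c (2 ^ q) (n + 1) (((2 ^ q : ℕ) : ℤ) * m + (j : ℕ)))
      (fun j => am_nonneg c _ _ _) h0 (am_children c hb.ne' n m) (hkey n m h0)

lemma Phi_le {q : ℕ} (hkey : ∀ (n : ℕ) (m : ℤ), 0 < am c (2 ^ q) n m →
    ∃ j < 2 ^ q,
      am c (2 ^ q) (n + 1) (((2 ^ q : ℕ) : ℤ) * m + (j : ℕ)) ≤
          am c (2 ^ q) n m / (2 * ((2 ^ q : ℕ) : ℝ)) ∨
      2 * am c (2 ^ q) n m / ((2 ^ q : ℕ) : ℝ) ≤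
          am c (2 ^ q) (n + 1) (((2 ^ q : ℕ) : ℤ) * m + (j : ℕ))) (n : ℕ) :
    Phi c (2 ^ q) n ≤ ENNReal.ofReal (rho (2 ^ q) ^ n) * Phi c (2 ^ q) 0 := by
  have hb : 0 < 2 ^ q := by positivity
  induction n with
  | zero => simp
  | succ n ih =>
    calc Phi c (2 ^ q) (n + 1) ≤ ENNReal.ofReal (rho (2 ^ q)) * Phi c (2 ^ q) n :=
          Phi_succ c hkey n
      _ ≤ ENNReal.ofReal (rho (2 ^ q)) * (ENNReal.ofReal (rho (2 ^ q) ^ n) * Phi c (2 ^ q) 0) := by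
          gcongr
      _ = ENNReal.ofReal (rho (2 ^ q) ^ (n + 1)) * Phi c (2 ^ q) 0 := by
          rw [← mul_assoc, ← ENNReal.ofReal_mul (rho_nonneg hb), pow_succ, mul_comm (rho (2 ^ q))]

/-! ### Neighbourhoods -/

/-- The union of three consecutive intervals. -/
def JJ (b n : ℕ) (m : ℤ) : Set ℝ := {x | |⌊(b:ℝ) ^ n * x⌋ - m| ≤ 1}

lemma measurable_JJ (b n : ℕ) (m : ℤ) : MeasurableSet (JJ b n m) := by
  have h : Measurable (fun x : ℝ => ⌊(b:ℝ) ^ n * x⌋) :=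
    Int.measurable_floor.comp (measurable_const.mul measurable_id)
  exact h (MeasurableSet.of_discrete (s := {y : ℤ | |y - m| ≤ 1}))

/-- Its mass. -/
noncomputable def a3 (b n : ℕ) (m : ℤ) : ℝ := (mu c).real (JJ b n m)

lemma a3_nonneg (b n : ℕ) (m : ℤ) : 0 ≤ a3 c b n m := measureReal_nonneg

lemma a3_le (b n : ℕ) (m : ℤ) :
    a3 c b n m ≤ am c b n (m - 1) + am c b n m + am c b n (m + 1) := by
  unfold a3 am
  have hsub : JJ b n m ⊆ (JI b n (m - 1) ∪ JI b n m) ∪ JI b n (m + 1) := by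
    intro x hx
    have h : |⌊(b:ℝ) ^ n * x⌋ - m| ≤ 1 := hx
    rw [abs_le] at h
    rcases (by omega : ⌊(b:ℝ) ^ n * x⌋ = m - 1 ∨ ⌊(b:ℝ) ^ n * x⌋ = m ∨ ⌊(b:ℝ) ^ n * x⌋ = m + 1)
      with h1 | h1 | h1
    · exact Or.inl (Or.inl h1)
    · exact Or.inl (Or.inr h1)
    · exact Or.inr h1
  refine (measureReal_mono hsub).trans ?_
  refine (measureReal_union_le _ _).trans ?_
  gcongr
  exact measureReal_union_le _ _

lemma a3_rpow_le (b n : ℕ) (m : ℤ) :
    a3 c b n m ^ HH ≤ am c b n (m - 1) ^ HH + am c b n m ^ HH + am c b n (m + 1) ^ HH := by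
  have h1 := am_nonneg c b n (m - 1)
  have h2 := am_nonneg c b n m
  have h3 := am_nonneg c b n (m + 1)
  calc a3 c b n m ^ HH ≤ (am c b n (m - 1) + am c b n m + am c b n (m + 1)) ^ HH :=
        Real.rpow_le_rpow (a3_nonneg c b n m) (a3_le c b n m) HH_pos.le
    _ ≤ (am c b n (m - 1) + am c b n m) ^ HH + am c b n (m + 1) ^ HH :=
        Real.rpow_add_le_add_rpow (by positivity) h3 HH_pos.le HH_lt_one.le
    _ ≤ am c b n (m - 1) ^ HH + am c b n m ^ HH + am c b n (m + 1) ^ HH := by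
        gcongr
        exact Real.rpow_add_le_add_rpow h1 h2 HH_pos.le HH_lt_one.le

lemma tsum_a3 (b n : ℕ) : ∑' m : ℤ, ENNReal.ofReal (a3 c b n m ^ HH) ≤ 3 * Phi c b n := by
  have h1 : ∀ m : ℤ, ENNReal.ofReal (a3 c b n m ^ HH) ≤
      ENNReal.ofReal (am c b n (m - 1) ^ HH) + ENNReal.ofReal (am c b n m ^ HH)
        + ENNReal.ofReal (am c b n (m + 1) ^ HH) := by
    intro m
    have h1 := Real.rpow_nonneg (am_nonneg c b n (m - 1)) HH
    have h2 := Real.rpow_nonneg (am_nonneg c b n m) HH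
    have h3 := Real.rpow_nonneg (am_nonneg c b n (m + 1)) HH
    rw [← ENNReal.ofReal_add h1 h2, ← ENNReal.ofReal_add (add_nonneg h1 h2) h3]
    exact ENNReal.ofReal_le_ofReal (a3_rpow_le c b n m)
  refine (ENNReal.tsum_le_tsum h1).trans ?_
  rw [ENNReal.tsum_add, ENNReal.tsum_add]
  have e1 : ∑' m : ℤ, ENNReal.ofReal (am c b n (m - 1) ^ HH) = Phi c b n :=
    (Equiv.subRight (1:ℤ)).tsum_eq (fun m => ENNReal.ofReal (am c b n m ^ HH))
  have e2 : ∑' m : ℤ, ENNReal.ofReal (am c b n (m + 1) ^ HH) = Phi c b n :=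
    (Equiv.addRight (1:ℤ)).tsum_eq (fun m => ENNReal.ofReal (am c b n m ^ HH))
  rw [e1, e2]
  have e3 : ∑' m : ℤ, ENNReal.ofReal (am c b n m ^ HH) = Phi c b n := rfl
  rw [e3]
  have : (3:ℝ≥0∞) * Phi c b n = Phi c b n + Phi c b n + Phi c b n := by ring
  rw [this]

/-- Floors of close numbers. -/
lemma floor_close {x y : ℝ} (h : |x - y| ≤ 1) : |⌊x⌋ - ⌊y⌋| ≤ 1 := by
  rw [abs_le] at h ⊢
  constructor
  · have : ⌊y⌋ ≤ ⌊x + 1⌋ := Int.floor_le_floor (by linarith)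
    rw [Int.floor_add_one] at this
    omega
  · have : ⌊x⌋ ≤ ⌊y + 1⌋ := Int.floor_le_floor (by linarith)
    rw [Int.floor_add_one] at this
    omega

end Pool.Agent.Helper41.Dragon
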