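import Pool.Agent.Helper41.DragonF

set_option autoImplicit false
open Filter Topology MeasureTheory
open scoped ENNReal

namespace Pool.Agent.Helper41.Dragon

variable (c : Coord)

/-- The index of the interval containing `lim c t`. -/
noncomputable def idx (b n : ℕ) (t : ℝ) : ℤ := ⌊(b:ℝ) ^ n * lim c t⌋

/-- The coarse scale. -/
noncomputable def n1 (n : ℕ) : ℕ := ⌊HH * n⌋₊ - 1

/-- Good scales of a point. -/
def Good (b : ℕ) (ε : ℝ) (n : ℕ) (t : ℝ) : Prop :=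
  a3 c b (n1 n) (idx c b (n1 n) t) ≤ (b:ℝ) ^ (ε * n) * a3 c b n (idx c b n t) ^ HH

lemma ph_pow_ge (q n : ℕ) : 20 * ((2:ℝ) ^ q) ^ n ≤ ph ^ (2 * q * n + 10) := by
  have h1 : (2:ℝ) ≤ ph ^ 2 := by nlinarith [ph_lb]
  have h2 : ((2:ℝ) ^ q) ^ n ≤ ph ^ (2 * q * n) := by
    rw [← pow_mul, mul_assoc, pow_mul ph 2]
    exact pow_le_pow_left₀ (by norm_num) h1 _
  have h3 : (20:ℝ) ≤ ph ^ 10 := by
    have e : ph ^ 10 = (ph ^ 2) ^ 5 := by rw [← pow_mul]
    rw [e]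
    calc (20:ℝ) ≤ 2 ^ 5 := by norm_num
      _ ≤ (ph ^ 2) ^ 5 := pow_le_pow_left₀ (by norm_num) h1 _
  rw [pow_add]
  calc 20 * ((2:ℝ) ^ q) ^ n ≤ ph ^ 10 * ph ^ (2 * q * n) := by gcongr
    _ = ph ^ (2 * q * n) * ph ^ 10 := mul_comm _ _

/-- Lower bound for the mass around a point. -/
lemma a3_lower (q n : ℕ) {t : ℝ} (h0 : 0 ≤ t) (h1 : t < 1) :
    1 / (((2:ℝ) ^ q) ^ (2 * n) * 1024) ≤ a3 c (2 ^ q) n (idx c (2 ^ q) n t) := by
  set l := 2 * q * n + 10 with hl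
  set i := ⌊(2:ℝ) ^ l * t⌋₊ with hi
  have hti : t ∈ Dy l i := mem_Dy.mpr ⟨h0, rfl⟩
  have hil : i < 2 ^ l := by
    rw [hi, Nat.floor_lt (by positivity)]
    push_cast
    have : (0:ℝ) < 2 ^ l := by positivity
    nlinarith
  have hm := mass_ge c l {i} (fun j hj => by rwa [Finset.mem_singleton.mp hj])
    (measurable_JJ (2 ^ q) n (idx c (2 ^ q) n t)) (fun j hj s hs => by
      rw [Finset.mem_singleton.mp hj] at hs
      show |⌊((2 ^ q : ℕ) : ℝ) ^ n * lim c s⌋ - ⌊((2 ^ q : ℕ) : ℝ) ^ n * lim c t⌋| ≤ 1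
      apply floor_close
      rw [← mul_sub, abs_mul]
      have h2 := osc c hil hs hti
      have h3 := ph_pow_ge q n
      have h4 : (0:ℝ) < ph ^ l := pow_pos ph_pos l
      push_cast
      rw [abs_of_pos (by positivity : (0:ℝ) < ((2:ℝ) ^ q) ^ n)]
      calc ((2:ℝ) ^ q) ^ n * |lim c s - lim c t| ≤ ((2:ℝ) ^ q) ^ n * (20 / ph ^ l) := by gcongr
        _ = (20 * ((2:ℝ) ^ q) ^ n) / ph ^ l := by ring
        _ ≤ 1 := by rw [div_le_one h4]; exact h3)
  rw [Finset.card_singleton] at hm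
  have e : (2:ℝ) ^ l = ((2:ℝ) ^ q) ^ (2 * n) * 1024 := by
    rw [hl, pow_add, ← pow_mul]
    have : q * (2 * n) = 2 * q * n := by ring
    rw [this]
    norm_num
  rw [e] at hm
  push_cast at hm
  exact hm

/-- Every point has good scales beyond any bound. -/
lemma exists_good {q : ℕ} (hq : 5 ≤ q) {ε : ℝ} (hε : 0 < ε) {t : ℝ} (h0 : 0 ≤ t) (h1 : t < 1)
    (L : ℕ) : ∃ n : ℕ, L ≤ n ∧ Good c (2 ^ q) ε n t := by
  set B : ℝ := ((2 ^ q : ℕ) : ℝ) with hB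
  have hB2 : B = (2:ℝ) ^ q := by rw [hB]; push_cast; rfl
  have hB32 : 32 ≤ B := by
    rw [hB2]
    calc (32:ℝ) = 2 ^ 5 := by norm_num
      _ ≤ 2 ^ q := pow_le_pow_right₀ (by norm_num) hq
  have hB1 : 1 < B := by linarith
  have hB0 : 0 < B := by linarith
  have hpos : ∀ n, 0 < a3 c (2 ^ q) n (idx c (2 ^ q) n t) := fun n =>
    lt_of_lt_of_le (by positivity) (a3_lower c q n h0 h1)
  set E : ℕ → ℝ := fun n => -Real.logb B (a3 c (2 ^ q) n (idx c (2 ^ q) n t)) with hE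
  have hE0 : ∀ n, 0 ≤ E n := by
    intro n
    have := Real.logb_nonpos hB1 (hpos n).le (mu_le_one c _)
    simp only [hE]
    linarith
  have hE1 : ∀ n : ℕ, 1 ≤ n → E n ≤ 12 * n := by
    intro n hn
    have h2 := a3_lower c q n h0 h1
    rw [← hB2] at h2
    have hb1024 : (1024:ℝ) ≤ B ^ 10 := by
      calc (1024:ℝ) ≤ 32 ^ 10 := by norm_num
        _ ≤ B ^ 10 := by gcongr
    have hnR : (1:ℝ) ≤ n := by exact_mod_cast hn
    have h3 : (B ^ (12 * n))⁻¹ ≤ a3 c (2 ^ q) n (idx c (2 ^ q) n t) := by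
      refine le_trans ?_ h2
      rw [inv_eq_one_div]
      apply one_div_le_one_div_of_le (by positivity)
      calc B ^ (2 * n) * 1024 ≤ B ^ (2 * n) * B ^ 10 := by gcongr
        _ ≤ B ^ (2 * n) * B ^ (10 * n) := by
            gcongr
            · exact hB1.le
            · omega
        _ = B ^ (12 * n) := by rw [← pow_add]; congr 1; ring
    have h4 := Real.logb_le_logb_of_le hB1 (by positivity) h3
    rw [Real.logb_inv, Real.logb_pow, Real.logb_self_eq_one hB1, mul_one] at h4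
    simp only [hE]
    push_cast at h4
    linarith
  obtain ⟨n, hn, hgood⟩ := limsup_lemma HH_pos HH_lt_one hε E hE0 hE1 L
  refine ⟨n, hn, ?_⟩
  unfold Good
  have hA : ∀ k, a3 c (2 ^ q) k (idx c (2 ^ q) k t) = B ^ (-E k) := by
    intro k
    simp only [hE, neg_neg]
    rw [Real.rpow_logb hB0 hB1.ne' (hpos k)]
  rw [hA (n1 n), hA n, ← hB, ← Real.rpow_mul hB0.le, ← Real.rpow_add hB0]
  apply Real.rpow_le_rpow_of_exponent_le hB1.le
  have : E (n1 n) = E (⌊HH * n⌋₊ - 1) := rfl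
  rw [this]
  linarith

open Classical in
/-- The parameter intervals used at scale `n` over the value interval `m`. -/
noncomputable def ZZ (q : ℕ) (ε : ℝ) (n : ℕ) (m : ℤ) : Finset ℕ :=
  (Finset.range (2 ^ (q * n))).filter
    (fun i => ∃ t ∈ Dy (q * n) i, idx c (2 ^ q) n t = m ∧ Good c (2 ^ q) ε n t)

lemma floor_coarse {b : ℕ} (hb : b ≠ 0) (n k : ℕ) (x : ℝ) :
    ⌊(b:ℝ) ^ (n + k) * x⌋ / ((b ^ k : ℕ) : ℤ) = ⌊(b:ℝ) ^ n * x⌋ := by
  have h : (b:ℝ) ^ (n + k) * x = ((b ^ k : ℕ) : ℝ) * ((b:ℝ) ^ n * x) := by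
    push_cast
    rw [pow_add]
    ring
  rw [h, Int.natCast_mul_floor_div_cancel (pow_ne_zero k hb)]

lemma n1_le (n : ℕ) : n1 n ≤ n := by
  unfold n1
  have h1 : ⌊HH * (n:ℝ)⌋₊ ≤ ⌊(n:ℝ)⌋₊ := by
    apply Nat.floor_le_floor
    have : (0:ℝ) ≤ n := Nat.cast_nonneg n
    nlinarith [HH_lt_one]
  rw [Nat.floor_natCast] at h1
  omega

/-- The coarse scale is coarse enough. -/
lemma coarse_ok {q : ℕ} (hq : 5 ≤ q) {n : ℕ} (hn : 2 ≤ HH * n) :
    20 * ((2:ℝ) ^ q) ^ (n1 n) ≤ ph ^ (q * n) := by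
  have h0 : (0:ℝ) ≤ HH * n := by linarith
  have h1 : ((n1 n : ℕ) : ℝ) + 1 ≤ HH * n := by
    have h2 := Nat.floor_le h0
    have h3 : 2 ≤ ⌊HH * (n:ℝ)⌋₊ := Nat.le_floor (by exact_mod_cast hn)
    unfold n1
    rw [Nat.cast_sub (by omega)]
    push_cast
    linarith
  have h20 : (20:ℝ) ≤ (2:ℝ) ^ q := by
    calc (20:ℝ) ≤ 2 ^ 5 := by norm_num
      _ ≤ 2 ^ q := pow_le_pow_right₀ (by norm_num) hq
  have e1 : ph ^ (q * n) = (2:ℝ) ^ ((q:ℝ) * (HH * n)) := by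
    rw [← two_rpow_HH, ← Real.rpow_natCast, ← Real.rpow_mul (by norm_num)]
    congr 1
    push_cast
    ring
  have e2 : (2:ℝ) ^ q * ((2:ℝ) ^ q) ^ (n1 n) = (2:ℝ) ^ ((q:ℝ) * ((n1 n : ℕ) + 1 : ℝ)) := by
    rw [← pow_mul, ← pow_add, ← Real.rpow_natCast]
    congr 1
    push_cast
    ring
  calc 20 * ((2:ℝ) ^ q) ^ (n1 n) ≤ (2:ℝ) ^ q * ((2:ℝ) ^ q) ^ (n1 n) := by gcongr
    _ = (2:ℝ) ^ ((q:ℝ) * ((n1 n : ℕ) + 1 : ℝ)) := e2
    _ ≤ (2:ℝ) ^ ((q:ℝ) * (HH * n)) := by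
        apply Real.rpow_le_rpow_of_exponent_le (by norm_num)
        gcongr
    _ = ph ^ (q * n) := e1.symm

/-- The number of parameter intervals over one value interval. -/
lemma card_ZZ {q : ℕ} (hq : 5 ≤ q) (ε : ℝ) {n : ℕ} (hn : 2 ≤ HH * n) (m : ℤ) :
    ((ZZ c q ε n m).card : ℝ) ≤
      (2:ℝ) ^ (q * n) * (((2 ^ q : ℕ) : ℝ) ^ (ε * n) * a3 c (2 ^ q) n m ^ HH) := by
  classical
  have hb0 : (2 ^ q : ℕ) ≠ 0 := by positivity
  rcases (ZZ c q ε n m).eq_empty_or_nonempty with he | ⟨i0, hi0⟩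
  · rw [he]
    have := Real.rpow_nonneg (a3_nonneg c (2 ^ q) n m) HH
    simp only [Finset.card_empty, Nat.cast_zero]
    positivity
  obtain ⟨t0, ht0, hm0, hg0⟩ := (Finset.mem_filter.mp hi0).2
  obtain ⟨k, hk⟩ : ∃ k, n = n1 n + k := ⟨n - n1 n, by have := n1_le n; omega⟩
  -- the coarse index depends only on m
  have hcoarse : ∀ t, idx c (2 ^ q) n t = m →
      idx c (2 ^ q) (n1 n) t = m / (((2 ^ q) ^ k : ℕ) : ℤ) := by
    intro t ht
    have h := floor_coarse hb0 (n1 n) k (lim c t)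
    rw [← hk] at h
    rw [← ht]
    exact h.symm
  set m1 : ℤ := m / (((2 ^ q) ^ k : ℕ) : ℤ) with hm1
  have hmass : ((ZZ c q ε n m).card : ℝ) / 2 ^ (q * n) ≤ a3 c (2 ^ q) (n1 n) m1 := by
    refine mass_ge c (q * n) (ZZ c q ε n m)
      (fun i hi => Finset.mem_range.mp (Finset.mem_filter.mp hi).1)
      (measurable_JJ (2 ^ q) (n1 n) m1) (fun i hi s hs => ?_)
    have hil := Finset.mem_range.mp (Finset.mem_filter.mp hi).1
    obtain ⟨t, ht, hmt, _⟩ := (Finset.mem_filter.mp hi).2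
    have h2 := osc c hil hs ht
    have h3 := coarse_ok hq hn
    rw [← hcoarse t hmt]
    show |⌊((2 ^ q : ℕ) : ℝ) ^ (n1 n) * lim c s⌋ - ⌊((2 ^ q : ℕ) : ℝ) ^ (n1 n) * lim c t⌋| ≤ 1
    apply floor_close
    rw [← mul_sub, abs_mul]
    have h4 : (0:ℝ) < ph ^ (q * n) := pow_pos ph_pos _
    push_cast
    rw [abs_of_pos (by positivity : (0:ℝ) < ((2:ℝ) ^ q) ^ (n1 n))]
    calc ((2:ℝ) ^ q) ^ (n1 n) * |lim c s - lim c t|
        ≤ ((2:ℝ) ^ q) ^ (n1 n) * (20 / ph ^ (q * n)) := by gcongr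
      _ = (20 * ((2:ℝ) ^ q) ^ (n1 n)) / ph ^ (q * n) := by ring
      _ ≤ 1 := by rw [div_le_one h4]; exact h3
  unfold Good at hg0
  rw [hm0, hcoarse t0 hm0] at hg0
  have h5 := hmass.trans hg0
  rw [div_le_iff₀ (by positivity)] at h5
  linarith

/-- The graph in the product. -/
def gr : Set (ℝ × ℝ) := {p | p.1 ∈ Set.Ico (0:ℝ) 1 ∧ p.2 = lim c p.1}

open Classical in
/-- The covering sets. -/
noncomputable def cov (q : ℕ) (ε : ℝ) (L : ℕ) (z : ℕ × ℤ × ℕ) : Set (ℝ × ℝ) :=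
  if L ≤ z.1 ∧ z.2.2 ∈ ZZ c q ε z.1 z.2.1 then
    {p | p.1 ∈ Dy (q * z.1) z.2.2 ∧ p.2 = lim c p.1 ∧ idx c (2 ^ q) z.1 p.1 = z.2.1}
  else ∅

lemma cov_diam (q : ℕ) (ε : ℝ) (L : ℕ) (z : ℕ × ℤ × ℕ) :
    Metric.ediam (cov c q ε L z) ≤ ENNReal.ofReal (1 / (2:ℝ) ^ (q * z.1)) := by
  obtain ⟨n, m, i⟩ := z
  unfold cov
  split_ifs with h
  · refine Metric.ediam_le (fun p hp p' hp' => ?_)
    obtain ⟨h1, h2, h3⟩ := hp
    obtain ⟨h1', h2', h3'⟩ := hp'
    simp only at h1 h2 h3 h1' h2' h3'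
    rw [edist_dist]
    apply ENNReal.ofReal_le_ofReal
    rw [Prod.dist_eq]
    have hpos : (0:ℝ) < 2 ^ (q * n) := by positivity
    apply max_le
    · rw [Real.dist_eq, abs_le]
      unfold Dy at h1 h1'
      rw [Set.mem_Ico] at h1 h1'
      have e : ((i:ℝ) + 1) / 2 ^ (q * n) = (i:ℝ) / 2 ^ (q * n) + 1 / 2 ^ (q * n) := by ring
      rw [e] at h1 h1'
      constructor <;> linarith [h1.1, h1.2, h1'.1, h1'.2]
    · rw [h2, h2', Real.dist_eq]
      unfold idx at h3 h3'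
      have hf := h3.trans h3'.symm
      have h4 := Int.abs_sub_lt_one_of_floor_eq_floor hf
      rw [← mul_sub, abs_mul] at h4
      push_cast at h4
      rw [← pow_mul, abs_of_pos hpos] at h4
      rw [le_div_iff₀ hpos]
      linarith
  · simp

lemma cov_cover {q : ℕ} (hq : 5 ≤ q) {ε : ℝ} (hε : 0 < ε) (L : ℕ) :
    gr c ⊆ ⋃ z, cov c q ε L z := by
  classical
  rintro ⟨t, y⟩ ⟨ht, hy⟩
  simp only at ht hy
  obtain ⟨n, hn, hg⟩ := exists_good c hq hε ht.1 ht.2 L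
  set i := ⌊(2:ℝ) ^ (q * n) * t⌋₊ with hi
  have hti : t ∈ Dy (q * n) i := mem_Dy.mpr ⟨ht.1, rfl⟩
  have hil : i < 2 ^ (q * n) := by
    rw [hi, Nat.floor_lt (by have := ht.1; positivity)]
    push_cast
    have : (0:ℝ) < 2 ^ (q * n) := by positivity
    nlinarith [ht.2]
  refine Set.mem_iUnion.mpr ⟨(n, idx c (2 ^ q) n t, i), ?_⟩
  unfold cov
  rw [if_pos]
  · exact ⟨hti, hy, rfl⟩
  · refine ⟨hn, ?_⟩
    unfold ZZ
    rw [Finset.mem_filter, Finset.mem_range]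
    exact ⟨hil, t, hti, rfl, hg⟩

lemma cov_sum {q : ℕ} (hq : 5 ≤ q)
    (hkey : ∀ (n : ℕ) (m : ℤ), 0 < am c (2 ^ q) n m →
    ∃ j < 2 ^ q,
      am c (2 ^ q) (n + 1) (((2 ^ q : ℕ) : ℤ) * m + (j : ℕ)) ≤
          am c (2 ^ q) n m / (2 * ((2 ^ q : ℕ) : ℝ)) ∨
      2 * am c (2 ^ q) n m / ((2 ^ q : ℕ) : ℝ) ≤
          am c (2 ^ q) (n + 1) (((2 ^ q : ℕ) : ℤ) * m + (j : ℕ)))
    {ε s σ : ℝ} (hs : 0 < s) (hσ0 : 0 ≤ σ)
    (hσ : ((2 ^ q : ℕ) : ℝ) ^ (1 + ε - s) * rho (2 ^ q) = σ ^ 2)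
    {L : ℕ} (hL : 2 ≤ HH * L) (hσ1 : σ ≤ 1) :
    ∑' z, Metric.ediam (cov c q ε L z) ^ s ≤
      ENNReal.ofReal (σ ^ L) * (3 * Phi c (2 ^ q) 0 * ∑' n : ℕ, ENNReal.ofReal (σ ^ n)) := by
  classical
  set B : ℝ := ((2 ^ q : ℕ) : ℝ) with hB
  have hB2 : B = (2:ℝ) ^ q := by rw [hB]; push_cast; rfl
  have hB0 : 0 < B := by rw [hB2]; positivity
  have hterm : ∀ n m i, Metric.ediam (cov c q ε L (n, m, i)) ^ s ≤
      if L ≤ n ∧ i ∈ ZZ c q ε n m then ENNReal.ofReal (B ^ (-(s * n))) else 0 := by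
    intro n m i
    split_ifs with h
    · refine (ENNReal.rpow_le_rpow (cov_diam c q ε L (n, m, i)) hs.le).trans (le_of_eq ?_)
      simp only
      rw [ENNReal.ofReal_rpow_of_pos (by positivity)]
      congr 1
      rw [one_div, ← Real.rpow_natCast, ← Real.rpow_neg (by norm_num), ← Real.rpow_mul (by norm_num),
        hB2, ← Real.rpow_natCast 2 q, ← Real.rpow_mul (by norm_num)]
      congr 1
      push_cast
      ring
    · unfold cov
      rw [if_neg h, Metric.ediam_empty, ENNReal.zero_rpow_of_pos hs]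
  rw [ENNReal.tsum_prod']
  have hn : ∀ n : ℕ, ∑' w : ℤ × ℕ, Metric.ediam (cov c q ε L (n, w)) ^ s ≤
      ENNReal.ofReal (σ ^ L) * (3 * Phi c (2 ^ q) 0 * ENNReal.ofReal (σ ^ n)) := by
    intro n
    rw [ENNReal.tsum_prod']
    by_cases hLn : L ≤ n
    · have hHn : 2 ≤ HH * n := by
        have : (L:ℝ) ≤ n := by exact_mod_cast hLn
        nlinarith [HH_pos]
      have hm : ∀ m : ℤ, ∑' i : ℕ, Metric.ediam (cov c q ε L (n, m, i)) ^ s ≤
          ENNReal.ofReal (B ^ (-(s * n)) * ((2:ℝ) ^ (q * n) * B ^ (ε * n)))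
            * ENNReal.ofReal (a3 c (2 ^ q) n m ^ HH) := by
        intro m
        calc ∑' i : ℕ, Metric.ediam (cov c q ε L (n, m, i)) ^ s
            ≤ ∑' i : ℕ, (if i ∈ ZZ c q ε n m then ENNReal.ofReal (B ^ (-(s * n))) else 0) := by
              refine ENNReal.tsum_le_tsum (fun i => (hterm n m i).trans (le_of_eq ?_))
              simp only [hLn, true_and]
          _ = ∑ i ∈ ZZ c q ε n m, ENNReal.ofReal (B ^ (-(s * n))) := by
              rw [tsum_eq_sum (s := ZZ c q ε n m) (fun i hi => if_neg hi)]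
              exact Finset.sum_congr rfl (fun i hi => if_pos hi)
          _ = ENNReal.ofReal (((ZZ c q ε n m).card : ℝ) * B ^ (-(s * n))) := by
              rw [Finset.sum_const, nsmul_eq_mul, ENNReal.ofReal_mul (Nat.cast_nonneg _),
                ENNReal.ofReal_natCast]
          _ ≤ ENNReal.ofReal ((B ^ (-(s * n)) * ((2:ℝ) ^ (q * n) * B ^ (ε * n)))
                * a3 c (2 ^ q) n m ^ HH) := by
              apply ENNReal.ofReal_le_ofReal
              have h1 := card_ZZ c hq ε hHn m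
              have h2 : 0 ≤ B ^ (-(s * n)) := by positivity
              calc ((ZZ c q ε n m).card : ℝ) * B ^ (-(s * n))
                  ≤ ((2:ℝ) ^ (q * n) * (B ^ (ε * n) * a3 c (2 ^ q) n m ^ HH))
                    * B ^ (-(s * n)) := mul_le_mul_of_nonneg_right h1 h2
                _ = _ := by ring
          _ = _ := by
              rw [ENNReal.ofReal_mul (by positivity)]
      refine (ENNReal.tsum_le_tsum hm).trans ?_
      rw [ENNReal.tsum_mul_left]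
      have hphi := (tsum_a3 c (2 ^ q) n).trans (mul_le_mul_right (Phi_le c hkey n) 3)
      have e1 : B ^ (-(s * n)) * ((2:ℝ) ^ (q * n) * B ^ (ε * n)) = (B ^ (1 + ε - s)) ^ n := by
        have e2 : (2:ℝ) ^ (q * n) = B ^ (n:ℝ) := by
          rw [hB2, Real.rpow_natCast, pow_mul]
        rw [e2, ← Real.rpow_add hB0, ← Real.rpow_add hB0, ← Real.rpow_natCast,
          ← Real.rpow_mul hB0.le]
        congr 1
        ring
      calc ENNReal.ofReal (B ^ (-(s * n)) * ((2:ℝ) ^ (q * n) * B ^ (ε * n)))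
            * ∑' m : ℤ, ENNReal.ofReal (a3 c (2 ^ q) n m ^ HH)
          ≤ ENNReal.ofReal ((B ^ (1 + ε - s)) ^ n)
            * (3 * (ENNReal.ofReal (rho (2 ^ q) ^ n) * Phi c (2 ^ q) 0)) := by
            rw [e1]
            exact mul_le_mul_right hphi _
        _ = ENNReal.ofReal ((B ^ (1 + ε - s)) ^ n * rho (2 ^ q) ^ n)
            * (3 * Phi c (2 ^ q) 0) := by
            rw [ENNReal.ofReal_mul (by positivity)]
            ring
        _ = ENNReal.ofReal (σ ^ n * σ ^ n) * (3 * Phi c (2 ^ q) 0) := by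
            rw [← mul_pow, hσ]
            congr 2
            ring
        _ ≤ ENNReal.ofReal (σ ^ L * σ ^ n) * (3 * Phi c (2 ^ q) 0) := by
            gcongr ENNReal.ofReal ?_ * _
            exact mul_le_mul_of_nonneg_right (pow_le_pow_of_le_one hσ0 hσ1 hLn)
              (pow_nonneg hσ0 n)
        _ = _ := by
            rw [ENNReal.ofReal_mul (pow_nonneg hσ0 L)]
            ring
    · have hz : ∀ m : ℤ, ∑' i : ℕ, Metric.ediam (cov c q ε L (n, m, i)) ^ s = 0 := by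
        intro m
        rw [ENNReal.tsum_eq_zero]
        intro i
        have := hterm n m i
        rw [if_neg (fun h => hLn h.1)] at this
        exact le_antisymm this (zero_le)
      rw [ENNReal.tsum_eq_zero.mpr hz]
      exact zero_le
  refine (ENNReal.tsum_le_tsum hn).trans (le_of_eq ?_)
  rw [ENNReal.tsum_mul_left, ENNReal.tsum_mul_left]

end Pool.Agent.Helper41.Dragon
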