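import Pool.Agent.Helper41.DragonG

set_option autoImplicit false
open Filter Topology MeasureTheory
open scoped ENNReal NNReal

namespace Pool.Agent.Helper41.Dragon

lemma M_add (u v : ℤ × ℤ) : M (u + v) = M u + M v := by
  ext <;> simp [M] <;> ring

lemma M_iter_add (n : ℕ) (u v : ℤ × ℤ) : M^[n] (u + v) = M^[n] u + M^[n] v := by
  induction n generalizing u v with
  | zero => rfl
  | succ n ih => rw [Function.iterate_succ_apply, Function.iterate_succ_apply,
      Function.iterate_succ_apply, M_add, ih]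

lemma foldl_affine (C : ZMod 10 → ℤ × ℤ) (w : List Bool) : ∀ (u v : ℤ × ℤ) (J : ZMod 10),
    w.foldl (stp C) (u + v, J)
      = (M^[w.length] u + (w.foldl (stp C) (v, J)).1, (w.foldl (stp C) (v, J)).2) := by
  induction w with
  | nil => intro u v J; rfl
  | cons d w ih =>
    intro u v J
    rw [List.foldl_cons, List.foldl_cons, List.length_cons, Function.iterate_succ_apply]
    have h : stp C (u + v, J) d = (M u + (stp C (v, J) d).1, (stp C (v, J) d).2) := by
      unfold stp
      cases d
      · simp [M_add]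
      · simp only [if_true]
        rw [M_add, M_add, M_add, add_assoc]
    rw [h, ih]

lemma foldl_affine0 (C : ZMod 10 → ℤ × ℤ) (w : List Bool) (u : ℤ × ℤ) (J : ZMod 10) :
    w.foldl (stp C) (u, J)
      = (M^[w.length] u + (w.foldl (stp C) ((0, 0), J)).1, (w.foldl (stp C) ((0, 0), J)).2) := by
  have h := foldl_affine C w u (0, 0) J
  have e : u + (0, 0) = u := by ext <;> simp
  rwa [e] at h

/-- Six words for the horizontal coordinate. -/
def wordsCos : Finset (List Bool) :=
  {[false, false, true, true, false, false, true, true],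
   [true, false, true, false, false, false, true, true],
   [false, false, true, true, true, false, true, false],
   [true, false, true, false, true, false, true, false],
   [true, false, false, false, true, true, true, false],
   [true, true, true, false, false, true, false, false]}

/-- Four words for the vertical coordinate. -/
def wordsSin : Finset (List Bool) :=
  {[false, true, false, true], [true, false, false, true],
   [false, true, true, false], [true, false, true, false]}

lemma ph4 : ph ^ 4 = 3 * ph + 2 := by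
  have h := ph_sq
  have e : ph ^ 4 = (ph * ph) * (ph * ph) := by ring
  rw [e, h]
  linear_combination h

lemma ph8 : ph ^ 8 = 21 * ph + 13 := by
  have h := ph_sq
  have e : ph ^ 8 = ph ^ 4 * ph ^ 4 := by ring
  rw [e, ph4]
  linear_combination 9 * h

/-- The heavy loop for the horizontal coordinate. -/
noncomputable def heavyCos : Heavy cosCoord where
  p := 8
  words := wordsCos
  J0 := 3
  next := fun u => M^[8] u + (-6, -9)
  hp := by norm_num
  hlen := by decide
  hloop := by
    intro w hw u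
    have hlen : w.length = 8 := by
      revert w
      decide
    have h0 : w.foldl (stp Ccos) ((0, 0), 3) = ((-6, -9), 3) := by
      revert w
      decide
    have h1 := foldl_affine0 Ccos w u 3
    rw [hlen, h0] at h1
    exact h1
  hheavy := by
    have h : wordsCos.card = 6 := by decide
    rw [h, ph8]
    push_cast
    linarith [ph_lb]

/-- The heavy loop for the vertical coordinate. -/
noncomputable def heavySin : Heavy sinCoord where
  p := 4
  words := wordsSin
  J0 := 1
  next := fun u => M^[4] u + (1, 2)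
  hp := by norm_num
  hlen := by decide
  hloop := by
    intro w hw u
    have hlen : w.length = 4 := by
      revert w
      decide
    have h0 : w.foldl (stp Csin) ((0, 0), 1) = ((1, 2), 1) := by
      revert w
      decide
    have h1 := foldl_affine0 Csin w u 1
    rw [hlen, h0] at h1
    exact h1
  hheavy := by
    have h : wordsSin.card = 4 := by decide
    rw [h, ph4]
    push_cast
    linarith [ph_lb]

/-! ### The dimension of the graph -/

lemma hausdorff_zero (c : Coord) {q : ℕ} (hq : 5 ≤ q)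
    (hkey : ∀ (n : ℕ) (m : ℤ), 0 < am c (2 ^ q) n m →
    ∃ j < 2 ^ q,
      am c (2 ^ q) (n + 1) (((2 ^ q : ℕ) : ℤ) * m + (j : ℕ)) ≤
          am c (2 ^ q) n m / (2 * ((2 ^ q : ℕ) : ℝ)) ∨
      2 * am c (2 ^ q) n m / ((2 ^ q : ℕ) : ℝ) ≤
          am c (2 ^ q) (n + 1) (((2 ^ q : ℕ) : ℤ) * m + (j : ℕ)))
    {ε s σ : ℝ} (hε : 0 < ε) (hs : 0 < s) (hσ0 : 0 ≤ σ) (hσ1 : σ < 1)
    (hσ : ((2 ^ q : ℕ) : ℝ) ^ (1 + ε - s) * rho (2 ^ q) = σ ^ 2) :
    Measure.hausdorffMeasure s (gr c) = 0 := by
  have h2q : (1:ℝ) / 2 ^ q < 1 := by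
    rw [div_lt_one (by positivity)]
    exact one_lt_pow₀ (by norm_num) (by omega)
  have hr : Tendsto (fun L : ℕ => ENNReal.ofReal (1 / (2:ℝ) ^ (q * L))) atTop (𝓝 0) := by
    rw [← ENNReal.ofReal_zero]
    apply ENNReal.tendsto_ofReal
    have h := tendsto_pow_atTop_nhds_zero_of_lt_one (r := (1:ℝ) / 2 ^ q) (by positivity) h2q
    refine h.congr (fun L => ?_)
    rw [div_pow, one_pow, ← pow_mul]
  have hbound := Measure.hausdorffMeasure_le_liminf_tsum (ι := fun _ : ℕ => ℕ × ℤ × ℕ) s (gr c)
    (fun L : ℕ => ENNReal.ofReal (1 / (2:ℝ) ^ (q * L))) hr (fun L z => cov c q ε L z)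
    (Filter.Eventually.of_forall (fun L z => by
      by_cases h : L ≤ z.1
      · refine (cov_diam c q ε L z).trans ?_
        apply ENNReal.ofReal_le_ofReal
        apply one_div_le_one_div_of_le (by positivity)
        exact pow_le_pow_right₀ (by norm_num) (Nat.mul_le_mul_left q h)
      · have : cov c q ε L z = ∅ := by
          unfold cov
          rw [if_neg (fun h' => h h'.1)]
        rw [this]
        simp))
    (Filter.Eventually.of_forall (fun L => cov_cover c hq hε L))
  set K : ℝ≥0∞ := 3 * Phi c (2 ^ q) 0 * ∑' n : ℕ, ENNReal.ofReal (σ ^ n) with hK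
  have hKtop : K ≠ ⊤ := by
    rw [hK]
    apply ENNReal.mul_ne_top
    · exact ENNReal.mul_ne_top (by norm_num) (Phi_zero c _)
    · simp_rw [ENNReal.ofReal_pow hσ0]
      rw [ENNReal.tsum_geometric, ENNReal.inv_ne_top]
      have : ENNReal.ofReal σ < 1 := by
        rw [← ENNReal.ofReal_one]
        exact (ENNReal.ofReal_lt_ofReal_iff one_pos).mpr hσ1
      exact (tsub_pos_of_lt this).ne'
  have hlim : Tendsto (fun L : ℕ => ENNReal.ofReal (σ ^ L) * K) atTop (𝓝 0) := by
    have h1 : Tendsto (fun L : ℕ => ENNReal.ofReal (σ ^ L)) atTop (𝓝 0) := by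
      rw [← ENNReal.ofReal_zero]
      exact ENNReal.tendsto_ofReal (tendsto_pow_atTop_nhds_zero_of_lt_one hσ0 hσ1)
    have h2 := ENNReal.Tendsto.mul_const h1 (Or.inr hKtop)
    rwa [zero_mul] at h2
  have hle : liminf (fun L => ∑' z, Metric.ediam (cov c q ε L z) ^ s) atTop ≤ 0 := by
    have hev : ∀ᶠ L : ℕ in atTop, 2 ≤ HH * L := by
      have h1 : Tendsto (fun L : ℕ => HH * (L:ℝ)) atTop atTop :=
        Tendsto.const_mul_atTop HH_pos tendsto_natCast_atTop_atTop
      exact h1.eventually_ge_atTop 2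
    have hev2 : ∀ᶠ L : ℕ in atTop, ∑' z, Metric.ediam (cov c q ε L z) ^ s
        ≤ ENNReal.ofReal (σ ^ L) * K := by
      filter_upwards [hev] with L hL
      exact cov_sum c hq hkey hs hσ0 hσ hL hσ1.le
    rw [← hlim.liminf_eq]
    exact Filter.liminf_le_liminf hev2
  exact le_antisymm (hbound.trans hle) zero_le

lemma exists_eps {b : ℕ} (hb : 2 ≤ b) : ∃ ε : ℝ, 0 < ε ∧ ε < 1 / 2 ∧
    (b:ℝ) ^ (2 * ε) * (1 - k0 / b) < 1 := by
  have hbR : (2:ℝ) ≤ b := by exact_mod_cast hb
  have hcont : Continuous (fun ε : ℝ => (b:ℝ) ^ (2 * ε) * (1 - k0 / b)) := by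
    apply Continuous.mul _ continuous_const
    exact (Real.continuous_const_rpow (by linarith)).comp (continuous_const.mul continuous_id)
  have h0 : (b:ℝ) ^ (2 * (0:ℝ)) * (1 - k0 / b) < 1 := by
    rw [mul_zero, Real.rpow_zero, one_mul]
    have : 0 < k0 / b := div_pos k0_pos (by linarith)
    linarith
  have h1 : ∀ᶠ ε in 𝓝 (0:ℝ), (b:ℝ) ^ (2 * ε) * (1 - k0 / b) < 1 :=
    (hcont.tendsto 0).eventually (gt_mem_nhds h0)
  obtain ⟨δ, hδ, hball⟩ := Metric.eventually_nhds_iff.mp h1
  refine ⟨min (δ / 2) (1 / 4), lt_min (by linarith) (by norm_num), ?_, ?_⟩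
  · exact (min_le_right _ _).trans_lt (by norm_num)
  · apply hball
    rw [Real.dist_eq, sub_zero, abs_of_pos (lt_min (by linarith) (by norm_num))]
    exact (min_le_left _ _).trans_lt (by linarith)

lemma dim_gr (c : Coord) (h : Heavy c) : dimH (gr c) < ENNReal.ofReal (2 - HH) := by
  obtain ⟨q, hq, hkey⟩ := key c h
  have hb2 : 2 ≤ 2 ^ q := by
    calc 2 = 2 ^ 1 := by norm_num
      _ ≤ 2 ^ q := Nat.pow_le_pow_right (by norm_num) (by omega)
  have hb0 : 0 < 2 ^ q := by positivity
  obtain ⟨ε, hε0, hε1, hε2⟩ := exists_eps hb2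
  set s : ℝ := 2 - HH - ε with hs
  have hs0 : 0 < s := by have := HH_lt_one; linarith
  set B : ℝ := ((2 ^ q : ℕ) : ℝ) with hB
  have hBpos : 0 < B := by rw [hB]; positivity
  set θ : ℝ := B ^ (2 * ε) * (1 - k0 / B) with hθ
  have hk : 0 ≤ 1 - k0 / B := by
    have h1 : (1:ℝ) ≤ B := by rw [hB]; exact_mod_cast hb0
    have : k0 / B ≤ 1 := by
      rw [div_le_one (by linarith)]
      linarith [k0_lt_one]
    linarith
  have hθ0 : 0 ≤ θ := by rw [hθ]; positivity
  have hσ : B ^ (1 + ε - s) * rho (2 ^ q) = (Real.sqrt θ) ^ 2 := by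
    rw [Real.sq_sqrt hθ0, hθ]
    unfold rho
    rw [← hB]
    have e : B ^ (2 * ε) = B ^ (1 + ε - s) * B ^ (1 - HH) := by
      rw [← Real.rpow_add hBpos]
      congr 1
      rw [hs]; ring
    rw [e]
    ring
  have hz := hausdorff_zero c hq hkey hε0 hs0 (Real.sqrt_nonneg θ)
    ((Real.sqrt_lt' one_pos).mpr (by rw [one_pow]; exact hε2)) hσ
  have hle : dimH (gr c) ≤ ENNReal.ofReal s := by
    apply dimH_le_of_hausdorffMeasure_ne_top (d := s.toNNReal)
    rw [Real.coe_toNNReal s hs0.le, hz]
    exact ENNReal.zero_ne_top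
  refine lt_of_le_of_lt hle ?_
  apply (ENNReal.ofReal_lt_ofReal_iff (by have := HH_lt_one; linarith)).mpr
  rw [hs]
  linarith

/-- The embedding of the product into the Euclidean plane. -/
noncomputable def emb (p : ℝ × ℝ) : EuclideanSpace ℝ (Fin 2) := !₂[p.1, p.2]

lemma emb_lip : LipschitzWith 2 emb := by
  apply LipschitzWith.of_dist_le_mul
  intro p q
  rw [EuclideanSpace.dist_eq, Fin.sum_univ_two]
  have h1 : dist (emb p 0) (emb q 0) ≤ dist p q := by
    show dist p.1 q.1 ≤ dist p q
    exact le_max_left _ _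
  have h2 : dist (emb p 1) (emb q 1) ≤ dist p q := by
    show dist p.2 q.2 ≤ dist p q
    exact le_max_right _ _
  have h3 : (0:ℝ) ≤ dist p q := dist_nonneg
  apply Real.sqrt_le_iff.mpr
  constructor
  · positivity
  · have h4 := pow_le_pow_left₀ dist_nonneg h1 2
    have h5 := pow_le_pow_left₀ dist_nonneg h2 2
    push_cast
    nlinarith

lemma dim_graph (c : Coord) (h : Heavy c) :
    dimH (graphOn (lim c)) < ENNReal.ofReal (2 - HH) := by
  have hsub : graphOn (lim c) ⊆ emb '' (gr c ∪ {(1, lim c 1)}) := by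
    rintro p ⟨t, ht, rfl⟩
    refine ⟨(t, lim c t), ?_, rfl⟩
    rcases eq_or_lt_of_le ht.2 with h1 | h1
    · right
      rw [h1]
      rfl
    · left
      exact ⟨⟨ht.1, h1⟩, rfl⟩
  refine lt_of_le_of_lt ((dimH_mono hsub).trans (emb_lip.dimH_image_le _)) ?_
  rw [dimH_union, dimH_singleton, max_eq_left zero_le]
  exact dim_gr c h

lemma value_eq : 1 - Real.log (Real.cos al) / Real.log 2 = 2 - HH := by
  have h : Real.cos al = ph / 2 := by linarith [two_cos_al]
  rw [h, Real.log_div ph_pos.ne' (by norm_num)]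
  unfold HH
  have := log2_pos.ne'
  field_simp
  ring

end Pool.Agent.Helper41.Dragon
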