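import Mathlib

set_option autoImplicit false
open Finset

namespace Pool.Agent.Helper41.HL

/-- The weights, defined by downward recursion in the frequency `x`. -/
noncomputable def psi (B M N a : ℕ) (κ : ℝ) (W : ℕ → ℝ) (x : ℕ) : ℝ :=
  max 1 ((1 / (4 * (a:ℝ))) * ∑ s ∈ Finset.Ioc (B * x) N,
    W s / (κ + ∑ t ∈ (Finset.Ioc s M).attach,
      if h : x < t.1 then W t.1 / psi B M N a κ W t.1 else 0))
termination_by M - x
decreasing_by
  have h1 := Finset.mem_Ioc.mp t.2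
  omega

/-- The tail quantity. -/
noncomputable def Vf (B M N a : ℕ) (κ : ℝ) (W : ℕ → ℝ) (x : ℕ) : ℝ :=
  κ + ∑ t ∈ Finset.Ioc x M, W t / psi B M N a κ W t

/-- The gain. -/
noncomputable def hf (B M N a : ℕ) (κ : ℝ) (W : ℕ → ℝ) (x : ℕ) : ℝ :=
  4 * (a:ℝ) + ∑ s ∈ Finset.Ioc x N, W s / Vf B M N a κ W s

section weights

variable {B M N a : ℕ} {κ : ℝ} {W : ℕ → ℝ}

lemma psi_eq (hB : 1 ≤ B) (x : ℕ) : psi B M N a κ W x =
    max 1 ((1 / (4 * (a:ℝ))) * ∑ s ∈ Finset.Ioc (B * x) N, W s / Vf B M N a κ W s) := by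
  rw [psi]
  congr 2
  apply Finset.sum_congr rfl
  intro s hs
  have hs1 := (Finset.mem_Ioc.mp hs).1
  unfold Vf
  congr 2
  rw [← Finset.sum_attach (Finset.Ioc s M)]
  apply Finset.sum_congr rfl
  intro t _
  have ht := (Finset.mem_Ioc.mp t.2).1
  have hx : x < t.1 := by
    have : x ≤ B * x := Nat.le_mul_of_pos_left x hB
    omega
  rw [dif_pos hx]

lemma psi_ge_one (hB : 1 ≤ B) (x : ℕ) : 1 ≤ psi B M N a κ W x := by
  rw [psi_eq hB]
  exact le_max_left _ _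

lemma psi_pos (hB : 1 ≤ B) (x : ℕ) : 0 < psi B M N a κ W x :=
  lt_of_lt_of_le one_pos (psi_ge_one hB x)

lemma Vf_ge (hB : 1 ≤ B) (hW : ∀ s, 0 ≤ W s) (x : ℕ) : κ ≤ Vf B M N a κ W x := by
  unfold Vf
  have : 0 ≤ ∑ t ∈ Finset.Ioc x M, W t / psi B M N a κ W t :=
    Finset.sum_nonneg (fun t _ => div_nonneg (hW t) (psi_pos hB t).le)
  linarith

lemma Vf_pos (hB : 1 ≤ B) (hκ : 0 < κ) (hW : ∀ s, 0 ≤ W s) (x : ℕ) :
    0 < Vf B M N a κ W x := lt_of_lt_of_le hκ (Vf_ge hB hW x)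

lemma Vf_step (x : ℕ) (hx : x < M) :
    Vf B M N a κ W x = Vf B M N a κ W (x + 1) + W (x + 1) / psi B M N a κ W (x + 1) := by
  unfold Vf
  have h : Finset.Ioc x M = insert (x + 1) (Finset.Ioc (x + 1) M) := by
    ext t
    simp only [Finset.mem_Ioc, Finset.mem_insert]
    omega
  rw [h, Finset.sum_insert (by simp)]
  ring

lemma hf_ge (hB : 1 ≤ B) (hκ : 0 < κ) (hW : ∀ s, 0 ≤ W s) (x : ℕ) :
    4 * (a:ℝ) ≤ hf B M N a κ W x := by
  unfold hf
  have : 0 ≤ ∑ s ∈ Finset.Ioc x N, W s / Vf B M N a κ W s :=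
    Finset.sum_nonneg (fun t _ => div_nonneg (hW t) (Vf_pos hB hκ hW t).le)
  linarith

lemma hf_anti (hB : 1 ≤ B) (hκ : 0 < κ) (hW : ∀ s, 0 ≤ W s) {x y : ℕ} (hxy : x ≤ y) :
    hf B M N a κ W y ≤ hf B M N a κ W x := by
  unfold hf
  have : ∑ s ∈ Finset.Ioc y N, W s / Vf B M N a κ W s
      ≤ ∑ s ∈ Finset.Ioc x N, W s / Vf B M N a κ W s := by
    apply Finset.sum_le_sum_of_subset_of_nonneg
    · exact Finset.Ioc_subset_Ioc_left hxy
    · intro s _ _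
      exact div_nonneg (hW s) (Vf_pos hB hκ hW s).le
  linarith

lemma psi_anti (hB : 1 ≤ B) (hκ : 0 < κ) (hW : ∀ s, 0 ≤ W s) {x y : ℕ}
    (hxy : x ≤ y) : psi B M N a κ W y ≤ psi B M N a κ W x := by
  rw [psi_eq hB, psi_eq hB]
  apply max_le_max le_rfl
  apply mul_le_mul_of_nonneg_left _ (by positivity)
  apply Finset.sum_le_sum_of_subset_of_nonneg
  · exact Finset.Ioc_subset_Ioc_left (Nat.mul_le_mul_left B hxy)
  · intro s _ _
    exact div_nonneg (hW s) (Vf_pos hB hκ hW s).le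

lemma psi_ge_hf (hB : 1 ≤ B) (ha : 1 ≤ a) (x : ℕ) :
    hf B M N a κ W (B * x) / (8 * a) ≤ psi B M N a κ W x := by
  have ha' : (1:ℝ) ≤ a := by exact_mod_cast ha
  rw [psi_eq hB]
  unfold hf
  set G := ∑ s ∈ Finset.Ioc (B * x) N, W s / Vf B M N a κ W s
  have h1 := le_max_left (1:ℝ) ((1 / (4 * (a:ℝ))) * G)
  have h2 := le_max_right (1:ℝ) ((1 / (4 * (a:ℝ))) * G)
  set X := max (1:ℝ) ((1 / (4 * (a:ℝ))) * G)
  rw [div_le_iff₀ (by positivity)]
  have h3 : G ≤ 4 * a * X := by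
    have : 4 * (a:ℝ) * ((1 / (4 * (a:ℝ))) * G) = G := by field_simp
    calc G = 4 * (a:ℝ) * ((1 / (4 * (a:ℝ))) * G) := this.symm
      _ ≤ _ := mul_le_mul_of_nonneg_left h2 (by positivity)
  nlinarith

lemma Vf_anti (hB : 1 ≤ B) (hW : ∀ s, 0 ≤ W s) {x y : ℕ} (hxy : x ≤ y) :
    Vf B M N a κ W y ≤ Vf B M N a κ W x := by
  unfold Vf
  have : ∑ t ∈ Finset.Ioc y M, W t / psi B M N a κ W t
      ≤ ∑ t ∈ Finset.Ioc x M, W t / psi B M N a κ W t := by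
    apply Finset.sum_le_sum_of_subset_of_nonneg
    · exact Finset.Ioc_subset_Ioc_left hxy
    · intro s _ _
      exact div_nonneg (hW s) (psi_pos hB s).le
  linarith

/-- The ratio of consecutive tails. -/
noncomputable def yf (B M N a : ℕ) (κ : ℝ) (W : ℕ → ℝ) (s : ℕ) : ℝ :=
  (W s / psi B M N a κ W s) / Vf B M N a κ W s

lemma yf_nonneg (hB : 1 ≤ B) (hκ : 0 < κ) (hW : ∀ s, 0 ≤ W s) (s : ℕ) :
    0 ≤ yf B M N a κ W s :=
  div_nonneg (div_nonneg (hW s) (psi_pos hB s).le) (Vf_pos hB hκ hW s).le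

lemma Vf_prod (hB : 1 ≤ B) (hκ : 0 < κ) (hW : ∀ s, 0 ≤ W s) (x : ℕ) :
    ∀ y, x ≤ y → y ≤ M → Vf B M N a κ W x
      = Vf B M N a κ W y * ∏ s ∈ Finset.Ioc x y, (1 + yf B M N a κ W s) := by
  intro y hxy
  induction y, hxy using Nat.le_induction with
  | base => intro _; simp
  | succ y hxy ih =>
    intro hyM
    rw [ih (by omega)]
    have h : Finset.Ioc x (y + 1) = insert (y + 1) (Finset.Ioc x y) := by
      ext t
      simp only [Finset.mem_Ioc, Finset.mem_insert]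
      omega
    rw [h, Finset.prod_insert (by simp), ← mul_assoc]
    congr 1
    rw [Vf_step y (by omega)]
    have hV := (Vf_pos (M := M) (N := N) (a := a) hB hκ hW (y + 1)).ne'
    unfold yf
    field_simp

end weights

end Pool.Agent.Helper41.HL
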