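import Pool.Agent.Helper41.HLA

set_option autoImplicit false
open Finset

namespace Pool.Agent.Helper41.HL

section growth

variable {B M N : ℕ} {κ : ℝ} {W : ℕ → ℝ}

/-- At most `B ^ 2` elements of a separated set lie in a block `(x, B x]`. -/
lemma card_block (S : Set ℕ) (hB : 1 ≤ B)
    (hL : ∀ s ∈ S, ∀ s' ∈ S, s < s' → s' ≤ B * (s' - s)) (x : ℕ)
    (T : Finset ℕ) (hT : ∀ s ∈ T, s ∈ S ∧ x < s ∧ s ≤ B * x) : T.card ≤ B ^ 2 := by
  classical
  rcases Nat.eq_zero_or_pos x with hx | hx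
  · subst hx
    have : T = ∅ := by
      apply Finset.eq_empty_of_forall_notMem
      intro s hs
      obtain ⟨_, h1, h2⟩ := hT s hs
      omega
    simp [this]
  · have hmaps : ∀ s ∈ T, (B * s / x) ∈ Finset.Icc 1 (B ^ 2) := by
      intro s hs
      obtain ⟨_, h1, h2⟩ := hT s hs
      rw [Finset.mem_Icc]
      constructor
      · rw [Nat.le_div_iff_mul_le hx]
        nlinarith
      · apply Nat.div_le_of_le_mul
        nlinarith
    have hinj : Set.InjOn (fun s => B * s / x) (T : Set ℕ) := by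
      have key : ∀ s ∈ T, ∀ s' ∈ T, s < s' → B * s / x < B * s' / x := by
        intro s hs s' hs' hlt
        obtain ⟨hS, h1, h2⟩ := hT s hs
        obtain ⟨hS', h1', h2'⟩ := hT s' hs'
        have h3 := hL s hS s' hS' hlt
        obtain ⟨d, rfl⟩ := Nat.exists_eq_add_of_lt hlt
        have h4 : s + d + 1 - s = d + 1 := by omega
        rw [h4] at h3
        have h5 : B * s + x ≤ B * (s + d + 1) := by
          have : B * (s + d + 1) = B * s + B * (d + 1) := by ring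
          omega
        calc B * s / x < B * s / x + 1 := Nat.lt_succ_self _
          _ = (B * s + x) / x := by rw [Nat.add_div_right _ hx]
          _ ≤ B * (s + d + 1) / x := Nat.div_le_div_right h5
      intro s hs s' hs' heq
      rcases lt_trichotomy s s' with h | h | h
      · exact absurd heq (key s hs s' hs' h).ne
      · exact h
      · exact absurd heq (key s' hs' s hs h).ne'
    have := Finset.card_le_card_of_injOn (fun s => B * s / x) hmaps hinj
    simpa using this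

/-- One step of the growth recursion. -/
lemma growth_step (hB : 1 ≤ B) (hκ : 0 < κ) (hW : ∀ s, 0 ≤ W s)
    (hcard : ∀ x, ((Finset.Ioc x (B * x)).filter (fun s => W s ≠ 0)).card ≤ B ^ 2)
    (x : ℕ) (hx : B * x ≤ N) (hNM : N ≤ M) :
    hf B M N (B ^ 2) κ W (B * (B * x)) *
      (Vf B M N (B ^ 2) κ W x / Vf B M N (B ^ 2) κ W (B * x)) ^ (1 / (8 * (B:ℝ) ^ 4))
      ≤ hf B M N (B ^ 2) κ W x := by
  set a : ℕ := B ^ 2 with ha
  have haB : (a:ℝ) = (B:ℝ) ^ 2 := by rw [ha]; push_cast; ring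
  have hB' : (1:ℝ) ≤ B := by exact_mod_cast hB
  have ha1 : 1 ≤ a := Nat.one_le_pow _ _ hB
  have ha1' : (1:ℝ) ≤ a := by exact_mod_cast ha1
  have hxBx : x ≤ B * x := Nat.le_mul_of_pos_left x hB
  set y := yf B M N a κ W with hy
  have hy0 : ∀ s, 0 ≤ y s := yf_nonneg hB hκ hW
  set Y := ∑ s ∈ Finset.Ioc x (B * x), y s with hY
  have hY0 : 0 ≤ Y := Finset.sum_nonneg (fun s _ => hy0 s)
  -- product bound
  have hprod : ∏ s ∈ Finset.Ioc x (B * x), (1 + y s) ≤ (1 + Y) ^ a := by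
    have h1 : ∏ s ∈ Finset.Ioc x (B * x), (1 + y s)
        = ∏ s ∈ (Finset.Ioc x (B * x)).filter (fun s => W s ≠ 0), (1 + y s) := by
      symm
      apply Finset.prod_subset (Finset.filter_subset _ _)
      intro s hs hs'
      have : W s = 0 := by
        by_contra h
        exact hs' (Finset.mem_filter.mpr ⟨hs, h⟩)
      simp [hy, yf, this]
    rw [h1]
    calc ∏ s ∈ (Finset.Ioc x (B * x)).filter (fun s => W s ≠ 0), (1 + y s)
        ≤ ∏ s ∈ (Finset.Ioc x (B * x)).filter (fun s => W s ≠ 0), (1 + Y) := by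
          apply Finset.prod_le_prod
          · intro s _
            linarith [hy0 s]
          · intro s hs
            have : y s ≤ Y := Finset.single_le_sum (fun s _ => hy0 s)
              (Finset.mem_filter.mp hs).1
            linarith
      _ = (1 + Y) ^ ((Finset.Ioc x (B * x)).filter (fun s => W s ≠ 0)).card := by
          rw [Finset.prod_const]
      _ ≤ (1 + Y) ^ a := pow_le_pow_right₀ (by linarith) (hcard x)
  have hVp := Vf_prod (M := M) (N := N) (a := a) hB hκ hW x (B * x) hxBx (by omega)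
  have hV1 := Vf_pos (M := M) (N := N) (a := a) hB hκ hW (B * x)
  have hratio : Vf B M N a κ W x / Vf B M N a κ W (B * x) ≤ (1 + Y) ^ a := by
    rw [hVp, mul_div_assoc, mul_comm, div_mul_cancel₀ _ hV1.ne']
    exact hprod
  have hratio0 : 0 ≤ Vf B M N a κ W x / Vf B M N a κ W (B * x) :=
    div_nonneg (Vf_pos hB hκ hW x).le hV1.le
  have hθ0 : (0:ℝ) ≤ 1 / (8 * (B:ℝ) ^ 4) := by positivity
  have h2 : (Vf B M N a κ W x / Vf B M N a κ W (B * x)) ^ (1 / (8 * (B:ℝ) ^ 4))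
      ≤ 1 + Y / (8 * a) := by
    calc (Vf B M N a κ W x / Vf B M N a κ W (B * x)) ^ (1 / (8 * (B:ℝ) ^ 4))
        ≤ ((1 + Y) ^ a) ^ (1 / (8 * (B:ℝ) ^ 4)) :=
          Real.rpow_le_rpow hratio0 hratio hθ0
      _ = (1 + Y) ^ (1 / (8 * (a:ℝ))) := by
          rw [← Real.rpow_natCast, ← Real.rpow_mul (by linarith)]
          congr 1
          rw [haB]
          field_simp
      _ ≤ 1 + (1 / (8 * (a:ℝ))) * Y := by
          apply rpow_one_add_le_one_add_mul_self (by linarith) (by positivity)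
          rw [div_le_one (by positivity)]
          linarith
      _ = 1 + Y / (8 * a) := by ring
  have hH2 : 0 ≤ hf B M N a κ W (B * (B * x)) :=
    le_trans (by positivity) (hf_ge hB hκ hW _)
  have hH12 : hf B M N a κ W (B * (B * x)) ≤ hf B M N a κ W (B * x) :=
    hf_anti hB hκ hW (Nat.le_mul_of_pos_left _ hB)
  -- the split of hf
  have hsplit : hf B M N a κ W x = hf B M N a κ W (B * x) +
      ∑ s ∈ Finset.Ioc x (B * x), W s / Vf B M N a κ W s := by
    unfold hf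
    have h : Finset.Ioc x N = Finset.Ioc x (B * x) ∪ Finset.Ioc (B * x) N :=
      (Finset.Ioc_union_Ioc_eq_Ioc hxBx hx).symm
    rw [h, Finset.sum_union]
    · ring
    · rw [Finset.disjoint_left]
      intro s hs hs'
      rw [Finset.mem_Ioc] at hs hs'
      omega
  have hsum : hf B M N a κ W (B * (B * x)) / (8 * a) * Y
      ≤ ∑ s ∈ Finset.Ioc x (B * x), W s / Vf B M N a κ W s := by
    rw [hY, Finset.mul_sum]
    apply Finset.sum_le_sum
    intro s hs
    rw [Finset.mem_Ioc] at hs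
    have h3 : W s / Vf B M N a κ W s = psi B M N a κ W s * y s := by
      have hp := (psi_pos (M := M) (N := N) (a := a) (κ := κ) (W := W) hB s).ne'
      have hv := (Vf_pos (M := M) (N := N) (a := a) hB hκ hW s).ne'
      rw [hy]
      unfold yf
      field_simp
    rw [h3]
    apply mul_le_mul_of_nonneg_right _ (hy0 s)
    calc hf B M N a κ W (B * (B * x)) / (8 * a)
        ≤ hf B M N a κ W (B * s) / (8 * a) := by
          apply div_le_div_of_nonneg_right _ (by positivity)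
          exact hf_anti hB hκ hW (Nat.mul_le_mul_left B hs.2)
      _ ≤ psi B M N a κ W s := psi_ge_hf hB ha1 s
  calc hf B M N a κ W (B * (B * x)) *
      (Vf B M N a κ W x / Vf B M N a κ W (B * x)) ^ (1 / (8 * (B:ℝ) ^ 4))
      ≤ hf B M N a κ W (B * (B * x)) * (1 + Y / (8 * a)) :=
        mul_le_mul_of_nonneg_left h2 hH2
    _ = hf B M N a κ W (B * (B * x)) + hf B M N a κ W (B * (B * x)) / (8 * a) * Y := by ring
    _ ≤ hf B M N a κ W x := by rw [hsplit]; linarith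

/-- Iterated growth. -/
lemma growth_iter (hB : 1 ≤ B) (hκ : 0 < κ) (hW : ∀ s, 0 ≤ W s)
    (hcard : ∀ x, ((Finset.Ioc x (B * x)).filter (fun s => W s ≠ 0)).card ≤ B ^ 2)
    (hNM : N ≤ M) (T : ℕ) : ∀ x, B ^ T * x = N →
    (4 * (B:ℝ) ^ 2) ^ 2 * (Vf B M N (B ^ 2) κ W x / Vf B M N (B ^ 2) κ W N)
        ^ (1 / (8 * (B:ℝ) ^ 4))
      ≤ hf B M N (B ^ 2) κ W x * hf B M N (B ^ 2) κ W (B * x) := by
  have hge : ∀ z, (4 * (B:ℝ) ^ 2) ≤ hf B M N (B ^ 2) κ W z := by
    intro z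
    have := hf_ge (M := M) (N := N) (a := B ^ 2) hB hκ hW z
    push_cast at this
    exact this
  have hBpos : (0:ℝ) ≤ 4 * (B:ℝ) ^ 2 := by positivity
  induction T with
  | zero =>
    intro x hx
    simp only [pow_zero, one_mul] at hx
    subst hx
    rw [div_self (Vf_pos hB hκ hW _).ne', Real.one_rpow, mul_one, sq]
    exact mul_le_mul (hge _) (hge _) hBpos (le_trans hBpos (hge _))
  | succ T ih =>
    intro x hx
    have hx' : B ^ T * (B * x) = N := by rw [← hx]; ring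
    have h1 := ih (B * x) hx'
    have hBx : B * x ≤ N := by
      rw [← hx']
      exact Nat.le_mul_of_pos_left _ (Nat.pow_pos hB)
    have h2 := growth_step (M := M) (N := N) hB hκ hW hcard x hBx hNM
    have hv0 := Vf_pos (M := M) (N := N) (a := B ^ 2) hB hκ hW x
    have hv1 := Vf_pos (M := M) (N := N) (a := B ^ 2) hB hκ hW (B * x)
    have hv2 := Vf_pos (M := M) (N := N) (a := B ^ 2) hB hκ hW N
    have h3 : Vf B M N (B ^ 2) κ W x / Vf B M N (B ^ 2) κ W N =
      (Vf B M N (B ^ 2) κ W x / Vf B M N (B ^ 2) κ W (B * x)) *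
      (Vf B M N (B ^ 2) κ W (B * x) / Vf B M N (B ^ 2) κ W N) := by
      field_simp
    rw [h3, Real.mul_rpow (div_nonneg hv0.le hv1.le) (div_nonneg hv1.le hv2.le)]
    set r1 := (Vf B M N (B ^ 2) κ W x / Vf B M N (B ^ 2) κ W (B * x)) ^ (1 / (8 * (B:ℝ) ^ 4))
    set r2 := (Vf B M N (B ^ 2) κ W (B * x) / Vf B M N (B ^ 2) κ W N) ^ (1 / (8 * (B:ℝ) ^ 4))
    have hr1 : 0 ≤ r1 := Real.rpow_nonneg (div_nonneg hv0.le hv1.le) _
    have hH1 : 0 ≤ hf B M N (B ^ 2) κ W (B * x) := le_trans hBpos (hge _)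
    calc (4 * (B:ℝ) ^ 2) ^ 2 * (r1 * r2) = ((4 * (B:ℝ) ^ 2) ^ 2 * r2) * r1 := by ring
      _ ≤ (hf B M N (B ^ 2) κ W (B * x) * hf B M N (B ^ 2) κ W (B * (B * x))) * r1 :=
        mul_le_mul_of_nonneg_right h1 hr1
      _ = hf B M N (B ^ 2) κ W (B * x) * (hf B M N (B ^ 2) κ W (B * (B * x)) * r1) := by ring
      _ ≤ hf B M N (B ^ 2) κ W (B * x) * hf B M N (B ^ 2) κ W x :=
        mul_le_mul_of_nonneg_left h2 hH1
      _ = _ := by ring

/-- The weight at `f` is large. -/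
lemma psi_growth (hB : 1 ≤ B) (hκ : 0 < κ) (hW : ∀ s, 0 ≤ W s)
    (hcard : ∀ x, ((Finset.Ioc x (B * x)).filter (fun s => W s ≠ 0)).card ≤ B ^ 2)
    (hNM : N ≤ M) (T f : ℕ) (hN : B ^ T * (B * (f + 1)) = N)
    (hsum : Summable W) (htail : ∑' s, W (s + (N + 1)) ≤ κ) :
    (1 / 4) * ((∑' s, W (s + (B * (f + 1) + 1))) / (2 * κ)) ^ (1 / (8 * (B:ℝ) ^ 4))
      ≤ (psi B M N (B ^ 2) κ W f) ^ 3 := by
  have hB' : (1:ℝ) ≤ B := by exact_mod_cast hB
  set x := B * (f + 1) with hx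
  set ψ := psi B M N (B ^ 2) κ W f with hψ
  have hψ1 : 1 ≤ ψ := psi_ge_one hB f
  have hxN : x ≤ N := by
    rw [← hN]
    exact Nat.le_mul_of_pos_left _ (Nat.pow_pos hB)
  have hfx : f ≤ x := by
    rw [hx]
    nlinarith
  -- tails
  have htailsum : ∀ y : ℕ, Summable (fun s => W (s + (y + 1))) := fun y =>
    (summable_nat_add_iff (y + 1)).mpr hsum
  have htail_eq : ∀ y z : ℕ, y ≤ z →
      ∑' s, W (s + (y + 1)) = ∑ s ∈ Finset.Ioc y z, W s + ∑' s, W (s + (z + 1)) := by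
    intro y z hyz
    have h1 := hsum.sum_add_tsum_nat_add (y + 1)
    have h2 := hsum.sum_add_tsum_nat_add (z + 1)
    have h3 : Finset.range (z + 1) = Finset.range (y + 1) ∪ Finset.Ioc y z := by
      ext t
      simp only [Finset.mem_range, Finset.mem_union, Finset.mem_Ioc]
      omega
    rw [h3, Finset.sum_union] at h2
    · linarith
    · rw [Finset.disjoint_left]
      intro t ht ht'
      rw [Finset.mem_range] at ht
      rw [Finset.mem_Ioc] at ht'
      omega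
  have htailnn : ∀ y : ℕ, 0 ≤ ∑' s, W (s + (y + 1)) := fun y =>
    tsum_nonneg (fun s => hW _)
  have htailM : ∑' s, W (s + (M + 1)) ≤ κ := by
    have := htail_eq N M hNM
    have h1 : 0 ≤ ∑ s ∈ Finset.Ioc N M, W s := Finset.sum_nonneg (fun s _ => hW s)
    linarith
  -- lower bound for V x
  have hVx : (∑' s, W (s + (x + 1))) / ψ ≤ Vf B M N (B ^ 2) κ W x := by
    have h1 := htail_eq x M (by omega)
    rw [h1, add_div]
    unfold Vf
    have h2 : (∑' s, W (s + (M + 1))) / ψ ≤ κ :=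
      le_trans (div_le_self (htailnn M) hψ1) htailM
    have h3 : (∑ s ∈ Finset.Ioc x M, W s) / ψ
        ≤ ∑ t ∈ Finset.Ioc x M, W t / psi B M N (B ^ 2) κ W t := by
      rw [Finset.sum_div]
      apply Finset.sum_le_sum
      intro t ht
      rw [Finset.mem_Ioc] at ht
      apply div_le_div_of_nonneg_left (hW t) (psi_pos hB t)
      exact psi_anti hB hκ hW (by omega)
    linarith
  -- upper bound for V N
  have hVN : Vf B M N (B ^ 2) κ W N ≤ 2 * κ := by
    unfold Vf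
    have h3 : ∑ t ∈ Finset.Ioc N M, W t / psi B M N (B ^ 2) κ W t
        ≤ ∑ t ∈ Finset.Ioc N M, W t := by
      apply Finset.sum_le_sum
      intro t _
      exact div_le_self (hW t) (psi_ge_one hB t)
    have h4 := htail_eq N M hNM
    have h5 := htailnn M
    linarith
  have hVNpos := Vf_pos (M := M) (N := N) (a := B ^ 2) hB hκ hW N
  have hiter := growth_iter (M := M) hB hκ hW hcard hNM T x hN
  set θ := 1 / (8 * (B:ℝ) ^ 4) with hθ
  have hθ0 : 0 ≤ θ := by positivity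
  have hθ1 : θ ≤ 1 := by
    rw [hθ, div_le_one (by positivity)]
    have : (1:ℝ) ≤ (B:ℝ) ^ 4 := one_le_pow₀ hB'
    linarith
  -- ψ lower bound through hf
  have hψh : hf B M N (B ^ 2) κ W x / (8 * (B:ℝ) ^ 2) ≤ ψ := by
    have h1 := psi_ge_hf (M := M) (N := N) (κ := κ) (W := W) (a := B ^ 2) hB
      (Nat.one_le_pow _ _ hB) f
    push_cast at h1
    refine le_trans ?_ h1
    apply div_le_div_of_nonneg_right _ (by positivity)
    apply hf_anti hB hκ hW
    rw [hx]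
    exact Nat.mul_le_mul_left B (by omega)
  have hH0 : 0 ≤ hf B M N (B ^ 2) κ W x := by
    have := hf_ge (M := M) (N := N) (a := B ^ 2) hB hκ hW x
    exact le_trans (by positivity) this
  have hHle : hf B M N (B ^ 2) κ W (B * x) ≤ hf B M N (B ^ 2) κ W x :=
    hf_anti hB hκ hW (Nat.le_mul_of_pos_left _ hB)
  set H := hf B M N (B ^ 2) κ W x with hH
  set R := Vf B M N (B ^ 2) κ W x / Vf B M N (B ^ 2) κ W N with hR
  have h6 : (4 * (B:ℝ) ^ 2) ^ 2 * R ^ θ ≤ H ^ 2 := by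
    calc (4 * (B:ℝ) ^ 2) ^ 2 * R ^ θ ≤ H * hf B M N (B ^ 2) κ W (B * x) := hiter
      _ ≤ H * H := mul_le_mul_of_nonneg_left hHle hH0
      _ = H ^ 2 := by ring
  have h7 : (1 / 4) * R ^ θ ≤ ψ ^ 2 := by
    have h8 : H ≤ 8 * (B:ℝ) ^ 2 * ψ := by
      rw [div_le_iff₀ (by positivity)] at hψh
      linarith
    have h9 : H ^ 2 ≤ (8 * (B:ℝ) ^ 2 * ψ) ^ 2 := pow_le_pow_left₀ hH0 h8 2
    have h10 : (16 * (B:ℝ) ^ 4) * R ^ θ ≤ (16 * (B:ℝ) ^ 4) * (4 * ψ ^ 2) := by
      calc (16 * (B:ℝ) ^ 4) * R ^ θ = (4 * (B:ℝ) ^ 2) ^ 2 * R ^ θ := by ring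
        _ ≤ H ^ 2 := h6
        _ ≤ (8 * (B:ℝ) ^ 2 * ψ) ^ 2 := h9
        _ = (16 * (B:ℝ) ^ 4) * (4 * ψ ^ 2) := by ring
    have h11 : R ^ θ ≤ 4 * ψ ^ 2 := le_of_mul_le_mul_left h10 (by positivity)
    linarith
  set τ := ∑' s, W (s + (x + 1)) with hτ
  have hτ0 : 0 ≤ τ := htailnn x
  have h12 : τ / (2 * κ) / ψ ≤ R := by
    rw [hR, div_div, mul_comm (2 * κ) ψ, ← div_div]
    exact div_le_div₀ (Vf_pos hB hκ hW x).le hVx hVNpos hVN
  have h13 : (τ / (2 * κ)) ^ θ / ψ ^ θ ≤ R ^ θ := by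
    rw [← Real.div_rpow (by positivity) (by linarith)]
    exact Real.rpow_le_rpow (by positivity) h12 hθ0
  have hψθ : ψ ^ θ ≤ ψ := by
    calc ψ ^ θ ≤ ψ ^ (1:ℝ) := Real.rpow_le_rpow_of_exponent_le hψ1 hθ1
      _ = ψ := Real.rpow_one _
  have hψθ0 : 0 < ψ ^ θ := Real.rpow_pos_of_pos (by linarith) _
  have h14 : (τ / (2 * κ)) ^ θ ≤ R ^ θ * ψ := by
    rw [div_le_iff₀ hψθ0] at h13
    have hRθ : 0 ≤ R ^ θ := Real.rpow_nonneg (div_nonneg (Vf_pos hB hκ hW x).le hVNpos.le) _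
    exact le_trans h13 (mul_le_mul_of_nonneg_left hψθ hRθ)
  calc (1 / 4) * (τ / (2 * κ)) ^ θ ≤ (1 / 4) * (R ^ θ * ψ) := by linarith
    _ = ((1 / 4) * R ^ θ) * ψ := by ring
    _ ≤ ψ ^ 2 * ψ := mul_le_mul_of_nonneg_right h7 (by linarith)
    _ = ψ ^ 3 := by ring

end growth

end Pool.Agent.Helper41.HL
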