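import Pool.Agent.Helper41.HLB

set_option autoImplicit false
open Finset

namespace Pool.Agent.Helper41.HL

section energy

/-- The negative coefficients of the product `g A`. -/
noncomputable def eco (G A : ℕ → ℂ) (D m : ℕ) : ℂ :=
  ∑ f ∈ Finset.range (D + 1), A f * G (m + f)

variable {B M N D s₀ : ℕ} {κ : ℝ} {W : ℕ → ℝ} {S : Set ℕ} {G A : ℕ → ℂ}

lemma eco_split (hB : 1 ≤ B)
    (hL : ∀ s ∈ S, ∀ s' ∈ S, s < s' → s' ≤ B * (s' - s))
    (hL0 : ∀ s ∈ S, s ≤ B * (s - s₀))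
    (hG0 : ∀ s, s₀ < s → s ∉ S → G s = 0)
    (hA : ∀ f, D < f → A f = 0) (hM : N + D ≤ M)
    (hW1 : ∀ s ∈ S, W s = ‖G s‖ ^ 2) (hW2 : ∀ s, s ∉ S → W s = 0)
    (s f : ℕ) (hs : s ∈ S) (hsN : s ≤ N) (hfs : B * f < s) :
    ‖A f * G s‖ ≤ ‖eco G A D (s - f)‖ +
      ∑ s' ∈ (Finset.Ioc s M).filter (fun s' => W s' ≠ 0), ‖A (s' - (s - f))‖ * ‖G s'‖ := by
  classical
  have hfs' : f < s := lt_of_le_of_lt (Nat.le_mul_of_pos_left f hB) hfs
  set m := s - f with hm
  have hmf : m + f = s := by omega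
  -- extend the range
  have h1 : eco G A D m = ∑ f' ∈ Finset.range (M + D + 1), A f' * G (m + f') := by
    unfold eco
    apply Finset.sum_subset
    · intro t ht
      rw [Finset.mem_range] at ht ⊢
      omega
    · intro t _ ht
      rw [Finset.mem_range] at ht
      rw [hA t (by omega), zero_mul]
  have hzero : ∀ f' < f, G (m + f') = 0 := by
    intro f' hf'
    by_cases h0 : s₀ < m + f'
    · by_cases hmem : m + f' ∈ S
      · exfalso
        have h2 := hL (m + f') hmem s hs (by omega)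
        have h3 : B * (s - (m + f')) ≤ B * f := Nat.mul_le_mul_left B (by omega)
        omega
      · exact hG0 _ h0 hmem
    · exfalso
      have h2 := hL0 s hs
      have h3 : B * (s - s₀) ≤ B * f := Nat.mul_le_mul_left B (by omega)
      omega
  have h2 : A f * G s = eco G A D m -
      ∑ f' ∈ (Finset.range (M + D + 1)).filter (fun f' => f < f'), A f' * G (m + f') := by
    have hfr : f ∈ Finset.range (M + D + 1) := by
      rw [Finset.mem_range]
      omega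
    rw [h1, ← Finset.sum_filter_add_sum_filter_not (Finset.range (M + D + 1)) (fun f' => f < f')]
    have h3 : ∑ f' ∈ (Finset.range (M + D + 1)).filter (fun f' => ¬ f < f'), A f' * G (m + f')
        = A f * G (m + f) := by
      apply Finset.sum_eq_single_of_mem f
      · rw [Finset.mem_filter]
        exact ⟨hfr, lt_irrefl f⟩
      · intro t ht htf
        rw [Finset.mem_filter] at ht
        have h5 := ht.2
        rw [hzero t (by omega), mul_zero]
    rw [h3, hmf]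
    ring
  rw [h2]
  refine le_trans (norm_sub_le _ _) ?_
  gcongr
  refine le_trans (norm_sum_le _ _) ?_
  -- compare the sums
  have h4 : ∑ f' ∈ (Finset.range (M + D + 1)).filter (fun f' => f < f'), ‖A f' * G (m + f')‖
      = ∑ f' ∈ (Finset.range (M + D + 1)).filter
          (fun f' => f < f' ∧ m + f' ≤ M ∧ W (m + f') ≠ 0), ‖A f' * G (m + f')‖ := by
    symm
    apply Finset.sum_subset
    · intro t ht
      rw [Finset.mem_filter] at ht ⊢
      exact ⟨ht.1, ht.2.1⟩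
    · intro t ht ht'
      rw [Finset.mem_filter] at ht ht'
      have h5 : ¬ (m + t ≤ M ∧ W (m + t) ≠ 0) := fun h => ht' ⟨ht.1, ht.2, h⟩
      by_cases h6 : m + t ≤ M
      · have h7 : W (m + t) = 0 := by
          by_contra h8
          exact h5 ⟨h6, h8⟩
        have h9 : G (m + t) = 0 := by
          by_cases h10 : m + t ∈ S
          · rw [hW1 _ h10] at h7
            exact norm_eq_zero.mp (pow_eq_zero_iff (two_ne_zero)|>.mp h7)
          · apply hG0 _ _ h10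
            -- s₀ < m + t, since s₀ < s
            have h11 := hL0 s hs
            by_contra h12
            have h13 : s - s₀ = 0 := by omega
            rw [h13, mul_zero] at h11
            omega
        rw [h9, mul_zero, norm_zero]
      · rw [hA t (by omega), zero_mul, norm_zero]
  rw [h4]
  have h5 : ∑ f' ∈ (Finset.range (M + D + 1)).filter
      (fun f' => f < f' ∧ m + f' ≤ M ∧ W (m + f') ≠ 0), ‖A f' * G (m + f')‖
      = ∑ s' ∈ ((Finset.range (M + D + 1)).filter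
      (fun f' => f < f' ∧ m + f' ≤ M ∧ W (m + f') ≠ 0)).image (fun f' => m + f'),
        ‖A (s' - m)‖ * ‖G s'‖ := by
    rw [Finset.sum_image]
    · apply Finset.sum_congr rfl
      intro t _
      rw [norm_mul]
      congr 3
      omega
    · intro t _ t' _ h
      simpa using h
  rw [h5]
  apply Finset.sum_le_sum_of_subset_of_nonneg
  · intro t ht
    rw [Finset.mem_image] at ht
    obtain ⟨u, hu, rfl⟩ := ht
    rw [Finset.mem_filter] at hu ⊢
    rw [Finset.mem_Ioc]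
    exact ⟨⟨by omega, hu.2.2.1⟩, hu.2.2.2⟩
  · intro t _ _
    positivity

/-- Cauchy-Schwarz for one pair. -/
lemma pair_ineq (hB : 1 ≤ B) (hκ : 0 < κ)
    (hL : ∀ s ∈ S, ∀ s' ∈ S, s < s' → s' ≤ B * (s' - s))
    (hL0 : ∀ s ∈ S, s ≤ B * (s - s₀))
    (hG0 : ∀ s, s₀ < s → s ∉ S → G s = 0)
    (hA : ∀ f, D < f → A f = 0) (hM : N + D ≤ M)
    (hW1 : ∀ s ∈ S, W s = ‖G s‖ ^ 2) (hW2 : ∀ s, s ∉ S → W s = 0)
    (s f : ℕ) (hs : W s ≠ 0) (hsN : s ≤ N) (hfs : B * f < s) :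
    W s / Vf B M N (B ^ 2) κ W s * ‖A f‖ ^ 2 ≤ ‖eco G A D (s - f)‖ ^ 2 / κ +
      ∑ s' ∈ (Finset.Ioc s M).filter (fun s' => W s' ≠ 0),
        psi B M N (B ^ 2) κ W s' * ‖A (s' - (s - f))‖ ^ 2 := by
  classical
  have hW0 : ∀ s, 0 ≤ W s := by
    intro s
    by_cases h : s ∈ S
    · rw [hW1 s h]
      positivity
    · rw [hW2 s h]
  have hsS : s ∈ S := by
    by_contra h
    exact hs (hW2 s h)
  have h1 := eco_split hB hL hL0 hG0 hA hM hW1 hW2 s f hsS hsN hfs
  set m := s - f with hm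
  set F := (Finset.Ioc s M).filter (fun s' => W s' ≠ 0) with hF
  set ψ := psi B M N (B ^ 2) κ W with hψ
  have hψpos : ∀ t, 0 < ψ t := fun t => psi_pos hB t
  have hWG : ∀ t ∈ F, ‖G t‖ ^ 2 = W t := by
    intro t ht
    rw [hF, Finset.mem_filter] at ht
    have : t ∈ S := by
      by_contra h
      exact ht.2 (hW2 t h)
    rw [hW1 t this]
  have hVpos := Vf_pos (M := M) (N := N) (a := B ^ 2) hB hκ hW0 s
  have hVeq : Vf B M N (B ^ 2) κ W s = κ + ∑ t ∈ F, W t / ψ t := by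
    unfold Vf
    congr 1
    symm
    apply Finset.sum_subset (Finset.filter_subset _ _)
    intro t ht ht'
    have : W t = 0 := by
      by_contra h
      exact ht' (Finset.mem_filter.mpr ⟨ht, h⟩)
    rw [this, zero_div]
  -- Cauchy-Schwarz for F
  set X := ∑ t ∈ F, W t / ψ t with hX
  set Z := ∑ t ∈ F, ψ t * ‖A (t - m)‖ ^ 2 with hZ
  set Y := ∑ t ∈ F, ‖A (t - m)‖ * ‖G t‖ with hY
  have hX0 : 0 ≤ X := Finset.sum_nonneg (fun t _ => div_nonneg (hW0 t) (hψpos t).le)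
  have hZ0 : 0 ≤ Z := Finset.sum_nonneg (fun t _ => by have := (hψpos t).le; positivity)
  have hY0 : 0 ≤ Y := Finset.sum_nonneg (fun t _ => by positivity)
  have hYZ : Y ^ 2 ≤ X * Z := by
    have h2 := Finset.sum_mul_sq_le_sq_mul_sq F (fun t => ‖G t‖ / Real.sqrt (ψ t))
      (fun t => Real.sqrt (ψ t) * ‖A (t - m)‖)
    have h3 : ∑ t ∈ F, (‖G t‖ / Real.sqrt (ψ t)) * (Real.sqrt (ψ t) * ‖A (t - m)‖) = Y := by
      apply Finset.sum_congr rfl
      intro t _
      have : Real.sqrt (ψ t) ≠ 0 := (Real.sqrt_pos.mpr (hψpos t)).ne'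
      field_simp
    have h4 : ∑ t ∈ F, (‖G t‖ / Real.sqrt (ψ t)) ^ 2 = X := by
      apply Finset.sum_congr rfl
      intro t ht
      rw [div_pow, Real.sq_sqrt (hψpos t).le, hWG t ht]
    have h5 : ∑ t ∈ F, (Real.sqrt (ψ t) * ‖A (t - m)‖) ^ 2 = Z := by
      apply Finset.sum_congr rfl
      intro t _
      rw [mul_pow, Real.sq_sqrt (hψpos t).le]
    rw [h3, h4, h5] at h2
    exact h2
  set e := ‖eco G A D m‖ with he
  have he0 : 0 ≤ e := norm_nonneg _
  have h6 : ‖A f * G s‖ ^ 2 ≤ (κ + X) * (e ^ 2 / κ + Z) := by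
    have h7 : ‖A f * G s‖ ^ 2 ≤ (e + Y) ^ 2 := pow_le_pow_left₀ (norm_nonneg _) h1 2
    have h8 : (e + Y) ^ 2 ≤ (κ + X) * (e ^ 2 / κ + Z) := by
      have h9' : (κ + X) * (e ^ 2 / κ + Z) = e ^ 2 + κ * Z + X * e ^ 2 / κ + X * Z := by
        field_simp
        ring
      rw [h9']
      have h10 : 2 * (e * Y) ≤ κ * Z + X * e ^ 2 / κ := by
        -- AM-GM
        rcases eq_or_lt_of_le hX0 with h0 | h0
        · have : Y = 0 := by
            rw [← h0, zero_mul] at hYZ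
            exact pow_eq_zero_iff (two_ne_zero) |>.mp (le_antisymm hYZ (sq_nonneg _))
          rw [this]
          have : 0 ≤ κ * Z + X * e ^ 2 / κ := by positivity
          linarith
        · have h11 : Y ^ 2 / X ≤ Z := by
            rw [div_le_iff₀ h0]
            linarith
          have h12 : 2 * (e * Y) ≤ κ * (Y ^ 2 / X) + X * e ^ 2 / κ := by
            have h13 : κ * (Y ^ 2 / X) + X * e ^ 2 / κ - 2 * (e * Y)
                = (κ * Y - X * e) ^ 2 / (κ * X) := by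
              field_simp
              ring
            have h14 : 0 ≤ (κ * Y - X * e) ^ 2 / (κ * X) := by positivity
            linarith
          have h15 : κ * (Y ^ 2 / X) ≤ κ * Z := mul_le_mul_of_nonneg_left h11 hκ.le
          linarith
      nlinarith
    exact le_trans h7 h8
  have h16 : ‖A f * G s‖ ^ 2 = W s * ‖A f‖ ^ 2 := by
    rw [norm_mul, mul_pow, hW1 s hsS]
    ring
  rw [h16, ← hVeq] at h6
  rw [div_mul_eq_mul_div, div_le_iff₀ hVpos]
  linarith

/-- The main energy inequality. -/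
lemma energy (hB : 1 ≤ B) (hκ : 0 < κ)
    (hL : ∀ s ∈ S, ∀ s' ∈ S, s < s' → s' ≤ B * (s' - s))
    (hL0 : ∀ s ∈ S, s ≤ B * (s - s₀))
    (hG0 : ∀ s, s₀ < s → s ∉ S → G s = 0)
    (hA : ∀ f, D < f → A f = 0) (hM : N + D ≤ M)
    (hW1 : ∀ s ∈ S, W s = ‖G s‖ ^ 2) (hW2 : ∀ s, s ∉ S → W s = 0) :
    ∑ f ∈ Finset.range (M + 1), ‖A f‖ ^ 2 *
        ∑ s ∈ Finset.Ioc (B * f) N, W s / Vf B M N (B ^ 2) κ W s
      ≤ (∑ m ∈ Finset.Ioc 0 N, ‖eco G A D m‖ ^ 2) / κ +
        (B:ℝ) ^ 2 * ∑ f ∈ Finset.range (M + 1), ‖A f‖ ^ 2 * psi B M N (B ^ 2) κ W f := by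
  classical
  have hW0 : ∀ s, 0 ≤ W s := by
    intro s
    by_cases h : s ∈ S
    · rw [hW1 s h]
      positivity
    · rw [hW2 s h]
  have hWS : ∀ s, W s ≠ 0 → s ∈ S := by
    intro s hs
    by_contra h
    exact hs (hW2 s h)
  set ψ := psi B M N (B ^ 2) κ W with hψ
  have hψpos : ∀ t, 0 < ψ t := fun t => psi_pos hB t
  set P := (Finset.range (M + 1) ×ˢ Finset.Ioc 0 N).filter
    (fun p : ℕ × ℕ => B * p.1 < p.2 ∧ W p.2 ≠ 0) with hP
  have hPmem : ∀ p ∈ P, p.1 < M + 1 ∧ 0 < p.2 ∧ p.2 ≤ N ∧ B * p.1 < p.2 ∧ W p.2 ≠ 0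
      ∧ p.1 < p.2 := by
    intro p hp
    rw [hP, Finset.mem_filter, Finset.mem_product, Finset.mem_range, Finset.mem_Ioc] at hp
    refine ⟨hp.1.1, hp.1.2.1, hp.1.2.2, hp.2.1, hp.2.2, ?_⟩
    exact lt_of_le_of_lt (Nat.le_mul_of_pos_left _ hB) hp.2.1
  -- injectivity
  have hinj0 : ∀ p ∈ P, ∀ p' ∈ P, p.2 - p.1 = p'.2 - p'.1 → ¬ p.2 < p'.2 := by
    intro p hp p' hp' h hlt
    obtain ⟨h1, h2, h3, h4, h5, h6⟩ := hPmem p hp
    obtain ⟨h1', h2', h3', h4', h5', h6'⟩ := hPmem p' hp'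
    have h7 := hL p.2 (hWS _ h5) p'.2 (hWS _ h5') hlt
    have h8 : B * (p'.2 - p.2) ≤ B * p'.1 := Nat.mul_le_mul_left B (by omega)
    omega
  have hinj : ∀ p ∈ P, ∀ p' ∈ P, p.2 - p.1 = p'.2 - p'.1 → p = p' := by
    intro p hp p' hp' h
    have h1 := hinj0 p hp p' hp' h
    have h2 := hinj0 p' hp' p hp h.symm
    obtain ⟨_, _, _, _, _, h6⟩ := hPmem p hp
    obtain ⟨_, _, _, _, _, h6'⟩ := hPmem p' hp'
    ext <;> omega
  -- LHS
  have hLHS : ∑ f ∈ Finset.range (M + 1), ‖A f‖ ^ 2 *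
        ∑ s ∈ Finset.Ioc (B * f) N, W s / Vf B M N (B ^ 2) κ W s
      = ∑ p ∈ P, W p.2 / Vf B M N (B ^ 2) κ W p.2 * ‖A p.1‖ ^ 2 := by
    rw [hP, Finset.sum_filter, Finset.sum_product]
    apply Finset.sum_congr rfl
    intro f _
    rw [Finset.mul_sum]
    have h1 : ∑ s ∈ Finset.Ioc (B * f) N, ‖A f‖ ^ 2 * (W s / Vf B M N (B ^ 2) κ W s)
        = ∑ s ∈ Finset.Ioc 0 N, if B * f < s then
          ‖A f‖ ^ 2 * (W s / Vf B M N (B ^ 2) κ W s) else 0 := by
      rw [← Finset.sum_filter]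
      apply Finset.sum_congr _ (fun _ _ => rfl)
      ext t
      simp only [Finset.mem_filter, Finset.mem_Ioc]
      omega
    rw [h1]
    apply Finset.sum_congr rfl
    intro s _
    by_cases h2 : B * f < s
    · by_cases h3 : W s = 0
      · simp [h3]
      · simp only [h2, h3, if_true, ne_eq, not_false_eq_true, and_self]
        ring
    · simp [h2]
  rw [hLHS]
  -- pairwise
  have hpair : ∀ p ∈ P, W p.2 / Vf B M N (B ^ 2) κ W p.2 * ‖A p.1‖ ^ 2 ≤
      ‖eco G A D (p.2 - p.1)‖ ^ 2 / κ +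
      ∑ s' ∈ (Finset.Ioc p.2 M).filter (fun s' => W s' ≠ 0),
        ψ s' * ‖A (s' - (p.2 - p.1))‖ ^ 2 := by
    intro p hp
    obtain ⟨h1, h2, h3, h4, h5, h6⟩ := hPmem p hp
    exact pair_ineq hB hκ hL hL0 hG0 hA hM hW1 hW2 p.2 p.1 h5 h3 h4
  refine le_trans (Finset.sum_le_sum hpair) ?_
  rw [Finset.sum_add_distrib]
  apply add_le_add
  · -- first term
    rw [← Finset.sum_div]
    apply div_le_div_of_nonneg_right _ hκ.le
    have h1 : ∑ p ∈ P, ‖eco G A D (p.2 - p.1)‖ ^ 2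
        = ∑ m ∈ P.image (fun p => p.2 - p.1), ‖eco G A D m‖ ^ 2 := by
      rw [Finset.sum_image]
      intro p hp p' hp' h
      exact hinj p hp p' hp' h
    rw [h1]
    apply Finset.sum_le_sum_of_subset_of_nonneg
    · intro m hm
      rw [Finset.mem_image] at hm
      obtain ⟨p, hp, rfl⟩ := hm
      obtain ⟨h1, h2, h3, h4, h5, h6⟩ := hPmem p hp
      rw [Finset.mem_Ioc]
      omega
    · intro m _ _
      positivity
  · -- second term
    -- collect as a sum over triples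
    have h1 : ∑ p ∈ P, ∑ s' ∈ (Finset.Ioc p.2 M).filter (fun s' => W s' ≠ 0),
        ψ s' * ‖A (s' - (p.2 - p.1))‖ ^ 2
        = ∑ q ∈ P.sigma (fun p => (Finset.Ioc p.2 M).filter (fun s' => W s' ≠ 0)),
          ψ q.2 * ‖A (q.2 - (q.1.2 - q.1.1))‖ ^ 2 := by
      rw [Finset.sum_sigma]
    rw [h1]
    have h2 : ∑ q ∈ P.sigma (fun p => (Finset.Ioc p.2 M).filter (fun s' => W s' ≠ 0)),
          ψ q.2 * ‖A (q.2 - (q.1.2 - q.1.1))‖ ^ 2
        = ∑ r ∈ (P.sigma (fun p => (Finset.Ioc p.2 M).filter (fun s' => W s' ≠ 0))).image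
          (fun q => ((q.2 - (q.1.2 - q.1.1), q.2) : ℕ × ℕ)), ψ r.2 * ‖A r.1‖ ^ 2 := by
      rw [Finset.sum_image]
      rintro ⟨p, t⟩ hq ⟨p', t'⟩ hq' h
      simp only [Finset.coe_sigma, Set.mem_sigma_iff, Finset.mem_coe, Finset.mem_filter,
        Finset.mem_Ioc] at hq hq'
      simp only [Prod.mk.injEq] at h
      obtain ⟨h3, h4⟩ := h
      subst h4
      obtain ⟨_, _, _, _, _, h6⟩ := hPmem p hq.1
      obtain ⟨_, _, _, _, _, h6'⟩ := hPmem p' hq'.1
      have h7 : p = p' := hinj p hq.1 p' hq'.1 (by omega)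
      subst h7
      rfl
    rw [h2]
    have h3 : ∑ r ∈ (P.sigma (fun p => (Finset.Ioc p.2 M).filter (fun s' => W s' ≠ 0))).image
          (fun q => ((q.2 - (q.1.2 - q.1.1), q.2) : ℕ × ℕ)), ψ r.2 * ‖A r.1‖ ^ 2
        ≤ ∑ r ∈ (Finset.range (M + 1) ×ˢ Finset.Ioc 0 M).filter
          (fun r : ℕ × ℕ => r.1 < r.2 ∧ r.2 ≤ B * r.1 ∧ W r.2 ≠ 0), ψ r.2 * ‖A r.1‖ ^ 2 := by
      apply Finset.sum_le_sum_of_subset_of_nonneg
      · intro r hr
        rw [Finset.mem_image] at hr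
        obtain ⟨⟨p, t⟩, hq, rfl⟩ := hr
        obtain ⟨hp, hq2⟩ := Finset.mem_sigma.mp hq
        obtain ⟨hq3, ht3⟩ := Finset.mem_filter.mp hq2
        obtain ⟨ht1, ht2⟩ := Finset.mem_Ioc.mp hq3
        simp only at hp ht1 ht2 ht3
        obtain ⟨h1, h2, h3, h4, h5, h6⟩ := hPmem p hp
        have h7 := hL p.2 (hWS _ h5) t (hWS _ ht3) ht1
        have h8 : B * (t - p.2) ≤ B * (t - (p.2 - p.1)) := Nat.mul_le_mul_left B (by omega)
        simp only [Finset.mem_filter, Finset.mem_product, Finset.mem_range, Finset.mem_Ioc]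
        refine ⟨⟨by omega, by omega, ht2⟩, by omega, by omega, ht3⟩
      · intro r _ _
        have := (hψpos r.2).le
        positivity
    refine le_trans h3 ?_
    rw [Finset.sum_filter, Finset.sum_product, Finset.mul_sum]
    apply Finset.sum_le_sum
    intro f _
    have h4 : ∑ s ∈ Finset.Ioc 0 M,
        (if f < s ∧ s ≤ B * f ∧ W s ≠ 0 then ψ s * ‖A f‖ ^ 2 else 0)
        = ∑ s ∈ (Finset.Ioc 0 M).filter (fun s => f < s ∧ s ≤ B * f ∧ W s ≠ 0),
          ψ s * ‖A f‖ ^ 2 := by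
      rw [Finset.sum_filter]
    rw [h4]
    set T := (Finset.Ioc 0 M).filter (fun s => f < s ∧ s ≤ B * f ∧ W s ≠ 0) with hT
    have hTcard : T.card ≤ B ^ 2 := by
      apply card_block S hB hL f
      intro s hs
      rw [hT, Finset.mem_filter] at hs
      exact ⟨hWS _ hs.2.2.2, hs.2.1, hs.2.2.1⟩
    calc ∑ s ∈ T, ψ s * ‖A f‖ ^ 2 ≤ ∑ s ∈ T, ψ f * ‖A f‖ ^ 2 := by
          apply Finset.sum_le_sum
          intro s hs
          rw [hT, Finset.mem_filter] at hs
          apply mul_le_mul_of_nonneg_right _ (by positivity)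
          exact psi_anti hB hκ hW0 hs.2.1.le
      _ = (T.card : ℝ) * (ψ f * ‖A f‖ ^ 2) := by
          rw [Finset.sum_const, nsmul_eq_mul]
      _ ≤ (B:ℝ) ^ 2 * (ψ f * ‖A f‖ ^ 2) := by
          apply mul_le_mul_of_nonneg_right
          · exact_mod_cast hTcard
          · have := (hψpos f).le
            positivity
      _ = (B:ℝ) ^ 2 * (‖A f‖ ^ 2 * ψ f) := by ring

end energy

end Pool.Agent.Helper41.HL
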