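import Pool.Agent.Helper41.HLC

set_option autoImplicit false
open Finset

namespace Pool.Agent.Helper41.HL

section keyB

variable {B D s₀ : ℕ} {κ : ℝ} {W : ℕ → ℝ} {S : Set ℕ} {G A : ℕ → ℂ}

/-- The key lemma: coefficients of `A` are controlled with a gain. -/
lemma keyB (hB : 2 ≤ B) (hκ : 0 < κ)
    (hL : ∀ s ∈ S, ∀ s' ∈ S, s < s' → s' ≤ B * (s' - s))
    (hL0 : ∀ s ∈ S, s ≤ B * (s - s₀))
    (hG0 : ∀ s, s₀ < s → s ∉ S → G s = 0)
    (hA : ∀ f, D < f → A f = 0)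
    (hW1 : ∀ s ∈ S, W s = ‖G s‖ ^ 2) (hW2 : ∀ s, s ∉ S → W s = 0)
    (hsum : Summable W) (E F : ℝ)
    (hE : ∀ N, ∑ m ∈ Finset.Ioc 0 N, ‖eco G A D m‖ ^ 2 ≤ E)
    (hF : ∀ M, ∑ f ∈ Finset.range (M + 1), ‖A f‖ ^ 2 ≤ F) (f : ℕ) :
    ∃ ψ : ℝ, 1 ≤ ψ ∧ κ * ψ * ‖A f‖ ^ 2 ≤ E + 2 * κ * F ∧
      (1 / 4) * ((∑' s, W (s + (B * (f + 1) + 1))) / (2 * κ)) ^ (1 / (8 * (B:ℝ) ^ 4))
      ≤ ψ ^ 3 := by
  classical
  have hB1 : 1 ≤ B := by omega
  have hB' : (1:ℝ) ≤ B := by exact_mod_cast hB1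
  have hW0 : ∀ s, 0 ≤ W s := by
    intro s
    by_cases h : s ∈ S
    · rw [hW1 s h]
      positivity
    · rw [hW2 s h]
  have hWS : ∀ s, W s ≠ 0 → s ∈ S := by
    intro s hs
    by_contra h
    exact hs (hW2 s h)
  have hcard : ∀ x, ((Finset.Ioc x (B * x)).filter (fun s => W s ≠ 0)).card ≤ B ^ 2 := by
    intro x
    apply card_block S hB1 hL x
    intro s hs
    rw [Finset.mem_filter, Finset.mem_Ioc] at hs
    exact ⟨hWS _ hs.2, hs.1.1, hs.1.2⟩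
  -- choose T
  obtain ⟨T, hT⟩ : ∃ T : ℕ, ∑' s, W (s + (B ^ T * (B * (f + 1)) + 1)) ≤ κ := by
    have h1 : Filter.Tendsto (fun i => ∑' k, W (k + i)) Filter.atTop (nhds 0) :=
      tendsto_sum_nat_add W
    have h2 : Filter.Tendsto (fun T : ℕ => B ^ T * (B * (f + 1)) + 1)
        Filter.atTop Filter.atTop := by
      apply Filter.tendsto_atTop_mono (f := fun T : ℕ => T) _ Filter.tendsto_id
      intro T
      have h3 : T < B ^ T := Nat.lt_pow_self (by omega)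
      have h4 : 1 ≤ B * (f + 1) := by nlinarith
      nlinarith
    have h3 := (h1.comp h2).eventually (gt_mem_nhds hκ)
    obtain ⟨T, hT⟩ := h3.exists
    exact ⟨T, hT.le⟩
  set N := B ^ T * (B * (f + 1)) with hN
  set M := N + D with hM
  have hen := energy (M := M) (N := N) hB1 hκ hL hL0 hG0 hA le_rfl hW1 hW2
  set ψ := psi B M N (B ^ 2) κ W with hψ
  have hgrow := psi_growth (M := M) (N := N) hB1 hκ hW0 hcard (by omega) T f hN.symm hsum hT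
  refine ⟨ψ f, psi_ge_one hB1 f, ?_, hgrow⟩
  set g : ℕ → ℝ := fun f => ∑ s ∈ Finset.Ioc (B * f) N, W s / Vf B M N (B ^ 2) κ W s with hg
  have hg0 : ∀ f, 0 ≤ g f := fun f =>
    Finset.sum_nonneg (fun s _ => div_nonneg (hW0 s) (Vf_pos hB1 hκ hW0 s).le)
  have ha : (0:ℝ) < (B:ℝ) ^ 2 := by positivity
  have ha1 : (1:ℝ) ≤ (B:ℝ) ^ 2 := one_le_pow₀ hB'
  have hψle : ∀ f, ψ f ≤ 1 + g f / (4 * (B:ℝ) ^ 2) := by
    intro f
    rw [hψ, psi_eq hB1]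
    have h1 : (1 / (4 * (((B ^ 2 : ℕ) : ℝ)))) * ∑ s ∈ Finset.Ioc (B * f) N,
        W s / Vf B M N (B ^ 2) κ W s = g f / (4 * (B:ℝ) ^ 2) := by
      rw [hg]
      push_cast
      ring
    rw [h1]
    have h2 : 0 ≤ g f / (4 * (B:ℝ) ^ 2) := div_nonneg (hg0 f) (by positivity)
    apply max_le
    · linarith
    · linarith
  set X := ∑ f ∈ Finset.range (M + 1), ‖A f‖ ^ 2 * g f with hX
  set Y := ∑ f ∈ Finset.range (M + 1), ‖A f‖ ^ 2 * ψ f with hY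
  set F' := ∑ f ∈ Finset.range (M + 1), ‖A f‖ ^ 2 with hF'
  have hF'F : F' ≤ F := hF M
  have hF'0 : 0 ≤ F' := Finset.sum_nonneg (fun _ _ => by positivity)
  have hX0 : 0 ≤ X := Finset.sum_nonneg (fun f _ => mul_nonneg (by positivity) (hg0 f))
  have hEN := hE N
  have hE0 : 0 ≤ E := le_trans (Finset.sum_nonneg (fun _ _ => by positivity)) hEN
  have hYX : Y ≤ F' + X / (4 * (B:ℝ) ^ 2) := by
    rw [hY, hF', hX, Finset.sum_div, ← Finset.sum_add_distrib]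
    apply Finset.sum_le_sum
    intro f _
    have h1 : ‖A f‖ ^ 2 * ψ f ≤ ‖A f‖ ^ 2 * (1 + g f / (4 * (B:ℝ) ^ 2)) :=
      mul_le_mul_of_nonneg_left (hψle f) (by positivity)
    calc ‖A f‖ ^ 2 * ψ f ≤ ‖A f‖ ^ 2 * (1 + g f / (4 * (B:ℝ) ^ 2)) := h1
      _ = _ := by ring
  have hXle : X ≤ E / κ + (B:ℝ) ^ 2 * Y := by
    refine le_trans hen ?_
    have : (∑ m ∈ Finset.Ioc 0 N, ‖eco G A D m‖ ^ 2) / κ ≤ E / κ :=
      div_le_div_of_nonneg_right hEN hκ.le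
    linarith
  have hEκ : 0 ≤ E / κ := div_nonneg hE0 hκ.le
  have hYle : Y ≤ 2 * F' + E / κ := by
    have h1 : (B:ℝ) ^ 2 * Y ≤ (B:ℝ) ^ 2 * F' + X / 4 := by
      calc (B:ℝ) ^ 2 * Y ≤ (B:ℝ) ^ 2 * (F' + X / (4 * (B:ℝ) ^ 2)) :=
            mul_le_mul_of_nonneg_left hYX ha.le
        _ = (B:ℝ) ^ 2 * F' + X / 4 := by field_simp
    have h2 : X * (3 / 4) ≤ E / κ + (B:ℝ) ^ 2 * F' := by linarith
    have h3 : (B:ℝ) ^ 2 * Y ≤ (B:ℝ) ^ 2 * (2 * F' + E / κ) := by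
      have h4 : E / κ ≤ (B:ℝ) ^ 2 * (E / κ) := le_mul_of_one_le_left hEκ ha1
      have h5 : 0 ≤ (B:ℝ) ^ 2 * F' := by positivity
      nlinarith
    exact le_of_mul_le_mul_left h3 ha
  -- single term
  have hterm : ‖A f‖ ^ 2 * ψ f ≤ Y := by
    by_cases hf : f ∈ Finset.range (M + 1)
    · exact Finset.single_le_sum (f := fun f => ‖A f‖ ^ 2 * ψ f)
        (fun t _ => mul_nonneg (by positivity) (psi_pos hB1 t).le) hf
    · rw [Finset.mem_range] at hf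
      rw [hA f (by omega)]
      simp only [norm_zero, ne_eq, OfNat.ofNat_ne_zero, not_false_eq_true, zero_pow, zero_mul]
      exact Finset.sum_nonneg (fun t _ => mul_nonneg (by positivity) (psi_pos hB1 t).le)
  calc κ * ψ f * ‖A f‖ ^ 2 = κ * (‖A f‖ ^ 2 * ψ f) := by ring
    _ ≤ κ * Y := mul_le_mul_of_nonneg_left hterm hκ.le
    _ ≤ κ * (2 * F' + E / κ) := mul_le_mul_of_nonneg_left hYle hκ.le
    _ = 2 * κ * F' + E := by field_simp
    _ ≤ E + 2 * κ * F := by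
      have : 2 * κ * F' ≤ 2 * κ * F := mul_le_mul_of_nonneg_left hF'F (by positivity)
      linarith

end keyB

end Pool.Agent.Helper41.HL
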