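import Mathlib

/-!
# Half-lacunary Fourier series: definitions (MP_5bfbcb_an)

The circle `ℝ/ℤ` is `AddCircle (1 : ℝ)`, its normalised Lebesgue measure is `haarAddCircle`, and
`fourier m θ` is `exp (2 π i m θ)`.
-/

set_option autoImplicit false

namespace Pool.Agent.Helper41.HL

open MeasureTheory AddCircle Filter Topology

/-- A sequence of negative integers `n 0, n 1, ...` is Hadamard lacunary when
`liminf n (k+1) / n k > 1`, the liminf being taken in the extended reals. -/
def HadamardLacunary (n : ℕ → ℤ) : Prop :=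
  (∀ k, n k < 0) ∧
    (1 : EReal) < liminf (fun k : ℕ => (((n (k + 1) : ℝ) / (n k : ℝ) : ℝ) : EReal)) atTop

/-- `p` is square integrable on `ℝ/ℤ` and is the sum in `L²(ℝ/ℤ)` of the series
`∑ k, a (φ k) exp (2 π i (φ k) θ)`: the partial sums converge to `p` in `L²`. -/
def IsL2Sum (φ : ℕ → ℤ) (a : ℤ → ℂ) (p : AddCircle (1 : ℝ) → ℂ) : Prop :=
  MemLp p 2 haarAddCircle ∧
    Tendsto (fun N : ℕ => eLpNorm
      (fun θ => p θ - ∑ k ∈ Finset.range N, a (φ k) * fourier (φ k) θ) 2 haarAddCircle)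
      atTop (𝓝 0)

end Pool.Agent.Helper41.HL
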