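import Mathlib

set_option autoImplicit false
open MeasureTheory AddCircle Complex Filter Topology Set

namespace Pool.Agent.Helper41.HL

/-- The circle of length one. -/
abbrev TT := AddCircle (1:ℝ)

/-- Normalised Haar measure. -/
noncomputable abbrev mu : Measure TT := haarAddCircle

lemma fourier_nat (m : ℕ) (t : TT) : fourier (m:ℤ) t = (fourier 1 t) ^ m := by
  induction m with
  | zero => rw [Nat.cast_zero, pow_zero]; exact fourier_zero
  | succ m ih =>
    rw [Nat.cast_succ, fourier_add, ih, pow_succ]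

lemma fourier_abs (m : ℤ) (t : TT) : ‖fourier m t‖ = 1 := by
  rw [fourier_apply, Circle.norm_coe]

lemma fourier_sub_arg (m : ℤ) (s t : TT) : fourier m (s - t) = fourier m s * fourier (-m) t := by
  rw [fourier_apply, fourier_apply, fourier_apply, smul_sub, sub_eq_add_neg, toCircle_add,
    ← neg_smul, Circle.coe_mul]

/-- The Poisson kernel on the circle. -/
noncomputable def Pk (r : ℝ) (φ : TT) : ℝ := (1 - r ^ 2) / ‖1 - (r:ℂ) * fourier 1 φ‖ ^ 2

lemma den_pos {r : ℝ} (hr0 : 0 ≤ r) (hr : r < 1) (φ : TT) :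
    0 < ‖1 - (r:ℂ) * fourier 1 φ‖ := by
  rw [norm_pos_iff]
  intro h
  have h1 : (r:ℂ) * fourier 1 φ = 1 := (sub_eq_zero.mp h).symm
  have h2 : ‖(r:ℂ) * fourier 1 φ‖ = 1 := by rw [h1, norm_one]
  rw [norm_mul, fourier_abs, mul_one, Complex.norm_real, Real.norm_of_nonneg hr0] at h2
  linarith

lemma Pk_pos {r : ℝ} (hr0 : 0 ≤ r) (hr : r < 1) (φ : TT) : 0 < Pk r φ := by
  unfold Pk
  have := den_pos hr0 hr φ
  apply div_pos _ (by positivity)
  nlinarith

lemma Pk_cont {r : ℝ} (hr0 : 0 ≤ r) (hr : r < 1) : Continuous (Pk r) := by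
  unfold Pk
  apply Continuous.div continuous_const
  · apply Continuous.pow
    apply Continuous.norm
    apply Continuous.sub continuous_const
    exact Continuous.mul continuous_const (fourier 1).continuous
  · intro φ
    have := den_pos hr0 hr φ
    positivity

lemma summable_rpow_int {r : ℝ} (hr0 : 0 ≤ r) (hr : r < 1) :
    Summable (fun m : ℤ => r ^ m.natAbs) := by
  apply Summable.of_nat_of_neg_add_one
  · simpa using summable_geometric_of_lt_one hr0 hr
  · have h : (fun n : ℕ => r ^ (-((n:ℤ) + 1)).natAbs) = fun n : ℕ => r * r ^ n := by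
      funext n
      have : (-((n:ℤ) + 1)).natAbs = n + 1 := by omega
      rw [this, pow_succ, mul_comm]
    rw [h]
    exact (summable_geometric_of_lt_one hr0 hr).mul_left r

lemma poisson_series {r : ℝ} (hr0 : 0 ≤ r) (hr : r < 1) (φ : TT) :
    HasSum (fun m : ℤ => ((r ^ m.natAbs : ℝ) : ℂ) * fourier m φ) ((Pk r φ : ℝ) : ℂ) := by
  set w : ℂ := (r:ℂ) * fourier 1 φ with hw
  have hwn : ‖w‖ < 1 := by
    rw [hw, norm_mul, fourier_abs, mul_one, Complex.norm_real, Real.norm_of_nonneg hr0]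
    exact hr
  have hwn' : ‖(starRingEnd ℂ) w‖ < 1 := by rwa [Complex.norm_conj]
  set F : ℤ → ℂ := fun m : ℤ => ((r ^ m.natAbs : ℝ) : ℂ) * fourier m φ with hF
  have h1 : HasSum (fun m : ℕ => F (m:ℤ)) (1 - w)⁻¹ := by
    have h := hasSum_geometric_of_norm_lt_one hwn
    have h' : (fun m : ℕ => F (m:ℤ)) = fun m : ℕ => w ^ m := by
      funext m
      rw [hF]
      simp only [Int.natAbs_natCast]
      rw [fourier_nat, hw, mul_pow]
      push_cast
      rfl
    rw [h']
    exact h
  have h2 : HasSum (fun m : ℕ => F (-((m:ℤ) + 1)))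
      ((starRingEnd ℂ) w * (1 - (starRingEnd ℂ) w)⁻¹) := by
    have h := (hasSum_geometric_of_norm_lt_one hwn').mul_left ((starRingEnd ℂ) w)
    have h' : (fun m : ℕ => F (-((m:ℤ) + 1))) = fun m : ℕ =>
        (starRingEnd ℂ) w * (starRingEnd ℂ) w ^ m := by
      funext m
      have h3 : (-((m:ℤ) + 1)).natAbs = m + 1 := by omega
      have h4 : ((m:ℤ) + 1) = ((m + 1 : ℕ) : ℤ) := by push_cast; rfl
      rw [hF]
      simp only []
      rw [h3, fourier_neg, ← pow_succ', h4, fourier_nat, hw, map_mul, Complex.conj_ofReal,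
        mul_pow, map_pow (starRingEnd ℂ)]
      push_cast
      rfl
    rw [h']
    exact h
  have h3 := HasSum.of_nat_of_neg_add_one h1 h2
  suffices h7 : ((Pk r φ : ℝ) : ℂ) = (1 - w)⁻¹ + (starRingEnd ℂ) w * (1 - (starRingEnd ℂ) w)⁻¹ by
    rw [h7]
    exact h3
  have hne : (1 - w) ≠ 0 := by
    have := den_pos hr0 hr φ
    rw [norm_pos_iff] at this
    exact this
  have hne' : (1 - (starRingEnd ℂ) w) ≠ 0 := by
    intro h
    apply hne
    have := congrArg (starRingEnd ℂ) h
    simpa using this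
  have h5 : ((‖1 - w‖ ^ 2 : ℝ) : ℂ) = (1 - w) * (1 - (starRingEnd ℂ) w) := by
    rw [← Complex.normSq_eq_norm_sq, ← Complex.mul_conj]
    congr 1
    rw [map_sub, map_one]
  have h6 : w * (starRingEnd ℂ) w = ((r ^ 2 : ℝ) : ℂ) := by
    rw [Complex.mul_conj, Complex.normSq_eq_norm_sq, hw, norm_mul, fourier_abs, mul_one,
      Complex.norm_real, Real.norm_of_nonneg hr0]
  unfold Pk
  rw [← hw, Complex.ofReal_div, h5]
  push_cast at h6 ⊢
  rw [← h6]
  field_simp
  ring

/-- Integration against the Poisson kernel. -/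
lemma poisson_int {r : ℝ} (hr0 : 0 ≤ r) (hr : r < 1) (f : TT → ℂ) (hf : Integrable f mu)
    (θ : TT) :
    HasSum (fun m : ℤ => ((r ^ m.natAbs : ℝ) : ℂ) * fourier m θ * fourierCoeff f m)
      (∫ t, f t * ((Pk r (θ - t) : ℝ) : ℂ) ∂mu) := by
  have h1 : ∀ t : TT, f t * ((Pk r (θ - t) : ℝ) : ℂ)
      = ∑' m : ℤ, (((r ^ m.natAbs : ℝ) : ℂ) * fourier m θ) * (fourier (-m) t • f t) := by
    intro t
    rw [← (poisson_series hr0 hr (θ - t)).tsum_eq, ← tsum_mul_left]
    apply tsum_congr
    intro m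
    rw [fourier_sub_arg, smul_eq_mul]
    ring
  simp_rw [h1]
  have h2 : ∀ m : ℤ, ((r ^ m.natAbs : ℝ) : ℂ) * fourier m θ * fourierCoeff f m
      = ∫ t, (((r ^ m.natAbs : ℝ) : ℂ) * fourier m θ) * (fourier (-m) t • f t) ∂mu := by
    intro m
    rw [integral_const_mul]
    rfl
  simp_rw [h2]
  apply hasSum_integral_of_summable_integral_norm
  · intro m
    exact (hf.fourier_smul (-m)).const_mul _
  · have h3 : ∀ m : ℤ, ∫ t, ‖(((r ^ m.natAbs : ℝ) : ℂ) * fourier m θ) *
        (fourier (-m) t • f t)‖ ∂mu = r ^ m.natAbs * ∫ t, ‖f t‖ ∂mu := by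
      intro m
      rw [← integral_const_mul]
      congr 1
      funext t
      rw [norm_mul, norm_mul, norm_smul, fourier_abs, fourier_abs, Complex.norm_real,
        Real.norm_of_nonneg (by positivity)]
      ring
    simp_rw [h3]
    exact (summable_rpow_int hr0 hr).mul_right _

/-- The Poisson extension of the indicator of `K`. -/
noncomputable def PK (K : Set TT) (r : ℝ) (θ : TT) : ℝ := ∫ t in K, Pk r (θ - t) ∂mu

lemma Pk_sub_cont {r : ℝ} (hr0 : 0 ≤ r) (hr : r < 1) (θ : TT) :
    Continuous (fun t => Pk r (θ - t)) :=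
  (Pk_cont hr0 hr).comp (continuous_const.sub continuous_id)

lemma Pk_integrable {r : ℝ} (hr0 : 0 ≤ r) (hr : r < 1) (θ : TT) :
    Integrable (fun t => Pk r (θ - t)) mu := by
  apply (Pk_sub_cont hr0 hr θ).integrable_of_hasCompactSupport
  exact HasCompactSupport.of_compactSpace _

lemma cont_integrable (f : TT → ℂ) (hf : Continuous f) : Integrable f mu :=
  hf.integrable_of_hasCompactSupport (HasCompactSupport.of_compactSpace _)

/-- Poisson formula for characters. -/
lemma poisson_fourier {r : ℝ} (hr0 : 0 ≤ r) (hr : r < 1) (θ : TT) (n : ℤ) :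
    ∫ t, fourier n t * ((Pk r (θ - t) : ℝ) : ℂ) ∂mu
      = ((r ^ n.natAbs : ℝ) : ℂ) * fourier n θ := by
  have h := poisson_int hr0 hr (fun t => fourier n t)
    (cont_integrable _ (fourier n).continuous) θ
  have h2 : (fun m : ℤ => ((r ^ m.natAbs : ℝ) : ℂ) * fourier m θ *
      fourierCoeff (fun t : TT => fourier n t) m)
      = fun m : ℤ => if m = n then ((r ^ n.natAbs : ℝ) : ℂ) * fourier n θ else 0 := by
    funext m
    have h3 : fourierCoeff (fun t : TT => fourier n t) = Pi.single n (1:ℂ) :=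
      fourierCoeff_fourier n
    rw [h3]
    by_cases hmn : m = n
    · subst hmn
      simp
    · simp [hmn]
  rw [h2] at h
  exact h.unique (hasSum_ite_eq n _)

lemma Pk_integral {r : ℝ} (hr0 : 0 ≤ r) (hr : r < 1) (θ : TT) :
    ∫ t, Pk r (θ - t) ∂mu = 1 := by
  have h := poisson_fourier hr0 hr θ 0
  have h2 : ∫ t, ((Pk r (θ - t) : ℝ) : ℂ) ∂mu = 1 := by
    simpa using h
  rw [integral_complex_ofReal] at h2
  exact_mod_cast h2

/-- Poisson formula for polynomials. -/
lemma poisson_poly {r : ℝ} (hr0 : 0 ≤ r) (hr : r < 1) (θ : TT) (U : Polynomial ℂ) :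
    ∫ t, U.eval (fourier 1 t) * ((Pk r (θ - t) : ℝ) : ℂ) ∂mu
      = U.eval ((r:ℂ) * fourier 1 θ) := by
  have hint : ∀ V : Polynomial ℂ,
      Integrable (fun t : TT => V.eval (fourier 1 t) * ((Pk r (θ - t) : ℝ) : ℂ)) mu := by
    intro V
    apply cont_integrable
    apply Continuous.mul
    · exact V.continuous.comp (fourier 1).continuous
    · exact Complex.continuous_ofReal.comp (Pk_sub_cont hr0 hr θ)
  induction U using Polynomial.induction_on' with
  | add p q hp hq =>
    simp only [Polynomial.eval_add, add_mul]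
    rw [integral_add (hint p) (hint q), hp, hq]
  | monomial n a =>
    simp only [Polynomial.eval_monomial]
    have h := poisson_fourier hr0 hr θ (n:ℤ)
    rw [Int.natAbs_natCast] at h
    simp only [fourier_nat] at h
    calc ∫ t, a * (fourier 1 t) ^ n * ((Pk r (θ - t) : ℝ) : ℂ) ∂mu
        = a * ∫ t, (fourier 1 t) ^ n * ((Pk r (θ - t) : ℝ) : ℂ) ∂mu := by
          rw [← integral_const_mul]
          congr 1
          funext t
          ring
      _ = a * (((r ^ n : ℝ) : ℂ) * (fourier 1 θ) ^ n) := by rw [h]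
      _ = _ := by push_cast; ring

/-- Real part of the Poisson formula. -/
lemma poisson_poly_re {r : ℝ} (hr0 : 0 ≤ r) (hr : r < 1) (θ : TT) (U : Polynomial ℂ) :
    ∫ t, (U.eval (fourier 1 t)).re * Pk r (θ - t) ∂mu
      = (U.eval ((r:ℂ) * fourier 1 θ)).re := by
  have hint : Integrable (fun t : TT => U.eval (fourier 1 t) * ((Pk r (θ - t) : ℝ) : ℂ)) mu := by
    apply cont_integrable
    apply Continuous.mul
    · exact U.continuous.comp (fourier 1).continuous
    · exact Complex.continuous_ofReal.comp (Pk_sub_cont hr0 hr θ)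
  rw [← poisson_poly hr0 hr θ U]
  have h := integral_re hint
  simp only [RCLike.re_to_complex] at h
  rw [← h]
  congr 1
  funext t
  rw [Complex.re_mul_ofReal]

lemma PK_nonneg (K : Set TT) {r : ℝ} (hr0 : 0 ≤ r) (hr : r < 1) (θ : TT) : 0 ≤ PK K r θ :=
  integral_nonneg (fun _ => (Pk_pos hr0 hr _).le)

lemma PK_le_one (K : Set TT) {r : ℝ} (hr0 : 0 ≤ r) (hr : r < 1) (θ : TT) : PK K r θ ≤ 1 := by
  rw [← Pk_integral hr0 hr θ]
  exact setIntegral_le_integral (Pk_integrable hr0 hr θ)
    (ae_of_all _ (fun _ => (Pk_pos hr0 hr _).le))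

end Pool.Agent.Helper41.HL
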