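import Pool.Agent.Helper41.HLE

set_option autoImplicit false
open MeasureTheory AddCircle Complex Filter Topology Set

namespace Pool.Agent.Helper41.HL

lemma analytic_mono (n : ℤ) (c : ℂ) :
    ∃ U : Polynomial ℂ, ∀ t : TT, (U.eval (fourier 1 t)).re = (c * fourier n t).re := by
  rcases Int.eq_nat_or_neg n with ⟨m, hm | hm⟩
  · refine ⟨Polynomial.C c * Polynomial.X ^ m, ?_⟩
    intro t
    rw [hm, fourier_nat, Polynomial.eval_mul, Polynomial.eval_C, Polynomial.eval_pow,
      Polynomial.eval_X]
  · refine ⟨Polynomial.C ((starRingEnd ℂ) c) * Polynomial.X ^ m, ?_⟩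
    intro t
    rw [hm, fourier_neg, fourier_nat, Polynomial.eval_mul, Polynomial.eval_C,
      Polynomial.eval_pow, Polynomial.eval_X]
    have h : c * (starRingEnd ℂ) ((fourier 1 t) ^ m)
        = (starRingEnd ℂ) ((starRingEnd ℂ) c * (fourier 1 t) ^ m) := by
      rw [map_mul (starRingEnd ℂ), Complex.conj_conj]
    rw [h, Complex.conj_re]

lemma analytic_finset (s : Finset ℤ) (c : ℤ → ℂ) :
    ∃ U : Polynomial ℂ, ∀ t : TT, (U.eval (fourier 1 t)).re
      = (∑ n ∈ s, c n * fourier n t).re := by
  classical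
  induction s using Finset.induction_on with
  | empty => exact ⟨0, by intro t; rw [Polynomial.eval_zero, Finset.sum_empty]⟩
  | insert a s ha ih =>
    obtain ⟨U, hU⟩ := ih
    obtain ⟨V, hV⟩ := analytic_mono a (c a)
    refine ⟨V + U, ?_⟩
    intro t
    rw [Polynomial.eval_add, Complex.add_re, hU t, hV t, Finset.sum_insert ha, Complex.add_re]

/-- A trigonometric polynomial has the real part of an analytic polynomial. -/
lemma analytic_poly (p : C(TT, ℂ)) (hp : p ∈ Submodule.span ℂ (range (@fourier (1:ℝ)))) :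
    ∃ U : Polynomial ℂ, ∀ t : TT, (U.eval (fourier 1 t)).re = (p t).re := by
  obtain ⟨c, hc⟩ := (Finsupp.mem_span_range_iff_exists_finsupp).mp hp
  obtain ⟨U, hU⟩ := analytic_finset c.support c
  refine ⟨U, ?_⟩
  intro t
  rw [hU t, ← hc, Finsupp.sum, ContinuousMap.sum_apply]
  rfl

/-- The truncated exponential of a polynomial. -/
noncomputable def expPoly (n : ℕ) (V : Polynomial ℂ) : Polynomial ℂ :=
  ∑ k ∈ Finset.range n, Polynomial.C ((1:ℂ) / (Nat.factorial k : ℂ)) * V ^ k

lemma expPoly_eval (n : ℕ) (V : Polynomial ℂ) (z : ℂ) :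
    (expPoly n V).eval z = ∑ k ∈ Finset.range n, (V.eval z) ^ k / (Nat.factorial k : ℂ) := by
  unfold expPoly
  rw [Polynomial.eval_finsetSum]
  apply Finset.sum_congr rfl
  intro k _
  simp only [Polynomial.eval_mul, Polynomial.eval_C, Polynomial.eval_pow]
  ring

lemma exp_tail_mono (s R : ℝ) (hs : 0 ≤ s) (hsR : s ≤ R) (n : ℕ) :
    Real.exp s - ∑ m ∈ Finset.range n, s ^ m / (Nat.factorial m : ℝ)
      ≤ Real.exp R - ∑ m ∈ Finset.range n, R ^ m / (Nat.factorial m : ℝ) := by
  have h1 : ∀ x : ℝ, Real.exp x - ∑ m ∈ Finset.range n, x ^ m / (Nat.factorial m : ℝ)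
      = ∑' m : ℕ, x ^ (m + n) / (Nat.factorial (m + n) : ℝ) := by
    intro x
    have h2 := (Real.summable_pow_div_factorial x).sum_add_tsum_nat_add n
    have h3 : ∑' m : ℕ, x ^ m / (Nat.factorial m : ℝ) = Real.exp x := by
      rw [Real.exp_eq_exp_ℝ, NormedSpace.exp_eq_tsum_div]
    rw [h3] at h2
    linarith
  rw [h1, h1]
  have hsum : ∀ x : ℝ, Summable (fun m : ℕ => x ^ (m + n) / (Nat.factorial (m + n) : ℝ)) :=
    fun x => (summable_nat_add_iff n).mpr (Real.summable_pow_div_factorial x)
  apply (hsum s).tsum_le_tsum _ (hsum R)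
  intro m
  apply div_le_div_of_nonneg_right _ (by positivity)
  exact pow_le_pow_left₀ hs hsR _

/-- Truncated exponentials are comparable with the exponential on bounded sets. -/
lemma exp_trunc (R : ℝ) : ∃ n : ℕ, 1 ≤ n ∧ ∀ w : ℂ, ‖w‖ ≤ R →
    ‖∑ k ∈ Finset.range n, w ^ k / (Nat.factorial k : ℂ)‖ ≤ (11 / 10) * Real.exp w.re := by
  have h1 : Tendsto (fun n : ℕ => Real.exp R - ∑ m ∈ Finset.range n,
      R ^ m / (Nat.factorial m : ℝ)) atTop (𝓝 0) := by
    have h2 := (Real.summable_pow_div_factorial R).hasSum.tendsto_sum_nat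
    have h3 : ∑' m : ℕ, R ^ m / (Nat.factorial m : ℝ) = Real.exp R := by
      rw [Real.exp_eq_exp_ℝ, NormedSpace.exp_eq_tsum_div]
    rw [h3] at h2
    simpa using h2.const_sub (Real.exp R)
  have h3 : ∀ᶠ n : ℕ in atTop, Real.exp R - ∑ m ∈ Finset.range n,
      R ^ m / (Nat.factorial m : ℝ) < Real.exp (-R) / 10 :=
    h1.eventually (gt_mem_nhds (by positivity))
  obtain ⟨n, hn, hn1⟩ := (h3.and (eventually_ge_atTop 1)).exists
  refine ⟨n, hn1, ?_⟩
  intro w hw
  have h4 : ‖Complex.exp w - ∑ k ∈ Finset.range n, w ^ k / (Nat.factorial k : ℂ)‖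
      ≤ Real.exp R - ∑ m ∈ Finset.range n, R ^ m / (Nat.factorial m : ℝ) :=
    le_trans (Complex.norm_exp_sub_sum_le_exp_norm_sub_sum w n)
      (exp_tail_mono ‖w‖ R (norm_nonneg w) hw n)
  have h5 : Real.exp (-R) ≤ Real.exp w.re := by
    apply Real.exp_le_exp.mpr
    have := Complex.abs_re_le_norm w
    have := neg_abs_le w.re
    linarith
  have h6 : ‖∑ k ∈ Finset.range n, w ^ k / (Nat.factorial k : ℂ)‖
      ≤ ‖Complex.exp w‖ + ‖Complex.exp w - ∑ k ∈ Finset.range n, w ^ k / (Nat.factorial k : ℂ)‖ := by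
    have : ∑ k ∈ Finset.range n, w ^ k / (Nat.factorial k : ℂ) = Complex.exp w -
        (Complex.exp w - ∑ k ∈ Finset.range n, w ^ k / (Nat.factorial k : ℂ)) := by ring
    conv_lhs => rw [this]
    exact norm_sub_le _ _
  rw [Complex.norm_exp] at h6
  linarith

/-- The test polynomial. -/
lemma test_poly (K : Set TT) (hK : IsClosed K) (g : TT → ℂ) (hg : MemLp g 2 mu)
    (hgK : ∀ᵐ t ∂mu, t ∈ K → g t = 0) {r : ℝ} (hr0 : 0 ≤ r) (hr : r < 1) (θ : TT)
    {lam : ℝ} (hlam : 0 < lam) :
    ∃ A : Polynomial ℂ, A.eval ((r:ℂ) * fourier 1 θ) = 1 ∧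
      (∀ t : TT, ‖A.eval (fourier 1 t)‖ ≤ 2 * Real.exp (lam * (1 - PK K r θ))) ∧
      ∫ t, ‖g t * A.eval (fourier 1 t)‖ ^ 2 ∂mu
        ≤ 4 * Real.exp (-2 * lam * PK K r θ) * ((∫ t, ‖g t‖ ^ 2 ∂mu) + 1) := by
  classical
  set P := PK K r θ with hP
  have hgsq : Integrable (fun t => ‖g t‖ ^ 2) mu := hg.integrable_norm_pow (by norm_num)
  have hδpos : ∀ n : ℕ, (0:ℝ) < 1 / ((n:ℝ) + 1) := fun n => by positivity
  set u : ℕ → TT → ℝ := fun n t => lam * ((thickenedIndicator (hδpos n) K t : NNReal) : ℝ) with hu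
  have hu0 : ∀ n t, 0 ≤ u n t := fun n t => by
    rw [hu]
    positivity
  have hu1 : ∀ n t, u n t ≤ lam := by
    intro n t
    rw [hu]
    have h1 : ((thickenedIndicator (hδpos n) K t : NNReal) : ℝ) ≤ 1 := by
      exact_mod_cast thickenedIndicator_le_one (hδpos n) K t
    calc lam * ((thickenedIndicator (hδpos n) K t : NNReal) : ℝ) ≤ lam * 1 :=
          mul_le_mul_of_nonneg_left h1 hlam.le
      _ = lam := mul_one _
  have huK : ∀ n, ∀ t ∈ K, u n t = lam := by
    intro n t ht
    rw [hu]
    simp only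
    rw [thickenedIndicator_one (hδpos n) K ht]
    simp
  have hucont : ∀ n, Continuous (u n) := by
    intro n
    rw [hu]
    apply Continuous.mul continuous_const
    exact NNReal.continuous_coe.comp (thickenedIndicator (hδpos n) K).continuous
  have hulim : ∀ t, t ∉ K → Tendsto (fun n => u n t) atTop (𝓝 0) := by
    intro t ht
    have h1 := thickenedIndicator_tendsto_indicator_closure hδpos
      tendsto_one_div_add_atTop_nhds_zero_nat K
    rw [tendsto_pi_nhds] at h1
    have h2 := h1 t
    rw [hK.closure_eq, Set.indicator_of_notMem ht] at h2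
    have h3 : Tendsto (fun n => ((thickenedIndicator (hδpos n) K t : NNReal) : ℝ)) atTop
        (𝓝 ((0 : NNReal) : ℝ)) := (NNReal.continuous_coe.tendsto 0).comp h2
    have h4 := h3.const_mul lam
    simpa [hu] using h4
  -- dominated convergence
  have hdom : Tendsto (fun n => ∫ t, ‖g t‖ ^ 2 * Real.exp (2 * u n t) ∂mu) atTop
      (𝓝 (∫ t, ‖g t‖ ^ 2 ∂mu)) := by
    apply tendsto_integral_of_dominated_convergence (fun t => ‖g t‖ ^ 2 * Real.exp (2 * lam))
    · intro n
      apply hgsq.aestronglyMeasurable.mul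
      exact (Real.continuous_exp.comp (continuous_const.mul (hucont n))).aestronglyMeasurable
    · exact hgsq.mul_const _
    · intro n
      apply ae_of_all
      intro t
      rw [Real.norm_of_nonneg (by positivity)]
      gcongr
      exact hu1 n t
    · filter_upwards [hgK] with t ht
      by_cases htK : t ∈ K
      · rw [ht htK]
        simp
      · have h1 := hulim t htK
        have h2 : Tendsto (fun n => ‖g t‖ ^ 2 * Real.exp (2 * u n t)) atTop
            (𝓝 (‖g t‖ ^ 2 * Real.exp (2 * 0))) := by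
          apply Tendsto.const_mul
          exact (Real.continuous_exp.tendsto _).comp (h1.const_mul 2)
        simpa using h2
  obtain ⟨n, hn⟩ : ∃ n, ∫ t, ‖g t‖ ^ 2 * Real.exp (2 * u n t) ∂mu
      < (∫ t, ‖g t‖ ^ 2 ∂mu) + 1 := (hdom.eventually (gt_mem_nhds (by linarith))).exists
  -- approximate u n by a trigonometric polynomial
  set q : C(TT, ℂ) := ⟨fun t => ((u n t : ℝ) : ℂ),
    Complex.continuous_ofReal.comp (hucont n)⟩ with hq
  have hqmem : q ∈ (Submodule.span ℂ (range (@fourier (1:ℝ)))).topologicalClosure := by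
    rw [span_fourier_closure_eq_top]
    exact Submodule.mem_top
  obtain ⟨p, hp, hpq⟩ := Metric.mem_closure_iff.mp hqmem (1 / 10) (by norm_num)
  obtain ⟨U, hU⟩ := analytic_poly p hp
  have hpu : ∀ t, |(p t).re - u n t| ≤ 1 / 10 := by
    intro t
    have h1 : dist (q t) (p t) ≤ dist q p := ContinuousMap.dist_apply_le_dist t
    have h2 : |(p t).re - u n t| ≤ ‖p t - q t‖ := by
      have := Complex.abs_re_le_norm (p t - q t)
      rw [Complex.sub_re] at this
      exact this
    rw [← dist_eq_norm, dist_comm] at h2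
    linarith
  set z₀ : ℂ := (r:ℂ) * fourier 1 θ with hz₀
  set c : ℂ := U.eval z₀ with hc
  -- lower bound for the real part of c
  have hcre : lam * P - 1 / 10 ≤ c.re := by
    rw [hc, hz₀, ← poisson_poly_re hr0 hr θ U]
    have hi1 : Integrable (fun t => u n t * Pk r (θ - t)) mu := by
      apply Continuous.integrable_of_hasCompactSupport
      · exact (hucont n).mul (Pk_sub_cont hr0 hr θ)
      · exact HasCompactSupport.of_compactSpace _
    have hi2 : Integrable (fun t => (U.eval (fourier 1 t)).re * Pk r (θ - t)) mu := by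
      apply Continuous.integrable_of_hasCompactSupport
      · apply Continuous.mul _ (Pk_sub_cont hr0 hr θ)
        exact Complex.continuous_re.comp (U.continuous.comp (fourier 1).continuous)
      · exact HasCompactSupport.of_compactSpace _
    have h1 : lam * P ≤ ∫ t, u n t * Pk r (θ - t) ∂mu := by
      calc lam * P = ∫ t in K, u n t * Pk r (θ - t) ∂mu := by
            rw [hP, PK, ← integral_const_mul]
            apply setIntegral_congr_fun hK.measurableSet
            intro t ht
            simp only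
            rw [huK n t ht]
        _ ≤ ∫ t, u n t * Pk r (θ - t) ∂mu := by
            apply setIntegral_le_integral hi1
            apply ae_of_all
            intro t
            exact mul_nonneg (hu0 n t) (Pk_pos hr0 hr _).le
    have h2 : ∫ t, (u n t * Pk r (θ - t) - 1 / 10 * Pk r (θ - t)) ∂mu
        ≤ ∫ t, (U.eval (fourier 1 t)).re * Pk r (θ - t) ∂mu := by
      apply integral_mono
      · exact hi1.sub ((Pk_integrable hr0 hr θ).const_mul _)
      · exact hi2
      · intro t
        simp only
        rw [← sub_mul]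
        apply mul_le_mul_of_nonneg_right _ (Pk_pos hr0 hr _).le
        rw [hU t]
        have := (abs_le.mp (hpu t)).1
        linarith
    rw [integral_sub hi1 ((Pk_integrable hr0 hr θ).const_mul _), integral_const_mul,
      Pk_integral hr0 hr θ] at h2
    linarith
  -- bound of the exponent
  obtain ⟨R, hR⟩ : ∃ R : ℝ, ∀ t : TT, ‖(U - Polynomial.C c).eval (fourier 1 t)‖ ≤ R := by
    have hcont : Continuous (fun t : TT => ‖(U - Polynomial.C c).eval (fourier 1 t)‖) :=
      ((U - Polynomial.C c).continuous.comp (fourier 1).continuous).norm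
    obtain ⟨R, hR⟩ := (isCompact_univ.image hcont).isBounded.bddAbove
    exact ⟨R, fun t => hR ⟨t, mem_univ t, rfl⟩⟩
  obtain ⟨k, hk1, hk⟩ := exp_trunc R
  refine ⟨expPoly k (U - Polynomial.C c), ?_, ?_⟩
  · rw [expPoly_eval, Polynomial.eval_sub, Polynomial.eval_C, ← hc, sub_self]
    rw [Finset.sum_eq_single 0]
    · simp
    · intro b _ hb
      simp [hb]
    · intro h
      exfalso
      exact h (Finset.mem_range.mpr (by omega))
  · have hmain : ∀ t : TT, ‖(expPoly k (U - Polynomial.C c)).eval (fourier 1 t)‖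
        ≤ 2 * Real.exp (u n t - lam * P) := by
      intro t
      rw [expPoly_eval]
      refine le_trans (hk _ (hR t)) ?_
      have h1 : ((U - Polynomial.C c).eval (fourier 1 t)).re
          ≤ (u n t - lam * P) + 1 / 5 := by
        rw [Polynomial.eval_sub, Polynomial.eval_C, Complex.sub_re, hU t]
        have := (abs_le.mp (hpu t)).2
        linarith
      have h2 : Real.exp ((U - Polynomial.C c).eval (fourier 1 t)).re
          ≤ Real.exp (u n t - lam * P) * Real.exp (1 / 5) := by
        rw [← Real.exp_add]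
        exact Real.exp_le_exp.mpr h1
      have h3 : Real.exp (1 / 5) ≤ 1 / (1 - 1 / 5) :=
        Real.exp_bound_div_one_sub_of_interval (by norm_num) (by norm_num)
      have h4 : 0 < Real.exp (u n t - lam * P) := Real.exp_pos _
      norm_num at h3
      nlinarith
    constructor
    · intro t
      refine le_trans (hmain t) ?_
      gcongr
      have := hu1 n t
      linarith
    · have hle : ∀ t : TT, ‖g t * (expPoly k (U - Polynomial.C c)).eval (fourier 1 t)‖ ^ 2
          ≤ 4 * Real.exp (-2 * lam * P) * (‖g t‖ ^ 2 * Real.exp (2 * u n t)) := by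
        intro t
        have h1 := hmain t
        rw [norm_mul, mul_pow]
        have h2 : ‖(expPoly k (U - Polynomial.C c)).eval (fourier 1 t)‖ ^ 2
            ≤ (2 * Real.exp (u n t - lam * P)) ^ 2 := pow_le_pow_left₀ (norm_nonneg _) h1 2
        have h3 : (2 * Real.exp (u n t - lam * P)) ^ 2
            = 4 * Real.exp (-2 * lam * P) * Real.exp (2 * u n t) := by
          rw [mul_pow, sq (Real.exp _), ← Real.exp_add, mul_assoc, ← Real.exp_add]
          congr 1
          · norm_num
          · congr 1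
            ring
        rw [h3] at h2
        calc ‖g t‖ ^ 2 * ‖(expPoly k (U - Polynomial.C c)).eval (fourier 1 t)‖ ^ 2
            ≤ ‖g t‖ ^ 2 * (4 * Real.exp (-2 * lam * P) * Real.exp (2 * u n t)) :=
              mul_le_mul_of_nonneg_left h2 (by positivity)
          _ = _ := by ring
      have hint : Integrable (fun t => ‖g t‖ ^ 2 * Real.exp (2 * u n t)) mu := by
        apply hgsq.mul_bdd (c := Real.exp (2 * lam))
        · exact (Real.continuous_exp.comp (continuous_const.mul (hucont n))).aestronglyMeasurable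
        · apply ae_of_all
          intro t
          rw [Real.norm_of_nonneg (Real.exp_pos _).le]
          apply Real.exp_le_exp.mpr
          linarith [hu1 n t]
      calc ∫ t, ‖g t * (expPoly k (U - Polynomial.C c)).eval (fourier 1 t)‖ ^ 2 ∂mu
          ≤ ∫ t, 4 * Real.exp (-2 * lam * P) * (‖g t‖ ^ 2 * Real.exp (2 * u n t)) ∂mu := by
            apply integral_mono_of_nonneg
            · apply ae_of_all
              intro t
              positivity
            · exact hint.const_mul _
            · exact ae_of_all _ hle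
        _ = 4 * Real.exp (-2 * lam * P) * ∫ t, ‖g t‖ ^ 2 * Real.exp (2 * u n t) ∂mu := by
            rw [integral_const_mul]
        _ ≤ 4 * Real.exp (-2 * lam * P) * ((∫ t, ‖g t‖ ^ 2 ∂mu) + 1) :=
            mul_le_mul_of_nonneg_left hn.le (by positivity)

end Pool.Agent.Helper41.HL
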