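import Pool.Agent.Helper41.HLF

set_option autoImplicit false
open MeasureTheory AddCircle Complex Filter Topology Set

namespace Pool.Agent.Helper41.HL

/-- Parseval for square integrable functions. -/
lemma parseval (f : TT → ℂ) (hf : MemLp f 2 mu) :
    HasSum (fun n : ℤ => ‖fourierCoeff f n‖ ^ 2) (∫ t, ‖f t‖ ^ 2 ∂mu) := by
  have h := hasSum_sq_fourierCoeff (hf.toLp f)
  have h1 : fourierCoeff (hf.toLp f) = fourierCoeff f := fourierCoeff_congr_ae hf.coeFn_toLp
  have h2 : ∫ t, ‖(hf.toLp f) t‖ ^ 2 ∂mu = ∫ t, ‖f t‖ ^ 2 ∂mu := by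
    apply integral_congr_ae
    filter_upwards [hf.coeFn_toLp] with t ht
    rw [ht]
  rw [h1, h2] at h
  exact h

lemma coeff_sq_le (f : TT → ℂ) (hf : MemLp f 2 mu) (n : ℤ) :
    ‖fourierCoeff f n‖ ^ 2 ≤ ∫ t, ‖f t‖ ^ 2 ∂mu :=
  le_hasSum (parseval f hf) n (fun _ _ => by positivity)

lemma neg_sum_le (f : TT → ℂ) (hf : MemLp f 2 mu) (N : ℕ) :
    ∑ m ∈ Finset.Ioc 0 N, ‖fourierCoeff f (-(m:ℤ))‖ ^ 2 ≤ ∫ t, ‖f t‖ ^ 2 ∂mu := by
  classical
  have h1 : ∑ m ∈ Finset.Ioc 0 N, ‖fourierCoeff f (-(m:ℤ))‖ ^ 2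
      = ∑ n ∈ (Finset.Ioc 0 N).image (fun m : ℕ => -(m:ℤ)), ‖fourierCoeff f n‖ ^ 2 := by
    rw [Finset.sum_image]
    intro a _ b _ h
    simpa using h
  rw [h1]
  exact sum_le_hasSum _ (fun _ _ => by positivity) (parseval f hf)

lemma pos_sum_le (f : TT → ℂ) (hf : MemLp f 2 mu) (N : ℕ) :
    ∑ m ∈ Finset.range (N + 1), ‖fourierCoeff f (m:ℤ)‖ ^ 2 ≤ ∫ t, ‖f t‖ ^ 2 ∂mu := by
  classical
  have h1 : ∑ m ∈ Finset.range (N + 1), ‖fourierCoeff f (m:ℤ)‖ ^ 2
      = ∑ n ∈ (Finset.range (N + 1)).image (fun m : ℕ => (m:ℤ)), ‖fourierCoeff f n‖ ^ 2 := by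
    rw [Finset.sum_image]
    intro a _ b _ h
    simpa using h
  rw [h1]
  exact sum_le_hasSum _ (fun _ _ => by positivity) (parseval f hf)

lemma poly_cont (A : Polynomial ℂ) : Continuous (fun t : TT => A.eval (fourier 1 t)) :=
  A.continuous.comp (fourier 1).continuous

lemma cont_memLp (f : TT → ℂ) (hf : Continuous f) : MemLp f 2 mu := by
  have h := (BoundedContinuousFunction.mkOfCompact ⟨f, hf⟩)
  obtain ⟨C, hC⟩ : ∃ C : ℝ, ∀ t, ‖f t‖ ≤ C := by
    obtain ⟨C, hC⟩ := (isCompact_univ.image hf.norm).isBounded.bddAbove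
    exact ⟨C, fun t => hC ⟨t, mem_univ t, rfl⟩⟩
  exact MemLp.of_bound hf.aestronglyMeasurable C (ae_of_all _ hC)

lemma coeff_mul_fourier (g : TT → ℂ) (k n : ℤ) :
    fourierCoeff (fun t => g t * fourier k t) n = fourierCoeff g (n - k) := by
  unfold fourierCoeff
  congr 1
  funext t
  have h : (-(n - k)) = -n + k := by ring
  rw [h, fourier_add, smul_eq_mul, smul_eq_mul]
  ring

lemma poly_eval_fourier (A : Polynomial ℂ) (D : ℕ) (hD : A.natDegree ≤ D) (t : TT) :
    A.eval (fourier 1 t) = ∑ f ∈ Finset.range (D + 1), A.coeff f * fourier (f:ℤ) t := by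
  rw [Polynomial.eval_eq_sum_range' (by omega : A.natDegree < D + 1)]
  apply Finset.sum_congr rfl
  intro f _
  rw [fourier_nat]

/-- Fourier coefficients of `g A`. -/
lemma coeff_mul_poly (g : TT → ℂ) (hg : Integrable g mu) (A : Polynomial ℂ) (D : ℕ)
    (hD : A.natDegree ≤ D) (n : ℤ) :
    fourierCoeff (fun t => g t * A.eval (fourier 1 t)) n
      = ∑ f ∈ Finset.range (D + 1), A.coeff f * fourierCoeff g (n - (f:ℤ)) := by
  have h1 : (fun t => g t * A.eval (fourier 1 t))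
      = ∑ f ∈ Finset.range (D + 1), fun t => A.coeff f * (g t * fourier (f:ℤ) t) := by
    funext t
    rw [poly_eval_fourier A D hD, Finset.mul_sum, Finset.sum_apply]
    apply Finset.sum_congr rfl
    intro f _
    ring
  have hint : ∀ f : ℕ, Integrable (fun t => g t * fourier (f:ℤ) t) mu := by
    intro f
    have := hg.fourier_smul (f:ℤ)
    simpa [mul_comm] using this
  rw [h1, fourierCoeff.sum _ _ (fun f _ => (hint f).const_mul _), Finset.sum_apply]
  apply Finset.sum_congr rfl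
  intro f _
  rw [fourierCoeff.const_mul, coeff_mul_fourier]

/-- Fourier coefficients of a polynomial. -/
lemma coeff_poly (A : Polynomial ℂ) (k : ℕ) :
    fourierCoeff (fun t : TT => A.eval (fourier 1 t)) (k:ℤ) = A.coeff k := by
  classical
  have h := coeff_mul_poly (fun _ => (1:ℂ)) (integrable_const 1) A (max A.natDegree k)
    (le_max_left _ _) (k:ℤ)
  simp only [one_mul] at h
  rw [h]
  have h2 : ∀ n : ℤ, fourierCoeff (fun _ : TT => (1:ℂ)) n = if n = 0 then 1 else 0 := by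
    intro n
    have h3 : (fun _ : TT => (1:ℂ)) = fun t => fourier 0 t := by
      funext t
      exact fourier_zero.symm
    have h4 : fourierCoeff (fun t : TT => fourier 0 t) = Pi.single 0 (1:ℂ) :=
      fourierCoeff_fourier 0
    rw [h3, h4]
    by_cases hn : n = 0
    · subst hn
      simp
    · simp [hn]
  rw [Finset.sum_eq_single k]
  · rw [h2]
    simp
  · intro b _ hb
    rw [h2, if_neg, mul_zero]
    intro h5
    apply hb
    omega
  · intro h5
    exfalso
    apply h5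
    rw [Finset.mem_range]
    have := le_max_right A.natDegree k
    omega

end Pool.Agent.Helper41.HL
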