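import Pool.Agent.Helper41.HLD
import Pool.Agent.Helper41.HLG

set_option autoImplicit false
open MeasureTheory AddCircle Complex Filter Topology Set

namespace Pool.Agent.Helper41.HL

/-- The negative coefficients. -/
noncomputable def Gc (g : TT → ℂ) (s : ℕ) : ℂ := fourierCoeff g (-(s:ℤ))

/-- The weights. -/
noncomputable def Wc (S : Set ℕ) (g : TT → ℂ) : ℕ → ℝ := S.indicator (fun s => ‖Gc g s‖ ^ 2)

lemma Wc_nonneg (S : Set ℕ) (g : TT → ℂ) (s : ℕ) : 0 ≤ Wc S g s := by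
  unfold Wc
  exact Set.indicator_nonneg (fun _ _ => by positivity) s

lemma Wc_summable (S : Set ℕ) (g : TT → ℂ) (hg : MemLp g 2 mu) : Summable (Wc S g) := by
  unfold Wc
  apply Summable.indicator
  have hinj : Function.Injective (fun s : ℕ => -(s:ℤ)) := by
    intro a b h
    simpa using h
  exact (parseval g hg).summable.comp_injective hinj

/-- The tail sum of the weights. -/
noncomputable def tailW (B : ℕ) (S : Set ℕ) (g : TT → ℂ) (f : ℕ) : ℝ :=
  ∑' s, Wc S g (s + (B * (f + 1) + 1))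

lemma tailW_nonneg (B : ℕ) (S : Set ℕ) (g : TT → ℂ) (f : ℕ) : 0 ≤ tailW B S g f :=
  tsum_nonneg (fun _ => Wc_nonneg S g _)

lemma tail_anti (W : ℕ → ℝ) (hW : ∀ s, 0 ≤ W s) (hs : Summable W) {x y : ℕ} (hxy : x ≤ y) :
    ∑' s, W (s + y) ≤ ∑' s, W (s + x) := by
  have h1 := hs.sum_add_tsum_nat_add x
  have h2 := hs.sum_add_tsum_nat_add y
  have h3 : ∑ i ∈ Finset.range x, W i ≤ ∑ i ∈ Finset.range y, W i :=
    Finset.sum_le_sum_of_subset_of_nonneg (Finset.range_mono hxy) (fun i _ _ => hW i)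
  linarith

lemma tailW_anti (B : ℕ) (S : Set ℕ) (g : TT → ℂ) (hg : MemLp g 2 mu) {f f₀ : ℕ}
    (h : f ≤ f₀) : tailW B S g f₀ ≤ tailW B S g f := by
  unfold tailW
  apply tail_anti _ (Wc_nonneg S g) (Wc_summable S g hg)
  have : B * (f + 1) ≤ B * (f₀ + 1) := Nat.mul_le_mul_left B (by omega)
  omega

lemma le_tail (W : ℕ → ℝ) (hW : ∀ s, 0 ≤ W s) (hs : Summable W) {x s : ℕ} (h : x ≤ s) :
    W s ≤ ∑' i, W (i + x) := by
  have h1 : Summable (fun i => W (i + x)) := (summable_nat_add_iff x).mpr hs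
  have h2 := h1.le_tsum (s - x) (fun _ _ => hW _)
  have h3 : s - x + x = s := by omega
  rw [h3] at h2
  exact h2

/-- Pointwise bound for the coefficients of the test polynomial. -/
lemma coeff_bound (B : ℕ) (hB : 2 ≤ B) (S : Set ℕ) (s₀ : ℕ)
    (hL : ∀ s ∈ S, ∀ s' ∈ S, s < s' → s' ≤ B * (s' - s))
    (hL0 : ∀ s ∈ S, s ≤ B * (s - s₀))
    (g : TT → ℂ) (hg : MemLp g 2 mu)
    (hG0 : ∀ s, s₀ < s → s ∉ S → Gc g s = 0)
    (lam P : ℝ) (A : Polynomial ℂ)
    (hA1 : ∀ t : TT, ‖A.eval (fourier 1 t)‖ ≤ 2 * Real.exp (lam * (1 - P)))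
    (hA2 : ∫ t, ‖g t * A.eval (fourier 1 t)‖ ^ 2 ∂mu
        ≤ 4 * Real.exp (-2 * lam * P) * ((∫ t, ‖g t‖ ^ 2 ∂mu) + 1)) (f : ℕ) :
    ∃ ψ : ℝ, 1 ≤ ψ ∧ ψ * ‖A.coeff f‖ ^ 2
        ≤ (4 * (∫ t, ‖g t‖ ^ 2 ∂mu) + 12) * Real.exp (2 * lam * (1 - P)) ∧
      (1 / 4) * (tailW B S g f / (2 * Real.exp (-2 * lam))) ^ (1 / (8 * (B:ℝ) ^ 4)) ≤ ψ ^ 3 := by
  set I := ∫ t, ‖g t‖ ^ 2 ∂mu with hI
  set κ := Real.exp (-2 * lam) with hκ
  have hκpos : 0 < κ := Real.exp_pos _
  set D := A.natDegree with hD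
  have hpolymem : MemLp (fun t : TT => A.eval (fourier 1 t)) 2 mu := cont_memLp _ (poly_cont A)
  have hgA : MemLp (fun t : TT => g t * A.eval (fourier 1 t)) 2 mu := by
    have h1 : MemLp (fun t : TT => A.eval (fourier 1 t)) ⊤ mu :=
      memLp_top_of_bound (poly_cont A).aestronglyMeasurable
        (2 * Real.exp (lam * (1 - P))) (ae_of_all _ hA1)
    have h2 := MemLp.mul h1 hg (r := 2)
    have h3 : (g * fun t : TT => A.eval (fourier 1 t)) = fun t => g t * A.eval (fourier 1 t) := rfl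
    rw [h3] at h2
    exact h2
  have hgint : Integrable g mu := hg.integrable (by norm_num)
  set E := 4 * Real.exp (-2 * lam * P) * (I + 1) with hE
  set F := 4 * Real.exp (2 * lam * (1 - P)) with hF
  have hE' : ∀ N, ∑ m ∈ Finset.Ioc 0 N, ‖eco (Gc g) A.coeff D m‖ ^ 2 ≤ E := by
    intro N
    refine le_trans ?_ hA2
    refine le_trans (le_of_eq ?_) (neg_sum_le _ hgA N)
    apply Finset.sum_congr rfl
    intro m _
    rw [coeff_mul_poly g hgint A D le_rfl]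
    unfold eco Gc
    congr 2
    apply Finset.sum_congr rfl
    intro f _
    congr 2
    push_cast
    ring
  have hF' : ∀ M, ∑ f ∈ Finset.range (M + 1), ‖A.coeff f‖ ^ 2 ≤ F := by
    intro M
    have h1 := pos_sum_le _ hpolymem M
    have h2 : ∑ m ∈ Finset.range (M + 1),
        ‖fourierCoeff (fun t : TT => A.eval (fourier 1 t)) (m:ℤ)‖ ^ 2
        = ∑ f ∈ Finset.range (M + 1), ‖A.coeff f‖ ^ 2 := by
      apply Finset.sum_congr rfl
      intro f _
      rw [coeff_poly]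
    rw [h2] at h1
    refine le_trans h1 ?_
    calc ∫ t, ‖A.eval (fourier 1 t)‖ ^ 2 ∂mu ≤ ∫ _, F ∂mu := by
          apply integral_mono_of_nonneg
          · exact ae_of_all _ (fun t => by positivity)
          · exact integrable_const _
          · apply ae_of_all
            intro t
            have h3 := pow_le_pow_left₀ (norm_nonneg _) (hA1 t) 2
            refine le_trans h3 (le_of_eq ?_)
            rw [hF, mul_pow, sq (Real.exp _), ← Real.exp_add]
            congr 1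
            · norm_num
            · congr 1
              ring
      _ = F := by simp
  obtain ⟨ψ, hψ1, hψ2, hψ3⟩ := keyB (B := B) (D := D) (s₀ := s₀) (κ := κ) (W := Wc S g) (S := S)
    (G := Gc g) (A := A.coeff) hB hκpos hL hL0 hG0
    (fun f hf => Polynomial.coeff_eq_zero_of_natDegree_lt hf)
    (fun s hs => Set.indicator_of_mem hs _)
    (fun s hs => Set.indicator_of_notMem hs _)
    (Wc_summable S g hg) E F hE' hF' f
  refine ⟨ψ, hψ1, ?_, hψ3⟩
  have h4 : E + 2 * κ * F = κ * ((4 * I + 12) * Real.exp (2 * lam * (1 - P))) := by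
    have h5 : Real.exp (-2 * lam * P) = κ * Real.exp (2 * lam * (1 - P)) := by
      rw [hκ, ← Real.exp_add]
      congr 1
      ring
    rw [hE, hF, h5]
    ring
  rw [h4] at hψ2
  have h6 : κ * (ψ * ‖A.coeff f‖ ^ 2) ≤ κ * ((4 * I + 12) * Real.exp (2 * lam * (1 - P))) := by
    rw [← mul_assoc]
    exact hψ2
  exact le_of_mul_le_mul_left h6 hκpos

/-- The main step towards decay. -/
lemma decay_step (B : ℕ) (hB : 2 ≤ B) (S : Set ℕ) (s₀ : ℕ)
    (hL : ∀ s ∈ S, ∀ s' ∈ S, s < s' → s' ≤ B * (s' - s))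
    (hL0 : ∀ s ∈ S, s ≤ B * (s - s₀))
    (g : TT → ℂ) (hg : MemLp g 2 mu)
    (hG0 : ∀ s, s₀ < s → s ∉ S → Gc g s = 0)
    (K : Set TT) (hK : IsClosed K) (hgK : ∀ᵐ t ∂mu, t ∈ K → g t = 0)
    {r : ℝ} (hr0 : 0 < r) (hr : r < 1) (θ : TT)
    (hP : 1 - 1 / (96 * (B:ℝ) ^ 4) ≤ PK K r θ)
    (f₀ : ℕ) (ht0 : 0 < tailW B S g f₀) (ht1 : tailW B S g f₀ < 1) :
    1 ≤ (Real.sqrt (8 * (4 * (∫ t, ‖g t‖ ^ 2 ∂mu) + 12)) *
        (tailW B S g f₀) ^ (1 / (96 * (B:ℝ) ^ 4)) +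
      Real.sqrt (4 * (∫ t, ‖g t‖ ^ 2 ∂mu) + 12) *
        (tailW B S g f₀) ^ (-(1 / (96 * (B:ℝ) ^ 4))) * r ^ f₀) * (1 - r)⁻¹ := by
  set t := tailW B S g f₀ with ht
  set C₀ := 4 * (∫ t, ‖g t‖ ^ 2 ∂mu) + 12 with hC₀
  have hI0 : 0 ≤ ∫ t, ‖g t‖ ^ 2 ∂mu := integral_nonneg (fun _ => by positivity)
  have hC₀pos : 0 < C₀ := by rw [hC₀]; linarith
  set η := 1 / (96 * (B:ℝ) ^ 4) with hη
  have hB' : (1:ℝ) ≤ B := by exact_mod_cast (by omega : 1 ≤ B)
  have hB4 : (1:ℝ) ≤ (B:ℝ) ^ 4 := one_le_pow₀ hB'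
  have hη0 : 0 < η := by positivity
  have hη1 : 4 * η ≤ 1 := by
    rw [hη, mul_one_div, div_le_one (by positivity)]
    linarith
  have hθη : 1 / (8 * (B:ℝ) ^ 4) = 12 * η := by
    rw [hη]
    field_simp
    norm_num
  set P := PK K r θ with hPdef
  set lam := -Real.log t with hlam
  have hlampos : 0 < lam := by
    rw [hlam]
    have := Real.log_neg ht0 ht1
    linarith
  obtain ⟨A, hAz, hA1, hA2⟩ := test_poly K hK g hg hgK hr0.le hr θ hlampos
  have hexp1 : Real.exp (-2 * lam) = t ^ 2 := by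
    rw [hlam, show -2 * -Real.log t = Real.log t + Real.log t by ring, Real.exp_add,
      Real.exp_log ht0]
    ring
  have hX : Real.exp (2 * lam * (1 - P)) ≤ t ^ (-(2 * η)) := by
    rw [Real.rpow_def_of_pos ht0]
    apply Real.exp_le_exp.mpr
    have h1 : 1 - P ≤ η := by linarith
    have h2 : 2 * lam * (1 - P) ≤ 2 * lam * η := mul_le_mul_of_nonneg_left h1 (by positivity)
    have h3 : 2 * lam * η = Real.log t * -(2 * η) := by rw [hlam]; ring
    linarith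
  have hcb := coeff_bound B hB S s₀ hL hL0 g hg hG0 lam P A hA1 hA2
  -- bound for all coefficients
  have hall : ∀ f, ‖A.coeff f‖ ≤ Real.sqrt C₀ * t ^ (-η) := by
    intro f
    obtain ⟨ψ, hψ1, hψ2, _⟩ := hcb f
    have h1 : ‖A.coeff f‖ ^ 2 ≤ C₀ * t ^ (-(2 * η)) := by
      calc ‖A.coeff f‖ ^ 2 ≤ ψ * ‖A.coeff f‖ ^ 2 := le_mul_of_one_le_left (by positivity) hψ1
        _ ≤ C₀ * Real.exp (2 * lam * (1 - P)) := hψ2
        _ ≤ C₀ * t ^ (-(2 * η)) := mul_le_mul_of_nonneg_left hX hC₀pos.le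
    have h2 : (Real.sqrt C₀ * t ^ (-η)) ^ 2 = C₀ * t ^ (-(2 * η)) := by
      rw [mul_pow, Real.sq_sqrt hC₀pos.le, sq (t ^ (-η)), ← Real.rpow_add ht0]
      congr 2
      ring
    rw [← h2] at h1
    exact le_of_sq_le_sq h1 (by positivity)
  -- bound for small f
  have hsmall : ∀ f, f ≤ f₀ → ‖A.coeff f‖ ≤ Real.sqrt (8 * C₀) * t ^ η := by
    intro f hf
    obtain ⟨ψ, hψ1, hψ2, hψ3⟩ := hcb f
    have htf : t ≤ tailW B S g f := tailW_anti B S g hg hf
    have h1 : (1 / (2 * t)) ^ (12 * η) ≤ (tailW B S g f / (2 * Real.exp (-2 * lam)))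
        ^ (1 / (8 * (B:ℝ) ^ 4)) := by
      rw [hθη, hexp1]
      apply Real.rpow_le_rpow (by positivity) _ (by positivity)
      have : 1 / (2 * t) = t / (2 * t ^ 2) := by field_simp
      rw [this]
      exact div_le_div_of_nonneg_right htf (by positivity)
    set y := (1 / (2 * t)) ^ (4 * η) with hy
    have hypos : 0 < y := Real.rpow_pos_of_pos (by positivity) _
    have h2 : (1 / (2 * t)) ^ (12 * η) = y ^ 3 := by
      rw [hy, ← Real.rpow_natCast, ← Real.rpow_mul (by positivity)]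
      congr 1
      push_cast
      ring
    rw [h2] at h1
    have h3 : (y / 4) ^ 3 ≤ ψ ^ 3 := by
      have : (y / 4) ^ 3 ≤ (1 / 4) * y ^ 3 := by
        have : 0 < y ^ 3 := by positivity
        have h4 : (y / 4) ^ 3 = y ^ 3 / 64 := by ring
        rw [h4]
        linarith
      linarith
    have h4 : y / 4 ≤ ψ := le_of_pow_le_pow_left₀ (by norm_num) (by linarith) h3
    have h5 : ‖A.coeff f‖ ^ 2 ≤ C₀ * t ^ (-(2 * η)) * (4 / y) := by
      have h6 : y / 4 * ‖A.coeff f‖ ^ 2 ≤ C₀ * t ^ (-(2 * η)) := by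
        calc y / 4 * ‖A.coeff f‖ ^ 2 ≤ ψ * ‖A.coeff f‖ ^ 2 :=
              mul_le_mul_of_nonneg_right h4 (by positivity)
          _ ≤ C₀ * Real.exp (2 * lam * (1 - P)) := hψ2
          _ ≤ C₀ * t ^ (-(2 * η)) := mul_le_mul_of_nonneg_left hX hC₀pos.le
      calc ‖A.coeff f‖ ^ 2 = (y / 4 * ‖A.coeff f‖ ^ 2) * (4 / y) := by field_simp
        _ ≤ C₀ * t ^ (-(2 * η)) * (4 / y) := mul_le_mul_of_nonneg_right h6 (by positivity)
    have h7 : 4 / y ≤ 8 * t ^ (4 * η) := by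
      have h8 : 1 / y = (2 * t) ^ (4 * η) := by
        rw [hy, Real.div_rpow (by norm_num) (by positivity), Real.one_rpow, one_div_one_div]
      have h9 : (2 * t) ^ (4 * η) ≤ 2 * t ^ (4 * η) := by
        rw [Real.mul_rpow (by norm_num) ht0.le]
        apply mul_le_mul_of_nonneg_right _ (by positivity)
        calc (2:ℝ) ^ (4 * η) ≤ (2:ℝ) ^ (1:ℝ) :=
              Real.rpow_le_rpow_of_exponent_le (by norm_num) hη1
          _ = 2 := Real.rpow_one 2
      calc 4 / y = 4 * (1 / y) := by ring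
        _ = 4 * (2 * t) ^ (4 * η) := by rw [h8]
        _ ≤ 8 * t ^ (4 * η) := by linarith
    have h10 : ‖A.coeff f‖ ^ 2 ≤ (8 * C₀) * t ^ (2 * η) := by
      calc ‖A.coeff f‖ ^ 2 ≤ C₀ * t ^ (-(2 * η)) * (4 / y) := h5
        _ ≤ C₀ * t ^ (-(2 * η)) * (8 * t ^ (4 * η)) :=
            mul_le_mul_of_nonneg_left h7 (by positivity)
        _ = (8 * C₀) * (t ^ (-(2 * η)) * t ^ (4 * η)) := by ring
        _ = (8 * C₀) * t ^ (2 * η) := by
            rw [← Real.rpow_add ht0]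
            congr 2
            ring
    have h11 : (Real.sqrt (8 * C₀) * t ^ η) ^ 2 = (8 * C₀) * t ^ (2 * η) := by
      rw [mul_pow, Real.sq_sqrt (by positivity), sq (t ^ η), ← Real.rpow_add ht0]
      congr 2
      ring
    rw [← h11] at h10
    exact le_of_sq_le_sq h10 (by positivity)
  -- evaluate
  have hgeom : ∀ n : ℕ, ∑ i ∈ Finset.range n, r ^ i ≤ (1 - r)⁻¹ := by
    intro n
    have h1 := (summable_geometric_of_lt_one hr0.le hr).sum_le_tsum (Finset.range n)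
      (fun i _ => by positivity)
    rwa [tsum_geometric_of_lt_one hr0.le hr] at h1
  have hz : ‖(r:ℂ) * fourier 1 θ‖ = r := by
    rw [norm_mul, fourier_abs, mul_one, Complex.norm_real, Real.norm_of_nonneg hr0.le]
  have hD : A.natDegree < A.natDegree + f₀ + 1 := by omega
  have h1 : (1:ℝ) ≤ ∑ f ∈ Finset.range (A.natDegree + f₀ + 1), ‖A.coeff f‖ * r ^ f := by
    have h2 := Polynomial.eval_eq_sum_range' hD ((r:ℂ) * fourier 1 θ)
    rw [hAz] at h2
    calc (1:ℝ) = ‖(1:ℂ)‖ := by simp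
      _ = ‖∑ f ∈ Finset.range (A.natDegree + f₀ + 1), A.coeff f * ((r:ℂ) * fourier 1 θ) ^ f‖ := by
          rw [← h2]
      _ ≤ ∑ f ∈ Finset.range (A.natDegree + f₀ + 1), ‖A.coeff f * ((r:ℂ) * fourier 1 θ) ^ f‖ :=
          norm_sum_le _ _
      _ = _ := by
          apply Finset.sum_congr rfl
          intro f _
          rw [norm_mul, norm_pow, hz]
  have h3 : ∀ f ∈ Finset.range (A.natDegree + f₀ + 1), ‖A.coeff f‖ * r ^ f
      ≤ (Real.sqrt (8 * C₀) * t ^ η) * r ^ f +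
        (if f₀ ≤ f then (Real.sqrt C₀ * t ^ (-η)) * r ^ f else 0) := by
    intro f _
    by_cases h : f₀ ≤ f
    · rw [if_pos h]
      have h4 := mul_le_mul_of_nonneg_right (hall f) (by positivity : 0 ≤ r ^ f)
      have h5 : 0 ≤ (Real.sqrt (8 * C₀) * t ^ η) * r ^ f := by positivity
      linarith
    · rw [if_neg h, add_zero]
      exact mul_le_mul_of_nonneg_right (hsmall f (by omega)) (by positivity)
  have h4 : ∑ f ∈ Finset.range (A.natDegree + f₀ + 1),
      (if f₀ ≤ f then (Real.sqrt C₀ * t ^ (-η)) * r ^ f else 0)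
      ≤ (Real.sqrt C₀ * t ^ (-η)) * r ^ f₀ * (1 - r)⁻¹ := by
    rw [← Finset.sum_filter]
    have h5 : (Finset.range (A.natDegree + f₀ + 1)).filter (fun f => f₀ ≤ f)
        = (Finset.range (A.natDegree + 1)).image (fun i => i + f₀) := by
      ext f
      simp only [Finset.mem_filter, Finset.mem_range, Finset.mem_image]
      constructor
      · rintro ⟨h1, h2⟩
        exact ⟨f - f₀, by omega, by omega⟩
      · rintro ⟨i, hi, rfl⟩
        omega
    rw [h5, Finset.sum_image (by intro a _ b _ h; simpa using h)]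
    calc ∑ i ∈ Finset.range (A.natDegree + 1), (Real.sqrt C₀ * t ^ (-η)) * r ^ (i + f₀)
        = (Real.sqrt C₀ * t ^ (-η)) * r ^ f₀ * ∑ i ∈ Finset.range (A.natDegree + 1), r ^ i := by
          rw [Finset.mul_sum]
          apply Finset.sum_congr rfl
          intro i _
          rw [pow_add]
          ring
      _ ≤ (Real.sqrt C₀ * t ^ (-η)) * r ^ f₀ * (1 - r)⁻¹ :=
          mul_le_mul_of_nonneg_left (hgeom _) (by positivity)
  have h5 : ∑ f ∈ Finset.range (A.natDegree + f₀ + 1), (Real.sqrt (8 * C₀) * t ^ η) * r ^ f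
      ≤ (Real.sqrt (8 * C₀) * t ^ η) * (1 - r)⁻¹ := by
    rw [← Finset.mul_sum]
    exact mul_le_mul_of_nonneg_left (hgeom _) (by positivity)
  have h6 := Finset.sum_le_sum h3
  rw [Finset.sum_add_distrib] at h6
  calc (1:ℝ) ≤ (Real.sqrt (8 * C₀) * t ^ η) * (1 - r)⁻¹ +
        (Real.sqrt C₀ * t ^ (-η)) * r ^ f₀ * (1 - r)⁻¹ := by linarith
    _ = _ := by ring

end Pool.Agent.Helper41.HL
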