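import Pool.Agent.Helper41.HLH

set_option autoImplicit false
open MeasureTheory AddCircle Complex Filter Topology Set

namespace Pool.Agent.Helper41.HL

lemma tailW_tendsto (B : ℕ) (hB : 2 ≤ B) (S : Set ℕ) (g : TT → ℂ) :
    Tendsto (fun f => tailW B S g f) atTop (𝓝 0) := by
  have h1 : Tendsto (fun i => ∑' k, Wc S g (k + i)) atTop (𝓝 0) := tendsto_sum_nat_add _
  have h2 : Tendsto (fun f : ℕ => B * (f + 1) + 1) atTop atTop := by
    apply tendsto_atTop_mono (f := fun f : ℕ => f) _ tendsto_id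
    intro f
    have : f ≤ B * (f + 1) := by nlinarith
    omega
  exact h1.comp h2

lemma tail_decay (B : ℕ) (hB : 2 ≤ B) (S : Set ℕ) (s₀ : ℕ)
    (hL : ∀ s ∈ S, ∀ s' ∈ S, s < s' → s' ≤ B * (s' - s))
    (hL0 : ∀ s ∈ S, s ≤ B * (s - s₀))
    (g : TT → ℂ) (hg : MemLp g 2 mu)
    (hG0 : ∀ s, s₀ < s → s ∉ S → Gc g s = 0)
    (K : Set TT) (hK : IsClosed K) (hgK : ∀ᵐ t ∂mu, t ∈ K → g t = 0)
    {r : ℝ} (hr0 : 0 < r) (hr : r < 1) (θ : TT)
    (hP : 1 - 1 / (96 * (B:ℝ) ^ 4) ≤ PK K r θ) :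
    ∃ C : ℝ, 0 ≤ C ∧ ∀ᶠ f₀ : ℕ in atTop, tailW B S g f₀ ≤ (C * r ^ f₀) ^ (96 * B ^ 4) := by
  set a := Real.sqrt (8 * (4 * (∫ t, ‖g t‖ ^ 2 ∂mu) + 12)) with ha
  set b := Real.sqrt (4 * (∫ t, ‖g t‖ ^ 2 ∂mu) + 12) with hb
  set c := (1 - r)⁻¹ with hc
  have hcpos : 0 < c := by
    rw [hc]
    apply inv_pos.mpr
    linarith
  have ha0 : 0 ≤ a := Real.sqrt_nonneg _
  have hb0 : 0 ≤ b := Real.sqrt_nonneg _
  set η := 1 / (96 * (B:ℝ) ^ 4) with hη
  have hB' : (0:ℝ) < B := by exact_mod_cast (by omega : 0 < B)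
  have hη0 : 0 < η := by positivity
  refine ⟨2 * b * c, by positivity, ?_⟩
  have ht := tailW_tendsto B hB S g
  have h1 : ∀ᶠ f₀ : ℕ in atTop, tailW B S g f₀ < 1 := ht.eventually (gt_mem_nhds one_pos)
  have h2 : Tendsto (fun f₀ => a * (tailW B S g f₀) ^ η * c) atTop (𝓝 0) := by
    have h3 : Tendsto (fun f₀ => (tailW B S g f₀) ^ η) atTop (𝓝 ((0:ℝ) ^ η)) :=
      ht.rpow_const (Or.inr hη0.le)
    rw [Real.zero_rpow hη0.ne'] at h3
    simpa using (h3.const_mul a).mul_const c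
  have h3 : ∀ᶠ f₀ : ℕ in atTop, a * (tailW B S g f₀) ^ η * c < 1 / 2 :=
    h2.eventually (gt_mem_nhds (by norm_num))
  filter_upwards [h1, h3] with f₀ h4 h5
  rcases eq_or_lt_of_le (tailW_nonneg B S g f₀) with h6 | h6
  · rw [← h6]
    positivity
  · have h7 := decay_step B hB S s₀ hL hL0 g hg hG0 K hK hgK hr0 hr θ hP f₀ h6 h4
    rw [← ha, ← hb, ← hη, ← hc] at h7
    set t := tailW B S g f₀ with htdef
    have h8 : 1 / 2 ≤ b * t ^ (-η) * r ^ f₀ * c := by nlinarith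
    have h9 : t ^ (-η) = (t ^ η)⁻¹ := Real.rpow_neg h6.le η
    have h10 : 0 < t ^ η := Real.rpow_pos_of_pos h6 η
    have h11 : t ^ η ≤ 2 * b * c * r ^ f₀ := by
      rw [h9] at h8
      have h12 : t ^ η * (1 / 2) ≤ t ^ η * (b * (t ^ η)⁻¹ * r ^ f₀ * c) :=
        mul_le_mul_of_nonneg_left h8 h10.le
      have h13 : t ^ η * (b * (t ^ η)⁻¹ * r ^ f₀ * c) = b * r ^ f₀ * c := by
        field_simp
      rw [h13] at h12
      linarith
    have h14 : t = (t ^ η) ^ (96 * B ^ 4) := by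
      rw [← Real.rpow_natCast, ← Real.rpow_mul h6.le]
      have : η * ((96 * B ^ 4 : ℕ) : ℝ) = 1 := by
        rw [hη]
        push_cast
        field_simp
      rw [this, Real.rpow_one]
    calc t = (t ^ η) ^ (96 * B ^ 4) := h14
      _ ≤ (2 * b * c * r ^ f₀) ^ (96 * B ^ 4) := pow_le_pow_left₀ h10.le h11 _

/-- Exponential decay of the negative coefficients. -/
lemma decay (B : ℕ) (hB : 2 ≤ B) (S : Set ℕ) (s₀ : ℕ)
    (hL : ∀ s ∈ S, ∀ s' ∈ S, s < s' → s' ≤ B * (s' - s))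
    (hL0 : ∀ s ∈ S, s ≤ B * (s - s₀))
    (g : TT → ℂ) (hg : MemLp g 2 mu)
    (hG0 : ∀ s, s₀ < s → s ∉ S → Gc g s = 0)
    (K : Set TT) (hK : IsClosed K) (hgK : ∀ᵐ t ∂mu, t ∈ K → g t = 0)
    {r : ℝ} (hr0 : 0 < r) (hr : r < 1) (θ : TT)
    (hP : 1 - 1 / (96 * (B:ℝ) ^ 4) ≤ PK K r θ) :
    ∃ C : ℝ, 0 ≤ C ∧ ∀ s : ℕ, ‖Gc g s‖ ≤ C * r ^ (4 * s) := by
  obtain ⟨C, hC0, hC⟩ := tail_decay B hB S s₀ hL hL0 g hg hG0 K hK hgK hr0 hr θ hP
  obtain ⟨F, hF⟩ := eventually_atTop.mp hC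
  -- the bound for large s
  have hlarge : ∀ s, B * (F + 4) + s₀ + 4 * B ≤ s → ‖Gc g s‖ ≤ C ^ (48 * B ^ 4) * r ^ (4 * s) := by
    intro s hs
    by_cases hsS : s ∈ S
    · set q := (s - 1) / B with hq
      have hBpos : 0 < B := by omega
      have h1 : B * q ≤ s - 1 := Nat.mul_div_le _ _
      have h2 : s - 1 < B * q + B := by
        have := Nat.lt_mul_div_succ (s - 1) hBpos
        rw [← hq] at this
        linarith
      have h3 : F + 2 ≤ q := by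
        by_contra h
        have h4 : q ≤ F + 1 := by omega
        have h5 : B * q ≤ B * (F + 1) := Nat.mul_le_mul_left B h4
        have h6 : B * (F + 4) = B * (F + 1) + 3 * B := by ring
        omega
      obtain ⟨f₀, hf₀⟩ : ∃ f₀, q = f₀ + 1 := ⟨q - 1, by omega⟩
      have h4 := hF f₀ (by omega)
      rw [hf₀] at h1 h2
      have h5 : ‖Gc g s‖ ^ 2 ≤ tailW B S g f₀ := by
        have h6 := le_tail (Wc S g) (Wc_nonneg S g) (Wc_summable S g hg)
          (by omega : B * (f₀ + 1) + 1 ≤ s)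
        have h7 : Wc S g s = ‖Gc g s‖ ^ 2 := Set.indicator_of_mem hsS _
        rw [h7] at h6
        exact h6
      have h8 : 8 * s ≤ 96 * B ^ 4 * f₀ := by
        have h9 : s ≤ B * f₀ + 2 * B := by
          have : B * (f₀ + 1) = B * f₀ + B := by ring
          omega
        have h10 : s ≤ 2 * (B * f₀) := by omega
        have h11 : B * f₀ ≤ B ^ 4 * f₀ := by
          apply Nat.mul_le_mul_right
          calc B = B ^ 1 := (pow_one B).symm
            _ ≤ B ^ 4 := Nat.pow_le_pow_right hBpos (by norm_num)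
        calc 8 * s ≤ 8 * (2 * (B * f₀)) := by omega
          _ = 16 * (B * f₀) := by ring
          _ ≤ 96 * (B ^ 4 * f₀) := by omega
          _ = 96 * B ^ 4 * f₀ := by ring
      have h12 : ‖Gc g s‖ ^ 2 ≤ (C ^ (48 * B ^ 4) * r ^ (4 * s)) ^ 2 := by
        calc ‖Gc g s‖ ^ 2 ≤ (C * r ^ f₀) ^ (96 * B ^ 4) := le_trans h5 h4
          _ = C ^ (96 * B ^ 4) * r ^ (96 * B ^ 4 * f₀) := by
              rw [mul_pow, ← pow_mul]
              congr 2
              ring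
          _ ≤ C ^ (96 * B ^ 4) * r ^ (8 * s) := by
              apply mul_le_mul_of_nonneg_left _ (by positivity)
              exact pow_le_pow_of_le_one hr0.le hr.le h8
          _ = (C ^ (48 * B ^ 4) * r ^ (4 * s)) ^ 2 := by
              rw [mul_pow, ← pow_mul, ← pow_mul]
              congr 2 <;> ring
      exact le_of_sq_le_sq h12 (by positivity)
    · rw [hG0 s (by nlinarith) hsS, norm_zero]
      positivity
  set s₁ := B * (F + 4) + s₀ + 4 * B with hs₁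
  refine ⟨C ^ (48 * B ^ 4) + ∑ s ∈ Finset.range s₁, ‖Gc g s‖ / r ^ (4 * s), by positivity, ?_⟩
  intro s
  by_cases h : s₁ ≤ s
  · refine le_trans (hlarge s h) ?_
    apply mul_le_mul_of_nonneg_right _ (by positivity)
    have : 0 ≤ ∑ s ∈ Finset.range s₁, ‖Gc g s‖ / r ^ (4 * s) :=
      Finset.sum_nonneg (fun _ _ => by positivity)
    linarith
  · have h1 : ‖Gc g s‖ / r ^ (4 * s) ≤ ∑ s ∈ Finset.range s₁, ‖Gc g s‖ / r ^ (4 * s) :=
      Finset.single_le_sum (f := fun s => ‖Gc g s‖ / r ^ (4 * s)) (fun _ _ => by positivity)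
        (Finset.mem_range.mpr (by omega))
    have h2 : ‖Gc g s‖ = ‖Gc g s‖ / r ^ (4 * s) * r ^ (4 * s) := by field_simp
    rw [h2]
    apply mul_le_mul_of_nonneg_right _ (by positivity)
    have : 0 ≤ C ^ (48 * B ^ 4) := by positivity
    linarith

end Pool.Agent.Helper41.HL
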