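import Pool.Agent.Helper41.HLI

set_option autoImplicit false
open MeasureTheory AddCircle Complex Filter Topology Set

namespace Pool.Agent.Helper41.HL

/-- Coefficients of the extended function on the circle of radius `r`. -/
noncomputable def cz (g : TT → ℂ) (r : ℝ) (n : ℤ) : ℂ := fourierCoeff g n * (r:ℂ) ^ n

lemma cz_bound (g : TT → ℂ) (hg : MemLp g 2 mu) {r : ℝ} (hr0 : 0 < r) (hr : r < 1)
    (C : ℝ) (hC0 : 0 ≤ C) (hC : ∀ s : ℕ, ‖Gc g s‖ ≤ C * r ^ (4 * s)) (n : ℤ) :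
    ‖cz g r n‖ ≤ (Real.sqrt (∫ t, ‖g t‖ ^ 2 ∂mu) + C) * r ^ n.natAbs := by
  have hI0 : 0 ≤ ∫ t, ‖g t‖ ^ 2 ∂mu := integral_nonneg (fun _ => by positivity)
  unfold cz
  rw [norm_mul, norm_zpow, Complex.norm_real, Real.norm_of_nonneg hr0.le]
  rcases Int.eq_nat_or_neg n with ⟨m, hm | hm⟩
  · rw [hm, zpow_natCast, Int.natAbs_natCast]
    apply mul_le_mul_of_nonneg_right _ (by positivity)
    have h1 : ‖fourierCoeff g (m:ℤ)‖ ≤ Real.sqrt (∫ t, ‖g t‖ ^ 2 ∂mu) :=
      Real.le_sqrt_of_sq_le (coeff_sq_le g hg _)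
    linarith
  · rw [hm, Int.natAbs_neg, Int.natAbs_natCast, zpow_neg, zpow_natCast]
    have h1 := hC m
    unfold Gc at h1
    have h2 : r ^ (4 * m) * (r ^ m)⁻¹ ≤ r ^ m := by
      rw [← div_eq_mul_inv, div_le_iff₀ (by positivity), ← pow_add]
      exact pow_le_pow_of_le_one hr0.le hr.le (by omega)
    calc ‖fourierCoeff g (-(m:ℤ))‖ * (r ^ m)⁻¹ ≤ (C * r ^ (4 * m)) * (r ^ m)⁻¹ :=
          mul_le_mul_of_nonneg_right h1 (by positivity)
      _ = C * (r ^ (4 * m) * (r ^ m)⁻¹) := by ring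
      _ ≤ C * r ^ m := mul_le_mul_of_nonneg_left h2 hC0
      _ ≤ _ := by
          apply mul_le_mul_of_nonneg_right _ (by positivity)
          have := Real.sqrt_nonneg (∫ t, ‖g t‖ ^ 2 ∂mu)
          linarith

lemma cz_summable (g : TT → ℂ) (hg : MemLp g 2 mu) {r : ℝ} (hr0 : 0 < r) (hr : r < 1)
    (C : ℝ) (hC0 : 0 ≤ C) (hC : ∀ s : ℕ, ‖Gc g s‖ ≤ C * r ^ (4 * s)) (θ : TT) :
    Summable (fun n : ℤ => cz g r n * fourier n θ) := by
  apply Summable.of_norm_bounded (g := fun n : ℤ =>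
    (Real.sqrt (∫ t, ‖g t‖ ^ 2 ∂mu) + C) * r ^ n.natAbs)
    ((summable_rpow_int hr0.le hr).mul_left _)
  intro n
  rw [norm_mul, fourier_abs, mul_one]
  exact cz_bound g hg hr0 hr C hC0 hC n

/-- Multiplication by an analytic polynomial. -/
lemma mul_poly_hasSum (g : TT → ℂ) (hg : MemLp g 2 mu) {r : ℝ} (hr0 : 0 < r) (θ : TT)
    (hs : Summable (fun n : ℤ => cz g r n * fourier n θ)) (A : Polynomial ℂ) :
    HasSum (fun n : ℤ => fourierCoeff (fun t => g t * A.eval (fourier 1 t)) n * (r:ℂ) ^ n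
        * fourier n θ)
      (A.eval ((r:ℂ) * fourier 1 θ) * ∑' n : ℤ, cz g r n * fourier n θ) := by
  have hgint : Integrable g mu := hg.integrable (by norm_num)
  have hrne : (r:ℂ) ≠ 0 := by exact_mod_cast hr0.ne'
  have h1 : ∀ n : ℤ, fourierCoeff (fun t => g t * A.eval (fourier 1 t)) n * (r:ℂ) ^ n
        * fourier n θ = ∑ f ∈ Finset.range (A.natDegree + 1),
        (A.coeff f * ((r:ℂ) * fourier 1 θ) ^ f) *
          (cz g r (n - (f:ℤ)) * fourier (n - (f:ℤ)) θ) := by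
    intro n
    rw [coeff_mul_poly g hgint A A.natDegree le_rfl, Finset.sum_mul, Finset.sum_mul]
    apply Finset.sum_congr rfl
    intro f _
    unfold cz
    have h2 : (r:ℂ) ^ n = (r:ℂ) ^ f * (r:ℂ) ^ (n - (f:ℤ)) := by
      rw [← zpow_natCast, ← zpow_add₀ hrne]
      congr 1
      ring
    have h3 : fourier n θ = (fourier 1 θ) ^ f * fourier (n - (f:ℤ)) θ := by
      rw [← fourier_nat, ← fourier_add]
      congr 2
      ring
    rw [h2, h3, mul_pow]
    ring
  simp_rw [h1]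
  have h2 : A.eval ((r:ℂ) * fourier 1 θ) * ∑' n : ℤ, cz g r n * fourier n θ
      = ∑ f ∈ Finset.range (A.natDegree + 1),
        (A.coeff f * ((r:ℂ) * fourier 1 θ) ^ f) * ∑' n : ℤ, cz g r n * fourier n θ := by
    rw [← Finset.sum_mul, Polynomial.eval_eq_sum_range]
  rw [h2]
  apply hasSum_sum
  intro f _
  apply HasSum.mul_left
  have h3 := (Equiv.subRight (f:ℤ)).hasSum_iff (f := fun n : ℤ => cz g r n * fourier n θ)
    (a := ∑' n : ℤ, cz g r n * fourier n θ)
  have h4 := h3.mpr hs.hasSum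
  exact h4

lemma coeff_norm_le (A : Polynomial ℂ) (M : ℝ) (hM : ∀ t : TT, ‖A.eval (fourier 1 t)‖ ≤ M)
    (f : ℕ) : ‖A.coeff f‖ ≤ M := by
  rw [← coeff_poly A f]
  unfold fourierCoeff
  refine le_trans (norm_integral_le_integral_norm _) ?_
  calc ∫ t, ‖fourier (-(f:ℤ)) t • A.eval (fourier 1 t)‖ ∂mu ≤ ∫ _, M ∂mu := by
        apply integral_mono_of_nonneg
        · exact ae_of_all _ (fun t => norm_nonneg _)
        · exact integrable_const _
        · apply ae_of_all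
          intro t
          simp only
          rw [norm_smul, fourier_abs, one_mul]
          exact hM t
    _ = M := by simp

/-- Splitting estimate. -/
lemma split_bound (d : ℤ → ℂ) {r : ℝ} (hr0 : 0 < r) (hr : r < 1) (θ : TT) (H : ℂ)
    (hd : HasSum (fun n : ℤ => d n * (r:ℂ) ^ n * fourier n θ) H) (a b : ℝ)
    (ha : ∀ n, ‖d n‖ ≤ a) (hb : ∀ m : ℕ, ‖d (-(m:ℤ))‖ ≤ b * r ^ (4 * m)) (k : ℕ) :
    ‖H‖ ≤ (a * (r ^ k)⁻¹ + b * r ^ (3 * k)) * (1 - r)⁻¹ := by
  have ha0 : 0 ≤ a := le_trans (norm_nonneg _) (ha 0)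
  have hb0 : 0 ≤ b := by
    have := hb 0
    simp only [Nat.cast_zero, neg_zero, mul_zero, pow_zero, mul_one] at this
    exact le_trans (norm_nonneg _) this
  have hgeo := hasSum_geometric_of_lt_one hr0.le hr
  set F : ℤ → ℂ := fun j => d (j - k) * (r:ℂ) ^ (j - k) * fourier (j - k) θ with hF
  have hFsum : HasSum F H :=
    ((Equiv.subRight (k:ℤ)).hasSum_iff (f := fun n : ℤ => d n * (r:ℂ) ^ n * fourier n θ)
      (a := H)).mpr hd
  have hnorm : ∀ j, ‖F j‖ = ‖d (j - k)‖ * r ^ (j - k : ℤ) := by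
    intro j
    rw [hF]
    simp only
    rw [norm_mul, norm_mul, fourier_abs, mul_one, norm_zpow, Complex.norm_real,
      Real.norm_of_nonneg hr0.le]
  have hpos : ∀ j : ℕ, ‖F (j:ℤ)‖ ≤ a * (r ^ k)⁻¹ * r ^ j := by
    intro j
    rw [hnorm]
    have h1 : r ^ ((j:ℤ) - (k:ℤ)) = (r ^ k)⁻¹ * r ^ j := by
      rw [zpow_sub₀ hr0.ne', zpow_natCast, zpow_natCast]
      field_simp
    rw [h1, mul_assoc]
    exact mul_le_mul_of_nonneg_right (ha _) (by positivity)
  have hneg : ∀ j : ℕ, ‖F (-((j:ℤ) + 1))‖ ≤ b * r ^ (3 * k) * r ^ j := by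
    intro j
    rw [hnorm]
    have h0 : (-((j:ℤ) + 1) - (k:ℤ)) = -((j + 1 + k : ℕ) : ℤ) := by
      push_cast
      ring
    rw [h0, zpow_neg, zpow_natCast]
    have h1 := hb (j + 1 + k)
    have h2 : r ^ (4 * (j + 1 + k)) * (r ^ (j + 1 + k))⁻¹ ≤ r ^ (3 * k) * r ^ j := by
      rw [← div_eq_mul_inv, div_le_iff₀ (by positivity), ← pow_add, ← pow_add]
      exact pow_le_pow_of_le_one hr0.le hr.le (by omega)
    calc ‖d (-((j + 1 + k : ℕ) : ℤ))‖ * (r ^ (j + 1 + k))⁻¹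
        ≤ (b * r ^ (4 * (j + 1 + k))) * (r ^ (j + 1 + k))⁻¹ :=
          mul_le_mul_of_nonneg_right h1 (by positivity)
      _ = b * (r ^ (4 * (j + 1 + k)) * (r ^ (j + 1 + k))⁻¹) := by ring
      _ ≤ b * (r ^ (3 * k) * r ^ j) := mul_le_mul_of_nonneg_left h2 hb0
      _ = _ := by ring
  have hg1 := hgeo.mul_left (a * (r ^ k)⁻¹)
  have hg2 := hgeo.mul_left (b * r ^ (3 * k))
  have hs1 : Summable (fun j : ℕ => F (j:ℤ)) := Summable.of_norm_bounded hg1.summable hpos
  have hs2 : Summable (fun j : ℕ => F (-((j:ℤ) + 1))) :=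
    Summable.of_norm_bounded hg2.summable hneg
  have h5 := HasSum.of_nat_of_neg_add_one hs1.hasSum hs2.hasSum
  have h6 := hFsum.unique h5
  have h7 : ‖∑' j : ℕ, F (j:ℤ)‖ ≤ a * (r ^ k)⁻¹ * (1 - r)⁻¹ := tsum_of_norm_bounded hg1 hpos
  have h8 : ‖∑' j : ℕ, F (-((j:ℤ) + 1))‖ ≤ b * r ^ (3 * k) * (1 - r)⁻¹ :=
    tsum_of_norm_bounded hg2 hneg
  rw [h6]
  refine le_trans (norm_add_le _ _) ?_
  calc _ ≤ a * (r ^ k)⁻¹ * (1 - r)⁻¹ + b * r ^ (3 * k) * (1 - r)⁻¹ := add_le_add h7 h8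
    _ = _ := by ring

/-- The extension vanishes at well chosen points. -/
lemma vanish (g : TT → ℂ) (hg : MemLp g 2 mu) {r : ℝ} (hr0 : 0 < r) (hr : r < 1)
    (C : ℝ) (hC0 : 0 ≤ C) (hC : ∀ s : ℕ, ‖Gc g s‖ ≤ C * r ^ (4 * s))
    (K : Set TT) (hK : IsClosed K) (hgK : ∀ᵐ t ∂mu, t ∈ K → g t = 0) (θ : TT)
    (hP : 1 / 2 ≤ PK K r θ) : ∑' n : ℤ, cz g r n * fourier n θ = 0 := by
  set H := ∑' n : ℤ, cz g r n * fourier n θ with hH
  set I := ∫ t, ‖g t‖ ^ 2 ∂mu with hI
  have hI0 : 0 ≤ I := integral_nonneg (fun _ => by positivity)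
  set P := PK K r θ with hPdef
  set l := Real.log r with hl
  have hl0 : l < 0 := Real.log_neg hr0 hr
  have hrinv : 0 < (1 - r)⁻¹ := inv_pos.mpr (by linarith)
  have hgeom : ∀ n : ℕ, ∑ i ∈ Finset.range n, r ^ i ≤ (1 - r)⁻¹ := by
    intro n
    have h1 := (summable_geometric_of_lt_one hr0.le hr).sum_le_tsum (Finset.range n)
      (fun i _ => by positivity)
    rwa [tsum_geometric_of_lt_one hr0.le hr] at h1
  have hrk : ∀ k : ℕ, r ^ k = Real.exp (k * l) := by
    intro k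
    rw [hl, mul_comm, ← Real.rpow_def_of_pos hr0, Real.rpow_natCast]
  have hkey : ∀ k : ℕ, 1 ≤ k → ‖H‖ ≤
      ((2 * Real.sqrt (I + 1) + 2 * C * (1 - r)⁻¹) * (1 - r)⁻¹) * Real.exp (k * (l / 2)) := by
    intro k hk
    have hk' : (1:ℝ) ≤ k := by exact_mod_cast hk
    set lam := -(3 * k * l) with hlam
    have hlampos : 0 < lam := by
      rw [hlam]
      nlinarith
    obtain ⟨A, hAz, hA1, hA2⟩ := test_poly K hK g hg hgK hr0.le hr θ hlampos
    rw [← hPdef] at hA1 hA2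
    have hsum := mul_poly_hasSum g hg hr0 θ (cz_summable g hg hr0 hr C hC0 hC θ) A
    rw [hAz, one_mul, ← hH] at hsum
    have hgA : MemLp (fun t : TT => g t * A.eval (fourier 1 t)) 2 mu := by
      have h1 : MemLp (fun t : TT => A.eval (fourier 1 t)) ⊤ mu :=
        memLp_top_of_bound (poly_cont A).aestronglyMeasurable
          (2 * Real.exp (lam * (1 - P))) (ae_of_all _ hA1)
      have h2 := MemLp.mul h1 hg (r := 2)
      have h3 : (g * fun t : TT => A.eval (fourier 1 t)) = fun t => g t * A.eval (fourier 1 t) :=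
        rfl
      rw [h3] at h2
      exact h2
    have hgint : Integrable g mu := hg.integrable (by norm_num)
    have ha : ∀ n, ‖fourierCoeff (fun t => g t * A.eval (fourier 1 t)) n‖
        ≤ 2 * Real.exp (-lam * P) * Real.sqrt (I + 1) := by
      intro n
      have h1 := le_trans (coeff_sq_le _ hgA n) hA2
      have h2 : 4 * Real.exp (-2 * lam * P) * (I + 1)
          = (2 * Real.exp (-lam * P) * Real.sqrt (I + 1)) ^ 2 := by
        rw [mul_pow, mul_pow, Real.sq_sqrt (by linarith), sq (Real.exp _), ← Real.exp_add]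
        congr 2
        · norm_num
        · congr 1
          ring
      rw [h2] at h1
      exact le_of_sq_le_sq h1 (by positivity)
    have hb : ∀ m : ℕ, ‖fourierCoeff (fun t => g t * A.eval (fourier 1 t)) (-(m:ℤ))‖
        ≤ (2 * Real.exp (lam * (1 - P)) * C * (1 - r)⁻¹) * r ^ (4 * m) := by
      intro m
      rw [coeff_mul_poly g hgint A A.natDegree le_rfl]
      refine le_trans (norm_sum_le _ _) ?_
      calc ∑ f ∈ Finset.range (A.natDegree + 1), ‖A.coeff f * fourierCoeff g (-(m:ℤ) - (f:ℤ))‖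
          ≤ ∑ f ∈ Finset.range (A.natDegree + 1),
              (2 * Real.exp (lam * (1 - P)) * C * r ^ (4 * m)) * r ^ f := by
            apply Finset.sum_le_sum
            intro f _
            rw [norm_mul]
            have h1 : ‖fourierCoeff g (-(m:ℤ) - (f:ℤ))‖ ≤ C * (r ^ (4 * m) * r ^ f) := by
              have h2 : (-(m:ℤ) - (f:ℤ)) = -((m + f : ℕ) : ℤ) := by push_cast; ring
              rw [h2]
              refine le_trans (hC (m + f)) ?_
              apply mul_le_mul_of_nonneg_left _ hC0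
              rw [← pow_add]
              exact pow_le_pow_of_le_one hr0.le hr.le (by omega)
            calc ‖A.coeff f‖ * ‖fourierCoeff g (-(m:ℤ) - (f:ℤ))‖
                ≤ (2 * Real.exp (lam * (1 - P))) * (C * (r ^ (4 * m) * r ^ f)) :=
                  mul_le_mul (coeff_norm_le A _ hA1 f) h1 (norm_nonneg _) (by positivity)
              _ = _ := by ring
        _ = (2 * Real.exp (lam * (1 - P)) * C * r ^ (4 * m)) *
              ∑ f ∈ Finset.range (A.natDegree + 1), r ^ f := by rw [Finset.mul_sum]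
        _ ≤ (2 * Real.exp (lam * (1 - P)) * C * r ^ (4 * m)) * (1 - r)⁻¹ :=
            mul_le_mul_of_nonneg_left (hgeom _) (by positivity)
        _ = _ := by ring
    have h9 := split_bound _ hr0 hr θ H hsum _ _ ha hb k
    refine le_trans h9 ?_
    have h10 : Real.exp (-lam * P) * (r ^ k)⁻¹ ≤ Real.exp (k * (l / 2)) := by
      rw [hrk, ← Real.exp_neg, ← Real.exp_add]
      apply Real.exp_le_exp.mpr
      rw [hlam]
      have h11 : (0:ℝ) ≤ -(k * l) := by nlinarith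
      nlinarith
    have h12 : Real.exp (lam * (1 - P)) * r ^ (3 * k) ≤ Real.exp (k * (l / 2)) := by
      rw [hrk, ← Real.exp_add]
      apply Real.exp_le_exp.mpr
      rw [hlam]
      push_cast
      have h11 : (0:ℝ) ≤ -(k * l) := by nlinarith
      nlinarith
    calc (2 * Real.exp (-lam * P) * Real.sqrt (I + 1) * (r ^ k)⁻¹ +
          2 * Real.exp (lam * (1 - P)) * C * (1 - r)⁻¹ * r ^ (3 * k)) * (1 - r)⁻¹
        = (2 * Real.sqrt (I + 1) * (Real.exp (-lam * P) * (r ^ k)⁻¹) +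
          2 * C * (1 - r)⁻¹ * (Real.exp (lam * (1 - P)) * r ^ (3 * k))) * (1 - r)⁻¹ := by ring
      _ ≤ (2 * Real.sqrt (I + 1) * Real.exp (k * (l / 2)) +
          2 * C * (1 - r)⁻¹ * Real.exp (k * (l / 2))) * (1 - r)⁻¹ := by
          gcongr
      _ = _ := by ring
  -- let k tend to infinity
  have hlim : Tendsto (fun k : ℕ => ((2 * Real.sqrt (I + 1) + 2 * C * (1 - r)⁻¹) * (1 - r)⁻¹) *
      Real.exp (k * (l / 2))) atTop (𝓝 0) := by
    have h1 : Tendsto (fun k : ℕ => Real.exp (k * (l / 2))) atTop (𝓝 0) := by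
      apply Real.tendsto_exp_atBot.comp
      exact tendsto_natCast_atTop_atTop.atTop_mul_const_of_neg (by linarith)
    simpa using h1.const_mul ((2 * Real.sqrt (I + 1) + 2 * C * (1 - r)⁻¹) * (1 - r)⁻¹)
  have h2 : ‖H‖ ≤ 0 := by
    apply ge_of_tendsto hlim
    filter_upwards [eventually_ge_atTop 1] with k hk
    exact hkey k hk
  exact norm_le_zero_iff.mp h2

end Pool.Agent.Helper41.HL
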