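import Pool.Agent.Helper41.HLJ

set_option autoImplicit false
open MeasureTheory AddCircle Complex Filter Topology Set

namespace Pool.Agent.Helper41.HL

lemma PK_cont (K : Set TT) {r : ℝ} (hr0 : 0 ≤ r) (hr : r < 1) : Continuous (PK K r) := by
  unfold PK
  obtain ⟨C, hC⟩ : ∃ C : ℝ, ∀ t, ‖Pk r t‖ ≤ C := by
    obtain ⟨C, hC⟩ := (isCompact_univ.image (Pk_cont hr0 hr).norm).isBounded.bddAbove
    exact ⟨C, fun t => hC ⟨t, mem_univ t, rfl⟩⟩
  apply continuous_of_dominated (bound := fun _ => C)
  · intro θ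
    exact (Pk_sub_cont hr0 hr θ).aestronglyMeasurable
  · intro θ
    exact ae_of_all _ (fun t => hC _)
  · exact integrable_const _
  · apply ae_of_all
    intro t
    exact (Pk_cont hr0 hr).comp (continuous_id.sub continuous_const)

/-- The indicator function of `K`, complex valued. -/
noncomputable def ind (K : Set TT) : TT → ℂ := K.indicator (fun _ => (1:ℂ))

lemma ind_integrable (K : Set TT) (hK : MeasurableSet K) : Integrable (ind K) mu :=
  (integrable_const (1:ℂ)).indicator hK

lemma ind_memLp (K : Set TT) (hK : MeasurableSet K) : MemLp (ind K) 2 mu :=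
  (memLp_const (1:ℂ)).indicator hK

lemma ind_mul_integral (K : Set TT) (hK : MeasurableSet K) (F : TT → ℂ) :
    ∫ t, ind K t * F t ∂mu = ∫ t in K, F t ∂mu := by
  rw [← integral_indicator hK]
  congr 1
  funext t
  unfold ind
  by_cases h : t ∈ K
  · rw [Set.indicator_of_mem h, Set.indicator_of_mem h, one_mul]
  · rw [Set.indicator_of_notMem h, Set.indicator_of_notMem h, zero_mul]

lemma ind_coeff_neg (K : Set TT) (n : ℤ) :
    fourierCoeff (ind K) (-n) = (starRingEnd ℂ) (fourierCoeff (ind K) n) := by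
  unfold fourierCoeff
  rw [← integral_conj]
  congr 1
  funext t
  rw [smul_eq_mul, smul_eq_mul, map_mul, ← fourier_neg]
  congr 1
  unfold ind
  by_cases h : t ∈ K
  · rw [Set.indicator_of_mem h, map_one]
  · rw [Set.indicator_of_notMem h, map_zero]

/-- The energy formula for the Poisson extension. -/
lemma PK_energy (K : Set TT) (hK : MeasurableSet K) {r : ℝ} (hr0 : 0 ≤ r) (hr : r < 1) :
    HasSum (fun n : ℤ => r ^ n.natAbs * ‖fourierCoeff (ind K) n‖ ^ 2)
      (∫ θ in K, PK K r θ ∂mu) := by
  have hint := ind_integrable K hK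
  have h1 : ∀ θ : TT, HasSum (fun m : ℤ => ((r ^ m.natAbs : ℝ) : ℂ) * fourier m θ *
      fourierCoeff (ind K) m) ((PK K r θ : ℝ) : ℂ) := by
    intro θ
    have h2 := poisson_int hr0 hr (ind K) hint θ
    rw [ind_mul_integral K hK, integral_complex_ofReal] at h2
    exact h2
  set F : ℤ → TT → ℂ := fun n θ => ((r ^ n.natAbs : ℝ) : ℂ) * fourierCoeff (ind K) n *
    (fourier n θ • ind K θ) with hF
  have hFint : ∀ n, Integrable (F n) mu := fun n => (hint.fourier_smul n).const_mul _
  have hcle : ∀ n, ‖fourierCoeff (ind K) n‖ ≤ ∫ t, ‖ind K t‖ ∂mu := by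
    intro n
    unfold fourierCoeff
    refine le_trans (norm_integral_le_integral_norm _) (le_of_eq ?_)
    congr 1
    funext t
    rw [norm_smul, fourier_abs, one_mul]
  have hFsum : Summable (fun n => ∫ θ, ‖F n θ‖ ∂mu) := by
    apply Summable.of_nonneg_of_le (fun n => integral_nonneg (fun _ => norm_nonneg _)) _
      ((summable_rpow_int hr0 hr).mul_right ((∫ t, ‖ind K t‖ ∂mu) * (∫ t, ‖ind K t‖ ∂mu)))
    intro n
    have h3 : ∫ θ, ‖F n θ‖ ∂mu = r ^ n.natAbs * (‖fourierCoeff (ind K) n‖ *
        ∫ t, ‖ind K t‖ ∂mu) := by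
      rw [← integral_const_mul, ← integral_const_mul]
      congr 1
      funext t
      rw [hF]
      simp only
      rw [norm_mul, norm_mul, norm_smul, fourier_abs, Complex.norm_real,
        Real.norm_of_nonneg (by positivity)]
      ring
    rw [h3]
    apply mul_le_mul_of_nonneg_left _ (by positivity)
    apply mul_le_mul_of_nonneg_right (hcle n)
    exact integral_nonneg (fun _ => norm_nonneg _)
  have h2 := hasSum_integral_of_summable_integral_norm hFint hFsum
  have h3 : ∀ n, ∫ θ, F n θ ∂mu = ((r ^ n.natAbs * ‖fourierCoeff (ind K) n‖ ^ 2 : ℝ) : ℂ) := by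
    intro n
    rw [hF]
    simp only
    rw [integral_const_mul]
    have h4 : ∫ θ, fourier n θ • ind K θ ∂mu = fourierCoeff (ind K) (-n) := by
      unfold fourierCoeff
      rw [neg_neg]
    rw [h4, ind_coeff_neg, mul_assoc, Complex.mul_conj, Complex.normSq_eq_norm_sq]
    push_cast
    ring
  have h4 : ∫ θ, (∑' n, F n θ) ∂mu = ((∫ θ in K, PK K r θ ∂mu : ℝ) : ℂ) := by
    rw [← integral_complex_ofReal, ← ind_mul_integral K hK]
    congr 1
    funext θ
    rw [← (h1 θ).tsum_eq, ← tsum_mul_left]
    apply tsum_congr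
    intro n
    rw [hF]
    simp only [smul_eq_mul]
    ring
  rw [h4] at h2
  simp_rw [h3] at h2
  exact_mod_cast h2

/-- The Poisson extension of the indicator of a set of positive measure gets close to one. -/
lemma exists_dense (K : Set TT) (hK : MeasurableSet K) (hKpos : 0 < mu K) {η : ℝ} (hη : 0 < η) :
    ∃ (r : ℝ) (θ : TT), 0 < r ∧ r < 1 ∧ 1 - η < PK K r θ := by
  by_contra hcon
  push Not at hcon
  set m := mu.real K with hm
  have hmpos : 0 < m := by
    rw [hm, Measure.real, ENNReal.toReal_pos_iff]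
    exact ⟨hKpos, measure_lt_top _ _⟩
  have hsq : HasSum (fun n : ℤ => ‖fourierCoeff (ind K) n‖ ^ 2) m := by
    have h1 := parseval (ind K) (ind_memLp K hK)
    have h2 : ∫ t, ‖ind K t‖ ^ 2 ∂mu = m := by
      have h3 : (fun t => ‖ind K t‖ ^ 2) = K.indicator (fun _ => (1:ℝ)) := by
        funext t
        unfold ind
        by_cases h : t ∈ K
        · rw [Set.indicator_of_mem h, Set.indicator_of_mem h]
          simp
        · rw [Set.indicator_of_notMem h, Set.indicator_of_notMem h]
          simp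
      rw [h3, integral_indicator hK]
      simp [hm]
    rw [h2] at h1
    exact h1
  set rs : ℕ → ℝ := fun j => 1 - 1 / ((j:ℝ) + 2) with hrs
  have hrs0 : ∀ j, 0 < rs j := by
    intro j
    rw [hrs]
    simp only
    have h1 : 1 / ((j:ℝ) + 2) ≤ 1 / 2 := by
      apply one_div_le_one_div_of_le (by norm_num)
      have : (0:ℝ) ≤ j := Nat.cast_nonneg j
      linarith
    linarith
  have hrs1 : ∀ j, rs j < 1 := by
    intro j
    rw [hrs]
    simp only
    have : 0 < 1 / ((j:ℝ) + 2) := by positivity
    linarith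
  have hrslim : Tendsto rs atTop (𝓝 1) := by
    have h1 : Tendsto (fun j : ℕ => 1 / ((j:ℝ) + 2)) atTop (𝓝 0) := by
      have h2 : Tendsto (fun j : ℕ => ((j:ℝ) + 2)) atTop atTop :=
        tendsto_atTop_add_const_right _ _ tendsto_natCast_atTop_atTop
      simpa [Function.comp_def] using tendsto_inv_atTop_zero.comp h2
    simpa [hrs] using h1.const_sub 1
  have hlim : Tendsto (fun j => ∑' n : ℤ, (rs j) ^ n.natAbs * ‖fourierCoeff (ind K) n‖ ^ 2) atTop
      (𝓝 (∑' n : ℤ, ‖fourierCoeff (ind K) n‖ ^ 2)) := by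
    apply tendsto_tsum_of_dominated_convergence (bound := fun n : ℤ =>
      ‖fourierCoeff (ind K) n‖ ^ 2) hsq.summable
    · intro n
      have h1 := (hrslim.pow n.natAbs).mul_const (‖fourierCoeff (ind K) n‖ ^ 2)
      simpa using h1
    · apply Eventually.of_forall
      intro j n
      rw [Real.norm_of_nonneg (by have := (hrs0 j).le; positivity)]
      apply mul_le_of_le_one_left (by positivity)
      exact pow_le_one₀ (hrs0 j).le (hrs1 j).le
  have hle : ∀ j, ∑' n : ℤ, (rs j) ^ n.natAbs * ‖fourierCoeff (ind K) n‖ ^ 2 ≤ (1 - η) * m := by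
    intro j
    rw [(PK_energy K hK (hrs0 j).le (hrs1 j)).tsum_eq]
    calc ∫ θ in K, PK K (rs j) θ ∂mu ≤ ∫ _ in K, (1 - η) ∂mu := by
          apply setIntegral_mono
          · apply Integrable.integrableOn
            apply Continuous.integrable_of_hasCompactSupport (PK_cont K (hrs0 j).le (hrs1 j))
            exact HasCompactSupport.of_compactSpace _
          · exact integrableOn_const (measure_ne_top _ _)
          · intro θ
            exact hcon (rs j) θ (hrs0 j) (hrs1 j)
      _ = (1 - η) * m := by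
          rw [setIntegral_const, smul_eq_mul, mul_comm]
  have h1 := le_of_tendsto hlim (Eventually.of_forall hle)
  rw [hsq.tsum_eq] at h1
  nlinarith

/-- A rapidly convergent Fourier series vanishing on an open set is zero. -/
lemma unique_of_vanish (c : ℤ → ℂ) (M : ℝ) {r : ℝ} (hr0 : 0 < r) (hr : r < 1)
    (hc : ∀ n, ‖c n‖ ≤ M * r ^ n.natAbs) (O : Set TT) (hO : IsOpen O) (hne : O.Nonempty)
    (hz : ∀ θ ∈ O, ∑' n, c n * fourier n θ = 0) (m : ℤ) : c m = 0 := by
  have hM0 : 0 ≤ M := by
    have := hc 0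
    simp only [Int.natAbs_zero, pow_zero, mul_one] at this
    exact le_trans (norm_nonneg _) this
  set ε := -Real.log r / (4 * Real.pi) with hε
  have hlog : Real.log r < 0 := Real.log_neg hr0 hr
  have hεpos : 0 < ε := div_pos (by linarith) (by positivity)
  set U : Set ℂ := {w : ℂ | w.im ∈ Ioo (-ε) ε} with hU
  have hUopen : IsOpen U := isOpen_Ioo.preimage Complex.continuous_im
  have hUpre : IsPreconnected U := by
    have hconv : Convex ℝ U := by
      exact (convex_Ioo (-ε) ε).linear_preimage Complex.imLm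
    exact hconv.isPreconnected
  set F : ℤ → ℂ → ℂ := fun n w => c n * Complex.exp (2 * Real.pi * Complex.I * n * w) with hF
  have hFle : ∀ (n : ℤ) (w : ℂ), w ∈ U → ‖F n w‖ ≤ M * (Real.sqrt r) ^ n.natAbs := by
    intro n w hw
    rw [hF]
    simp only
    rw [norm_mul, Complex.norm_exp]
    have h1 : (2 * Real.pi * Complex.I * n * w : ℂ).re = -(2 * Real.pi * n * w.im) := by
      simp [Complex.mul_re, Complex.mul_im]
    rw [h1]
    have h2 : -(2 * Real.pi * n * w.im) ≤ (n.natAbs : ℝ) * (-Real.log r / 2) := by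
      have h3 : |(n:ℝ)| = (n.natAbs : ℝ) := by
        rw [Nat.cast_natAbs, Int.cast_abs]
      have h4 : |w.im| ≤ ε := by
        rw [hU] at hw
        exact abs_le.mpr ⟨hw.1.le, hw.2.le⟩
      have h5 : -(2 * Real.pi * n * w.im) ≤ |2 * Real.pi * n * w.im| := neg_le_abs _
      have h6 : |2 * Real.pi * n * w.im| = 2 * Real.pi * (|(n:ℝ)| * |w.im|) := by
        rw [abs_mul, abs_mul, abs_of_pos (by positivity : (0:ℝ) < 2 * Real.pi)]
        ring
      have h7 : |(n:ℝ)| * |w.im| ≤ |(n:ℝ)| * ε :=
        mul_le_mul_of_nonneg_left h4 (abs_nonneg _)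
      calc -(2 * Real.pi * n * w.im) ≤ 2 * Real.pi * (|(n:ℝ)| * |w.im|) := by
            rw [← h6]
            exact h5
        _ ≤ 2 * Real.pi * (|(n:ℝ)| * ε) :=
            mul_le_mul_of_nonneg_left h7 (by positivity)
        _ = (n.natAbs : ℝ) * (-Real.log r / 2) := by
            rw [h3, hε]
            field_simp
            ring
    have h8 : Real.exp (-(2 * Real.pi * n * w.im)) ≤ ((Real.sqrt r)⁻¹) ^ n.natAbs := by
      refine le_trans (Real.exp_le_exp.mpr h2) (le_of_eq ?_)
      rw [Real.exp_nat_mul]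
      congr 1
      rw [show -Real.log r / 2 = -(Real.log r / 2) by ring, Real.exp_neg, Real.exp_half,
        Real.exp_log hr0]
    calc ‖c n‖ * Real.exp (-(2 * Real.pi * n * w.im))
        ≤ (M * r ^ n.natAbs) * ((Real.sqrt r)⁻¹) ^ n.natAbs :=
          mul_le_mul (hc n) h8 (Real.exp_pos _).le (by positivity)
      _ = M * (Real.sqrt r) ^ n.natAbs := by
          rw [mul_assoc, ← mul_pow]
          congr 2
          have hs : Real.sqrt r ≠ 0 := (Real.sqrt_pos.mpr hr0).ne'
          have hss : Real.sqrt r * Real.sqrt r = r := Real.mul_self_sqrt hr0.le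
          field_simp
          rw [sq, hss]
  have hsqrt1 : Real.sqrt r < 1 := by
    rw [Real.sqrt_lt' one_pos]
    simpa using hr
  have hsum : Summable (fun n : ℤ => M * (Real.sqrt r) ^ n.natAbs) :=
    (summable_rpow_int (Real.sqrt_nonneg r) hsqrt1).mul_left M
  have hdiff : DifferentiableOn ℂ (fun w => ∑' n, F n w) U := by
    apply differentiableOn_tsum_of_summable_norm hsum _ hUopen hFle
    intro n
    rw [hF]
    fun_prop
  have han := hdiff.analyticOnNhd hUopen
  have hreal : ∀ x : ℝ, ∑' n, F n (x:ℂ) = ∑' n, c n * fourier n (x : TT) := by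
    intro x
    apply tsum_congr
    intro n
    rw [hF]
    simp only
    rw [fourier_coe_apply]
    congr 2
    push_cast
    ring
  obtain ⟨θ₁, hθ₁⟩ := hne
  obtain ⟨x₁, rfl⟩ := QuotientAddGroup.mk_surjective θ₁
  have hx₁U : (x₁:ℂ) ∈ U := by
    rw [hU]
    simp [hεpos]
  have hfreq : ∃ᶠ w in 𝓝[≠] (x₁:ℂ), ∑' n, F n w = 0 := by
    have h1 : ∀ᶠ x : ℝ in 𝓝 x₁, ((x : ℝ) : TT) ∈ O := by
      have h2 : ContinuousAt (fun x : ℝ => ((x : ℝ) : TT)) x₁ :=
        (AddCircle.continuous_mk' 1).continuousAt
      exact h2.eventually (hO.mem_nhds hθ₁)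
    have h3 : ∀ᶠ x : ℝ in 𝓝[≠] x₁, ∑' n, F n (x:ℂ) = 0 := by
      filter_upwards [h1.filter_mono nhdsWithin_le_nhds] with x hx
      rw [hreal]
      exact hz _ hx
    have h4 : Tendsto (fun x : ℝ => (x:ℂ)) (𝓝[≠] x₁) (𝓝[≠] (x₁:ℂ)) := by
      apply tendsto_nhdsWithin_of_tendsto_nhds_of_eventually_within
      · exact (Complex.continuous_ofReal.tendsto x₁).mono_left nhdsWithin_le_nhds
      · filter_upwards [self_mem_nhdsWithin] with x hx
        intro h
        apply hx
        exact Complex.ofReal_injective (Set.mem_singleton_iff.mp h)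
    exact h4.frequently h3.frequently
  have hzero := han.eqOn_zero_of_preconnected_of_frequently_eq_zero hUpre hx₁U hfreq
  have hall : ∀ θ : TT, ∑' n, c n * fourier n θ = 0 := by
    intro θ
    obtain ⟨x, rfl⟩ := QuotientAddGroup.mk_surjective θ
    have h1 := hzero (by rw [hU]; simp [hεpos] : (x:ℂ) ∈ U)
    simp only [Pi.zero_apply] at h1
    rw [hreal] at h1
    exact h1
  -- extract the coefficient
  have hint : ∀ n : ℤ, Integrable (fun t : TT => c n * fourier n t * fourier (-m) t) mu := by
    intro n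
    apply cont_integrable
    exact (continuous_const.mul (fourier n).continuous).mul (fourier (-m)).continuous
  have hnsum : Summable (fun n : ℤ => ∫ t : TT, ‖c n * fourier n t * fourier (-m) t‖ ∂mu) := by
    apply Summable.of_nonneg_of_le (fun n => integral_nonneg (fun _ => norm_nonneg _)) _
      ((summable_rpow_int hr0.le hr).mul_left M)
    intro n
    refine le_trans (le_of_eq ?_) (hc n)
    have : ∀ t : TT, ‖c n * fourier n t * fourier (-m) t‖ = ‖c n‖ := by
      intro t
      rw [norm_mul, norm_mul, fourier_abs, fourier_abs, mul_one, mul_one]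
    simp_rw [this]
    simp
  have h1 := hasSum_integral_of_summable_integral_norm hint hnsum
  have h2 : ∫ t : TT, (∑' n, c n * fourier n t * fourier (-m) t) ∂mu = 0 := by
    have h3 : ∀ t : TT, ∑' n, c n * fourier n t * fourier (-m) t = 0 := by
      intro t
      rw [tsum_mul_right, hall t, zero_mul]
    simp_rw [h3]
    simp
  rw [h2] at h1
  have h3 : (fun n : ℤ => ∫ t : TT, c n * fourier n t * fourier (-m) t ∂mu)
      = fun n : ℤ => if n = m then c m else 0 := by
    funext n
    have h4 : ∫ t : TT, c n * fourier n t * fourier (-m) t ∂mu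
        = c n * fourierCoeff (fun t : TT => fourier n t) m := by
      unfold fourierCoeff
      rw [← integral_const_mul]
      congr 1
      funext t
      rw [smul_eq_mul]
      ring
    have h5 : fourierCoeff (fun t : TT => fourier n t) = Pi.single n (1:ℂ) :=
      fourierCoeff_fourier n
    rw [h4, h5]
    by_cases hnm : n = m
    · subst hnm
      simp
    · have : m ≠ n := fun h => hnm h.symm
      simp [hnm, this]
  rw [h3] at h1
  exact (hasSum_ite_eq m (c m)).unique h1

end Pool.Agent.Helper41.HL
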