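import Pool.Agent.Helper41.HLK

set_option autoImplicit false
open MeasureTheory AddCircle Complex Filter Topology Set

namespace Pool.Agent.Helper41.HL

/-- The core uniqueness theorem. -/
theorem core (B : ℕ) (hB : 2 ≤ B) (S : Set ℕ) (s₀ : ℕ)
    (hL : ∀ s ∈ S, ∀ s' ∈ S, s < s' → s' ≤ B * (s' - s))
    (hL0 : ∀ s ∈ S, s ≤ B * (s - s₀))
    (g : TT → ℂ) (hgm : StronglyMeasurable g) (hg : MemLp g 2 mu)
    (hG0 : ∀ s : ℕ, s₀ < s → s ∉ S → fourierCoeff g (-(s:ℤ)) = 0)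
    (hpos : mu {t | g t = 0} ≠ 0) (n : ℤ) : fourierCoeff g n = 0 := by
  have hmeas : MeasurableSet {t | g t = 0} := hgm.measurable (measurableSet_singleton 0)
  obtain ⟨K, hKsub, hKc, hKpos⟩ := hmeas.exists_lt_isCompact
    (μ := mu) (r := 0) (pos_iff_ne_zero.mpr hpos)
  have hKclosed : IsClosed K := hKc.isClosed
  have hgK : ∀ᵐ t ∂mu, t ∈ K → g t = 0 := ae_of_all _ (fun t ht => hKsub ht)
  have hB' : (1:ℝ) ≤ B := by exact_mod_cast (by omega : 1 ≤ B)
  have hB4 : (1:ℝ) ≤ (B:ℝ) ^ 4 := one_le_pow₀ hB'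
  have hη0 : 0 < 1 / (96 * (B:ℝ) ^ 4) := by positivity
  have hη1 : 1 / (96 * (B:ℝ) ^ 4) < 1 / 2 := by
    apply one_div_lt_one_div_of_lt (by norm_num)
    linarith
  obtain ⟨r, θ₀, hr0, hr, hP⟩ := exists_dense K hKclosed.measurableSet hKpos hη0
  obtain ⟨C, hC0, hC⟩ := decay B hB S s₀ hL hL0 g hg hG0 K hKclosed hgK hr0 hr θ₀ hP.le
  set O : Set TT := {θ | 1 / 2 < PK K r θ} with hO
  have hOopen : IsOpen O := isOpen_lt continuous_const (PK_cont K hr0.le hr)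
  have hOne : O.Nonempty := ⟨θ₀, by
    rw [hO]
    simp only [mem_ofPred_eq]
    linarith⟩
  have hvan : ∀ θ ∈ O, ∑' n : ℤ, cz g r n * fourier n θ = 0 := by
    intro θ hθ
    exact vanish g hg hr0 hr C hC0 hC K hKclosed hgK θ (le_of_lt hθ)
  have h1 := unique_of_vanish (cz g r) _ hr0 hr (cz_bound g hg hr0 hr C hC0 hC) O hOopen hOne
    hvan n
  unfold cz at h1
  rcases mul_eq_zero.mp h1 with h | h
  · exact h
  · exfalso
    have hrne : (r:ℂ) ≠ 0 := by exact_mod_cast hr0.ne'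
    exact zpow_ne_zero n hrne h

/-- Structure of a lacunary sequence. -/
lemma seq_struct (n : ℕ → ℤ) (hneg : ∀ k, n k < 0) (q : ℝ) (hq : 1 < q) (k₀ : ℕ)
    (hev : ∀ k, k₀ ≤ k → q ≤ (n (k + 1) : ℝ) / (n k : ℝ)) :
    ∃ (B : ℕ) (S : Set ℕ) (s₀ : ℕ), 2 ≤ B ∧
      (∀ s ∈ S, ∀ s' ∈ S, s < s' → s' ≤ B * (s' - s)) ∧
      (∀ s ∈ S, s ≤ B * (s - s₀)) ∧
      (∀ s : ℕ, s₀ < s → s ∉ S → ∀ k, n k ≠ -(s:ℤ)) := by
  set l : ℕ → ℕ := fun k => (n k).natAbs with hl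
  have hnl : ∀ k, n k = -(l k : ℤ) := by
    intro k
    have := hneg k
    rw [hl]
    simp only
    omega
  have hlpos : ∀ k, 0 < l k := by
    intro k
    have := hneg k
    rw [hl]
    simp only
    omega
  have hstep : ∀ k, k₀ ≤ k → q * (l k : ℝ) ≤ (l (k + 1) : ℝ) := by
    intro k hk
    have h1 := hev k hk
    rw [hnl k, hnl (k + 1)] at h1
    push_cast at h1
    rw [neg_div_neg_eq, le_div_iff₀ (by exact_mod_cast hlpos k)] at h1
    exact h1
  have hmono : ∀ j k, k₀ ≤ j → j ≤ k → (l j : ℝ) ≤ (l k : ℝ) := by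
    intro j k hj hjk
    induction k, hjk using Nat.le_induction with
    | base => exact le_rfl
    | succ k hjk ih =>
      have h1 := hstep k (by omega)
      have h2 : (0:ℝ) ≤ (l k : ℝ) := Nat.cast_nonneg _
      nlinarith
  have hgap : ∀ j k, k₀ ≤ j → j < k → q * (l j : ℝ) ≤ (l k : ℝ) := by
    intro j k hj hjk
    exact le_trans (hstep j hj) (hmono (j + 1) k (by omega) (by omega))
  set s₀ := ∑ k ∈ Finset.range k₀, l k with hs₀
  set B := max 2 (max (s₀ + 1) ⌈q / (q - 1)⌉₊) with hB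
  have hB2 : 2 ≤ B := le_max_left _ _
  have hBs : s₀ + 1 ≤ B := le_trans (le_max_left _ _) (le_max_right _ _)
  have hBq : q / (q - 1) ≤ (B:ℝ) := by
    have h1 : ⌈q / (q - 1)⌉₊ ≤ B := le_trans (le_max_right _ _) (le_max_right _ _)
    exact le_trans (Nat.le_ceil _) (by exact_mod_cast h1)
  refine ⟨B, {s | s₀ < s ∧ ∃ k, k₀ ≤ k ∧ l k = s}, s₀, hB2, ?_, ?_, ?_⟩
  · rintro s ⟨_, j, hj, rfl⟩ s' ⟨_, k, hk, rfl⟩ hlt
    have hjk : j < k := by
      by_contra h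
      have h1 := hmono k j hk (by omega)
      have h2 : l k ≤ l j := by exact_mod_cast h1
      omega
    have h1 := hgap j k hj hjk
    have h2 : ((l k - l j : ℕ) : ℝ) = (l k : ℝ) - (l j : ℝ) := by
      rw [Nat.cast_sub hlt.le]
    have h3 : (l k : ℝ) ≤ (B:ℝ) * ((l k : ℝ) - (l j : ℝ)) := by
      have hq1 : 0 < q - 1 := by linarith
      have h4 : (l k : ℝ) * (q - 1) ≤ q * ((l k : ℝ) - (l j : ℝ)) := by nlinarith
      have h5 : (l k : ℝ) ≤ q / (q - 1) * ((l k : ℝ) - (l j : ℝ)) := by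
        rw [div_mul_eq_mul_div, le_div_iff₀ hq1]
        exact h4
      have h6 : (0:ℝ) ≤ (l k : ℝ) - (l j : ℝ) := by
        have : (l j : ℝ) < (l k : ℝ) := by exact_mod_cast hlt
        linarith
      exact le_trans h5 (mul_le_mul_of_nonneg_right hBq h6)
    rw [← h2] at h3
    exact_mod_cast h3
  · rintro s ⟨h1, _⟩
    obtain ⟨d, rfl⟩ := Nat.exists_eq_add_of_lt h1
    have h2 : s₀ + d + 1 - s₀ = d + 1 := by omega
    rw [h2]
    nlinarith
  · intro s hs hsS k hk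
    rw [hnl k] at hk
    have h1 : l k = s := by omega
    by_cases hkk : k₀ ≤ k
    · exact hsS ⟨hs, k, hkk, h1⟩
    · have h2 : l k ≤ s₀ := Finset.single_le_sum (f := l) (fun _ _ => Nat.zero_le _)
        (Finset.mem_range.mpr (by omega))
      omega

/-- Coefficients of a Fourier series outside its spectrum. -/
lemma coeff_tsum_zero {ι : Type} (b : ι → ℂ) (φ : ι → ℤ)
    (hs : Summable (fun i => b i • fourierLp (T := (1:ℝ)) 2 (φ i))) (j : ℤ)
    (hj : ∀ i, φ i ≠ j) :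
    (fourierBasis (T := (1:ℝ))).repr (∑' i, b i • fourierLp (T := (1:ℝ)) 2 (φ i)) j = 0 := by
  rw [HilbertBasis.repr_apply_apply, coe_fourierBasis]
  have h1 := hs.hasSum.mapL (innerSL ℂ (fourierLp (T := (1:ℝ)) 2 j))
  have h2 : (fun i => (innerSL ℂ (fourierLp (T := (1:ℝ)) 2 j))
      (b i • fourierLp (T := (1:ℝ)) 2 (φ i))) = fun _ => (0:ℂ) := by
    funext i
    rw [innerSL_apply_apply, inner_smul_right, orthonormal_fourier.2 (hj i).symm, mul_zero]
  rw [h2] at h1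
  exact h1.unique hasSum_zero

lemma summable_inj {ι : Type} (φ : ι → ℤ) (hφ : Function.Injective φ) (a : ℤ → ℂ)
    (ha : Summable (fun m => ‖a m‖ ^ 2)) :
    Summable (fun i => a (φ i) • fourierLp (T := (1:ℝ)) 2 (φ i)) := by
  have horth : Orthonormal ℂ (fun i => fourierLp (T := (1:ℝ)) 2 (φ i)) :=
    orthonormal_fourier.comp φ hφ
  have h1 := (horth.orthogonalFamily).summable_iff_norm_sq_summable (fun i => a (φ i))
  have h2 : Summable (fun i => ‖a (φ i)‖ ^ 2) := ha.comp_injective hφ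
  exact h1.mpr h2

end Pool.Agent.Helper41.HL
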