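import Pool.Agent.Helper41.HLL
import Pool.Agent.Helper41.HLDefs

set_option autoImplicit false
open MeasureTheory AddCircle Complex Filter Topology Set

namespace Pool.Agent.Helper41.HL

lemma enorm_coeff_le (f : TT → ℂ) (hf : AEStronglyMeasurable f mu) (j : ℤ) :
    ‖fourierCoeff f j‖ₑ ≤ eLpNorm f 2 mu := by
  have h1 : ‖fourierCoeff f j‖ₑ ≤ eLpNorm f 1 mu := by
    unfold fourierCoeff
    refine le_trans (enorm_integral_le_lintegral_enorm _) (le_of_eq ?_)
    rw [eLpNorm_one_eq_lintegral_enorm]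
    congr 1
    funext t
    rw [smul_eq_mul, enorm_mul]
    have : ‖fourier (-j) t‖ₑ = 1 := by
      rw [← ofReal_norm, fourier_abs]
      simp
    rw [this, one_mul]
  exact le_trans h1 (eLpNorm_le_eLpNorm_of_exponent_le (by norm_num) hf)

lemma psum_cont (φ : ℕ → ℤ) (a : ℤ → ℂ) (N : ℕ) :
    Continuous (fun θ : TT => ∑ k ∈ Finset.range N, a (φ k) * fourier (φ k) θ) :=
  continuous_finsetSum _ (fun k _ => continuous_const.mul (fourier (φ k)).continuous)

lemma psum_coeff_zero (φ : ℕ → ℤ) (a : ℤ → ℂ) (N : ℕ) (j : ℤ) (hj : ∀ k, φ k ≠ j) :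
    fourierCoeff (fun θ : TT => ∑ k ∈ Finset.range N, a (φ k) * fourier (φ k) θ) j = 0 := by
  have h1 : (fun θ : TT => ∑ k ∈ Finset.range N, a (φ k) * fourier (φ k) θ)
      = ∑ k ∈ Finset.range N, fun θ : TT => a (φ k) * fourier (φ k) θ := by
    funext θ
    rw [Finset.sum_apply]
  have h0 : ∀ k ∈ Finset.range N, Integrable (fun θ : TT => a (φ k) * fourier (φ k) θ) mu :=
    fun k _ => cont_integrable _ (continuous_const.mul (fourier (φ k)).continuous)
  rw [h1, fourierCoeff.sum _ _ h0, Finset.sum_apply]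
  apply Finset.sum_eq_zero
  intro k _
  rw [fourierCoeff.const_mul]
  have h2 : fourierCoeff (fun t : TT => fourier (φ k) t) = Pi.single (φ k) (1:ℂ) :=
    fourierCoeff_fourier (φ k)
  rw [h2, Pi.single_eq_of_ne (hj k).symm, mul_zero]

lemma coeff_zero_of_isL2Sum (φ : ℕ → ℤ) (a : ℤ → ℂ) (p : TT → ℂ) (hp : IsL2Sum φ a p) (j : ℤ)
    (hj : ∀ k, φ k ≠ j) : fourierCoeff p j = 0 := by
  obtain ⟨hmem, hlim⟩ := hp
  have hle : ∀ N : ℕ, ‖fourierCoeff p j‖ₑ ≤ eLpNorm
      (fun θ => p θ - ∑ k ∈ Finset.range N, a (φ k) * fourier (φ k) θ) 2 mu := by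
    intro N
    have hc := psum_cont φ a N
    have h1 : fourierCoeff (fun θ => p θ - ∑ k ∈ Finset.range N, a (φ k) * fourier (φ k) θ) j
        = fourierCoeff p j := by
      have h2 : fourierCoeff (fun θ => p θ - ∑ k ∈ Finset.range N, a (φ k) * fourier (φ k) θ) j
          = fourierCoeff p j -
            fourierCoeff (fun θ : TT => ∑ k ∈ Finset.range N, a (φ k) * fourier (φ k) θ) j := by
        unfold fourierCoeff
        rw [← integral_sub ((hmem.integrable (by norm_num)).fourier_smul _)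
          ((cont_integrable _ hc).fourier_smul _)]
        congr 1
        funext t
        rw [smul_sub]
      rw [h2, psum_coeff_zero φ a N j hj, sub_zero]
    rw [← h1]
    exact enorm_coeff_le _ (hmem.aestronglyMeasurable.sub hc.aestronglyMeasurable) j
  have h0 : ‖fourierCoeff p j‖ₑ ≤ 0 := ge_of_tendsto hlim (Eventually.of_forall hle)
  simpa using h0

lemma coeFn_psum (φ : ℕ → ℤ) (a : ℤ → ℂ) (s : Finset ℕ) :
    ((∑ k ∈ s, a (φ k) • fourierLp (T := (1:ℝ)) 2 (φ k) : Lp ℂ 2 mu) : TT → ℂ)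
      =ᵐ[mu] fun θ => ∑ k ∈ s, a (φ k) * fourier (φ k) θ := by
  classical
  induction s using Finset.induction_on with
  | empty =>
    simp only [Finset.sum_empty]
    exact Lp.coeFn_zero _ _ _
  | insert b s hb ih =>
    rw [Finset.sum_insert hb]
    filter_upwards [Lp.coeFn_add (a (φ b) • fourierLp (T := (1:ℝ)) 2 (φ b))
      (∑ k ∈ s, a (φ k) • fourierLp (T := (1:ℝ)) 2 (φ k)), ih,
      Lp.coeFn_smul (a (φ b)) (fourierLp (T := (1:ℝ)) 2 (φ b)),
      coeFn_fourierLp (T := (1:ℝ)) 2 (φ b)] with θ h1 h2 h3 h4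
    rw [h1, Pi.add_apply, h2, h3, Pi.smul_apply, h4, smul_eq_mul, Finset.sum_insert hb]

lemma exists_isL2Sum (φ : ℕ → ℤ) (a : ℤ → ℂ)
    (hs : Summable (fun k : ℕ => a (φ k) • fourierLp (T := (1:ℝ)) 2 (φ k))) :
    ∃ p : TT → ℂ, IsL2Sum φ a p := by
  set P : Lp ℂ 2 mu := ∑' k : ℕ, a (φ k) • fourierLp (T := (1:ℝ)) 2 (φ k) with hP
  refine ⟨P, Lp.memLp P, ?_⟩
  have h1 := hs.hasSum.tendsto_sum_nat
  rw [← hP] at h1
  have h2 : Tendsto (fun N : ℕ => edist P
      (∑ k ∈ Finset.range N, a (φ k) • fourierLp (T := (1:ℝ)) 2 (φ k))) atTop (𝓝 0) := by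
    have h3 := (tendsto_const_nhds (x := P)).edist h1
    rw [edist_self] at h3
    exact h3
  refine h2.congr (fun N => ?_)
  rw [Lp.edist_def]
  apply eLpNorm_congr_ae
  filter_upwards [coeFn_psum φ a (Finset.range N)] with θ hθ
  rw [Pi.sub_apply, hθ]

/-- Functions with vanishing Fourier coefficients vanish. -/
lemma ae_zero_of_coeff (g : TT → ℂ) (hg : MemLp g 2 mu) (h : ∀ n, fourierCoeff g n = 0) :
    g =ᵐ[mu] 0 := by
  have h1 := parseval g hg
  simp_rw [h] at h1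
  have h2 : ∫ t, ‖g t‖ ^ 2 ∂mu = 0 := by
    have h3 : HasSum (fun _ : ℤ => ‖(0:ℂ)‖ ^ 2) 0 := by
      have h4 : (fun _ : ℤ => ‖(0:ℂ)‖ ^ 2) = fun _ => (0:ℝ) := by
        funext _
        simp
      rw [h4]
      exact hasSum_zero
    exact h1.unique h3
  have h5 : (fun t => ‖g t‖ ^ 2) =ᵐ[mu] 0 := by
    rw [integral_eq_zero_iff_of_nonneg (fun _ => by positivity)
      (hg.integrable_norm_pow (by norm_num))] at h2
    exact h2
  filter_upwards [h5] with t ht
  have : ‖g t‖ ^ 2 = 0 := ht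
  simpa using this

end Pool.Agent.Helper41.HL
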