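import Mathlib

set_option autoImplicit false
open Filter Topology
open scoped ZeroAtInfty ENNReal

namespace Pool.Agent.Helper41.NormalDec

/-- Index set: a distinguished point `z` and a copy of `Γ`. -/
inductive Idx (Γ : Type) : Type
  | z : Idx Γ
  | g : Γ → Idx Γ

instance (Γ : Type) : TopologicalSpace (Idx Γ) := ⊥

instance (Γ : Type) : DiscreteTopology (Idx Γ) := ⟨rfl⟩

variable {Γ : Type}

lemma Idx.g_injective : Function.Injective (Idx.g : Γ → Idx Γ) := by
  intro a b h
  cases h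
  rfl

/-- Build an element of `c₀`. -/
noncomputable def mk0 (f : Idx Γ → ℝ) (hf : Tendsto f cofinite (𝓝 0)) : C₀(Idx Γ, ℝ) :=
  ⟨⟨f, continuous_of_discreteTopology⟩, by simpa [Filter.cocompact_eq_cofinite] using hf⟩

@[simp] lemma mk0_apply (f : Idx Γ → ℝ) (hf : Tendsto f cofinite (𝓝 0)) (i : Idx Γ) :
    mk0 f hf i = f i := rfl

lemma tendsto_cofinite (x : C₀(Idx Γ, ℝ)) : Tendsto x cofinite (𝓝 0) := by
  have := x.zero_at_infty'
  rwa [Filter.cocompact_eq_cofinite] at this

lemma fin_level (x : C₀(Idx Γ, ℝ)) {ε : ℝ} (hε : 0 < ε) : {i | ε ≤ |x i|}.Finite := by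
  have h := (tendsto_cofinite x).eventually (Metric.ball_mem_nhds (0:ℝ) hε)
  rw [Filter.eventually_cofinite] at h
  refine h.subset (fun i hi => ?_)
  simp only [Set.mem_ofPred_eq, Real.dist_eq, sub_zero, not_lt] at hi ⊢
  exact hi

lemma supp_countable (x : C₀(Idx Γ, ℝ)) : {i | x i ≠ 0}.Countable := by
  have : {i | x i ≠ 0} ⊆ ⋃ n : ℕ, {i | (1:ℝ) / (n + 1) ≤ |x i|} := by
    intro i hi
    simp only [Set.mem_ofPred_eq] at hi
    obtain ⟨n, hn⟩ := exists_nat_one_div_lt (abs_pos.mpr hi)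
    exact Set.mem_iUnion.mpr ⟨n, hn.le⟩
  exact (Set.countable_iUnion fun n => (fin_level x (by positivity)).countable).mono this

lemma abs_le_norm (x : C₀(Idx Γ, ℝ)) (i : Idx Γ) : |x i| ≤ ‖x‖ := by
  have := x.toBCF.norm_coe_le_norm i
  rwa [ZeroAtInftyContinuousMap.norm_toBCF_eq_norm] at this

lemma norm_le_of {x : C₀(Idx Γ, ℝ)} {C : ℝ} (hC : 0 ≤ C) (h : ∀ i, |x i| ≤ C) : ‖x‖ ≤ C := by
  rw [← ZeroAtInftyContinuousMap.norm_toBCF_eq_norm]
  exact (BoundedContinuousFunction.norm_le hC).mpr h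

open Classical in
/-- The unit vector at `β`. -/
noncomputable def e (β : Idx Γ) : C₀(Idx Γ, ℝ) :=
  mk0 (fun i => if i = β then 1 else 0) (by
    refine tendsto_const_nhds.congr' ?_
    rw [EventuallyEq, Filter.eventually_cofinite]
    refine (Set.finite_singleton β).subset (fun i hi => ?_)
    by_contra h
    exact hi (by simp [show i ≠ β from h]))

lemma e_self (β : Idx Γ) : e β β = 1 := by simp [e]

lemma e_ne {β i : Idx Γ} (h : i ≠ β) : e β i = 0 := by simp [e, h]

lemma e_ne_zero (β : Idx Γ) : e β ≠ 0 := by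
  intro h
  have := e_self β
  rw [h] at this
  simp at this

lemma countable_functional (G : C₀(Idx Γ, ℝ) →L[ℝ] ℝ) : {β | G (e β) ≠ 0}.Countable := by
  classical
  have hs : Summable (fun β : Idx Γ => |G (e β)|) := by
    refine summable_of_sum_le (c := ‖G‖) (fun _ => abs_nonneg _) (fun F => ?_)
    set y : C₀(Idx Γ, ℝ) := ∑ β ∈ F, (if 0 ≤ G (e β) then (1:ℝ) else -1) • e β with hy
    have hyi : ∀ i, |y i| ≤ 1 := by
      intro i
      have : y i = ∑ β ∈ F, (if 0 ≤ G (e β) then (1:ℝ) else -1) * e β i := by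
        rw [hy]
        have h1 : ∀ (s : Finset (Idx Γ)) (f : Idx Γ → C₀(Idx Γ, ℝ)),
            (∑ b ∈ s, f b) i = ∑ b ∈ s, f b i := by
          intro s f
          induction s using Finset.induction_on with
          | empty => simp
          | insert a s ha ih => rw [Finset.sum_insert ha, Finset.sum_insert ha,
              ZeroAtInftyContinuousMap.add_apply, ih]
        rw [h1]
        rfl
      rw [this]
      by_cases hi : i ∈ F
      · rw [Finset.sum_eq_single i (fun b _ hb => by rw [e_ne hb.symm, mul_zero])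
          (fun h => absurd hi h), e_self, mul_one]
        split_ifs <;> simp
      · rw [Finset.sum_eq_zero]
        · simp
        · intro b hb
          rw [e_ne (by rintro rfl; exact hi hb), mul_zero]
    have hGy : G y = ∑ β ∈ F, |G (e β)| := by
      rw [hy, map_sum]
      refine Finset.sum_congr rfl (fun β _ => ?_)
      rw [map_smul, smul_eq_mul]
      split_ifs with h
      · rw [one_mul, abs_of_nonneg h]
      · rw [abs_of_neg (lt_of_not_ge h)]; ring
    calc ∑ β ∈ F, |G (e β)| = G y := hGy.symm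
      _ ≤ ‖G y‖ := Real.le_norm_self _
      _ ≤ ‖G‖ * ‖y‖ := G.le_opNorm y
      _ ≤ ‖G‖ * 1 := by
          gcongr
          exact norm_le_of zero_le_one hyi
      _ = ‖G‖ := mul_one _
  have := hs.countable_support
  refine this.mono (fun β hβ => ?_)
  simpa using hβ

/-- Evaluation functional. -/
noncomputable def ev (i : Idx Γ) : C₀(Idx Γ, ℝ) →L[ℝ] ℝ :=
  LinearMap.mkContinuous
    { toFun := fun x => x i
      map_add' := fun _ _ => rfl
      map_smul' := fun _ _ => rfl } 1 (fun x => by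
        rw [one_mul]; exact abs_le_norm x i)

@[simp] lemma ev_apply (i : Idx Γ) (x : C₀(Idx Γ, ℝ)) : ev i x = x i := rfl

/-- Real sign of a Boolean. -/
def sg (b : Bool) : ℝ := if b then 1 else -1

lemma sg_abs (b : Bool) : |sg b| = 1 := by cases b <;> simp [sg]

lemma sg_cases (b : Bool) : sg b = 1 ∨ sg b = -1 := by cases b <;> simp [sg]

lemma sg_ne_zero (b : Bool) : sg b ≠ 0 := by cases b <;> simp [sg]

open Classical in
/-- A choice of an element of a finite set. -/
noncomputable def lead [Nonempty Γ] (S : Finset Γ) : Γ :=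
  if h : S.Nonempty then h.choose else Classical.arbitrary Γ

lemma lead_mem [Nonempty Γ] {S : Finset Γ} (h : S.Nonempty) : lead S ∈ S := by
  unfold lead
  rw [dif_pos h]
  exact h.choose_spec

/-- The index set of the norming functionals. -/
abbrev J (Γ : Type) : Type := (Finset Γ × (Γ → Bool)) ⊕ Γ

/-- The norming functionals. -/
noncomputable def F [Nonempty Γ] (φ : Γ → Γ) (j : J Γ) (x : Idx Γ → ℝ) : ℝ :=
  match j with
  | Sum.inl (S, ε) => (∑ i ∈ S, sg (ε i) * x (Idx.g i)) / ((S.card : ℝ) + 1)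
      + (1 / 10) * (sg (ε (lead S)) * x Idx.z)
  | Sum.inr a => (3 / 5) * x (Idx.g a) + (3 / 100) * x (Idx.g (φ a))

variable [Nonempty Γ] (φ : Γ → Γ)

lemma F_add (j : J Γ) (x y : Idx Γ → ℝ) : F φ j (x + y) = F φ j x + F φ j y := by
  rcases j with ⟨S, ε⟩ | a
  · simp only [F, Pi.add_apply, mul_add, Finset.sum_add_distrib, add_div]
    ring
  · simp only [F, Pi.add_apply]
    ring

lemma F_smul (j : J Γ) (c : ℝ) (x : Idx Γ → ℝ) : F φ j (c • x) = c * F φ j x := by
  rcases j with ⟨S, ε⟩ | a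
  · simp only [F, Pi.smul_apply, smul_eq_mul]
    have : ∑ i ∈ S, sg (ε i) * (c * x (Idx.g i)) = c * ∑ i ∈ S, sg (ε i) * x (Idx.g i) := by
      rw [Finset.mul_sum]
      exact Finset.sum_congr rfl (fun i _ => by ring)
    rw [this]
    ring
  · simp only [F, Pi.smul_apply, smul_eq_mul]
    ring

omit [Nonempty Γ] in
lemma abs_sum_sg_le (S : Finset Γ) (ε : Γ → Bool) (y : Γ → ℝ) :
    |∑ i ∈ S, sg (ε i) * y i| ≤ ∑ i ∈ S, |y i| := by
  refine (Finset.abs_sum_le_sum_abs _ _).trans (le_of_eq ?_)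
  exact Finset.sum_congr rfl (fun i _ => by rw [abs_mul, sg_abs, one_mul])

lemma F_inl_le (S : Finset Γ) (ε : Γ → Bool) (x : Idx Γ → ℝ) :
    |F φ (Sum.inl (S, ε)) x| ≤ (∑ i ∈ S, |x (Idx.g i)|) / ((S.card : ℝ) + 1)
      + (1 / 10) * |x Idx.z| := by
  simp only [F]
  refine (abs_add_le _ _).trans ?_
  rw [abs_div, abs_mul, abs_mul, sg_abs, one_mul, abs_of_pos (show (0:ℝ) < (S.card : ℝ) + 1 by positivity),
    abs_of_pos (show (0:ℝ) < 1 / 10 by norm_num)]
  gcongr
  exact abs_sum_sg_le S ε _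

lemma F_inr_le (a : Γ) (x : Idx Γ → ℝ) :
    |F φ (Sum.inr a) x| ≤ (3 / 5) * |x (Idx.g a)| + (3 / 100) * |x (Idx.g (φ a))| := by
  simp only [F]
  refine (abs_add_le _ _).trans ?_
  rw [abs_mul, abs_mul, abs_of_pos (show (0:ℝ) < 3 / 5 by norm_num),
    abs_of_pos (show (0:ℝ) < 3 / 100 by norm_num)]

lemma F_le {x : Idx Γ → ℝ} {M : ℝ} (hM : 0 ≤ M) (hx : ∀ i, |x i| ≤ M) (j : J Γ) :
    |F φ j x| ≤ (11 / 10) * M := by
  rcases j with ⟨S, ε⟩ | a
  · refine (F_inl_le φ S ε x).trans ?_
    have h1 : (∑ i ∈ S, |x (Idx.g i)|) / ((S.card : ℝ) + 1) ≤ M := by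
      rw [div_le_iff₀ (by positivity)]
      calc ∑ i ∈ S, |x (Idx.g i)| ≤ ∑ _i ∈ S, M := Finset.sum_le_sum (fun i _ => hx _)
        _ = S.card * M := by rw [Finset.sum_const, nsmul_eq_mul]
        _ ≤ M * ((S.card : ℝ) + 1) := by nlinarith
    have h2 := hx Idx.z
    linarith
  · refine (F_inr_le φ a x).trans ?_
    have h1 := hx (Idx.g a)
    have h2 := hx (Idx.g (φ a))
    linarith

/-- The operator into `ℓ_∞` inducing the new norm. -/
noncomputable def T : C₀(Idx Γ, ℝ) →L[ℝ] lp (fun _ : J Γ => ℝ) ∞ :=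
  LinearMap.mkContinuous
    { toFun := fun x => ⟨fun j => F φ j x, memℓp_infty ⟨(11 / 10) * ‖x‖, by
          rintro _ ⟨j, rfl⟩
          exact F_le φ (norm_nonneg x) (abs_le_norm x) j⟩⟩
      map_add' := fun x y => by
        ext j
        exact F_add φ j x y
      map_smul' := fun c x => by
        ext j
        exact F_smul φ j c x } (11 / 10) (fun x => by
      refine lp.norm_le_of_forall_le (by positivity) (fun j => ?_)
      exact F_le φ (norm_nonneg x) (abs_le_norm x) j)

lemma T_apply (x : C₀(Idx Γ, ℝ)) (j : J Γ) : (T φ x : J Γ → ℝ) j = F φ j x := rfl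

lemma F_le_T (x : C₀(Idx Γ, ℝ)) (j : J Γ) : |F φ j x| ≤ ‖T φ x‖ := by
  have := lp.norm_apply_le_norm ENNReal.top_ne_zero (T φ x) j
  exact this

lemma T_le {x : C₀(Idx Γ, ℝ)} {C : ℝ} (hC : 0 ≤ C) (h : ∀ j, |F φ j x| ≤ C) : ‖T φ x‖ ≤ C :=
  lp.norm_le_of_forall_le hC h

lemma norm_le_T (x : C₀(Idx Γ, ℝ)) : ‖x‖ ≤ 11 * ‖T φ x‖ := by
  have hT : 0 ≤ ‖T φ x‖ := norm_nonneg _
  have hx : 0 ≤ ‖x‖ := norm_nonneg _
  have key : ‖x‖ ≤ 10 * ‖T φ x‖ + (1 / 20) * ‖x‖ := by
    refine norm_le_of (by positivity) (fun i => ?_)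
    rcases i with _ | a
    · have h := F_le_T φ x (Sum.inl (∅, fun _ => true))
      simp only [F, Finset.sum_empty, zero_div, zero_add, sg, if_true, one_mul] at h
      rw [abs_mul, abs_of_pos (show (0:ℝ) < 1 / 10 by norm_num)] at h
      linarith
    · have h := F_le_T φ x (Sum.inr a)
      simp only [F] at h
      have h2 := abs_le_norm x (Idx.g (φ a))
      have h3 := abs_le.mp h
      have h4 := abs_le.mp h2
      rw [abs_le]
      constructor <;> linarith [h3.1, h3.2, h4.1, h4.2]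
  linarith

/-! ### The two facet lemmas -/

/-- Counting inequality behind the uniqueness of the norming set. -/
lemma count_ineq {k j a : ℕ} {g : ℝ} (hg : 2 ≤ ((k:ℝ) + 1) * g)
    (hak : a ≤ k) (haj : a ≤ j) (hne : ¬ (a = k ∧ a = j)) :
    ((a:ℝ) + ((j:ℝ) - a) * (1 - g)) / ((j:ℝ) + 1)
      ≤ (k:ℝ) / ((k:ℝ) + 1) - 1 / (((k:ℝ) + 1) * ((k:ℝ) + 2)) := by
  have hk0 : (0:ℝ) ≤ k := Nat.cast_nonneg k
  have hj0 : (0:ℝ) ≤ j := Nat.cast_nonneg j
  have e1 : (k:ℝ) / ((k:ℝ) + 1) - 1 / (((k:ℝ) + 1) * ((k:ℝ) + 2))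
      = ((k:ℝ) * ((k:ℝ) + 2) - 1) / (((k:ℝ) + 1) * ((k:ℝ) + 2)) := by
    field_simp
  rw [e1, div_le_div_iff₀ (by positivity) (by positivity)]
  -- D = k(j+1) - (k+1)(a+(j-a)(1-g)) ≥ (j+1)/(k+2)
  have hja : (0:ℝ) ≤ (j:ℝ) - a := by
    have : (a:ℝ) ≤ j := by exact_mod_cast haj
    linarith
  have hD : (k:ℝ) * ((j:ℝ) + 1) - ((k:ℝ) + 1) * ((a:ℝ) + ((j:ℝ) - a) * (1 - g))
      = ((k:ℝ) - j) + (((k:ℝ) + 1) * g) * ((j:ℝ) - a) := by ring
  have hD2 : ((k:ℝ) - j) + 2 * ((j:ℝ) - a)
      ≤ (k:ℝ) * ((j:ℝ) + 1) - ((k:ℝ) + 1) * ((a:ℝ) + ((j:ℝ) - a) * (1 - g)) := by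
    rw [hD]
    nlinarith
  have hD3 : (j:ℝ) + 1 ≤ (((k:ℝ) - j) + 2 * ((j:ℝ) - a)) * ((k:ℝ) + 2) := by
    rcases Nat.lt_or_ge k j with h | h
    · -- j > k
      have h1 : (k:ℝ) + 1 ≤ j := by exact_mod_cast h
      have h2 : (a:ℝ) ≤ k := by exact_mod_cast hak
      have h3 : (1:ℝ) ≤ (j:ℝ) - k := by linarith
      nlinarith
    · have h1 : (j:ℝ) ≤ k := by exact_mod_cast h
      have h2 : 1 ≤ ((k:ℝ) - j) + 2 * ((j:ℝ) - a) := by
        rcases Nat.lt_or_ge j k with h' | h'
        · have : (j:ℝ) + 1 ≤ k := by exact_mod_cast h'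
          linarith
        · have hjk : j = k := le_antisymm h h'
          have haj' : a < j := by
            rcases Nat.lt_or_ge a j with h'' | h''
            · exact h''
            · exact absurd ⟨by omega, by omega⟩ hne
          have : (a:ℝ) + 1 ≤ j := by exact_mod_cast haj'
          linarith
      nlinarith
  have hk2 : (0:ℝ) < (k:ℝ) + 2 := by positivity
  nlinarith [mul_le_mul_of_nonneg_right hD2 hk2.le]

lemma aux_div {a b V : ℝ} (hV : V ≠ 0) : a / (b * V) * V = a / b := by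
  field_simp

/-- Facets carried by finite sets of size at least two. -/
lemma facet_set (r v : C₀(Idx Γ, ℝ)) (S : Finset Γ) (g : ℝ)
    (hk : 2 ≤ S.card) (hg : 2 ≤ ((S.card : ℝ) + 1) * g)
    (hrz : r Idx.z = 0) (hrS : ∀ i ∈ S, |r (Idx.g i)| = 1)
    (hrS' : ∀ i ∉ S, |r (Idx.g i)| ≤ 1 - g)
    (hvS : ∀ i ∈ S, v (Idx.g i) = 0) (hv : v Idx.z ≠ 0) :
    ∃ s : ℝ, ‖T φ (r + s • v)‖ < ‖T φ r‖ := by
  classical
  set k : ℕ := S.card with hkdef
  have hkR : (2:ℝ) ≤ k := by exact_mod_cast hk
  have hgpos : 0 < g := by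
    by_contra h
    push Not at h
    nlinarith
  set V : ℝ := ‖v‖ with hV
  have hV0 : 0 ≤ V := norm_nonneg v
  have hVpos : 0 < V := lt_of_lt_of_le (abs_pos.mpr hv) (abs_le_norm v _)
  set κ : ℝ := (k:ℝ) / ((k:ℝ) + 1) with hκ
  have hκ23 : 2 / 3 ≤ κ := by
    rw [hκ, div_le_div_iff₀ (by norm_num) (by positivity)]
    linarith
  set η : ℝ := min (1 / (((k:ℝ) + 1) * ((k:ℝ) + 2))) (1 / 30) with hη
  have hη0 : 0 < η := lt_min (by positivity) (by norm_num)
  have hη1 : η ≤ 1 / (((k:ℝ) + 1) * ((k:ℝ) + 2)) := min_le_left _ _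
  have hη2 : η ≤ 1 / 30 := min_le_right _ _
  -- signs
  let ε : Γ → Bool := fun i => decide (0 ≤ r (Idx.g i))
  have hε : ∀ i ∈ S, r (Idx.g i) = sg (ε i) := by
    intro i hi
    have h1 := hrS i hi
    simp only [ε, sg, decide_eq_true_eq]
    split_ifs with h
    · rwa [abs_of_nonneg h] at h1
    · rw [abs_of_neg (lt_of_not_ge h)] at h1
      linarith
  have hSne : S.Nonempty := Finset.card_pos.mp (by omega)
  have hlead : lead S ∈ S := lead_mem hSne
  set c : ℝ := sg (ε (lead S)) * v Idx.z with hc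
  have hc0 : c ≠ 0 := mul_ne_zero (sg_ne_zero _) hv
  have hcabs : |c| ≤ V := by
    rw [hc, abs_mul, sg_abs, one_mul]; exact abs_le_norm v _
  -- parameter
  set t : ℝ := η / (4 * V) with ht
  have ht0 : 0 < t := div_pos hη0 (mul_pos (by norm_num) hVpos)
  have htV : t * V = η / 4 := aux_div hVpos.ne'
  set s : ℝ := if 0 < c then -t else t with hs
  have hsc : s * c = - (t * |c|) := by
    rw [hs]
    split_ifs with h
    · rw [abs_of_pos h]; ring
    · rw [abs_of_neg (lt_of_le_of_ne (not_lt.mp h) hc0)]; ring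
  have hsabs : |s| = t := by
    rw [hs]
    split_ifs
    · rw [abs_neg, abs_of_pos ht0]
    · rw [abs_of_pos ht0]
  refine ⟨s, ?_⟩
  -- lower bound for T r
  have hlow : κ ≤ ‖T φ r‖ := by
    refine le_trans ?_ (F_le_T φ r (Sum.inl (S, ε)))
    have : F φ (Sum.inl (S, ε)) r = κ := by
      simp only [F]
      have h1 : ∑ i ∈ S, sg (ε i) * r (Idx.g i) = k := by
        have : ∀ i ∈ S, sg (ε i) * r (Idx.g i) = 1 := by
          intro i hi
          rw [hε i hi]
          rcases sg_cases (ε i) with h | h <;> rw [h] <;> norm_num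
        rw [Finset.sum_congr rfl this]
        simp [hkdef]
      rw [h1, hrz, mul_zero, mul_zero, add_zero]
    rw [this]
    exact le_abs_self κ
  have hsmall : ∀ j, |F φ j (s • v)| ≤ η / 2 := by
    intro j
    rw [F_smul φ j s v, abs_mul, hsabs]
    have := F_le φ hV0 (abs_le_norm v) j
    calc t * |F φ j v| ≤ t * (11 / 10 * V) := mul_le_mul_of_nonneg_left this ht0.le
      _ = 11 / 10 * (t * V) := by ring
      _ ≤ η / 2 := by rw [htV]; linarith
  have hsplit : ∀ j, F φ j (⇑(r + s • v)) = F φ j r + F φ j (s • ⇑v) := by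
    intro j
    rw [← F_add]
    rfl
  have hcomb : ∀ j, |F φ j r| ≤ κ - η → |F φ j (⇑(r + s • v))| ≤ κ - η / 2 := by
    intro j hj
    rw [hsplit]
    refine (abs_add_le _ _).trans ?_
    have := hsmall j
    linarith
  have hr1 : ∀ i, |r (Idx.g i)| ≤ 1 := by
    intro i
    by_cases hi : i ∈ S
    · exact (hrS i hi).le
    · exact (hrS' i hi).trans (by linarith)
  have hfin : ‖T φ (r + s • v)‖ ≤ max (κ - t * |c| / 10) (κ - η / 2) := by
    refine T_le φ (le_max_of_le_right (by linarith)) (fun j => ?_)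
    rcases j with ⟨S', ε'⟩ | a
    · by_cases hSS : S' = S
      · subst hSS
        -- indices of agreement
        set A := S'.filter (fun i => ε' i = ε i) with hA
        have hsum : ∑ i ∈ S', sg (ε' i) * r (Idx.g i) = 2 * (A.card : ℝ) - k := by
          have h1 : ∀ i ∈ S', sg (ε' i) * r (Idx.g i)
              = 2 * (if ε' i = ε i then (1:ℝ) else 0) - 1 := by
            intro i hi
            rw [hε i hi]
            cases h1 : ε' i <;> cases h2 : ε i <;> simp [sg] <;> norm_num
          rw [Finset.sum_congr rfl h1, Finset.sum_sub_distrib, ← Finset.mul_sum,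
            Finset.sum_boole]
          simp [hA, hkdef]
        have hv0 : ∑ i ∈ S', sg (ε' i) * (s • ⇑v) (Idx.g i) = 0 := by
          refine Finset.sum_eq_zero (fun i hi => ?_)
          simp [hvS i hi]
        by_cases hA1 : A.card = k
        · -- full agreement
          have hall : A = S' := Finset.eq_of_subset_of_card_le (Finset.filter_subset _ _) (by omega)
          have hl : ε' (lead S') = ε (lead S') := by
            have : lead S' ∈ A := by rw [hall]; exact hlead
            exact (Finset.mem_filter.mp this).2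
          have hF : F φ (Sum.inl (S', ε')) (⇑(r + s • v)) = κ - t * |c| / 10 := by
            rw [hsplit]
            simp only [F]
            rw [hsum, hA1, hrz, hl, hv0]
            simp only [Pi.smul_apply, smul_eq_mul, mul_zero, add_zero, zero_div, zero_add]
            have e1 : 1 / 10 * (sg (ε (lead S')) * (s * v Idx.z)) = (s * c) / 10 := by
              rw [hc]; ring
            rw [e1, hsc, hκ, ← hkdef]
            ring
          rw [hF, abs_of_nonneg]
          · exact le_max_left _ _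
          · have : t * |c| ≤ η / 4 := by rw [← htV]; exact mul_le_mul_of_nonneg_left hcabs ht0.le
            linarith
        · by_cases hA0 : A.card = 0
          · -- full disagreement
            have hall : A = ∅ := Finset.card_eq_zero.mp hA0
            have hl : sg (ε' (lead S')) = - sg (ε (lead S')) := by
              have h1 : ε' (lead S') ≠ ε (lead S') := by
                intro h
                have : lead S' ∈ A := Finset.mem_filter.mpr ⟨hlead, h⟩
                rw [hall] at this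
                exact absurd this (Finset.notMem_empty _)
              revert h1
              cases ε' (lead S') <;> cases ε (lead S') <;> simp [sg]
            have hF : F φ (Sum.inl (S', ε')) (⇑(r + s • v)) = -(κ - t * |c| / 10) := by
              rw [hsplit]
              simp only [F]
              rw [hsum, hA0, hrz, hl, hv0]
              simp only [Pi.smul_apply, smul_eq_mul, mul_zero, add_zero, zero_div, zero_add]
              have e1 : 1 / 10 * (-sg (ε (lead S')) * (s * v Idx.z)) = - ((s * c) / 10) := by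
                rw [hc]; ring
              rw [e1, hsc, hκ, ← hkdef]
              push_cast
              ring
            rw [hF, abs_neg, abs_of_nonneg]
            · exact le_max_left _ _
            · have : t * |c| ≤ η / 4 := by rw [← htV]; exact mul_le_mul_of_nonneg_left hcabs ht0.le
              linarith
          · -- mixed
            refine le_trans (hcomb _ ?_) (le_max_right _ _)
            simp only [F]
            rw [hsum, hrz, mul_zero, mul_zero, add_zero, abs_div, ← hkdef,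
              abs_of_pos (show (0:ℝ) < (k:ℝ) + 1 by linarith)]
            have hAk : A.card ≤ k := Finset.card_le_card (Finset.filter_subset _ _)
            have h1 : |2 * (A.card : ℝ) - k| ≤ (k:ℝ) - 2 := by
              have h2 : (1:ℝ) ≤ A.card := by exact_mod_cast Nat.one_le_iff_ne_zero.mpr hA0
              have h3 : (A.card : ℝ) + 1 ≤ k := by exact_mod_cast (by omega : A.card + 1 ≤ k)
              rw [abs_le]
              constructor <;> linarith
            have hk1 : (0:ℝ) < (k:ℝ) + 1 := by linarith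
            have hk2 : (0:ℝ) < (k:ℝ) + 2 := by linarith
            have h4 : η ≤ 2 / ((k:ℝ) + 1) := by
              refine hη1.trans ?_
              rw [div_le_div_iff₀ (mul_pos hk1 hk2) hk1]
              nlinarith
            calc |2 * (A.card : ℝ) - k| / ((k:ℝ) + 1) ≤ ((k:ℝ) - 2) / ((k:ℝ) + 1) :=
                div_le_div_of_nonneg_right h1 hk1.le
              _ = κ - 2 / ((k:ℝ) + 1) := by rw [hκ]; ring
              _ ≤ κ - η := by linarith
      · refine le_trans (hcomb _ ?_) (le_max_right _ _)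
        refine (F_inl_le φ S' ε' _).trans ?_
        rw [hrz, abs_zero, mul_zero, add_zero]
        set a : ℕ := (S' ∩ S).card with ha
        have haj : a ≤ S'.card := Finset.card_le_card Finset.inter_subset_left
        have hak : a ≤ k := Finset.card_le_card Finset.inter_subset_right
        have hne : ¬ (a = k ∧ a = S'.card) := by
          rintro ⟨h1, h2⟩
          apply hSS
          have e1 : S' ∩ S = S := Finset.eq_of_subset_of_card_le Finset.inter_subset_right (by omega)
          have e2 : S' ∩ S = S' := Finset.eq_of_subset_of_card_le Finset.inter_subset_left (by omega)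
          rw [← e2, e1]
        have hsumle : ∑ i ∈ S', |r (Idx.g i)| ≤ (a:ℝ) + ((S'.card : ℝ) - a) * (1 - g) := by
          rw [← Finset.sum_inter_add_sum_sdiff S' S]
          have h1 : ∑ i ∈ S' ∩ S, |r (Idx.g i)| ≤ a := by
            calc ∑ i ∈ S' ∩ S, |r (Idx.g i)| ≤ ∑ _i ∈ S' ∩ S, (1:ℝ) :=
                  Finset.sum_le_sum (fun i _ => hr1 i)
              _ = a := by simp [ha]
          have hcd : ((S' \ S).card : ℝ) = (S'.card : ℝ) - a := by
            have := Finset.card_inter_add_card_sdiff S' S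
            rw [← this]
            push_cast
            rw [ha]
            ring
          have h2 : ∑ i ∈ S' \ S, |r (Idx.g i)| ≤ ((S'.card : ℝ) - a) * (1 - g) := by
            calc ∑ i ∈ S' \ S, |r (Idx.g i)| ≤ ∑ _i ∈ S' \ S, (1 - g) :=
                  Finset.sum_le_sum (fun i hi => hrS' i (Finset.mem_sdiff.mp hi).2)
              _ = ((S' \ S).card : ℝ) * (1 - g) := by rw [Finset.sum_const, nsmul_eq_mul]
              _ = _ := by rw [hcd]
          linarith
        calc (∑ i ∈ S', |r (Idx.g i)|) / ((S'.card : ℝ) + 1)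
            ≤ ((a:ℝ) + ((S'.card : ℝ) - a) * (1 - g)) / ((S'.card : ℝ) + 1) :=
              div_le_div_of_nonneg_right hsumle (by linarith [(Nat.cast_nonneg S'.card : (0:ℝ) ≤ S'.card)])
          _ ≤ κ - 1 / (((k:ℝ) + 1) * ((k:ℝ) + 2)) := count_ineq hg hak haj hne
          _ ≤ κ - η := by linarith
    · refine le_trans (hcomb _ ?_) (le_max_right _ _)
      refine (F_inr_le φ a _).trans ?_
      have h1 := hr1 a
      have h2 := hr1 (φ a)
      linarith
  refine lt_of_le_of_lt hfin (lt_of_lt_of_le (max_lt ?_ (by linarith)) hlow)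
  have : 0 < t * |c| := mul_pos ht0 (abs_pos.mpr hc0)
  linarith

/-- Facets carried by single points. -/
lemma facet_single (α : Γ) (v : C₀(Idx Γ, ℝ)) (hvα : v (Idx.g α) = 0)
    (hv : v (Idx.g (φ α)) ≠ 0) :
    ∃ s : ℝ, ‖T φ (e (Idx.g α) + s • v)‖ < ‖T φ (e (Idx.g α))‖ := by
  classical
  have hφα : φ α ≠ α := by
    intro h
    rw [h] at hv
    exact hv hvα
  set V : ℝ := ‖v‖ with hV
  have hV0 : 0 ≤ V := norm_nonneg v
  have hVpos : 0 < V := lt_of_lt_of_le (abs_pos.mpr hv) (abs_le_norm v _)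
  set c : ℝ := v (Idx.g (φ α)) with hc
  have hcabs : |c| ≤ V := abs_le_norm v _
  set t : ℝ := 1 / (40 * V) with ht
  have ht0 : 0 < t := div_pos one_pos (mul_pos (by norm_num) hVpos)
  have htV : t * V = 1 / 40 := aux_div hVpos.ne'
  set s : ℝ := if 0 < c then -t else t with hs
  have hsc : s * c = - (t * |c|) := by
    rw [hs]
    split_ifs with h
    · rw [abs_of_pos h]; ring
    · rw [abs_of_neg (lt_of_le_of_ne (not_lt.mp h) hv)]; ring
  have hsabs : |s| = t := by
    rw [hs]
    split_ifs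
    · rw [abs_neg, abs_of_pos ht0]
    · rw [abs_of_pos ht0]
  have hsmall : ∀ j, |F φ j (s • v)| ≤ 11 / 400 := by
    intro j
    rw [F_smul φ j s v, abs_mul, hsabs]
    have := F_le φ hV0 (abs_le_norm v) j
    calc t * |F φ j v| ≤ t * (11 / 10 * V) := mul_le_mul_of_nonneg_left this ht0.le
      _ = 11 / 10 * (t * V) := by ring
      _ = 11 / 400 := by rw [htV]; norm_num
  have hsplit : ∀ j, F φ j (⇑(e (Idx.g α) + s • v)) = F φ j (e (Idx.g α)) + F φ j (s • ⇑v) := by
    intro j
    rw [← F_add]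
    rfl
  have hcomb : ∀ j, |F φ j (e (Idx.g α))| ≤ 1 / 2 →
      |F φ j (⇑(e (Idx.g α) + s • v))| ≤ 11 / 20 := by
    intro j hj
    rw [hsplit]
    refine (abs_add_le _ _).trans ?_
    have := hsmall j
    linarith
  have hlow : 3 / 5 ≤ ‖T φ (e (Idx.g α))‖ := by
    refine le_trans ?_ (F_le_T φ _ (Sum.inr α))
    simp only [F]
    rw [e_self, e_ne (by intro h; exact hφα (Idx.g_injective h))]
    norm_num
  have hez : ∀ S : Finset Γ, ∑ i ∈ S, |e (Idx.g α) (Idx.g i)| ≤ 1 := by
    intro S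
    by_cases hα : α ∈ S
    · rw [Finset.sum_eq_single α]
      · rw [e_self, abs_one]
      · intro b _ hb
        rw [e_ne (fun h => hb (Idx.g_injective h)), abs_zero]
      · intro h; exact absurd hα h
    · rw [Finset.sum_eq_zero]
      · exact zero_le_one
      · intro b hb
        rw [e_ne (fun h => hα (by rw [← Idx.g_injective h]; exact hb)), abs_zero]
  have hez0 : ∀ S : Finset Γ, S.card = 0 → ∑ i ∈ S, |e (Idx.g α) (Idx.g i)| = 0 := by
    intro S hS
    rw [Finset.card_eq_zero.mp hS, Finset.sum_empty]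
  have hfin : ‖T φ (e (Idx.g α) + s • v)‖ ≤ max (3 / 5 - 3 / 100 * (t * |c|)) (11 / 20) := by
    refine T_le φ (le_max_of_le_right (by norm_num)) (fun j => ?_)
    rcases j with ⟨S', ε'⟩ | a
    · refine le_trans (hcomb _ ?_) (le_max_right _ _)
      refine (F_inl_le φ S' ε' _).trans ?_
      rw [e_ne (β := Idx.g α) (i := Idx.z) (by intro h; cases h), abs_zero, mul_zero, add_zero]
      rcases Nat.eq_zero_or_pos S'.card with h0 | h0
      · rw [hez0 S' h0]; norm_num
      · have h1 : (1:ℝ) ≤ S'.card := by exact_mod_cast h0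
        rw [div_le_div_iff₀ (by positivity) (by norm_num)]
        have := hez S'
        linarith
    · by_cases ha : a = α
      · subst ha
        have hF : F φ (Sum.inr a) (⇑(e (Idx.g a) + s • v)) = 3 / 5 - 3 / 100 * (t * |c|) := by
          rw [hsplit]
          simp only [F]
          rw [e_self, e_ne (by intro h; exact hφα (Idx.g_injective h))]
          simp only [Pi.smul_apply, smul_eq_mul, hvα, mul_zero, add_zero, zero_add, mul_one]
          rw [← hc, hsc]
          ring
        rw [hF, abs_of_nonneg]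
        · exact le_max_left _ _
        · have : t * |c| ≤ 1 / 40 := by rw [← htV]; exact mul_le_mul_of_nonneg_left hcabs ht0.le
          linarith
      · refine le_trans (hcomb _ ?_) (le_max_right _ _)
        refine (F_inr_le φ a _).trans ?_
        rw [e_ne (fun h => ha (Idx.g_injective h)), abs_zero, mul_zero, zero_add]
        have : |e (Idx.g α) (Idx.g (φ a))| ≤ 1 := by
          by_cases h : Idx.g (φ a) = Idx.g α
          · rw [h, e_self, abs_one]
          · rw [e_ne h, abs_zero]; exact zero_le_one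
        linarith
  refine ⟨s, lt_of_le_of_lt hfin (lt_of_lt_of_le (max_lt ?_ (by norm_num)) hlow)⟩
  have : 0 < t * |c| := mul_pos ht0 (abs_pos.mpr hv)
  linarith

/-! ### Big projections -/

/-- `P` is big if its fixed space contains nonzero vectors vanishing on any given countable set. -/
def Big (P : C₀(Idx Γ, ℝ) →L[ℝ] C₀(Idx Γ, ℝ)) : Prop :=
  ∀ C : Set (Idx Γ), C.Countable → ∃ r, P r = r ∧ r ≠ 0 ∧ ∀ i ∈ C, r i = 0

omit [Nonempty Γ] in
lemma not_big {P : C₀(Idx Γ, ℝ) →L[ℝ] C₀(Idx Γ, ℝ)} (hP : ∀ x, P (P x) = P x)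
    (h : ¬ Big P) : ∃ D : Set (Idx Γ), D.Countable ∧ ∀ β, β ∉ D → P (e β) = 0 := by
  unfold Big at h
  push Not at h
  obtain ⟨C, hC, hCr⟩ := h
  refine ⟨⋃ i ∈ C, {β | ((ev i).comp P) (e β) ≠ 0},
    hC.biUnion (fun i _ => countable_functional _), fun β hβ => ?_⟩
  by_contra hne
  obtain ⟨i, hi, hi'⟩ := hCr (P (e β)) (hP _) hne
  apply hβ
  simp only [Set.mem_iUnion]
  exact ⟨i, hi, hi'⟩

omit [Nonempty Γ] in
lemma exists_gap (x : C₀(Idx Γ, ℝ)) (hx : ‖x‖ = 1) :
    ∃ n : ℕ, (∀ i, |x i| = 1 ∨ |x i| ≤ 1 - 1 / ((n:ℝ) + 1)) ∧ ∃ i, |x i| = 1 := by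
  classical
  have hfin := fin_level x (ε := 1 / 2) (by norm_num)
  have hgen : ∀ A : Finset (Idx Γ), ∃ g : ℝ, 0 < g ∧ ∀ i ∈ A, |x i| < 1 → |x i| ≤ 1 - g := by
    intro A
    induction A using Finset.induction_on with
    | empty => exact ⟨1, one_pos, fun i hi => absurd hi (Finset.notMem_empty _)⟩
    | insert a A ha ih =>
      obtain ⟨g, hg, hA⟩ := ih
      by_cases h : |x a| < 1
      · refine ⟨min g (1 - |x a|), lt_min hg (by linarith), fun i hi hlt => ?_⟩
        rcases Finset.mem_insert.mp hi with rfl | hi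
        · have := min_le_right g (1 - |x i|)
          linarith
        · have := min_le_left g (1 - |x a|)
          have := hA i hi hlt
          linarith
      · refine ⟨g, hg, fun i hi hlt => ?_⟩
        rcases Finset.mem_insert.mp hi with rfl | hi
        · exact absurd hlt h
        · exact hA i hi hlt
  obtain ⟨g, hg, hA⟩ := hgen hfin.toFinset
  obtain ⟨n, hn⟩ := exists_nat_one_div_lt (lt_min hg (show (0:ℝ) < 1 / 2 by norm_num))
  have h1 : (1:ℝ) / (n + 1) < g := lt_of_lt_of_le hn (min_le_left _ _)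
  have h2 : (1:ℝ) / (n + 1) < 1 / 2 := lt_of_lt_of_le hn (min_le_right _ _)
  have h3 : (0:ℝ) < 1 / ((n:ℝ) + 1) := by positivity
  have hall : ∀ i, |x i| = 1 ∨ |x i| ≤ 1 - 1 / ((n:ℝ) + 1) := by
    intro i
    have hle : |x i| ≤ 1 := hx ▸ abs_le_norm x i
    rcases eq_or_lt_of_le hle with h | h
    · exact Or.inl h
    · right
      by_cases hi : 1 / 2 ≤ |x i|
      · have := hA i (hfin.mem_toFinset.mpr hi) h
        linarith
      · push Not at hi
        linarith
  refine ⟨n, hall, ?_⟩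
  by_contra hno
  push Not at hno
  have hlt : ‖x‖ ≤ 1 - 1 / ((n:ℝ) + 1) := by
    refine norm_le_of (by linarith) (fun i => ?_)
    rcases hall i with h | h
    · exact absurd h (hno i)
    · exact h
  linarith

omit [Nonempty Γ] in
lemma big_gap {P : C₀(Idx Γ, ℝ) →L[ℝ] C₀(Idx Γ, ℝ)} (hB : Big P) :
    ∃ g : ℝ, 0 < g ∧ g ≤ 1 ∧ ∀ C : Set (Idx Γ), C.Countable →
      ∃ r, P r = r ∧ (∀ i ∈ C, r i = 0) ∧ (∀ i, |r i| = 1 ∨ |r i| ≤ 1 - g) ∧ ∃ i, |r i| = 1 := by
  by_contra hcon
  push Not at hcon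
  have hch : ∀ n : ℕ, ∃ C : Set (Idx Γ), C.Countable ∧ ∀ r, P r = r → (∀ i ∈ C, r i = 0) →
      (∀ i, |r i| = 1 ∨ |r i| ≤ 1 - 1 / ((n:ℝ) + 1)) → ∀ i, |r i| ≠ 1 := by
    intro n
    refine hcon (1 / ((n:ℝ) + 1)) (by positivity) ?_
    rw [div_le_one (by positivity)]
    have : (0:ℝ) ≤ n := Nat.cast_nonneg n
    linarith
  choose C hC hCr using hch
  obtain ⟨r, hr, hr0, hrC⟩ := hB (⋃ n, C n) (Set.countable_iUnion hC)
  have hnr : ‖r‖ ≠ 0 := norm_ne_zero_iff.mpr hr0
  set x : C₀(Idx Γ, ℝ) := ‖r‖⁻¹ • r with hx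
  have hxn : ‖x‖ = 1 := by
    rw [hx, norm_smul, norm_inv, norm_norm, inv_mul_cancel₀ hnr]
  obtain ⟨n, hn, i, hi⟩ := exists_gap x hxn
  refine hCr n x ?_ ?_ hn i hi
  · rw [hx, map_smul, hr]
  · intro j hj
    have : r j = 0 := hrC j (Set.mem_iUnion.mpr ⟨n, hj⟩)
    rw [hx, ZeroAtInftyContinuousMap.smul_apply, this, smul_zero]

omit [Nonempty Γ] in
lemma build {P : C₀(Idx Γ, ℝ) →L[ℝ] C₀(Idx Γ, ℝ)} {g : ℝ} (hg1 : g ≤ 1)
    (hg : ∀ C : Set (Idx Γ), C.Countable →
      ∃ r, P r = r ∧ (∀ i ∈ C, r i = 0) ∧ (∀ i, |r i| = 1 ∨ |r i| ≤ 1 - g) ∧ ∃ i, |r i| = 1)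
    (k : ℕ) : ∀ C : Set (Idx Γ), C.Countable →
      ∃ r, P r = r ∧ (∀ i ∈ C, r i = 0) ∧ (∀ i, |r i| = 1 ∨ |r i| ≤ 1 - g) ∧
        ∃ S : Finset (Idx Γ), k ≤ S.card ∧ ∀ i ∈ S, |r i| = 1 := by
  classical
  induction k with
  | zero =>
    intro C _
    refine ⟨0, map_zero P, fun i _ => rfl, fun i => ?_, ∅, by simp, by simp⟩
    right
    simp only [ZeroAtInftyContinuousMap.zero_apply, abs_zero]
    linarith
  | succ k ih =>
    intro C hC
    obtain ⟨r, hr, hrC, hrg, S, hSk, hS⟩ := ih C hC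
    obtain ⟨r', hr', hrC', hrg', i', hi'⟩ := hg (C ∪ {i | r i ≠ 0}) (hC.union (supp_countable r))
    have hdis : ∀ i, r i ≠ 0 → r' i = 0 := fun i hi => hrC' i (Or.inr hi)
    have hi'S : i' ∉ S := by
      intro h
      have h1 : r i' ≠ 0 := by
        intro h0
        have := hS i' h
        rw [h0, abs_zero] at this
        exact zero_ne_one this
      rw [hdis i' h1, abs_zero] at hi'
      exact zero_ne_one hi'
    refine ⟨r + r', by rw [map_add, hr, hr'], ?_, ?_, insert i' S, ?_, ?_⟩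
    · intro i hi
      rw [ZeroAtInftyContinuousMap.add_apply, hrC i hi, hrC' i (Or.inl hi), add_zero]
    · intro i
      rw [ZeroAtInftyContinuousMap.add_apply]
      by_cases h : r i = 0
      · rw [h, zero_add]; exact hrg' i
      · rw [hdis i h, add_zero]; exact hrg i
    · rw [Finset.card_insert_of_notMem hi'S]; omega
    · intro i hi
      rw [ZeroAtInftyContinuousMap.add_apply]
      rcases Finset.mem_insert.mp hi with rfl | hi
      · have : r i = 0 := by
          by_contra h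
          rw [hdis i h, abs_zero] at hi'
          exact zero_ne_one hi'
        rw [this, zero_add]; exact hi'
      · have : r i ≠ 0 := by
          intro h0
          have := hS i hi
          rw [h0, abs_zero] at this
          exact zero_ne_one this
        rw [hdis i this, add_zero]; exact hS i hi

/-- The kernel of a big norm-one projection lies in the hyperplane `x z = 0`. -/
lemma ker_big {P : C₀(Idx Γ, ℝ) →L[ℝ] C₀(Idx Γ, ℝ)} (hB : Big P)
    (hN : ∀ x, ‖T φ (P x)‖ ≤ ‖T φ x‖) {v : C₀(Idx Γ, ℝ)} (hv : P v = 0) : v Idx.z = 0 := by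
  classical
  by_contra hvz
  obtain ⟨g, hg0, hg1, hg⟩ := big_gap hB
  obtain ⟨m, hm⟩ := exists_nat_gt (2 / g)
  obtain ⟨r, hr, hrC, hrg, S₀, hS₀k, hS₀⟩ := build hg1 hg (m + 2) ({Idx.z} ∪ {i | v i ≠ 0})
    ((Set.countable_singleton _).union (supp_countable v))
  have hrz : r Idx.z = 0 := hrC _ (Or.inl rfl)
  have hfin : {a : Γ | 1 ≤ |r (Idx.g a)|}.Finite := by
    have h := Set.Finite.preimage (f := (Idx.g : Γ → Idx Γ)) Idx.g_injective.injOn
      (fin_level r one_pos)
    exact h
  set S : Finset Γ := hfin.toFinset with hS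
  have hSr : ∀ i ∈ S, |r (Idx.g i)| = 1 := by
    intro i hi
    have h1 : 1 ≤ |r (Idx.g i)| := by simpa [hS] using hi
    rcases hrg (Idx.g i) with h | h
    · exact h
    · linarith
  have hSr' : ∀ i ∉ S, |r (Idx.g i)| ≤ 1 - g := by
    intro i hi
    have h1 : ¬ 1 ≤ |r (Idx.g i)| := by simpa [hS] using hi
    rcases hrg (Idx.g i) with h | h
    · exact absurd h.ge h1
    · exact h
  have hsub : S₀ ⊆ S.image Idx.g := by
    intro i hi
    have h1 := hS₀ i hi
    rcases i with _ | a
    · rw [hrz, abs_zero] at h1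
      exact absurd h1 zero_ne_one
    · refine Finset.mem_image.mpr ⟨a, ?_, rfl⟩
      simpa [hS] using h1.ge
  have hcard : m + 2 ≤ S.card :=
    hS₀k.trans ((Finset.card_le_card hsub).trans Finset.card_image_le)
  have hcR : (m:ℝ) + 2 ≤ S.card := by exact_mod_cast hcard
  have hgk : 2 ≤ ((S.card : ℝ) + 1) * g := by
    rw [div_lt_iff₀ hg0] at hm
    nlinarith
  obtain ⟨s, hs⟩ := facet_set φ r v S g (by omega) hgk hrz hSr hSr'
    (fun i hi => by
      by_contra h
      have h0 : r (Idx.g i) = 0 := hrC _ (Or.inr h)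
      have := hSr i hi
      rw [h0, abs_zero] at this
      exact zero_ne_one this) hvz
  have h1 := hN (r + s • v)
  rw [map_add, map_smul, hv, smul_zero, add_zero, hr] at h1
  linarith

/-- There is no normal Schauder decomposition of `c₀` for the norm `‖T φ ·‖`. -/
theorem no_normal (hφ : ∀ γ : Γ, ¬ (φ ⁻¹' {γ}).Countable)
    (P : ℕ → C₀(Idx Γ, ℝ) →L[ℝ] C₀(Idx Γ, ℝ))
    (h0 : ∀ n, P n ≠ 0)
    (horth : ∀ n m x, P n (P m x) = if n = m then P n x else 0)
    (hsum : ∀ x, Tendsto (fun N => ∑ n ∈ Finset.range N, P n x) atTop (𝓝 x))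
    (hN : ∀ n x, ‖T φ (P n x)‖ ≤ ‖T φ x‖) : False := by
  classical
  have hidem : ∀ n x, P n (P n x) = P n x := by
    intro n x
    rw [horth, if_pos rfl]
  have hΓ : ¬ (Set.univ : Set Γ).Countable := fun h =>
    hφ (Classical.arbitrary Γ) (h.mono (Set.subset_univ _))
  -- at most one big projection
  have huniq : ∀ n m, n ≠ m → Big (P n) → Big (P m) → False := by
    intro n m hnm hn hm
    have hz : ∀ x : C₀(Idx Γ, ℝ), x Idx.z = 0 := by
      intro x
      have h1 : (x - P n x) Idx.z = 0 := ker_big φ hn (hN n) (by rw [map_sub, hidem, sub_self])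
      have h2 : (P n x) Idx.z = 0 := ker_big φ hm (hN m) (by rw [horth, if_neg hnm.symm])
      rw [ZeroAtInftyContinuousMap.sub_apply, h2, sub_zero] at h1
      exact h1
    have := hz (e Idx.z)
    rw [e_self] at this
    exact one_ne_zero this
  -- the small ones
  have hsmall : ∀ n, ¬ Big (P n) → ∃ D : Set (Idx Γ), D.Countable ∧ ∀ β, β ∉ D → P n (e β) = 0 :=
    fun n hn => not_big (hidem n) hn
  have hsmall' : ∀ n, ∃ D : Set (Idx Γ), D.Countable ∧
      (¬ Big (P n) → ∀ β, β ∉ D → P n (e β) = 0) := by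
    intro n
    by_cases h : Big (P n)
    · exact ⟨∅, Set.countable_empty, fun h' => absurd h h'⟩
    · obtain ⟨D, hD, hD'⟩ := hsmall n h
      exact ⟨D, hD, fun _ => hD'⟩
  choose D hD hD' using hsmall'
  have hDu : (⋃ n, D n).Countable := Set.countable_iUnion hD
  -- some projection is big
  have hex : ∃ n, Big (P n) := by
    by_contra hno
    push Not at hno
    have : ∃ α : Γ, Idx.g α ∉ ⋃ n, D n := by
      by_contra hcon
      push Not at hcon
      refine hΓ ?_
      have h1 : (Idx.g ⁻¹' (⋃ n, D n) : Set Γ).Countable :=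
        hDu.preimage Idx.g_injective
      exact h1.mono (fun α _ => hcon α)
    obtain ⟨α, hα⟩ := this
    have hzero : ∀ n, P n (e (Idx.g α)) = 0 := fun n =>
      hD' n (hno n) _ (fun h => hα (Set.mem_iUnion.mpr ⟨n, h⟩))
    have h1 := hsum (e (Idx.g α))
    simp only [hzero, Finset.sum_const_zero] at h1
    exact e_ne_zero _ (tendsto_nhds_unique h1 tendsto_const_nhds)
  obtain ⟨n, hn⟩ := hex
  have hothers : ∀ m, m ≠ n → ¬ Big (P m) := fun m hm hb => huniq m n hm hb hn
  have hfix : ∀ β, β ∉ (⋃ m, D m) → P n (e β) = e β := by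
    intro β hβ
    have hzero : ∀ m, m ≠ n → P m (e β) = 0 := fun m hm =>
      hD' m (hothers m hm) _ (fun h => hβ (Set.mem_iUnion.mpr ⟨m, h⟩))
    have h1 := hsum (e β)
    have h2 : Tendsto (fun N => ∑ m ∈ Finset.range N, P m (e β)) atTop (𝓝 (P n (e β))) := by
      refine tendsto_const_nhds.congr' ?_
      filter_upwards [eventually_ge_atTop (n + 1)] with N hN
      rw [Finset.sum_eq_single n (fun m _ hm => hzero m hm)
        (fun h => absurd (Finset.mem_range.mpr (by omega)) h)]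
    exact tendsto_nhds_unique h2 h1
  -- a nonzero vector in another block
  obtain ⟨x, hx⟩ : ∃ x, P (n + 1) x ≠ 0 := by
    by_contra hcon
    push Not at hcon
    exact h0 (n + 1) (ContinuousLinearMap.ext hcon)
  set v := P (n + 1) x with hvdef
  have hPv : P n v = 0 := by
    rw [hvdef, horth, if_neg (by omega)]
  have hvz : v Idx.z = 0 := ker_big φ hn (hN n) hPv
  obtain ⟨γ, hγ⟩ : ∃ γ : Γ, v (Idx.g γ) ≠ 0 := by
    by_contra hcon
    push Not at hcon
    apply hx
    ext i
    rcases i with _ | a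
    · exact hvz
    · exact hcon a
  obtain ⟨α, hα1, hα2⟩ : ∃ α : Γ, φ α = γ ∧ Idx.g α ∉ (⋃ m, D m) ∪ {i | v i ≠ 0} := by
    by_contra hcon
    push Not at hcon
    refine hφ γ ?_
    have h1 : (Idx.g ⁻¹' ((⋃ m, D m) ∪ {i | v i ≠ 0}) : Set Γ).Countable :=
      (hDu.union (supp_countable v)).preimage Idx.g_injective
    exact h1.mono (fun α hα => hcon α hα)
  have hvα : v (Idx.g α) = 0 := by
    by_contra h
    exact hα2 (Or.inr h)
  obtain ⟨s, hs⟩ := facet_single φ α v hvα (by rw [hα1]; exact hγ)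
  have h1 := hN n (e (Idx.g α) + s • v)
  rw [map_add, map_smul, hPv, smul_zero, add_zero,
    hfix _ (fun h => hα2 (Or.inl h))] at h1
  linarith

end Pool.Agent.Helper41.NormalDec
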